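import Pool.Graph.R_pool_sql_team_seeded_f0cf7b00.H604R2.SW.Props

/-!
# MP_72ffec_pr: the Gaussian soft-max inequality and the regular simplex (definitions)

`B = bf`, `Φ = B' = ph`, `K = -B'' = kr` as functions of `y = ∑ exp x_i > 0`.
-/

set_option autoImplicit false

namespace Pool.Agent.H92.SM

open MeasureTheory Matrix Finset Filter Topology Set ProbabilityTheory
open scoped BigOperators
open Pool.Agent.H604R2.SW

/-- `B y = (log y + 1)^2` for `y ≥ 1`, `2 y - 1` for `y < 1`. -/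
noncomputable def bf (y : ℝ) : ℝ := if 1 ≤ y then (Real.log y + 1) ^ 2 else 2 * y - 1

/-- `Φ = B'`. -/
noncomputable def ph (y : ℝ) : ℝ := if 1 ≤ y then 2 * (Real.log y + 1) / y else 2

/-- `K = -B''`. -/
noncomputable def kr (y : ℝ) : ℝ := if 1 ≤ y then 2 * Real.log y / y ^ 2 else 0

/-- `∑ exp (x i)`. -/
noncomputable def sE {ι : Type} [Fintype ι] (x : ι → ℝ) : ℝ := ∑ i, Real.exp (x i)

section
variable {ι : Type} [Fintype ι] [DecidableEq ι]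

/-- `E B (∑ exp x_i)` for the Gaussian density with covariance `C`. -/
noncomputable def Jf (C : Matrix ι ι ℝ) : ℝ := ∫ x : ι → ℝ, bf (sE x) * dens C x

/-- `- E ∂_k ∂_l B (∑ exp x_i)` (for `k ≠ l`). -/
noncomputable def Tf (C : Matrix ι ι ℝ) (k l : ι) : ℝ :=
  ∫ x : ι → ℝ, kr (sE x) * Real.exp (x k + x l) * dens C x

end

section
variable {n : ℕ}

/-- `D w = dens C (w 0, w 0, w 1, w 2, ...)`. -/
noncomputable def Dd (C : Matrix (Fin (n + 2)) (Fin (n + 2)) ℝ) (w : Fin (n + 1) → ℝ) : ℝ :=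
  dens C (vec (w 0) (w 0) (fun j => w j.succ))

/-- The point `(w 0 + t, w 0 - t, w 1 + t κ 0, w 2 + t κ 1, ...)`. -/
noncomputable def pt (C : Matrix (Fin (n + 2)) (Fin (n + 2)) ℝ) (t : ℝ)
    (w : Fin (n + 1) → ℝ) : Fin (n + 2) → ℝ :=
  vec (w 0 + t) (w 0 - t) (fun j => w j.succ + t * kap C j)

/-- `2 exp (v 0)`, `exp (v 1)`, `exp (v 2)`, ... -/
noncomputable def ys (v : Fin (n + 1) → ℝ) (k : Fin (n + 1)) : ℝ :=
  (if k = 0 then 2 else 1) * Real.exp (v k)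

/-- `Y v = 2 exp (v 0) + exp (v 1) + ...`. -/
noncomputable def Yg (v : Fin (n + 1) → ℝ) : ℝ := ∑ k, ys v k

/-- `G γ = ∫ D(w) e^{w 0} Φ (Y (w + γ)) dw`. -/
noncomputable def Gf (D : (Fin (n + 1) → ℝ) → ℝ) (γ : Fin (n + 1) → ℝ) : ℝ :=
  ∫ w : Fin (n + 1) → ℝ, D w * Real.exp (w 0) * ph (Yg (w + γ))

/-- `G_k γ = ∫ D(w) e^{w 0} K (Y (w + γ)) y_k (w + γ) dw = - ∂_k G`. -/
noncomputable def Gk (D : (Fin (n + 1) → ℝ) → ℝ) (γ : Fin (n + 1) → ℝ) (k : Fin (n + 1)) : ℝ :=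
  ∫ w : Fin (n + 1) → ℝ, D w * Real.exp (w 0) * (kr (Yg (w + γ)) * ys (w + γ) k)

/-- Hypotheses on the base density `D`. -/
structure HD (D : (Fin (n + 1) → ℝ) → ℝ) : Prop where
  cont : Continuous D
  pos : ∀ w, 0 < D w
  bound : ∃ M c : ℝ, 0 < M ∧ 0 < c ∧ ∀ w, D w ≤ M * Real.exp (-c * ∑ i, w i ^ 2)
  logc : ∀ w w' : Fin (n + 1) → ℝ, ∀ ε : ℝ, 0 < ε → ε < 1 →
    D w ^ (1 - ε) * D w' ^ ε ≤ D ((1 - ε) • w + ε • w')

/-- `log cosh`. -/
noncomputable def lc (t : ℝ) : ℝ := Real.log (Real.cosh t)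

/-- The curve `γ(t) = (log cosh t, t κ 0, t κ 1, ...)`. -/
noncomputable def gam (C : Matrix (Fin (n + 2)) (Fin (n + 2)) ℝ) (t : ℝ) : Fin (n + 1) → ℝ :=
  Matrix.vecCons (lc t) (fun j => t * kap C j)

end

/-- Bregman divergence of `log cosh`: `κ(t,u) = lc u - lc t - (u - t) tanh t ≥ 0`. -/
noncomputable def Kp (t u : ℝ) : ℝ := lc u - lc t - (u - t) * Real.tanh t

noncomputable def Pf (f t u : ℝ) : ℝ := Real.sinh (t - f) ^ 2 / (Real.cosh t * Kp t u)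

noncomputable def Ef (f t u : ℝ) : ℝ := Real.sinh (t - 2 * f) + (u - t) * Pf f t u

/-- `∂Ef/∂t` -/
noncomputable def E1 (f t u : ℝ) : ℝ :=
  Real.cosh (t - 2 * f) - Pf f t u + (u - t) *
    ((2 * Real.sinh (t - f) * Real.cosh (t - f) / Real.cosh t -
        Real.sinh (t - f) ^ 2 * Real.sinh t / Real.cosh t ^ 2) / Kp t u +
      Pf f t u * ((u - t) / Real.cosh t ^ 2) / Kp t u)

/-- `∂Ef/∂u` -/
noncomputable def E2 (f t u : ℝ) : ℝ := -(Pf f t u * Kp u t / Kp t u)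

end Pool.Agent.H92.SM
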