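import Pool.Agent.H92.SM.Defs

/-!
# MP_72ffec_pr: statements of the steps

Every `St_X : Prop` is one task; its docstring contains a complete paper proof.  In your file
`import Pool.Agent.H92.SM.Props` (and whatever you need from the library project
`Pool.Graph.R_pool_sql_team_seeded_f0cf7b00.H604R2.SW.T_*`, all of which is proved there:
`dom : St_dom` (locally uniform Gaussian domination of densities), `int_ dom : St_int`,
`cont_ dom : St_cont`, `plackett dom f_int plpt : St_plackett`, `line : St_line`,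
`relabel : St_relabel`, `law : St_law`, `mix law : St_mix`, `K1 .. K4`, `O1`, `O2`, `OP ..`,
`plaux.dens_logconcave`; the general Prekopa-Leindler inequality is
`Pool.Agent.H212R2.KLS.PL` in `Pool.Graph.R_seed8.H212R2.KLS.T1`) and prove
`theorem X (hypotheses St_Y ...) : St_X`.
-/

set_option autoImplicit false

namespace Pool.Agent.H92.SM

open MeasureTheory Matrix Finset Filter Topology Set ProbabilityTheory
open scoped BigOperators
open Pool.Agent.H604R2.SW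

/-! ## A. The functions `B`, `Φ = B'`, `K = -B''` -/

/-- [FUN] Elementary facts.
Proof.  `bf`, `ph`, `kr` are glued at `y = 1` from functions which agree there (`1`, `2`, `0`),
so the derivative formulas hold at `y = 1` by comparing one-sided derivatives
(`HasDerivWithinAt.union`/`hasDerivWithinAt_Iio_iff..`; the derivative of `(log y + 1)^2` is
`2 (log y + 1) / y`, that of `2 (log y + 1) / y` is `- 2 log y / y^2`).
Bounds: for `y ≥ 1`: `log y + 1 ≤ y`, so `ph y ≤ 2`; `2 log y ≤ y` (as `log y ≤ y / e`, e.g. from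
`log (y/2) ≤ y/2 - 1`: `log y ≤ y/2 - 1 + log 2 ≤ y / 2`), so `y * kr y = 2 log y / y ≤ 1`.
`(log y + 1)^2 ≤ 2 y - 1 + (log y)^2` for `0 < y < 1` is `log y + 1 ≤ y`.
`ph` is antitone since `ph' = - kr ≤ 0`.  Log-concavity: `h v = log (ph (exp v))` is `log 2` for
`v ≤ 0` and `log 2 + log (v + 1) - v` for `v ≥ 0`; its derivative is `0` for `v ≤ 0` and
`- v / (1 + v)` for `v ≥ 0`, an antitone function, so `h` is concave (`AntitoneOn.concaveOn_of_deriv`);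
apply this to `v = log y`, `v' = log y'`. -/
def St_fun : Prop :=
  (∀ y, 0 < y → HasDerivAt bf (ph y) y) ∧
  (∀ y, 0 < y → HasDerivAt ph (-kr y) y) ∧
  (∀ y, 0 < y → 0 < ph y ∧ ph y ≤ 2 ∧ y * ph y ≤ 2 + 2 * |Real.log y|) ∧
  (∀ y, 0 < y → 0 ≤ kr y ∧ y * kr y ≤ 1 ∧ y ^ 2 * kr y ≤ 2 * |Real.log y|) ∧
  (∀ y, 1 < y → 0 < kr y) ∧
  ContinuousOn bf (Ioi 0) ∧ ContinuousOn ph (Ioi 0) ∧ ContinuousOn kr (Ioi 0) ∧
  (∀ y, 0 < y → |bf y| ≤ (1 + |Real.log y|) ^ 2) ∧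
  (∀ y, 0 < y → (Real.log y + 1) ^ 2 ≤ bf y + (min (Real.log y) 0) ^ 2) ∧
  (∀ y y', 0 < y → y ≤ y' → ph y' ≤ ph y) ∧
  (∀ y y' ε : ℝ, 0 < y → 0 < y' → 0 < ε → ε < 1 →
    ph y ^ (1 - ε) * ph y' ^ ε ≤ ph (y ^ (1 - ε) * y' ^ ε)) ∧
  Measurable bf ∧ Measurable ph ∧ Measurable kr

/-- [SE] `sE x = ∑ exp (x i)`: positivity, `exp (x k) ≤ sE x`, and
`|log (sE x)| ≤ card ι + ∑ |x i|` (from `exp (x k) ≤ sE x ≤ card ι * exp (∑ |x i|)` and
`log (card ι) ≤ card ι`). -/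
def St_sE : Prop := ∀ {ι : Type} [Fintype ι] [Nonempty ι] (x : ι → ℝ),
  0 < sE x ∧ (∀ k, Real.exp (x k) ≤ sE x) ∧
    |Real.log (sE x)| ≤ (Fintype.card ι : ℝ) + ∑ i, |x i|

/-! ## B. Calculus of `Jf`, `Tf` -/

/-- [JC] Continuity of `Jf` on positive definite matrices.
Proof: dominated convergence, exactly as `SW.cont_` (file `T_cont`), with the additional factor
`bf (sE x)`, `|bf (sE x)| ≤ (1 + card + ∑|x i|)^2` (FUN, SE). -/
def St_JC : Prop := ∀ {ι : Type} [Fintype ι] [DecidableEq ι] [Nonempty ι],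
  ContinuousOn (fun C : Matrix ι ι ℝ => Jf C) {C | C.PosDef}

/-- [JP1] Differentiation of `Jf` in the covariance.
Proof: as `SW.plackett` (file `T_plackett`) with the additional factor `bf (sE x)`,
`|bf (sE x)| ≤ (1 + card + ∑|x i|)^2` (FUN, SE): differentiation under the integral, domination by
`St_dom`, pointwise derivative `St_plpt` (theorem `plpt`).  Includes the integrability. -/
def St_JP1 : Prop := ∀ {ι : Type} [Fintype ι] [DecidableEq ι] [Nonempty ι] (C A : Matrix ι ι ℝ),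
  C.PosDef → A.IsHermitian →
  (∀ k l, Integrable (fun x : ι → ℝ => bf (sE x) * dens2 C k l x)) ∧
  HasDerivAt (fun s : ℝ => Jf (C + s • A))
    (1 / 2 * ∑ k, ∑ l, A k l * ∫ x : ι → ℝ, bf (sE x) * dens2 C k l x) 0

/-- [JP2] Two integrations by parts.
Proof: Mathlib's `integral_bilinear_hasLineDerivAt_right_eq_neg_left_of_integrable` (file
`Mathlib/Analysis/Calculus/LineDeriv/IntegrationByParts.lean`) with `B = ContinuousLinearMap.mul`:
the derivative of `dens1 C k` in direction `Pi.single l 1` is `dens2 C k l`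
(careful: `SW.line` gives `dens2 C l' k`; `dens2` is symmetric), that of `dens C` in direction `k`
is `dens1 C k` (`SW.line`), that of `bf (sE x)` in direction `l` is `ph (sE x) * exp (x l)`, and that
of `ph (sE x) * exp (x l)` in direction `k ≠ l` is `- kr (sE x) * exp (x k + x l)` (FUN).
`∫ bf * dens2 C k l = - ∫ ph (sE x) exp (x l) * dens1 C k x = ∫ (- kr (sE x) exp (x k + x l)) * dens C x`.
Bounds for the integrability: `|ph (sE x) * exp (x l)| ≤ 2 + 2 |log (sE x)|`,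
`kr (sE x) * exp (x k + x l) ≤ 2 |log (sE x)|`, `|bf (sE x)| ≤ (1 + |log (sE x)|)^2`,
`|log (sE x)| ≤ card + ∑|x i|` times the Gaussian bounds of `St_dom` (see `int_gauss` in `T_int`). -/
def St_JP2 : Prop := ∀ {ι : Type} [Fintype ι] [DecidableEq ι] [Nonempty ι] (C : Matrix ι ι ℝ),
  C.PosDef → ∀ k l, k ≠ l → ∫ x : ι → ℝ, bf (sE x) * dens2 C k l x = -Tf C k l

/-- [JP] Plackett's identity for `Jf` (from [JP1], [JP2]). -/
def St_JP : Prop := ∀ {ι : Type} [Fintype ι] [DecidableEq ι] [Nonempty ι] (C A : Matrix ι ι ℝ),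
  C.PosDef → A.IsHermitian → (∀ k, A k k = 0) →
  HasDerivAt (fun s : ℝ => Jf (C + s • A)) (-(1 / 2 * ∑ k, ∑ l, A k l * Tf C k l)) 0

/-- [TP] Positivity, symmetry, relabelling of `Tf`.
Proof: the integrand is continuous, `≥ 0` and `> 0` where `sE x > 1`, and integrable by
`y^2 kr y ≤ 2 |log y|`, `exp (x k + x l) ≤ (sE x)^2` and `St_dom`.  Relabelling as in
`SW.relabel` (file `T_relabel`, with `relabel_dens` and without the set `Neg`). -/
def St_TP : Prop := ∀ {ι : Type} [Fintype ι] [DecidableEq ι] [Nonempty ι] (C : Matrix ι ι ℝ),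
  C.PosDef → (∀ k l, 0 < Tf C k l) ∧ (∀ k l, Tf C k l = Tf C l k) ∧
    ∀ (σ : Equiv.Perm ι) (k l : ι), Tf (C.submatrix σ σ) k l = Tf C (σ k) (σ l)

/-- [D1] The density along the direction `v = (1, -1, κ)`.
Proof: `d = C 0 0 - C 0 1 > 0` because `(e0 - e1) ⬝ C (e0 - e1) = 2 d > 0`;
`v = (1/d) • C *ᵥ (e0 - e1)` (here `C 0 0 = C 1 1` is used), `pt C t w = x + t • v` with
`x = (w 0, w 0, w 1, ..)`, `C⁻¹ *ᵥ v = (1/d) • (e0 - e1)`, `x ⬝ (e0 - e1) = 0`,
`v ⬝ C⁻¹ v = (v 0 - v 1)/d = 2/d` (compare `SW.refl_` in `T_refl`). -/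
def St_D1 : Prop := ∀ {n : ℕ} (C : Matrix (Fin (n + 2)) (Fin (n + 2)) ℝ), C.PosDef →
  C 0 0 = C 1 1 → 0 < C 0 0 - C 0 1 ∧ ∀ t w,
    dens C (pt C t w) = Real.exp (-(t ^ 2 / (C 0 0 - C 0 1))) * Dd C w

/-- [D2] The linear change of variables `x = (w 0 + t, w 0 - t, w j + t κ j)`.
Proof: identify `Fin (n+2) → ℝ` with `ℝ × (Fin (n+1) → ℝ)` by
`MeasurableEquiv.piFinSuccAbove _ 0` (`volume_preserving_piFinSuccAbove`); the map
`(t, w) ↦ (w 0 + t, w 0 - t, w j + t κ j)` is an invertible linear map, so it maps Lebesgue measure to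
a positive multiple of Lebesgue measure (`Measure.map_linearMap_addHaar_eq_smul_addHaar`, or
`LinearMap`/Haar uniqueness); then Fubini. -/
def St_D2 : Prop := ∀ {n : ℕ} (κ : Fin n → ℝ), ∃ c : ℝ, 0 < c ∧
    ∀ F : (Fin (n + 2) → ℝ) → ℝ, Continuous F → Integrable F →
      Integrable (fun t : ℝ => ∫ w : Fin (n + 1) → ℝ,
        F (vec (w 0 + t) (w 0 - t) (fun j => w j.succ + t * κ j))) ∧
      ∫ x, F x = c * ∫ t : ℝ, ∫ w : Fin (n + 1) → ℝ,
        F (vec (w 0 + t) (w 0 - t) (fun j => w j.succ + t * κ j))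

/-- [DIS] Disintegration (from [D1], [D2], `St_dom`). -/
def St_DIS : Prop := ∀ {n : ℕ} (C : Matrix (Fin (n + 2)) (Fin (n + 2)) ℝ), C.PosDef →
  C 0 0 = C 1 1 → 0 < C 0 0 - C 0 1 ∧ ∃ c : ℝ, 0 < c ∧
    ∀ φ : (Fin (n + 2) → ℝ) → ℝ, Continuous φ → (∃ M, ∀ x, |φ x| ≤ M * (1 + ∑ i, |x i|) ^ 2) →
      ∫ x, φ x * dens C x =
        c * ∫ t : ℝ, Real.exp (-(t ^ 2 / (C 0 0 - C 0 1))) * ∫ w, φ (pt C t w) * Dd C w

/-! ## C. The function `G` -/

/-- [HD] The base density satisfies the hypotheses.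
Proof: `Dd C w = dens C (ℓ w)` with `ℓ` linear; continuity and positivity are clear, the bound is
`St_dom` (at `C` itself) with `∑ (ℓ w)_i^2 ≥ ∑ w_i^2`; log-concavity is
`SW.plaux.dens_logconcave` (file `T_pl`). -/
def St_HD : Prop := ∀ {n : ℕ} (C : Matrix (Fin (n + 2)) (Fin (n + 2)) ℝ), C.PosDef → HD (Dd C)

/-- [GB] Positivity, bounds and continuity.
Proof: `0 < ph ≤ 2` and `0 ≤ ys v k * kr (Yg v) ≤ Yg v * kr (Yg v) ≤ 1` (FUN), and
`w ↦ D w * exp (w 0)` is integrable by the bound in `HD`.  Continuity by dominated convergence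
(`continuous_of_dominated`). -/
def St_GB : Prop := ∀ {n : ℕ} (D : (Fin (n + 1) → ℝ) → ℝ), HD D →
  Integrable (fun w => D w * Real.exp (w 0)) ∧
  (∃ M, ∀ γ, 0 < Gf D γ ∧ Gf D γ ≤ M ∧ ∀ k, 0 ≤ Gk D γ k ∧ Gk D γ k ≤ M) ∧
  Continuous (Gf D) ∧ ∀ k, Continuous (fun γ => Gk D γ k)

/-- [GD] The gradient of `G`.
Proof: `hasFDerivAt_integral_of_dominated_of_fderiv_le`; the derivative of
`γ ↦ ph (Yg (w + γ))` is `- kr (Yg (w + γ)) ∑_k ys (w + γ) k • proj k` (FUN), of norm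
`≤ (n + 1) * 1` by `y kr y ≤ 1`; the dominating function is `(n + 1) * D w * exp (w 0)`. -/
def St_GD : Prop := ∀ {n : ℕ} (D : (Fin (n + 1) → ℝ) → ℝ), HD D → ∀ γ : Fin (n + 1) → ℝ,
  HasFDerivAt (Gf D)
    (-∑ k, Gk D γ k • (ContinuousLinearMap.proj k : (Fin (n + 1) → ℝ) →L[ℝ] ℝ)) γ

/-- [GT] The tangent inequality.
Proof: `γ ↦ Gf D γ` is log-concave by the Prekopa-Leindler inequality
(`Pool.Agent.H212R2.KLS.PL`, used as in `T_pl`): with `γ_ε = (1-ε) γ + ε γ'`, the functions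
`w ↦ D w * exp (w 0) * ph (Yg (w + γ_ε))` satisfy the hypothesis because `D` is log-concave,
`exp (w 0)` is log-affine, `Yg ((1-ε) v + ε v') ≤ (Yg v)^(1-ε) * (Yg v')^ε` (Hölder;
`Real.inner_le_Lp_mul_Lq`, or convexity of log-sum-exp), `ph` is antitone and
`ph y ^ (1-ε) * ph y' ^ ε ≤ ph (y^(1-ε) * y'^ε)` (FUN).  So
`Gf γ ^ (1-ε) * Gf γ' ^ ε ≤ Gf γ_ε` for `0 < ε < 1`.  Compare derivatives at `ε = 0`
(see `SW.lciaux.deriv_ge_of_ge` and the end of `SW.lci` in `T_lci`): the left side has derivative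
`Gf γ * log (Gf γ' / Gf γ)`, the right side `- ∑ (γ' k - γ k) * Gk γ k` (GD). -/
def St_GT : Prop := ∀ {n : ℕ} (D : (Fin (n + 1) → ℝ) → ℝ), HD D → ∀ γ γ' : Fin (n + 1) → ℝ,
  Gf D γ * Real.log (Gf D γ' / Gf D γ) ≤ -∑ k, (γ' k - γ k) * Gk D γ k

/-! ## D. The one-dimensional lemma -/

/-- [KPA] Facts on `Kp t u = lc u - lc t - (u - t) tanh t`, `lc = log cosh`.
(1), (2): `lc` has derivative `tanh`, strictly increasing, so `lc` is strictly convex.
(3) `2 (t cosh t / sinh t) Kp t u ≤ (u - t)^2` (for `t = 0` the left side is `0` in Lean): for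
`t ≠ 0` this says `φ u = u^2 - t^2 - 2 (t / tanh t) (lc u - lc t) ≥ 0`; `φ` is even, `φ |t| = 0` and
`φ' u = 2 u - 2 (t / tanh t) tanh u` is `≤ 0` on `[0, |t|]` and `≥ 0` on `[|t|, ∞)` because
`tanh u / u` is antitone on `(0, ∞)`. -/
def St_KPA : Prop :=
  (∀ t, HasDerivAt lc (Real.tanh t) t) ∧
  (∀ t u, 0 ≤ Kp t u) ∧ (∀ t u, t ≠ u → 0 < Kp t u) ∧
  (∀ t u, 2 * (t * Real.cosh t / Real.sinh t) * Kp t u ≤ (u - t) ^ 2)

/-- [KPB] Lower bounds for `Kp`.
`Kp t u = ∫ s in u..t, (s - u) * (1 / cosh s ^ 2)` (both sides vanish for `t = u` and have the same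
derivative in `t`); for `u ≤ -1`, `1 ≤ t` restrict to `s ∈ [0,1]` (`tanh 1 ≥ 1/2`): (1); (2) by the
symmetry `Kp (-t) (-u) = Kp t u`; (3) `1 / cosh s ^ 2 ≥ 1 / cosh R ^ 2` for `|s| ≤ R`
(alternatively for (3): `u ↦ Kp t u - (t - u)^2 / (2 cosh² R)` has derivative
`tanh u - tanh t - (u - t)/cosh² R`, which has the sign of `u - t` on `[-R, R]`). -/
def St_KPB : Prop :=
  (∀ t u, 1 ≤ t → u ≤ -1 → -u / 2 ≤ Kp t u) ∧
  (∀ t u, 1 ≤ t → u ≤ -1 → t / 2 ≤ Kp u t) ∧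
  (∀ R t u, |t| ≤ R → |u| ≤ R → (t - u) ^ 2 / (2 * Real.cosh R ^ 2) ≤ Kp t u)

/-- [EDER] Derivative of `Ef` along curves (off the diagonal).
Proof: direct computation with the quotient rule; `∂_u Kp t u = tanh u - tanh t`,
`∂_t Kp t u = - (u - t) / cosh t ^ 2`, and for the `u`-derivative of `(u - t) / Kp t u` use
`Kp t u - (u - t) (tanh u - tanh t) = - Kp u t`. -/
def St_EDER : Prop := ∀ (f : ℝ) (x y : ℝ → ℝ) (x' y' s : ℝ), HasDerivAt x x' s →
  HasDerivAt y y' s → x s ≠ y s →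
  HasDerivAt (fun s => Ef f (x s) (y s)) (E1 f (x s) (y s) * x' + E2 f (x s) (y s) * y') s

/-- [ALG] The pointwise inequality.
Proof.  Put `t = f + a`, `u = f - b`, `a, b > 0`, `c = a + b`, `C = cosh f`, `κ = Kp t u`,
`κ' = Kp u t`, `Λ = lc t - lc u`, `Π = Pf f t u`, `Π' = Pf f u t`, `v = ρ sinh a / sinh b`.  By
`log z ≤ z - 1`: `Π ρ log (v κ'/κ) ≤ Π ρ (v κ'/κ - 1)` and
`Π' v log (κ/(κ' v)) ≤ Π' v (κ/(κ' v) - 1)`.  As `log ρ = log v + log (sinh b / sinh a)`, the left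
side (LHS) of the claim is
`≤ - ρ E1 f t u - v E1 f u t - Π ρ - Π' v + (Π ρ - Π' v) log (κ sinh b / (κ' sinh a))`
(the terms with `E2` cancel against `Π ρ v κ'/κ` and `Π' κ/κ'`).  Divide by `ρ sinh a`
(note `v / (ρ sinh a) = 1 / sinh b`): it remains to show `𝓔 ≤ 0` for
`𝓔 = (1/sinh a) [ - E1 f t u - Π + Π log (κ sinh b/(κ' sinh a)) ]`
`  + (1/sinh b) [ - E1 f u t - Π' - Π' log (κ sinh b/(κ' sinh a)) ]`.
Set `U = κ cosh t / sinh a`, `V = κ' cosh u / sinh b`, so `Π / sinh a = 1 / U`,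
`Π' / sinh b = 1 / V`, and `log (κ sinh b/(κ' sinh a)) = log (U / V) - Λ`.  We have
`κ = c tanh t - Λ`, `κ' = Λ - c tanh u`,
`coth a - tanh t = C / (sinh a cosh t) =: α C`, `coth b + tanh u = C / (sinh b cosh u) =: β C`
(`α = 1/(sinh a cosh t)`, `β = 1/(sinh b cosh u)`),
`cosh (t - 2 f) / sinh a + cosh (u - 2 f) / sinh b = C (coth a + coth b)`.
Substituting `x = C U / c`, `y = C V / c` one gets
`𝓔 / C = (1/x - 1) (coth a - α C / x) + (1/y - 1) (coth b - β C / y)`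
`        + (1/c) (log (x / y) - Λ) (1/x - 1/y)`,
`coth a - α C / x = tanh t - α C X`, `coth b - β C / y = - tanh u - β C Y` with `X = 1/x - 1`,
`Y = 1/y - 1`; moreover `Λ / c = tanh t - x g = tanh u + y k` with
`g = sinh a / (C cosh t) = tanh t - tanh f`, `k = sinh b / (C cosh u) = tanh f - tanh u`, and the sum
of the two expressions for `Λ/c` gives `g (1 - x) + k (1 - y) = 0`.  Hence
`X tanh t - Y tanh u - (Λ/c) (X - Y) = X x g + Y y k = g (1 - x) + k (1 - y) = 0` and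
`𝓔 / C = - α C X² - β C Y² - (1/c) (X - Y) (log (1 + X) - log (1 + Y)) ≤ 0`.
(Checked numerically.) -/
def St_ALG : Prop := ∀ f t u ρ : ℝ, u < f → f < t → 0 < ρ →
  -ρ * (E1 f t u - E2 f t u * (ρ * Real.sinh (t - f) / Real.sinh (f - u))) +
    (-(ρ * Real.sinh (t - f) / Real.sinh (f - u)) * E1 f u t + E2 f u t) +
    (Pf f t u * ρ - Pf f u t * (ρ * Real.sinh (t - f) / Real.sinh (f - u))) * Real.log ρ ≤ 0

/-- [MAP] The transport map.
Proof: `Λ t = ∫ s in Ioi t, ω s * sinh (s - f)` is differentiable with derivative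
`- ω t * sinh (t - f)`, tends to `0` at `±∞` (by the last hypothesis), so it is a strictly
increasing bijection of `(-∞, f)` onto `(0, Λ f)` and a strictly decreasing bijection of `(f, ∞)`
onto `(0, Λ f)`.  Let `u t` for `t > f` be the point of `(-∞, f)` with `Λ (u t) = Λ t`; inverse
function theorem (`HasDerivAt.of_local_left_inverse`, compare `T_trans` of the library project). -/
def St_MAP : Prop := ∀ (ω : ℝ → ℝ) (M c f : ℝ), 0 < c → (∀ t, 0 < ω t) → Continuous ω →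
  (∀ t, ω t ≤ M * Real.exp (-c * t ^ 2)) → ∫ t, ω t * Real.sinh (t - f) = 0 →
  ∃ u : ℝ → ℝ,
    (∀ t, f < t → u t < f ∧
      HasDerivAt u (-(ω t / ω (u t) * Real.sinh (t - f) / Real.sinh (f - u t))) t) ∧
    InjOn u (Ioi f) ∧ u '' Ioi f = Iio f ∧
    Tendsto u (𝓝[>] f) (𝓝 f) ∧ Tendsto u atTop atBot

/-- [LIM0] The boundary term at `f`.
Proof: `Ef f t (u t) → - sinh f` and `Ef f (u t) t → - sinh f` as `t → f+`: the first summands are
continuous; for the second, by [KPB] (3) with `R = |f| + 1`,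
`|(u - t) * Pf f t u| ≤ 2 cosh² R sinh² (t - f) / ((t - u) cosh t) ≤ 2 cosh² R sinh² (t-f)/(t-f) → 0`
(`t - u ≥ t - f`), similarly `|(t - u) * Pf f u t| ≤ 2 cosh² R sinh² (f-u)/(f-u) → 0`.
Also `ω t → ω f`, `ω (u t) → ω f`. -/
def St_LIM0 : Prop := ∀ (ω u : ℝ → ℝ) (f : ℝ), Continuous ω → (∀ t, f < t → u t < f) →
  Tendsto u (𝓝[>] f) (𝓝 f) →
  Tendsto (fun t => Ef f t (u t) * ω t - Ef f (u t) t * ω (u t)) (𝓝[>] f) (𝓝 0)

/-- [LIMI] The boundary term at `∞`.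
Proof: for `t ≥ 1`, `u ≤ -1`, by [KPB] (1), (2): `(t - u)/Kp t u ≤ 2 (t - u)/(-u) ≤ 2 (1 + t)`, so
`|Ef f t u| ≤ |sinh (t - 2 f)| + 2 (1 + t) sinh² (t - f) / cosh t`, and
`|Ef f u t| ≤ |sinh (u - 2 f)| + 2 (1 + |u|) sinh² (u - f) / cosh u`; both are
`≤ const * exp (2 |·|) (1 + |·|)`, and `ω t ≤ M exp (-c t^2)`. -/
def St_LIMI : Prop := ∀ (ω u : ℝ → ℝ) (M c f : ℝ), 0 < c → (∀ t, 0 < ω t) →
  (∀ t, ω t ≤ M * Real.exp (-c * t ^ 2)) → Tendsto u atTop atBot →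
  Tendsto (fun t => Ef f t (u t) * ω t - Ef f (u t) t * ω (u t)) atTop (𝓝 0)

/-- [ONE] The one-dimensional lemma (from MAP, EDER, ALG, LIM0, LIMI, KPA).
Proof.  Let `g t` be the integrand, `u` the map of [MAP], `v t = |u' t|`.  Changing variables on
`(-∞, f)` (`integral_image_eq_integral_abs_deriv_smul`), the integral is
`∫ t in Ioi f, (g t + v t * g (u t))`.  By the hypothesis at `(t, u)` and at `(u, t)`, divided by
`Kp > 0`, `g t + v t * g (u t) ≤`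
`Ef f t u * ω' t + Pf f t u * ω t * log (ω t / ω u) + v * (Ef f u t * ω' u + Pf f u t * ω u * log (ω u / ω t))`.
With `H t = Ef f t (u t) * ω t - Ef f (u t) t * ω (u t)` and [EDER], the right side is
`H' t - ω t * (E1 f t u + E2 f t u * u') + ω u * (E1 f u t * u' + E2 f u t) + (Pf f t u * ω t -`
`Pf f u t * v * ω u) * log (ω t/ω u) ≤ H' t`, the last step by [ALG] with `ρ = ω t / ω (u t)`
(multiplied by `ω (u t)`).  So `∫ t in a..b, (g t + v t * g (u t)) ≤ H b - H a` for `f < a < b`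
(`intervalIntegral.integral_le_sub_of_hasDeriv_right_of_le`), and `H a → 0` as `a → f+` (both
`Ef f t u` and `Ef f u t` tend to `- sinh f`, by [KPB] (3)), `H b → 0` as `b → ∞` (by [KPB] (1), (2):
`|Ef f t u| ≤ |sinh (t-2f)| + 2 (1+t) sinh² (t-f)/cosh t` etc. and the Gaussian bound). -/
def St_ONE : Prop := ∀ (ω ω' p : ℝ → ℝ) (M c f : ℝ), 0 < c → (∀ t, 0 < ω t) →
  (∀ t, HasDerivAt ω (ω' t) t) → Measurable p → (∀ t, 0 ≤ p t) →
  (∀ t, ω t ≤ M * Real.exp (-c * t ^ 2)) → (∀ t, |ω' t| ≤ M * Real.exp (-c * t ^ 2)) →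
  (∀ t, p t ≤ M * Real.exp (-c * t ^ 2)) →
  (∀ t u, p t * Kp t u ≤ (u - t) * ω' t + ω t * Real.log (ω t / ω u)) →
  ∫ t, ω t * Real.sinh (t - f) = 0 →
  ∫ t, (Real.sinh (t - 2 * f) * ω' t + Real.sinh (t - f) ^ 2 / Real.cosh t * p t) ≤ 0

/-! ## E. The pair inequality and the optimisation -/

/-- [PI01] The pair inequality for `(0, 1)`.
Proof (helper92 does the assembly): apply [ONE] to `ω t = exp (-t²/d) G(γ t)`,
`p t = exp (-t²/d) (G_0 (γ t) + (2/d) (t cosh t / sinh t) G (γ t))`, [GT], [GD], [KPA] (4), [DIS]. -/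
def St_PI01' : Prop := ∀ {n : ℕ} (C : Matrix (Fin (n + 2)) (Fin (n + 2)) ℝ), C.PosDef →
  C 0 0 = C 1 1 → 0 ≤ AA C (Matrix.of (Tf C)) 0 1 → 0 ≤ AA C (Matrix.of (Tf C)) 1 0 →
    AA C (Matrix.of (Tf C)) 0 1 * AA C (Matrix.of (Tf C)) 1 0 ≤
      ((C 0 0 - C 0 1) * Tf C 0 1) ^ 2

/-- [OP] The optimisation (adaptation of `SW.OP`, file `T_OP`, with `orth` replaced by
`fun C => - Jf (c • C)` and `tie C k l` by `c * Tf (c • C) k l`; [PI01] gives the pair inequality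
for all pairs by relabelling as in `T_PI`).
Hypotheses to be used: `St_JC`, `St_JP`, `St_TP`, `St_PI01'` and `K1 .. K4`, `O1`, `O2` of the
library project. -/
def St_OP' : Prop := ∀ {n : ℕ} (c κ s : ℝ) (R : Matrix (Fin (n + 2)) (Fin (n + 2)) ℝ),
  0 < c → 0 < κ → 0 ≤ s → 0 < 1 - s * ((n : ℝ) + 2) / ((n : ℝ) + 1) → Corr R →
  Jf (c • Cm κ s R) ≤ Jf (c • Ek (Fin (n + 2)) κ)

/-! ## F. From densities to Gaussian vectors -/

/-- [MIX] The Gaussian vector with covariance `s R + δ 1 + τ J`.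
Proof: as `SW.law` and `SW.mix` (files `T_law`, `T_mix`), for a general function instead of the
indicator of `Neg`: first show
`volume.withDensity (fun x => ENNReal.ofReal (dens C x)) = (stdGaussian E).map (fun z i => inner ℝ (a i) z)`
for a Gram matrix `C` (positive definite) of `a`. -/
def St_MIX : Prop := ∀ {N : ℕ} {E : Type} [NormedAddCommGroup E]
  [InnerProductSpace ℝ E] [FiniteDimensional ℝ E] [MeasurableSpace E] [BorelSpace E]
  (x : Fin N → E) (R : Matrix (Fin N) (Fin N) ℝ), (∀ i j, inner ℝ (x i) (x j) = R i j) →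
  ∀ s δ τ : ℝ, 0 ≤ s → 0 < δ → 0 ≤ τ →
  Jf (s • R + δ • (1 : Matrix (Fin N) (Fin N) ℝ) + Matrix.of (fun _ _ => τ)) =
    ∫ p, bf (sE (fun i => Real.sqrt s * inner ℝ (x i) p.1.1 + Real.sqrt δ * p.1.2 i +
        Real.sqrt τ * p.2))
      ∂(((stdGaussian E).prod (stdGaussian (EuclideanSpace ℝ (Fin N)))).prod (gaussianReal 0 1))

/-- [CMP] The comparison of the functionals `E B (∑ exp (β X_i))`.
Proof: in [OP] take `c = β² (n+2)/(n+1)`, `s = (1-δ) (n+1)/(n+2)`, `κ = 2 δ`, `0 < δ < 1`: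
`c • Cm κ s R = (β² (1-δ)) • R + (c δ) • 1 + of (c δ / (n+2))` and
`c • Ek κ = c • Cm κ s R0 = (β² (1-δ)) • R0 + (c δ) • 1 + of (c δ / (n+2))`
(check: the coefficient of the all-ones matrix is
`c ((κ - 1)/(n+2) + s/(n+1)) = c (κ - δ)/(n+2)`).  Apply [MIX] to both sides (with the Gram
matrices of `x` and of `y`) and let `δ → 0+`; dominated convergence with
`|bf (sE z)| ≤ (1 + (n+2) + ∑ |z i|)^2` (FUN, SE) and `|√.. a + √.. b + √.. c| ≤ ..` linear in the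
norms (Gaussian measures have second moments). -/
def St_CMP : Prop := ∀ {n : ℕ} {E E' : Type} [NormedAddCommGroup E]
  [InnerProductSpace ℝ E] [FiniteDimensional ℝ E] [MeasurableSpace E] [BorelSpace E]
  [NormedAddCommGroup E'] [InnerProductSpace ℝ E'] [FiniteDimensional ℝ E'] [MeasurableSpace E']
  [BorelSpace E'] (x : Fin (n + 2) → E) (y : Fin (n + 2) → E'),
  (∀ i, ‖x i‖ = 1) → (∀ i, ‖y i‖ = 1) →
  (∀ i j, i ≠ j → inner ℝ (y i) (y j) = -1 / ((n : ℝ) + 1)) → ∀ β : ℝ, 0 < β →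
  ∫ z, bf (sE (fun i => β * inner ℝ (x i) z)) ∂(stdGaussian E) ≤
    ∫ z, bf (sE (fun i => β * inner ℝ (y i) z)) ∂(stdGaussian E')

end Pool.Agent.H92.SM
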