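import Pool.Agent.H92.SM.Props

/-!
# MP_72ffec_pr: from the comparison [CMP] to the problem (definitions and statements)
-/

set_option autoImplicit false

namespace Pool.Agent.H92.SM

open MeasureTheory Matrix Finset Filter Topology Set ProbabilityTheory
open scoped BigOperators ENNReal

/-- The soft-max `f_β(x) = (1/β) log ∑ exp (β x_k)`. -/
noncomputable def softmax {n : ℕ} (β : ℝ) (x : Fin n → ℝ) : ℝ :=
  1 / β * Real.log (∑ k, Real.exp (β * x k))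

/-- A centered Gaussian vector with unit-variance coordinates (possibly degenerate). -/
structure UnitGaussian {Ω : Type*} [MeasurableSpace Ω] (P : Measure Ω) {n : ℕ}
    (X : Fin n → Ω → ℝ) : Prop where
  gauss : HasGaussianLaw (fun ω i => X i ω) P
  mean : ∀ i, ∫ ω, X i ω ∂P = 0
  var : ∀ i, ∫ ω, X i ω ^ 2 ∂P = 1

/-- `H_X = span (X_1, ..., X_n)` in `L²(P)`. -/
noncomputable def HX {Ω : Type*} [MeasurableSpace Ω] (P : Measure Ω) {n : ℕ}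
    (X : Fin n → Ω → ℝ) : Submodule ℝ (Lp ℝ 2 P) :=
  Submodule.span ℝ {g : Lp ℝ 2 P | ∃ i, (g : Ω → ℝ) =ᵐ[P] X i}

open Classical in
/-- The class of `f` in `L²(P)` (`0` if `f` is not square integrable). -/
noncomputable def toL2 {Ω : Type*} [MeasurableSpace Ω] (P : Measure Ω) (f : Ω → ℝ) : Lp ℝ 2 P :=
  if h : MemLp f 2 P then h.toLp f else 0

/-- `E[(P_{H_X^⊥} f + c)²]`. -/
noncomputable def Psi {Ω : Type*} [MeasurableSpace Ω] (P : Measure Ω) {n : ℕ}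
    (X : Fin n → Ω → ℝ) (f : Ω → ℝ) (c : ℝ) : ℝ :=
  ∫ ω, (((HX P X)ᗮ.starProjection (toL2 P f) : Lp ℝ 2 P) ω + c) ^ 2 ∂P

/-- [UNIQ] The law of `(⟪x i, z⟫)_i` depends only on the Gram matrix.
Proof: characteristic functions, as in the proof of `SW.law` (file `T_law`):
`Measure.ext_of_charFun` after mapping to `EuclideanSpace ℝ (Fin N)` by `WithLp.toLp 2`, or
`Measure.ext_of_charFunDual` on `Fin N → ℝ`; the characteristic function at `t` is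
`exp (-‖∑ t i • x i‖² / 2)`. -/
def St_UNIQ : Prop := ∀ {N : ℕ} {E E' : Type} [NormedAddCommGroup E]
  [InnerProductSpace ℝ E] [FiniteDimensional ℝ E] [MeasurableSpace E] [BorelSpace E]
  [NormedAddCommGroup E'] [InnerProductSpace ℝ E'] [FiniteDimensional ℝ E'] [MeasurableSpace E']
  [BorelSpace E'] (x : Fin N → E) (y : Fin N → E'),
  (∀ i j, (inner ℝ (x i) (x j) : ℝ) = inner ℝ (y i) (y j)) →
  (stdGaussian E).map (fun z i => (inner ℝ (x i) z : ℝ)) =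
    (stdGaussian E').map (fun z i => (inner ℝ (y i) z : ℝ))

/-- [REP] A centered Gaussian vector is represented by vectors of a Euclidean space.
Proof: let `R i j = ∫ X i * X j`, a positive semidefinite matrix, and `x i` the rows of a square root
of it (`CFC.sqrt R`, or `Matrix.PosSemidef` decompositions `R = Bᴴ * B`), so `inner (x i) (x j) = R i j`.
Both measures are Gaussian on `Fin N → ℝ` (use `EuclideanSpace`/`WithLp.toLp 2` if convenient,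
`IsGaussian.ext`/`IsGaussian.ext_covarianceBilinDual` or characteristic functions
`HasGaussianLaw.charFunDual_map_eq_fun`) with mean `0` and covariance `R`: for a linear functional
`L y = ∑ t i * y i`, `Var (∑ t i X i) = ∑ t i t j R i j = ‖∑ t i • x i‖²`. -/
def St_REP.{u} : Prop := ∀ {N : ℕ} {Ω : Type u} [MeasurableSpace Ω] (P : Measure Ω)
  (X : Fin N → Ω → ℝ), HasGaussianLaw (fun ω i => X i ω) P → (∀ i, ∫ ω, X i ω ∂P = 0) →
  ∃ x : Fin N → EuclideanSpace ℝ (Fin N),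
    (∀ i j, (inner ℝ (x i) (x j) : ℝ) = ∫ ω, X i ω * X j ω ∂P) ∧
    P.map (fun ω i => X i ω) =
      (stdGaussian (EuclideanSpace ℝ (Fin N))).map (fun z i => (inner ℝ (x i) z : ℝ))

/-- [REFL] The convex combination `h = ∑ q i X i` of least variance satisfies
`E h² ≤ E F(X) h` for monotone translation equivariant `F`.
Proof: let `q` minimise `‖∑ q i • x i‖` over the standard simplex (compact, continuous), and
`v = ∑ q i • x i`.  If `v = 0` both sides are `0`.  Otherwise minimality gives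
`inner (x i) v ≥ ‖v‖²` for all `i` (compare with `(1-ε) q + ε e_i`).  Let `S` be the reflection
`z ↦ z - 2 ⟪v, z⟫/‖v‖² v` (a linear isometry: `Submodule.reflection (ℝ ∙ v)ᗮ`), which preserves
`stdGaussian E` (`stdGaussian_map`).  `⟪v, S z⟫ = -⟪v, z⟫`,
`⟪x i, S z⟫ = ⟪x i, z⟫ - 2 ⟪v, z⟫ c i` with `c i = ⟪x i, v⟫/‖v‖² ≥ 1`.  So
`∫ F(⟪x, z⟫) ⟪v, z⟫ = (1/2) ∫ (F(⟪x, z⟫) - F(⟪x, S z⟫)) ⟪v, z⟫`, and pointwise
`(F(⟪x,z⟫) - F(⟪x,S z⟫)) ⟪v, z⟫ ≥ 2 ⟪v, z⟫²`: if `⟪v, z⟫ ≥ 0` then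
`⟪x i, z⟫ ≥ ⟪x i, S z⟫ + 2 ⟪v, z⟫`, so `F(⟪x,z⟫) ≥ F(⟪x,Sz⟫) + 2 ⟪v,z⟫`; if `⟪v, z⟫ ≤ 0` the
inequalities are reversed.  Integrability: `|F y| ≤ |F 0| + ∑ |y i|` by monotonicity and
equivariance. -/
def St_REFL : Prop := ∀ {N : ℕ} {E : Type} [NormedAddCommGroup E]
  [InnerProductSpace ℝ E] [FiniteDimensional ℝ E] [MeasurableSpace E] [BorelSpace E]
  (x : Fin N → E) (F : (Fin N → ℝ) → ℝ), 0 < N → Continuous F →
  (∀ y y' : Fin N → ℝ, (∀ i, y i ≤ y' i) → F y ≤ F y') →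
  (∀ (y : Fin N → ℝ) (a : ℝ), F (fun i => y i + a) = F y + a) →
  ∃ q : Fin N → ℝ, (∀ i, 0 ≤ q i) ∧ ∑ i, q i = 1 ∧
    ∫ z, (∑ i, q i * (inner ℝ (x i) z : ℝ)) ^ 2 ∂(stdGaussian E) ≤
      ∫ z, F (fun i => (inner ℝ (x i) z : ℝ)) * (∑ i, q i * (inner ℝ (x i) z : ℝ))
        ∂(stdGaussian E)

/-- [SYM] For the regular simplex, `E F(S) S_i = 0` for symmetric `F`, and `∑ S_i = 0`.
Proof: `‖∑ y i‖² = N - N (N-1)/(N-1) = 0`.  For a permutation `σ`, [UNIQ] applied to `y` and `y ∘ σ`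
and the symmetry of `F` give `∫ F(⟪y,z⟫) ⟪y i, z⟫ = ∫ F(⟪y,z⟫) ⟪y (σ i), z⟫`, so these numbers do
not depend on `i`, and their sum is `0`.  The growth bound gives the integrability. -/
def St_SYM : Prop := ∀ {N : ℕ} {E : Type} [NormedAddCommGroup E]
  [InnerProductSpace ℝ E] [FiniteDimensional ℝ E] [MeasurableSpace E] [BorelSpace E]
  (y : Fin N → E) (F : (Fin N → ℝ) → ℝ), 2 ≤ N → (∀ i, ‖y i‖ = 1) →
  (∀ i j, i ≠ j → (inner ℝ (y i) (y j) : ℝ) = -1 / ((N : ℝ) - 1)) → Continuous F →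
  (∃ M, ∀ x, |F x| ≤ M * (1 + ∑ i, |x i|)) →
  (∀ (σ : Equiv.Perm (Fin N)) (x : Fin N → ℝ), F (fun i => x (σ i)) = F x) →
  (∀ z, ∑ i, (inner ℝ (y i) z : ℝ) = 0) ∧
  ∀ i, ∫ z, F (fun k => (inner ℝ (y k) z : ℝ)) * (inner ℝ (y i) z : ℝ) ∂(stdGaussian E) = 0

/-- [PROJ] The projection onto `H_X^⊥`.
Proof: let `g = toL2 P f` and `K = HX P X` (spanned by the classes of the `X i`; finite
dimensional, since a function has one class).  `Kᗮ.starProjection g = g - K.starProjection g`.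
For `h = ∑ q i [X i] ∈ K`:  `g - h + c = (P_{K^⊥} g + c) + (P_K g - h)`, and `P_K g - h ∈ K` is
orthogonal to `P_{K^⊥} g` and to the constant function `1` (elements of `K` have mean `0`), so
`∫ (g - h + c)² = Psi + ‖P_K g - h‖² ≥ Psi`.  If `∫ f * X i = 0` for all `i` then `g ∈ K^⊥`,
`P_{K^⊥} g = g`.  (3): `|‖P g‖ - ‖P g'‖| ≤ ‖g - g'‖` for the orthogonal projection, with the
constant: `√(Psi f c) = ‖P_{K^⊥} g + c‖` is `1`-Lipschitz in `(g, c)` for `‖g - g'‖ + |c - c'|`. -/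
def St_PROJ.{u} : Prop := ∀ {N : ℕ} {Ω : Type u} [MeasurableSpace Ω] (P : Measure Ω)
  [IsProbabilityMeasure P] (X : Fin N → Ω → ℝ), (∀ i, MemLp (X i) 2 P) →
  (∀ i, ∫ ω, X i ω ∂P = 0) → ∀ f : Ω → ℝ, MemLp f 2 P → ∀ c : ℝ,
  (∀ q : Fin N → ℝ, Psi P X f c ≤ ∫ ω, (f ω - ∑ i, q i * X i ω + c) ^ 2 ∂P) ∧
  ((∀ i, ∫ ω, f ω * X i ω ∂P = 0) → Psi P X f c = ∫ ω, (f ω + c) ^ 2 ∂P) ∧
  (∀ f' : Ω → ℝ, MemLp f' 2 P → ∀ c' : ℝ,
    |Real.sqrt (Psi P X f c) - Real.sqrt (Psi P X f' c')| ≤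
      Real.sqrt (∫ ω, (f ω - f' ω) ^ 2 ∂P) + |c - c'|)

/-- [SM] Elementary facts on the soft-max and the maximum (`n ≥ 1`). -/
def St_SM : Prop := ∀ {n : ℕ}, 0 < n → ∀ β : ℝ, 0 < β →
  Continuous (softmax (n := n) β) ∧
  (∀ y y' : Fin n → ℝ, (∀ i, y i ≤ y' i) → softmax β y ≤ softmax β y') ∧
  (∀ (y : Fin n → ℝ) (a : ℝ), softmax β (fun i => y i + a) = softmax β y + a) ∧
  (∀ (σ : Equiv.Perm (Fin n)) (y : Fin n → ℝ), softmax β (fun i => y (σ i)) = softmax β y) ∧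
  (∀ (y q : Fin n → ℝ), (∀ i, 0 ≤ q i) → ∑ i, q i = 1 → ∑ i, q i * y i ≤ softmax β y) ∧
  (∀ y : Fin n → ℝ, (⨆ i, y i) ≤ softmax β y ∧ softmax β y ≤ (⨆ i, y i) + Real.log n / β) ∧
  (∀ y : Fin n → ℝ, |softmax β y| ≤ Real.log n / β + ∑ i, |y i|) ∧
  (∀ y : Fin n → ℝ, ∑ i, y i = 0 → Real.log n / β ≤ softmax β y)

/-- The theorem. -/
def St_MAIN.{u, v} : Prop := ∀ {n : ℕ}, 2 ≤ n → ∀ {Ω : Type u} {Ω' : Type v} [MeasurableSpace Ω]
  [MeasurableSpace Ω'] (P : Measure Ω) (P' : Measure Ω') (X : Fin n → Ω → ℝ)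
  (S : Fin n → Ω' → ℝ), UnitGaussian P X → UnitGaussian P' S →
  (∀ i j, i ≠ j → ∫ ω, S i ω * S j ω ∂P' = -1 / ((n : ℝ) - 1)) →
  (∀ β : ℝ, 0 < β →
    Psi P X (fun ω => softmax β (fun i => X i ω)) (1 / β) ≤
      Psi P' S (fun ω => softmax β (fun i => S i ω)) (1 / β)) ∧
  Psi P X (fun ω => ⨆ i, X i ω) 0 ≤ Psi P' S (fun ω => ⨆ i, S i ω) 0

end Pool.Agent.H92.SM
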