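import Pool.Agent.H92.SM.Props

set_option autoImplicit false

namespace Pool.Agent.H92.SM

namespace ALGaux

/-- one half of the computation -/
theorem partA {sa ca ct st C c p ch K Pi : ℝ} (hsa : sa ≠ 0) (hct : ct ≠ 0) (hC : C ≠ 0)
    (hc : c ≠ 0) (hp : p ≠ 0) (hK : K = c * sa / (C * ct * p)) (hPi : Pi = sa ^ 2 / (ct * K)) :
    1 / sa * (-(ch - Pi + -c * ((2 * sa * ca / ct - sa ^ 2 * st / ct ^ 2) / K +
      Pi * (-c / ct ^ 2) / K)) - Pi) =
      -ch / sa + C * p * (2 * (ca / sa) - st / ct) - C * p ^ 2 * (C / (sa * ct)) := by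
  subst hPi
  subst hK
  field_simp
  ring

theorem final {A B T Tu C S c p q g k Lam ch ch' sa sb lp lq al be : ℝ}
    (hsa : sa ≠ 0) (hsb : sb ≠ 0) (hc : c ≠ 0) (hp : p ≠ 0) (hq : q ≠ 0)
    (hch : ch / sa = C * A - S) (hch' : ch' / sb = C * B + S)
    (hal : al = A - T) (hbe : be = B + Tu)
    (hgk : g + k = T - Tu) (h1 : Lam / c = T - g / p) (h2 : Lam / c = Tu + k / q) :
    (-ch / sa + C * p * (2 * A - T) - C * p ^ 2 * al) +
      (-ch' / sb + C * q * (2 * B - (-Tu)) - C * q ^ 2 * be) +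
      (C * p / c - C * q / c) * (lq - lp - Lam) =
      -(C * al * (p - 1) ^ 2) - C * be * (q - 1) ^ 2 - C / c * ((p - q) * (lp - lq)) := by
  have e1 : (C * p / c - C * q / c) * (lq - lp - Lam) =
      -(C / c * ((p - q) * (lp - lq))) - C * ((p - q) * (Lam / c)) := by
    field_simp
    ring
  have e2 : -ch / sa = -(C * A - S) := by rw [neg_div, hch]
  have e3 : -ch' / sb = -(C * B + S) := by rw [neg_div, hch']
  have e4 : (p - q) * (Lam / c) = (p - 1) * T - (q - 1) * Tu := by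
    have : (p - q) * (Lam / c) = (p - 1) * (Lam / c) - (q - 1) * (Lam / c) := by ring
    rw [this]
    nth_rewrite 1 [h1]
    rw [h2]
    have h3 : T - g / p = Tu + k / q := by rw [← h1, ← h2]
    have e5 : (p - 1) * (g / p) = g - g / p := by field_simp
    have e6 : (q - 1) * (k / q) = k - k / q := by field_simp
    calc (p - 1) * (T - g / p) - (q - 1) * (Tu + k / q) =
        (p - 1) * T - (q - 1) * Tu - ((p - 1) * (g / p) + (q - 1) * (k / q)) := by ring
      _ = (p - 1) * T - (q - 1) * Tu := by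
        rw [e5, e6]
        linarith
  rw [e1, e4, e2, e3, hal, hbe]
  ring

/-- combination of the two applications of `log z ≤ z - 1` -/
theorem comb {ρ v Pi Pi' K K' E E' w l sa sb : ℝ} (hρ : 0 < ρ) (hv : 0 < v) (hPi : 0 < Pi)
    (hPi' : 0 < Pi') (hK : 0 < K) (hK' : 0 < K') (hsa : 0 < sa) (hsb : 0 < sb)
    (hvd : v = ρ * sa / sb)
    (hw1 : w ≤ v * K' / K - 1) (hw2 : -w ≤ K / (K' * v) - 1)
    (hE : 1 / sa * (-E - Pi) + 1 / sb * (-E' - Pi') + (Pi / sa - Pi' / sb) * l ≤ 0) :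
    -ρ * (E - -(Pi * K' / K) * v) + (-v * E' + -(Pi' * K / K')) +
      (Pi * ρ - Pi' * v) * (w + l) ≤ 0 := by
  have h1 : Pi * ρ * w ≤ Pi * ρ * (v * K' / K - 1) := by gcongr
  have h2 : Pi' * v * (-w) ≤ Pi' * v * (K / (K' * v) - 1) := by gcongr
  have e2 : Pi' * v * (K / (K' * v) - 1) = Pi' * K / K' - Pi' * v := by field_simp
  have e1 : Pi * ρ * (v * K' / K - 1) = ρ * (Pi * K' / K * v) - Pi * ρ := by ring
  rw [e1] at h1
  rw [e2] at h2
  have h3 : ρ * sa * (1 / sa * (-E - Pi) + 1 / sb * (-E' - Pi') + (Pi / sa - Pi' / sb) * l) =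
      ρ * (-E - Pi) + v * (-E' - Pi') + (Pi * ρ - Pi' * v) * l := by
    rw [hvd]
    field_simp
  have h4 : ρ * (-E - Pi) + v * (-E' - Pi') + (Pi * ρ - Pi' * v) * l ≤ 0 := by
    rw [← h3]
    exact mul_nonpos_of_nonneg_of_nonpos (by positivity) hE
  nlinarith [h1, h2, h4]

end ALGaux

open ALGaux in
theorem ALG (hk : St_KPA) : St_ALG := by
  intro f t u ρ huf hft hρ
  obtain ⟨-, -, hKpos, -⟩ := hk
  have hK : 0 < Kp t u := hKpos t u (by intro h; linarith)
  have hK' : 0 < Kp u t := hKpos u t (by intro h; linarith)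
  have hc : 0 < t - u := by linarith
  have hsa : 0 < Real.sinh (t - f) := Real.sinh_pos_iff.2 (by linarith)
  have hsb : 0 < Real.sinh (f - u) := Real.sinh_pos_iff.2 (by linarith)
  have hct := Real.cosh_pos t
  have hcu := Real.cosh_pos u
  have hC := Real.cosh_pos f
  have hsb' : Real.sinh (u - f) = -Real.sinh (f - u) := by
    rw [← Real.sinh_neg]; congr 1; ring
  have hcb' : Real.cosh (u - f) = Real.cosh (f - u) := by
    rw [← Real.cosh_neg]; congr 1; ring
  have i1 : Real.cosh f = Real.cosh (t - f) * Real.cosh t - Real.sinh (t - f) * Real.sinh t := by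
    rw [← Real.cosh_sub, ← Real.cosh_neg]; congr 1; ring
  have i2 : Real.cosh f = Real.cosh (f - u) * Real.cosh u + Real.sinh (f - u) * Real.sinh u := by
    rw [← Real.cosh_add]; congr 1; ring
  have i3 : Real.cosh (t - 2 * f) =
      Real.cosh (t - f) * Real.cosh f - Real.sinh (t - f) * Real.sinh f := by
    rw [← Real.cosh_sub]; congr 1; ring
  have i4 : Real.cosh (u - 2 * f) =
      Real.cosh (f - u) * Real.cosh f + Real.sinh (f - u) * Real.sinh f := by
    rw [← Real.cosh_add, ← Real.cosh_neg]; congr 1; ring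
  have i5 : Real.sinh (t - f) = Real.sinh t * Real.cosh f - Real.cosh t * Real.sinh f :=
    Real.sinh_sub t f
  have i6 : Real.sinh (f - u) = Real.sinh f * Real.cosh u - Real.cosh f * Real.sinh u :=
    Real.sinh_sub f u
  -- `Kp` in terms of `Λ`
  have k1 : Kp t u = (t - u) * (Real.sinh t / Real.cosh t) - (lc t - lc u) := by
    unfold Kp; rw [Real.tanh_eq_sinh_div_cosh]; ring
  have k2 : Kp u t = (lc t - lc u) - (t - u) * (Real.sinh u / Real.cosh u) := by
    unfold Kp; rw [Real.tanh_eq_sinh_div_cosh]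
  have hPi : Pf f t u = Real.sinh (t - f) ^ 2 / (Real.cosh t * Kp t u) := rfl
  have hPi' : Pf f u t = Real.sinh (f - u) ^ 2 / (Real.cosh u * Kp u t) := by
    unfold Pf; rw [hsb', neg_sq]
  have hE1 : E1 f t u = Real.cosh (t - 2 * f) - Pf f t u + -(t - u) *
      ((2 * Real.sinh (t - f) * Real.cosh (t - f) / Real.cosh t -
        Real.sinh (t - f) ^ 2 * Real.sinh t / Real.cosh t ^ 2) / Kp t u +
      Pf f t u * (-(t - u) / Real.cosh t ^ 2) / Kp t u) := by
    unfold E1; rw [neg_sub]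
  have hE1' : E1 f u t = Real.cosh (u - 2 * f) - Pf f u t + -(t - u) *
      ((2 * Real.sinh (f - u) * Real.cosh (f - u) / Real.cosh u -
        Real.sinh (f - u) ^ 2 * (-Real.sinh u) / Real.cosh u ^ 2) / Kp u t +
      Pf f u t * (-(t - u) / Real.cosh u ^ 2) / Kp u t) := by
    unfold E1; rw [hsb', hcb']; ring
  have hE2 : E2 f t u = -(Pf f t u * Kp u t / Kp t u) := rfl
  have hE2' : E2 f u t = -(Pf f u t * Kp t u / Kp u t) := rfl
  have hPp : 0 < Pf f t u := by rw [hPi]; positivity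
  have hPp' : 0 < Pf f u t := by rw [hPi']; positivity
  -- names
  obtain ⟨c, hcd⟩ : ∃ c, c = t - u := ⟨_, rfl⟩
  obtain ⟨K, hKd⟩ : ∃ K, K = Kp t u := ⟨_, rfl⟩
  obtain ⟨K', hKd'⟩ : ∃ K, K = Kp u t := ⟨_, rfl⟩
  obtain ⟨sa, hsad⟩ : ∃ x, x = Real.sinh (t - f) := ⟨_, rfl⟩
  obtain ⟨sb, hsbd⟩ : ∃ x, x = Real.sinh (f - u) := ⟨_, rfl⟩
  obtain ⟨ca, hcad⟩ : ∃ x, x = Real.cosh (t - f) := ⟨_, rfl⟩
  obtain ⟨cb, hcbd⟩ : ∃ x, x = Real.cosh (f - u) := ⟨_, rfl⟩
  obtain ⟨C, hCd⟩ : ∃ x, x = Real.cosh f := ⟨_, rfl⟩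
  obtain ⟨S, hSd⟩ : ∃ x, x = Real.sinh f := ⟨_, rfl⟩
  obtain ⟨Λ, hΛ⟩ : ∃ x, x = lc t - lc u := ⟨_, rfl⟩
  have hΛ' : Λ = Real.log (Real.cosh t) - Real.log (Real.cosh u) := hΛ
  obtain ⟨ct, hctd⟩ : ∃ x, x = Real.cosh t := ⟨_, rfl⟩
  obtain ⟨cu, hcud⟩ : ∃ x, x = Real.cosh u := ⟨_, rfl⟩
  obtain ⟨st, hstd⟩ : ∃ x, x = Real.sinh t := ⟨_, rfl⟩
  obtain ⟨su, hsud⟩ : ∃ x, x = Real.sinh u := ⟨_, rfl⟩
  obtain ⟨Pi, hPid⟩ : ∃ x, x = Pf f t u := ⟨_, rfl⟩
  obtain ⟨Pi', hPid'⟩ : ∃ x, x = Pf f u t := ⟨_, rfl⟩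
  obtain ⟨E, hEd⟩ : ∃ x, x = E1 f t u := ⟨_, rfl⟩
  obtain ⟨E', hEd'⟩ : ∃ x, x = E1 f u t := ⟨_, rfl⟩
  obtain ⟨ch, hchd⟩ : ∃ x, x = Real.cosh (t - 2 * f) := ⟨_, rfl⟩
  obtain ⟨ch', hchd'⟩ : ∃ x, x = Real.cosh (u - 2 * f) := ⟨_, rfl⟩
  rw [hE2, hE2', ← hEd, ← hEd']
  rw [← hEd] at hE1
  rw [← hEd'] at hE1'
  simp only [← hKd, ← hKd', ← hsad, ← hsbd, ← hcad, ← hcbd, ← hCd, ← hSd, ← hΛ, ← hctd, ← hcud,
    ← hstd, ← hsud, ← hPid, ← hPid', ← hcd, ← hchd, ← hchd'] at *
  clear hKd hKd' hsad hsbd hcad hcbd hCd hSd hΛ hctd hcud hstd hsud hPid hPid' hEd hEd' hchd hchd'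
  clear hE2 hE2' hsb' hcb'
  -- the numbers `p`, `q`
  obtain ⟨p, hp⟩ : ∃ p, p = c * sa / (C * ct * K) := ⟨_, rfl⟩
  obtain ⟨q, hq⟩ : ∃ q, q = c * sb / (C * cu * K') := ⟨_, rfl⟩
  have hp0 : 0 < p := by rw [hp]; positivity
  have hq0 : 0 < q := by rw [hq]; positivity
  have hKp : K = c * sa / (C * ct * p) := by rw [hp]; field_simp
  have hKq : K' = c * sb / (C * cu * q) := by rw [hq]; field_simp
  obtain ⟨v, hv⟩ : ∃ v, v = ρ * sa / sb := ⟨_, rfl⟩
  have hv0 : 0 < v := by rw [hv]; positivity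
  rw [← hv]
  obtain ⟨w, hw⟩ : ∃ w, w = Real.log (v * K' / K) := ⟨_, rfl⟩
  have hw1 : w ≤ v * K' / K - 1 := by
    rw [hw]; exact Real.log_le_sub_one_of_pos (by positivity)
  have hw2 : -w ≤ K / (K' * v) - 1 := by
    rw [hw, ← Real.log_inv]
    have : (v * K' / K)⁻¹ = K / (K' * v) := by field_simp
    rw [this]
    exact Real.log_le_sub_one_of_pos (by positivity)
  have hwl : w = Real.log ρ + Real.log sa - Real.log sb + Real.log K' - Real.log K := by
    rw [hw, hv, Real.log_div (by positivity) (by positivity),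
      Real.log_mul (by positivity) (by positivity), Real.log_div (by positivity) (by positivity),
      Real.log_mul (by positivity) (by positivity)]
  have hlp : Real.log p = Real.log c + Real.log sa - (Real.log C + Real.log ct + Real.log K) := by
    rw [hp, Real.log_div (by positivity) (by positivity),
      Real.log_mul (by positivity) (by positivity), Real.log_mul (by positivity) (by positivity),
      Real.log_mul (by positivity) (by positivity)]
  have hlq : Real.log q = Real.log c + Real.log sb - (Real.log C + Real.log cu + Real.log K') := by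
    rw [hq, Real.log_div (by positivity) (by positivity),
      Real.log_mul (by positivity) (by positivity), Real.log_mul (by positivity) (by positivity),
      Real.log_mul (by positivity) (by positivity)]
  have hρl : Real.log ρ = w + (Real.log q - Real.log p - Λ) := by
    rw [hwl, hlp, hlq, hΛ']; ring
  rw [hρl]
  refine comb hρ hv0 hPp hPp' hK hK' hsa hsb hv hw1 hw2 ?_
  have ePa : Pi / sa = C * p / c := by rw [hPi, hKp]; field_simp
  have ePb : Pi' / sb = C * q / c := by rw [hPi', hKq]; field_simp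
  have eA := partA (sa := sa) (ca := ca) (ct := ct) (st := st) (C := C) (c := c) (p := p) (ch := ch)
    (K := K) (Pi := Pi) hsa.ne' hct.ne' hC.ne' hc.ne' hp0.ne' hKp hPi
  have eB := partA (sa := sb) (ca := cb) (ct := cu) (st := -su) (C := C) (c := c) (p := q)
    (ch := ch') (K := K') (Pi := Pi') hsb.ne' hcu.ne' hC.ne' hc.ne' hq0.ne' hKq hPi'
  rw [← hE1] at eA
  rw [← hE1'] at eB
  rw [eA, eB, ePa, ePb, neg_div cu su]
  have hchs : ch / sa = C * (ca / sa) - S := by rw [i3]; field_simp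
  have hchs' : ch' / sb = C * (cb / sb) + S := by rw [i4]; field_simp
  have hal : C / (sa * ct) = ca / sa - st / ct := by
    rw [i1]; field_simp
  have hbe : C / (sb * cu) = cb / sb + su / cu := by
    rw [i2]; field_simp
  have hgk : sa / (C * ct) + sb / (C * cu) = st / ct - su / cu := by
    rw [i5, i6]; field_simp; ring
  have h1 : Λ / c = st / ct - sa / (C * ct) / p := by
    have : Λ = c * (st / ct) - K := by linarith
    rw [this, hKp]; field_simp
  have h2 : Λ / c = su / cu + sb / (C * cu) / q := by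
    have : Λ = c * (su / cu) + K' := by linarith
    rw [this, hKq]; field_simp
  rw [final hsa.ne' hsb.ne' hc.ne' hp0.ne' hq0.ne' hchs hchs' hal hbe hgk h1 h2]
  have hmono : 0 ≤ (p - q) * (Real.log p - Real.log q) := by
    rcases le_total p q with h | h
    · have := Real.log_le_log hp0 h
      exact mul_nonneg_of_nonpos_of_nonpos (sub_nonpos.2 h) (sub_nonpos.2 this)
    · have := Real.log_le_log hq0 h
      exact mul_nonneg (sub_nonneg.2 h) (sub_nonneg.2 this)
  have t1 : 0 ≤ C * (C / (sa * ct)) * (p - 1) ^ 2 := by positivity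
  have t2 : 0 ≤ C * (C / (sb * cu)) * (q - 1) ^ 2 := by positivity
  have t3 : 0 ≤ C / c * ((p - q) * (Real.log p - Real.log q)) := by positivity
  linarith

end Pool.Agent.H92.SM
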