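import Pool.Agent.H92.SM.Props

set_option autoImplicit false

namespace Pool.Agent.H92.SM

open MeasureTheory Matrix Finset Filter Topology Set ProbabilityTheory
open scoped BigOperators
open Pool.Agent.H604R2.SW

namespace CMPaux

theorem Cm_eq {n : ℕ} (β δ : ℝ) (R : Matrix (Fin (n + 2)) (Fin (n + 2)) ℝ) :
    (β ^ 2 * (((n : ℝ) + 2) / ((n : ℝ) + 1))) •
        Cm (2 * δ) ((1 - δ) * (((n : ℝ) + 1) / ((n : ℝ) + 2))) R =
      (β ^ 2 * (1 - δ)) • R +
        (β ^ 2 * (((n : ℝ) + 2) / ((n : ℝ) + 1)) * δ) • (1 : Matrix (Fin (n + 2)) (Fin (n + 2)) ℝ) +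
        Matrix.of (fun _ _ => β ^ 2 * (((n : ℝ) + 2) / ((n : ℝ) + 1)) * δ / ((n : ℝ) + 2)) := by
  have h1 : ((n : ℝ) + 1) ≠ 0 := by positivity
  have h2 : ((n : ℝ) + 2) ≠ 0 := by positivity
  have hcast : ((n + 2 : ℕ) : ℝ) = (n : ℝ) + 2 := by push_cast; ring
  have h3 : ((n : ℝ) + 2 - 1) ≠ 0 := by
    have : (n : ℝ) + 2 - 1 = (n : ℝ) + 1 := by ring
    rw [this]; exact h1
  ext i j
  simp only [Cm, Ek, R0, Matrix.add_apply, Matrix.smul_apply, Matrix.sub_apply, Matrix.of_apply,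
    smul_eq_mul, Fintype.card_fin, hcast, Matrix.one_apply]
  by_cases hij : i = j
  · simp only [hij, if_true]
    field_simp
    ring
  · simp only [hij, if_false]
    field_simp
    ring

theorem lim {N : ℕ} {E : Type} [NormedAddCommGroup E]
    [InnerProductSpace ℝ E] [FiniteDimensional ℝ E] [MeasurableSpace E] [BorelSpace E]
    (x : Fin N → E) (F : (Fin N → ℝ) → ℝ) (hF : Continuous F) (M : ℝ)
    (hM : ∀ y, |F y| ≤ M * (1 + ∑ i, |y i|) ^ 2) (a b c : ℝ → ℝ) (a0 : ℝ)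
    (ha : Tendsto a (𝓝[>] 0) (𝓝 a0)) (hb : Tendsto b (𝓝[>] 0) (𝓝 0))
    (hc : Tendsto c (𝓝[>] 0) (𝓝 0)) :
    Tendsto (fun δ : ℝ => ∫ p, F (fun i => a δ * inner ℝ (x i) p.1.1 + b δ * p.1.2 i + c δ * p.2)
      ∂(((stdGaussian E).prod (stdGaussian (EuclideanSpace ℝ (Fin N)))).prod (gaussianReal 0 1)))
      (𝓝[>] 0) (𝓝 (∫ z, F (fun i => a0 * inner ℝ (x i) z) ∂(stdGaussian E))) := by
  have hM0 : 0 ≤ M := by
    have h := (abs_nonneg _).trans (hM (fun _ => 0))
    simpa using h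
  set μ := ((stdGaussian E).prod (stdGaussian (EuclideanSpace ℝ (Fin N)))).prod (gaussianReal 0 1)
    with hμ
  have hmp : MeasurePreserving (fun p : (E × EuclideanSpace ℝ (Fin N)) × ℝ => p.1.1) μ
      (stdGaussian E) := measurePreserving_fst.comp measurePreserving_fst
  have hlimint : ∫ z, F (fun i => a0 * inner ℝ (x i) z) ∂(stdGaussian E) =
      ∫ p, F (fun i => a0 * inner ℝ (x i) p.1.1 + 0 * p.1.2 i + 0 * p.2) ∂μ := by
    rw [← hmp.map_eq, integral_map hmp.aemeasurable]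
    · simp
    · refine Continuous.aestronglyMeasurable ?_
      refine hF.comp (continuous_pi fun i => ?_)
      fun_prop
  rw [hlimint]
  set B : ℝ := |a0| + 1 with hB
  have hB1 : 1 ≤ B := by rw [hB]; linarith [abs_nonneg a0]
  set K : ℝ := ∑ i : Fin N, B * (‖x i‖ + 1) with hK
  have hK0 : 0 ≤ K := Finset.sum_nonneg fun i _ => by positivity
  have hi1 : Integrable (fun p : (E × EuclideanSpace ℝ (Fin N)) × ℝ => ‖p.1.1‖ ^ 2) μ := by
    have h : Integrable (fun z : E => ‖z‖ ^ 2) (stdGaussian E) :=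
      (IsGaussian.memLp_id (stdGaussian E) 2 (by simp)).integrable_norm_pow (by norm_num)
    exact (h.comp_fst _).comp_fst _
  have hi2 : Integrable (fun p : (E × EuclideanSpace ℝ (Fin N)) × ℝ => ‖p.1.2‖ ^ 2) μ := by
    have h : Integrable (fun z : EuclideanSpace ℝ (Fin N) => ‖z‖ ^ 2)
        (stdGaussian (EuclideanSpace ℝ (Fin N))) :=
      (IsGaussian.memLp_id (stdGaussian _) 2 (by simp)).integrable_norm_pow (by norm_num)
    exact (h.comp_snd (stdGaussian E)).comp_fst _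
  have hi3 : Integrable (fun p : (E × EuclideanSpace ℝ (Fin N)) × ℝ => ‖p.2‖ ^ 2) μ := by
    have h : Integrable (fun z : ℝ => ‖z‖ ^ 2) (gaussianReal 0 1) :=
      (IsGaussian.memLp_id (gaussianReal 0 1) 2 (by simp)).integrable_norm_pow (by norm_num)
    exact h.comp_snd _
  refine tendsto_integral_filter_of_dominated_convergence
    (fun p => M * (4 * (1 + K ^ 2 * ‖p.1.1‖ ^ 2 + K ^ 2 * ‖p.1.2‖ ^ 2 + K ^ 2 * ‖p.2‖ ^ 2)))
    ?_ ?_ ?_ ?_
  · refine Eventually.of_forall fun δ => Continuous.aestronglyMeasurable ?_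
    refine hF.comp (continuous_pi fun i => ?_)
    fun_prop
  · have ea : ∀ᶠ δ in 𝓝[>] (0:ℝ), |a δ| ≤ B := by
      have := (ha.abs).eventually (Iio_mem_nhds (show |a0| < B by rw [hB]; linarith))
      filter_upwards [this] with δ hδ
      exact le_of_lt hδ
    have eb : ∀ᶠ δ in 𝓝[>] (0:ℝ), |b δ| ≤ B := by
      have := (hb.abs).eventually (Iio_mem_nhds (show |(0:ℝ)| < B by rw [abs_zero]; linarith))
      filter_upwards [this] with δ hδ
      exact le_of_lt hδ
    have ec : ∀ᶠ δ in 𝓝[>] (0:ℝ), |c δ| ≤ B := by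
      have := (hc.abs).eventually (Iio_mem_nhds (show |(0:ℝ)| < B by rw [abs_zero]; linarith))
      filter_upwards [this] with δ hδ
      exact le_of_lt hδ
    filter_upwards [ea, eb, ec] with δ h1 h2 h3
    refine Eventually.of_forall fun p => ?_
    rw [Real.norm_eq_abs]
    refine (hM _).trans (mul_le_mul_of_nonneg_left ?_ hM0)
    set u := ‖p.1.1‖ with hu
    set v := ‖p.1.2‖ with hv
    set w := ‖p.2‖ with hw
    have hu0 : 0 ≤ u := norm_nonneg _
    have hv0 : 0 ≤ v := norm_nonneg _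
    have hw0 : 0 ≤ w := norm_nonneg _
    have h4 : ∑ i, |a δ * inner ℝ (x i) p.1.1 + b δ * p.1.2 i + c δ * p.2| ≤ K * (u + v + w) := by
      rw [hK, Finset.sum_mul]
      refine Finset.sum_le_sum fun i _ => ?_
      have e1 : |a δ * inner ℝ (x i) p.1.1| ≤ B * (‖x i‖ * u) := by
        rw [abs_mul]
        exact mul_le_mul h1 (abs_real_inner_le_norm _ _) (abs_nonneg _) (by linarith)
      have e2 : |b δ * p.1.2 i| ≤ B * v := by
        rw [abs_mul]
        exact mul_le_mul h2 (PiLp.norm_apply_le p.1.2 i) (abs_nonneg _) (by linarith)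
      have e3 : |c δ * p.2| ≤ B * w := by
        rw [abs_mul]
        exact mul_le_mul h3 (le_of_eq (Real.norm_eq_abs _).symm) (abs_nonneg _) (by linarith)
      have e4 : |a δ * inner ℝ (x i) p.1.1 + b δ * p.1.2 i + c δ * p.2| ≤
          |a δ * inner ℝ (x i) p.1.1| + |b δ * p.1.2 i| + |c δ * p.2| := abs_add_three _ _ _
      have hx0 : 0 ≤ ‖x i‖ := norm_nonneg _
      have e5 : B * (‖x i‖ * u) + B * v + B * w ≤ B * (‖x i‖ + 1) * (u + v + w) := by
        have : 0 ≤ B * (u + ‖x i‖ * v + ‖x i‖ * w) := by positivity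
        nlinarith
      linarith
    have h5 : 0 ≤ ∑ i, |a δ * inner ℝ (x i) p.1.1 + b δ * p.1.2 i + c δ * p.2| :=
      Finset.sum_nonneg fun _ _ => abs_nonneg _
    have h6 : (1 + ∑ i, |a δ * inner ℝ (x i) p.1.1 + b δ * p.1.2 i + c δ * p.2|) ^ 2 ≤
        (1 + K * u + K * v + K * w) ^ 2 := by
      apply pow_le_pow_left₀ (by linarith)
      linarith
    refine h6.trans ?_
    nlinarith [sq_nonneg (1 - K * u), sq_nonneg (1 - K * v), sq_nonneg (1 - K * w),
      sq_nonneg (K * u - K * v), sq_nonneg (K * u - K * w), sq_nonneg (K * v - K * w)]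
  · refine Integrable.const_mul (Integrable.const_mul ?_ _) _
    exact (((integrable_const 1).add (hi1.const_mul _)).add (hi2.const_mul _)).add (hi3.const_mul _)
  · refine Eventually.of_forall fun p => ?_
    refine (hF.tendsto _).comp (tendsto_pi_nhds.2 fun i => ?_)
    exact ((ha.mul_const _).add (hb.mul_const _)).add (hc.mul_const _)

end CMPaux

open CMPaux in
theorem CMP (hOP : St_OP') (hMIX : St_MIX) (hfun : St_fun) (hsE : St_sE) : St_CMP := by
  intro n E E' _ _ _ _ _ _ _ _ _ _ x y hx hy hyy β hβ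
  have hn1 : (0:ℝ) < (n : ℝ) + 1 := by positivity
  have hn2 : (0:ℝ) < (n : ℝ) + 2 := by positivity
  obtain ⟨-, -, -, -, -, hbc, -, -, hbb, -⟩ := hfun
  have hcont : Continuous (fun w : Fin (n + 2) → ℝ => bf (sE w)) := by
    refine hbc.comp_continuous ?_ fun w => (hsE w).1
    unfold sE
    fun_prop
  have hbd : ∀ w : Fin (n + 2) → ℝ, |bf (sE w)| ≤ ((n : ℝ) + 3) ^ 2 * (1 + ∑ i, |w i|) ^ 2 := by
    intro w
    refine (hbb _ (hsE w).1).trans ?_
    have h1 := (hsE w).2.2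
    have h0 : 0 ≤ ∑ i, |w i| := Finset.sum_nonneg fun _ _ => abs_nonneg _
    rw [← mul_pow]
    apply pow_le_pow_left₀ (by positivity)
    rw [Fintype.card_fin] at h1
    push_cast at h1
    nlinarith
  -- the Gram matrices
  set R : Matrix (Fin (n + 2)) (Fin (n + 2)) ℝ := Matrix.gram ℝ x with hR
  have hRi : ∀ i j, inner ℝ (x i) (x j) = R i j := fun i j => by rw [hR, Matrix.gram_apply]
  have hRc : Corr R := by
    refine ⟨Matrix.posSemidef_gram ℝ x, fun i => ?_⟩
    rw [← hRi, real_inner_self_eq_norm_sq, hx i]; norm_num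
  have hS : ∀ i j, inner ℝ (y i) (y j) = R0 (Fin (n + 2)) i j := by
    intro i j
    unfold R0
    rw [Matrix.of_apply, Fintype.card_fin]
    by_cases hij : i = j
    · rw [if_pos hij, ← hij, real_inner_self_eq_norm_sq, hy i]; norm_num
    · rw [if_neg hij, hyy i j hij]
      push_cast
      congr 1
      ring
  set c : ℝ := β ^ 2 * (((n : ℝ) + 2) / ((n : ℝ) + 1)) with hc
  have hc0 : 0 < c := by positivity
  -- the limits of the coefficients
  have hA : Tendsto (fun δ : ℝ => Real.sqrt (β ^ 2 * (1 - δ))) (𝓝[>] 0) (𝓝 β) := by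
    have h : Tendsto (fun δ : ℝ => Real.sqrt (β ^ 2 * (1 - δ))) (𝓝 0)
        (𝓝 (Real.sqrt (β ^ 2 * (1 - 0)))) := by
      refine Continuous.tendsto ?_ 0
      fun_prop
    rw [sub_zero, mul_one, Real.sqrt_sq hβ.le] at h
    exact h.mono_left nhdsWithin_le_nhds
  have hBt : Tendsto (fun δ : ℝ => Real.sqrt (c * δ)) (𝓝[>] 0) (𝓝 0) := by
    have h : Tendsto (fun δ : ℝ => Real.sqrt (c * δ)) (𝓝 0) (𝓝 (Real.sqrt (c * 0))) := by
      refine Continuous.tendsto ?_ 0
      fun_prop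
    rw [mul_zero, Real.sqrt_zero] at h
    exact h.mono_left nhdsWithin_le_nhds
  have hCt : Tendsto (fun δ : ℝ => Real.sqrt (c * δ / ((n : ℝ) + 2))) (𝓝[>] 0) (𝓝 0) := by
    have h : Tendsto (fun δ : ℝ => Real.sqrt (c * δ / ((n : ℝ) + 2))) (𝓝 0)
        (𝓝 (Real.sqrt (c * 0 / ((n : ℝ) + 2)))) := by
      refine Continuous.tendsto ?_ 0
      fun_prop
    rw [mul_zero, zero_div, Real.sqrt_zero] at h
    exact h.mono_left nhdsWithin_le_nhds
  have hx' := lim x (fun w => bf (sE w)) hcont _ hbd _ _ _ β hA hBt hCt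
  have hy' := lim y (fun w => bf (sE w)) hcont _ hbd _ _ _ β hA hBt hCt
  refine le_of_tendsto_of_tendsto hx' hy' ?_
  filter_upwards [Ioo_mem_nhdsGT (show (0:ℝ) < 1 by norm_num)] with δ hδ
  have hd0 : 0 < δ := hδ.1
  have hd1 : δ < 1 := hδ.2
  have h1 := hOP c (2 * δ) ((1 - δ) * (((n : ℝ) + 1) / ((n : ℝ) + 2))) R hc0 (by linarith)
    (by have : 0 < 1 - δ := by linarith
        positivity) (by
      have : (1 - δ) * (((n : ℝ) + 1) / ((n : ℝ) + 2)) * ((n : ℝ) + 2) / ((n : ℝ) + 1) = 1 - δ := by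
        field_simp
      rw [this]; linarith) hRc
  have h2 : Ek (Fin (n + 2)) (2 * δ) =
      Cm (2 * δ) ((1 - δ) * (((n : ℝ) + 1) / ((n : ℝ) + 2))) (R0 (Fin (n + 2))) := by
    unfold Cm
    rw [sub_self, smul_zero, add_zero]
  rw [h2, hc, Cm_eq β δ R, Cm_eq β δ (R0 (Fin (n + 2))), ← hc] at h1
  have hp1 : 0 ≤ β ^ 2 * (1 - δ) := by
    have : 0 < 1 - δ := by linarith
    positivity
  rw [hMIX x R hRi _ _ _ hp1 (by positivity) (by positivity),
    hMIX y (R0 (Fin (n + 2))) hS _ _ _ hp1 (by positivity) (by positivity)] at h1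
  exact h1

end Pool.Agent.H92.SM
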