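import Pool.Agent.H92.SM.Props
import Pool.Graph.R_pool_sql_team_seeded_f0cf7b00.H604R2.SW.T_refl

set_option autoImplicit false

namespace Pool.Agent.H92.SM

open MeasureTheory Matrix Finset Filter Topology Set ProbabilityTheory
open scoped BigOperators
open Pool.Agent.H604R2.SW

theorem D1 : St_D1 := by
  intro n C hC h00
  have hs := @Trefl.sym _ _ C hC
  set D : ℝ := C 0 0 - C 0 1 with hD
  let u : Fin (n + 2) → ℝ := Pi.single 0 1 - Pi.single 1 1
  have h01 : (0 : Fin (n + 2)) ≠ 1 := by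
    intro h; exact absurd (congrArg Fin.val h) (by simp)
  have hCu : ∀ i, (C *ᵥ u) i = C i 0 - C i 1 := by
    intro i
    show (C *ᵥ (Pi.single 0 1 - Pi.single 1 1)) i = _
    rw [Matrix.mulVec_sub]
    simp
  have hu : ∀ x : Fin (n + 2) → ℝ, u ⬝ᵥ x = x 0 - x 1 := by
    intro x
    show (Pi.single 0 1 - Pi.single 1 1) ⬝ᵥ x = _
    rw [sub_dotProduct]
    simp
  have hq : u ⬝ᵥ (C *ᵥ u) = 2 * D := by
    rw [hu, hCu, hCu, hs 1 0, ← h00, hD]
    ring
  have hu0 : u ≠ 0 := by
    intro h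
    have := congrFun h 0
    simp [u, h01] at this
  have hDpos : 0 < D := by
    have := hC.dotProduct_mulVec_pos hu0
    rw [star_trivial, hq] at this
    linarith
  refine ⟨hDpos, fun t w => ?_⟩
  have hvw : pt C t w = vec (w 0) (w 0) (fun j => w j.succ) + (t / D) • (C *ᵥ u) := by
    funext i
    unfold pt
    rw [Pi.add_apply, Pi.smul_apply, hCu, smul_eq_mul]
    refine Fin.cases ?_ (fun i => Fin.cases ?_ (fun j => ?_) i) i
    · simp only [Pool.Agent.H604R2.SW.vec, Matrix.cons_val_zero]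
      rw [← hD]
      field_simp
    · simp only [Pool.Agent.H604R2.SW.vec]
      have e1 : (Fin.succ (0 : Fin (n + 1))) = (1 : Fin (n + 2)) := rfl
      rw [e1, hs 1 0, ← h00]
      simp only [Matrix.cons_val_one, Matrix.cons_val_zero]
      have : C 0 1 - C 0 0 = - D := by rw [hD]; ring
      rw [this]
      field_simp
      ring
    · simp only [Pool.Agent.H604R2.SW.vec, Matrix.cons_val_succ]
      rw [hs j.succ.succ 0, hs j.succ.succ 1]
      unfold kap
      rw [← hD]
      field_simp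
  unfold Dd Pool.Agent.H604R2.SW.dens
  rw [hvw, Trefl.quad hC, hq, dotProduct_comm (vec (w 0) (w 0) fun j => w j.succ) u, hu]
  have e0 : vec (w 0) (w 0) (fun j => w j.succ) 0 = w 0 := by simp [Pool.Agent.H604R2.SW.vec]
  have e1 : vec (w 0) (w 0) (fun j => w j.succ) 1 = w 0 := by simp [Pool.Agent.H604R2.SW.vec]
  rw [e0, e1, mul_left_comm (Real.exp (-(t ^ 2 / D))), ← Real.exp_add]
  congr 2
  field_simp
  ring

end Pool.Agent.H92.SM
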