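import Pool.Agent.H92.SM.Props

set_option autoImplicit false

namespace Pool.Agent.H92.SM

open MeasureTheory Finset Filter Topology Set ProbabilityTheory
open scoped BigOperators
open Pool.Agent.H604R2.SW

namespace D2aux

variable {n : ℕ}

/-- The linear map `(t, w) ↦ (w 0 + t, w 0 - t, w 1 + t κ 0, ...)`. -/
noncomputable def fwd (κ : Fin n → ℝ) : (ℝ × (Fin (n + 1) → ℝ)) →ₗ[ℝ] (Fin (n + 2) → ℝ) where
  toFun p := H604R2.SW.vec (p.2 0 + p.1) (p.2 0 - p.1) (fun j => p.2 j.succ + p.1 * κ j)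
  map_add' p q := by
    funext i
    refine Fin.cases ?_ (fun i => ?_) i
    · simp [H604R2.SW.vec]; ring
    · refine Fin.cases ?_ (fun i => ?_) i
      · simp [H604R2.SW.vec]; ring
      · simp [H604R2.SW.vec]; ring
  map_smul' c p := by
    funext i
    refine Fin.cases ?_ (fun i => ?_) i
    · simp [H604R2.SW.vec]; ring
    · refine Fin.cases ?_ (fun i => ?_) i
      · simp [H604R2.SW.vec]; ring
      · simp [H604R2.SW.vec]; ring

/-- Its inverse. -/
noncomputable def bwd (κ : Fin n → ℝ) : (Fin (n + 2) → ℝ) →ₗ[ℝ] (ℝ × (Fin (n + 1) → ℝ)) where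
  toFun x := ((x 0 - x 1) / 2,
    Matrix.vecCons ((x 0 + x 1) / 2) (fun j => x j.succ.succ - (x 0 - x 1) / 2 * κ j))
  map_add' x y := by
    refine Prod.ext ?_ ?_
    · simp; ring
    · funext i
      refine Fin.cases ?_ (fun i => ?_) i
      · simp; ring
      · simp; ring
  map_smul' c x := by
    refine Prod.ext ?_ ?_
    · simp; ring
    · funext i
      refine Fin.cases ?_ (fun i => ?_) i
      · simp; ring
      · simp; ring

theorem fwd_bwd (κ : Fin n → ℝ) (x : Fin (n + 2) → ℝ) : fwd κ (bwd κ x) = x := by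
  funext i
  refine Fin.cases ?_ (fun i => ?_) i
  · simp [fwd, bwd, H604R2.SW.vec]; ring
  · refine Fin.cases ?_ (fun i => ?_) i
    · simp [fwd, bwd, H604R2.SW.vec]; ring
    · simp [fwd, bwd, H604R2.SW.vec]

theorem bwd_fwd (κ : Fin n → ℝ) (p : ℝ × (Fin (n + 1) → ℝ)) : bwd κ (fwd κ p) = p := by
  refine Prod.ext ?_ ?_
  · simp [fwd, bwd, H604R2.SW.vec]
  · funext i
    refine Fin.cases ?_ (fun i => ?_) i
    · simp [fwd, bwd, H604R2.SW.vec]
    · simp [fwd, bwd, H604R2.SW.vec]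

/-- The linear equivalence. -/
noncomputable def eqv (κ : Fin n → ℝ) : (ℝ × (Fin (n + 1) → ℝ)) ≃L[ℝ] (Fin (n + 2) → ℝ) :=
  LinearEquiv.toContinuousLinearEquiv
    (LinearEquiv.ofLinearMap (fwd κ) (bwd κ) (LinearMap.ext (fwd_bwd κ)) (LinearMap.ext (bwd_fwd κ)))

theorem eqv_apply (κ : Fin n → ℝ) (p : ℝ × (Fin (n + 1) → ℝ)) :
    eqv κ p = H604R2.SW.vec (p.2 0 + p.1) (p.2 0 - p.1) (fun j => p.2 j.succ + p.1 * κ j) := rfl

end D2aux

open D2aux in
theorem D2 : St_D2 := by
  intro n κ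
  set μ : Measure (Fin (n + 2) → ℝ) :=
    Measure.map (eqv κ) ((volume : Measure ℝ).prod (volume : Measure (Fin (n + 1) → ℝ))) with hμ
  have hH : Measure.IsAddHaarMeasure μ :=
    ContinuousLinearEquiv.isAddHaarMeasure_map (eqv κ) _
  obtain ⟨c, hc, hvol⟩ : ∃ c : NNReal, 0 < c ∧ (volume : Measure (Fin (n + 2) → ℝ)) = c • μ :=
    ⟨Measure.addHaarScalarFactor (volume : Measure (Fin (n + 2) → ℝ)) μ,
      Measure.addHaarScalarFactor_pos_of_isAddHaarMeasure _ _,
      Measure.isAddLeftInvariant_eq_smul _ _⟩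
  refine ⟨(c : ℝ), by exact_mod_cast hc, ?_⟩
  intro F hFc hFi
  have hme : MeasurableEmbedding (eqv κ) := (eqv κ).toHomeomorph.measurableEmbedding
  have hFμ : Integrable F μ := by
    rw [hvol] at hFi
    have h2 : Integrable F ((c : ENNReal) • μ) := hFi
    exact (integrable_smul_measure (by exact_mod_cast hc.ne') (by simp)).1 h2
  have hI : Integrable (fun p : ℝ × (Fin (n + 1) → ℝ) => F (eqv κ p))
      ((volume : Measure ℝ).prod (volume : Measure (Fin (n + 1) → ℝ))) := by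
    rw [hμ, hme.integrable_map_iff] at hFμ
    exact hFμ
  refine ⟨hI.integral_prod_left, ?_⟩
  rw [hvol, integral_smul_nnreal_measure, hμ, hme.integral_map, integral_prod _ hI]
  rfl

end Pool.Agent.H92.SM
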