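import Pool.Agent.H92.SM.Props
import Pool.Graph.R_pool_sql_team_seeded_f0cf7b00.H604R2.SW.T_int

set_option autoImplicit false

namespace Pool.Agent.H92.SM

open MeasureTheory Matrix Finset Filter Topology Set ProbabilityTheory
open scoped BigOperators
open Pool.Agent.H604R2.SW

/-- Functions of quadratic growth are integrable against the density. -/
theorem int_growth (hdom : St_dom) {ι : Type} [Fintype ι] [DecidableEq ι] (C : Matrix ι ι ℝ)
    (hC : C.PosDef) (φ : (ι → ℝ) → ℝ) (hφ : Continuous φ)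
    (hb : ∃ M, ∀ x, |φ x| ≤ M * (1 + ∑ i, |x i|) ^ 2) :
    Integrable (fun x => φ x * dens C x) := by
  obtain ⟨K, hK⟩ := hb
  obtain ⟨ε, hε, c, hc, M, hM, hD⟩ := hdom C hC
  obtain ⟨-, h1, -, -⟩ := hD C hC.1 (fun i j => by rw [sub_self, abs_zero]; exact hε)
  have hg := int_gauss (ι := ι) c hc
  refine (hg.const_mul (|K| * M)).mono' (hφ.mul (int_cont C).1).aestronglyMeasurable
    (Eventually.of_forall fun x => ?_)
  rw [Real.norm_eq_abs, abs_mul, abs_of_nonneg (int_dens_nonneg C x)]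
  have e1 : |φ x| ≤ |K| * (1 + ∑ i, |x i|) ^ 2 :=
    (hK x).trans (mul_le_mul_of_nonneg_right (le_abs_self K) (sq_nonneg _))
  calc |φ x| * dens C x
      ≤ (|K| * (1 + ∑ i, |x i|) ^ 2) * (M * Real.exp (-c * ∑ i, x i ^ 2)) :=
        mul_le_mul e1 (h1 x) (int_dens_nonneg C x) (by positivity)
    _ = |K| * M * ((1 + ∑ i, |x i|) ^ 2 * Real.exp (-c * ∑ i, x i ^ 2)) := by ring

theorem DIS (hdom : St_dom) (h1 : St_D1) (h2 : St_D2) : St_DIS := by
  intro n C hC h01
  obtain ⟨hd, hD⟩ := h1 C hC h01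
  refine ⟨hd, ?_⟩
  obtain ⟨c, hc, hF⟩ := h2 (kap C)
  refine ⟨c, hc, fun φ hφ hb => ?_⟩
  have hint := int_growth hdom C hC φ hφ hb
  have h := (hF (fun x => φ x * dens C x) (hφ.mul (int_cont C).1) hint).2
  rw [h]
  congr 1
  refine integral_congr_ae (Eventually.of_forall fun t => ?_)
  simp only
  rw [← integral_const_mul]
  refine integral_congr_ae (Eventually.of_forall fun w => ?_)
  have e := hD t w
  unfold pt at e ⊢
  simp only
  rw [e]
  ring

end Pool.Agent.H92.SM
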