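import Pool.Agent.H92.SM.Props

/-!
# EDER: derivative of `Ef` along curves (helper249)
-/

set_option autoImplicit false

namespace Pool.Agent.H92.SM

theorem EDERaux_tanh (t : ℝ) : HasDerivAt Real.tanh (1 / Real.cosh t ^ 2) t := by
  have hc : Real.cosh t ≠ 0 := (Real.cosh_pos t).ne'
  have h1 : HasDerivAt (fun t => Real.sinh t / Real.cosh t)
      ((Real.cosh t * Real.cosh t - Real.sinh t * Real.sinh t) / Real.cosh t ^ 2) t :=
    (Real.hasDerivAt_sinh t).div (Real.hasDerivAt_cosh t) hc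
  have h2 : (fun t => Real.sinh t / Real.cosh t) = Real.tanh := by
    funext t
    rw [Real.tanh_eq_sinh_div_cosh]
  have h3 : Real.cosh t * Real.cosh t - Real.sinh t * Real.sinh t = 1 := by
    have := Real.cosh_sq t
    nlinarith
  rwa [h2, h3] at h1

theorem EDERaux_alg (K K' c sh S C1 D f' x' y' Tt Tu : ℝ) (hK : K ≠ 0) (hc : c ≠ 0)
    (hKK : K + K' = D * (Tu - Tt)) :
    f' * x' + ((y' - x') * (S ^ 2 / (c * K)) + D * (((2 * S * (C1 * x')) * (c * K) -
      S ^ 2 * ((sh * x') * K + c * (Tu * y' - Tt * x' - ((y' - x') * Tt + D * (1 / c ^ 2 * x'))))) /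
        (c * K) ^ 2)) =
    (f' - S ^ 2 / (c * K) + D * ((2 * S * C1 / c - S ^ 2 * sh / c ^ 2) / K +
      S ^ 2 / (c * K) * (D / c ^ 2) / K)) * x' + -(S ^ 2 / (c * K) * K' / K) * y' := by
  have h : K' = D * (Tu - Tt) - K := by linarith
  rw [h]
  field_simp
  ring

theorem EDER (hk : St_KPA) : St_EDER := by
  intro f x y x' y' s hx hy hxy
  obtain ⟨h1, -, h3, -⟩ := hk
  have hK : 0 < Kp (x s) (y s) := h3 _ _ hxy
  have hc : 0 < Real.cosh (x s) := Real.cosh_pos _
  have hlx : HasDerivAt (fun s => lc (x s)) (Real.tanh (x s) * x') s := (h1 (x s)).comp s hx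
  have hly : HasDerivAt (fun s => lc (y s)) (Real.tanh (y s) * y') s := (h1 (y s)).comp s hy
  have htx : HasDerivAt (fun s => Real.tanh (x s)) (1 / Real.cosh (x s) ^ 2 * x') s :=
    (EDERaux_tanh (x s)).comp s hx
  have hKd : HasDerivAt (fun s => Kp (x s) (y s)) (Real.tanh (y s) * y' - Real.tanh (x s) * x' -
      ((y' - x') * Real.tanh (x s) + (y s - x s) * (1 / Real.cosh (x s) ^ 2 * x'))) s :=
    (hly.sub hlx).sub ((hy.sub hx).mul htx)
  have hS : HasDerivAt (fun s => Real.sinh (x s - f)) (Real.cosh (x s - f) * x') s :=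
    (hx.sub_const f).sinh
  have hS2 : HasDerivAt (fun s => Real.sinh (x s - f) ^ 2)
      (2 * Real.sinh (x s - f) * (Real.cosh (x s - f) * x')) s := by
    have h := hS.fun_pow 2
    refine h.congr_deriv ?_
    norm_num
  have hC : HasDerivAt (fun s => Real.cosh (x s)) (Real.sinh (x s) * x') s := hx.cosh
  have hP := hS2.div (hC.mul hKd) (mul_pos hc hK).ne'
  have hE0 : HasDerivAt (fun s => Real.sinh (x s - 2 * f)) (Real.cosh (x s - 2 * f) * x') s :=
    (hx.sub_const (2 * f)).sinh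
  have hall := hE0.add ((hy.sub hx).mul hP)
  have hKK : Kp (x s) (y s) + Kp (y s) (x s) =
      (y s - x s) * (Real.tanh (y s) - Real.tanh (x s)) := by
    unfold Kp
    ring
  have halg := EDERaux_alg (Kp (x s) (y s)) (Kp (y s) (x s)) (Real.cosh (x s)) (Real.sinh (x s))
    (Real.sinh (x s - f)) (Real.cosh (x s - f)) (y s - x s) (Real.cosh (x s - 2 * f)) x' y'
    (Real.tanh (x s)) (Real.tanh (y s)) hK.ne' hc.ne' hKK
  refine HasDerivAt.congr_deriv hall ?_
  unfold E1 E2 Pf
  exact halg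

end Pool.Agent.H92.SM
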