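import Pool.Agent.H92.SM.Props

/-!
# MP_72ffec_pr: elementary facts on `B`, `Φ = B'`, `K = -B''` (task FUN, helper278)
-/

set_option autoImplicit false

namespace Pool.Agent.H92.SM

open MeasureTheory Matrix Finset Filter Topology Set ProbabilityTheory
open scoped BigOperators
open Pool.Agent.H604R2.SW

namespace FUNaux

/-- gluing at `y = 1` -/
theorem glue (g h g' h' : ℝ → ℝ) (hg : ∀ y, 1 ≤ y → HasDerivAt g (g' y) y)
    (hh : ∀ y, y ≤ 1 → HasDerivAt h (h' y) y) (h1 : g 1 = h 1) (h2 : g' 1 = h' 1) (y : ℝ) :
    HasDerivAt (fun y => if 1 ≤ y then g y else h y) (if 1 ≤ y then g' y else h' y) y := by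
  rcases lt_trichotomy y 1 with hy | hy | hy
  · rw [if_neg (not_le.2 hy)]
    refine (hh y hy.le).congr_of_eventuallyEq ?_
    filter_upwards [eventually_lt_nhds hy] with z hz
    rw [if_neg (not_le.2 hz)]
  · subst hy
    rw [if_pos le_rfl]
    have hr : HasDerivWithinAt (fun y => if 1 ≤ y then g y else h y) (g' 1) (Ici 1) 1 := by
      refine (hg 1 le_rfl).hasDerivWithinAt.congr (fun z hz => ?_) ?_
      · exact if_pos hz
      · exact if_pos le_rfl
    have hl : HasDerivWithinAt (fun y => if 1 ≤ y then g y else h y) (g' 1) (Iic 1) 1 := by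
      rw [h2]
      refine (hh 1 le_rfl).hasDerivWithinAt.congr (fun z hz => ?_) ?_
      · have hz' : z ≤ 1 := hz
        by_cases hz1 : 1 ≤ z
        · have : z = 1 := le_antisymm hz' hz1
          subst this
          rw [if_pos le_rfl, h1]
        · exact if_neg hz1
      · rw [if_pos le_rfl, h1]
    have := hl.union hr
    rw [Iic_union_Ici] at this
    exact hasDerivWithinAt_univ.1 this
  · rw [if_pos hy.le]
    refine (hg y hy.le).congr_of_eventuallyEq ?_
    filter_upwards [eventually_gt_nhds hy] with z hz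
    rw [if_pos (le_of_lt hz)]

theorem d_bf (y : ℝ) : HasDerivAt bf (ph y) y := by
  have h := glue (fun y => (Real.log y + 1) ^ 2) (fun y => 2 * y - 1)
    (fun y => 2 * (Real.log y + 1) / y) (fun _ => 2) (fun y hy => by
      have hy0 : y ≠ 0 := by linarith
      have h1 := ((Real.hasDerivAt_log hy0).add_const 1).pow 2
      refine HasDerivAt.congr_deriv (f := fun y => (Real.log y + 1) ^ 2) h1 ?_
      push_cast
      rw [div_eq_mul_inv]
      ring) (fun y _ => by
      simpa using ((hasDerivAt_id y).const_mul 2).sub_const 1) (by simp; norm_num) (by simp) y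
  exact h

theorem d_ph (y : ℝ) : HasDerivAt ph (-kr y) y := by
  have h := glue (fun y => 2 * (Real.log y + 1) / y) (fun _ => 2)
    (fun y => -(2 * Real.log y / y ^ 2)) (fun _ => 0) (fun y hy => by
      have hy0 : y ≠ 0 := by linarith
      have h1 := (((Real.hasDerivAt_log hy0).add_const 1).const_mul 2).div (hasDerivAt_id y) hy0
      refine HasDerivAt.congr_deriv (f := fun y => 2 * (Real.log y + 1) / y) h1 ?_
      simp only [id]
      field_simp
      ring) (fun y _ => hasDerivAt_const y 2) (by simp) (by simp) y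
  have e : (if 1 ≤ y then -(2 * Real.log y / y ^ 2) else 0) = - kr y := by
    unfold kr
    split_ifs <;> simp
  rw [e] at h
  exact h

theorem log2 {y : ℝ} (hy : 0 < y) : 2 * Real.log y ≤ y := by
  have h1 := Real.log_le_sub_one_of_pos (by positivity : 0 < y / 2)
  rw [Real.log_div hy.ne' two_ne_zero] at h1
  have h2 := Real.log_le_sub_one_of_pos (by norm_num : (0:ℝ) < 2)
  linarith

theorem ph_pos {y : ℝ} (_hy : 0 < y) : 0 < ph y := by
  unfold ph
  split_ifs with h
  · have := Real.log_nonneg h
    positivity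
  · norm_num

theorem kr_nonneg {y : ℝ} (_hy : 0 < y) : 0 ≤ kr y := by
  unfold kr
  split_ifs with h
  · have := Real.log_nonneg h
    positivity
  · exact le_rfl

theorem ph_anti {y y' : ℝ} (hy : 0 < y) (h : y ≤ y') : ph y' ≤ ph y := by
  have h1 : AntitoneOn ph (Ioi 0) := by
    refine antitoneOn_of_deriv_nonpos (convex_Ioi 0)
      (fun z _ => (d_ph z).continuousAt.continuousWithinAt)
      (fun z _ => (d_ph z).differentiableAt.differentiableWithinAt) (fun z hz => ?_)
    rw [interior_Ioi] at hz
    rw [(d_ph z).deriv]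
    exact neg_nonpos.2 (kr_nonneg hz)
  exact h1 hy (lt_of_lt_of_le hy h) h

/-- the logarithm of `ph ∘ exp` -/
noncomputable def hh (v : ℝ) : ℝ := Real.log (ph (Real.exp v))

theorem d_hh (v : ℝ) : HasDerivAt hh (-(max v 0 / (1 + max v 0))) v := by
  have he := Real.exp_pos v
  have h1 := ((d_ph (Real.exp v)).comp v (Real.hasDerivAt_exp v)).log (ph_pos he).ne'
  have e : -kr (Real.exp v) * Real.exp v / ph (Real.exp v) = -(max v 0 / (1 + max v 0)) := by
    by_cases hv : 0 ≤ v
    · have h2 : 1 ≤ Real.exp v := Real.one_le_exp hv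
      have h3 : (1 + v : ℝ) ≠ 0 := by linarith
      unfold kr ph
      rw [if_pos h2, if_pos h2, Real.log_exp, max_eq_left hv]
      field_simp
      ring
    · have h2 : ¬ 1 ≤ Real.exp v := by
        rw [not_le, Real.exp_lt_one_iff]
        exact not_le.1 hv
      unfold kr
      rw [if_neg h2, max_eq_right (not_le.1 hv).le]
      simp
  rw [← e]
  exact h1

theorem conc : ConcaveOn ℝ univ hh := by
  refine Antitone.concaveOn_univ_of_deriv (fun v => (d_hh v).differentiableAt) ?_
  intro v v' h
  rw [(d_hh v).deriv, (d_hh v').deriv]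
  have h1 : max v 0 ≤ max v' 0 := max_le_max h le_rfl
  have h2 : (0:ℝ) ≤ max v 0 := le_max_right _ _
  have h3 : (0:ℝ) ≤ max v' 0 := le_max_right _ _
  rw [neg_le_neg_iff, div_le_div_iff₀ (by linarith) (by linarith)]
  nlinarith

theorem logc (y y' ε : ℝ) (hy : 0 < y) (hy' : 0 < y') (h0 : 0 < ε) (h1 : ε < 1) :
    ph y ^ (1 - ε) * ph y' ^ ε ≤ ph (y ^ (1 - ε) * y' ^ ε) := by
  have hc := conc.2 (mem_univ (Real.log y)) (mem_univ (Real.log y')) (by linarith : 0 ≤ 1 - ε)
    h0.le (by ring)
  have hp : 0 < y ^ (1 - ε) * y' ^ ε := by positivity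
  have e : (1 - ε) • Real.log y + ε • Real.log y' = Real.log (y ^ (1 - ε) * y' ^ ε) := by
    rw [Real.log_mul (by positivity) (by positivity), Real.log_rpow hy, Real.log_rpow hy']
    rfl
  rw [e] at hc
  unfold hh at hc
  rw [Real.exp_log hy, Real.exp_log hy', Real.exp_log hp, smul_eq_mul, smul_eq_mul] at hc
  have h2 := ph_pos hy
  have h3 := ph_pos hy'
  have h4 := ph_pos hp
  rw [Real.rpow_def_of_pos h2, Real.rpow_def_of_pos h3, ← Real.exp_add, ← Real.exp_log h4]
  refine Real.exp_le_exp.2 ?_
  linarith

end FUNaux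

open FUNaux in
theorem FUN : St_fun := by
  refine ⟨fun y _ => d_bf y, fun y _ => d_ph y, fun y hy => ⟨ph_pos hy, ?_, ?_⟩,
    fun y hy => ⟨kr_nonneg hy, ?_, ?_⟩, fun y hy => ?_,
    fun y _ => (d_bf y).continuousAt.continuousWithinAt,
    fun y _ => (d_ph y).continuousAt.continuousWithinAt, ?_, fun y hy => ?_, fun y hy => ?_,
    fun y y' hy h => ph_anti hy h, ?_, ?_, ?_, ?_⟩
  · unfold ph
    split_ifs with h
    · rw [div_le_iff₀ hy]
      have := Real.log_le_sub_one_of_pos hy
      linarith
    · exact le_rfl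
  · unfold ph
    have h0 := abs_nonneg (Real.log y)
    split_ifs with h
    · rw [mul_div_cancel₀ _ hy.ne']
      have := le_abs_self (Real.log y)
      linarith
    · linarith [not_le.1 h]
  · unfold kr
    split_ifs with h
    · have := log2 hy
      rw [pow_two, mul_div_assoc', mul_div_mul_left _ _ hy.ne', div_le_one hy]
      exact this
    · simp
  · unfold kr
    split_ifs with h
    · rw [mul_div_cancel₀ _ (by positivity)]
      have := le_abs_self (Real.log y)
      linarith
    · have h0 := abs_nonneg (Real.log y)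
      rw [mul_zero]
      linarith
  · unfold kr
    rw [if_pos hy.le]
    have := Real.log_pos hy
    positivity
  · have h1 : ContinuousOn (fun y : ℝ => 2 * max (Real.log y) 0 / y ^ 2) (Ioi 0) := by
      refine ContinuousOn.div ?_ (by fun_prop) (fun y hy => ?_)
      · refine continuousOn_const.mul (ContinuousOn.sup ?_ continuousOn_const)
        exact Real.continuousOn_log.mono (fun y hy => (ne_of_gt hy : y ≠ 0))
      · have : (0:ℝ) < y := hy
        positivity
    refine h1.congr (fun y hy => ?_)
    have hy' : (0:ℝ) < y := hy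
    show kr y = 2 * max (Real.log y) 0 / y ^ 2
    unfold kr
    split_ifs with h
    · rw [max_eq_left (Real.log_nonneg h)]
    · rw [max_eq_right (Real.log_nonpos hy'.le (not_le.1 h).le)]
      simp
  · unfold bf
    have h0 := abs_nonneg (Real.log y)
    split_ifs with h
    · have h1 := Real.log_nonneg h
      rw [abs_of_nonneg h1, abs_of_nonneg (by positivity), add_comm]
    · have h1 := not_le.1 h
      rw [abs_le]
      constructor <;> nlinarith
  · unfold bf
    split_ifs with h
    · rw [min_eq_right (Real.log_nonneg h)]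
      simp
    · rw [min_eq_left (Real.log_nonpos hy.le (not_le.1 h).le)]
      have := Real.log_le_sub_one_of_pos hy
      nlinarith
  · first
      | exact logc
      | exact fun y y' ε _ _ h0 h1 => absurd h1 (by omega)
  · exact Measurable.ite measurableSet_Ici (by fun_prop) (by fun_prop)
  · exact Measurable.ite measurableSet_Ici (by fun_prop) (by fun_prop)
  · exact Measurable.ite measurableSet_Ici (by fun_prop) (by fun_prop)

end Pool.Agent.H92.SM
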