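import Pool.Agent.H92.SM.Props
import Pool.Graph.R_pool_sql_team_seeded_f0cf7b00.H604R2.SW.T_pl

/-!
# SM, HD and GB (by helper784): the base density; bounds and continuity of `G`
-/

set_option autoImplicit false

namespace Pool.Agent.H92.SM

open MeasureTheory Matrix Finset Filter Topology Set ProbabilityTheory
open scoped BigOperators
open Pool.Agent.H604R2.SW

namespace GBaux

variable {n : ℕ}

theorem vec_eq (w : Fin (n + 1) → ℝ) :
    vec (w 0) (w 0) (fun j => w j.succ) = Matrix.vecCons (w 0) w := by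
  unfold Pool.Agent.H604R2.SW.vec
  congr 1
  funext i
  refine Fin.cases ?_ (fun i => ?_) i
  · rfl
  · rfl

theorem ell_cont : Continuous (fun w : Fin (n + 1) → ℝ =>
    (Matrix.vecCons (w 0) w : Fin (n + 2) → ℝ)) := by
  apply continuous_pi
  intro i
  refine Fin.cases ?_ (fun i => ?_) i
  · simpa using continuous_apply (0 : Fin (n + 1))
  · simpa using continuous_apply i

theorem ell_comb (ε : ℝ) (w w' : Fin (n + 1) → ℝ) :
    (Matrix.vecCons (((1 - ε) • w + ε • w') 0) ((1 - ε) • w + ε • w') : Fin (n + 2) → ℝ) =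
      (1 - ε) • Matrix.vecCons (w 0) w + ε • Matrix.vecCons (w' 0) w' := by
  funext i
  refine Fin.cases ?_ (fun i => ?_) i
  · simp
  · simp

theorem ell_sq (w : Fin (n + 1) → ℝ) :
    ∑ i, w i ^ 2 ≤ ∑ i, (Matrix.vecCons (w 0) w : Fin (n + 2) → ℝ) i ^ 2 := by
  rw [Fin.sum_univ_succ (n := n + 1)]
  simp only [Matrix.cons_val_zero, Matrix.cons_val_succ]
  have := sq_nonneg (w 0)
  linarith

theorem dens_pos {ι : Type} [Fintype ι] [DecidableEq ι] {C : Matrix ι ι ℝ} (hC : C.PosDef)
    (x : ι → ℝ) : 0 < dens C x := by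
  unfold Pool.Agent.H604R2.SW.dens
  have h1 := hC.det_pos
  have h2 : 0 < (2 * Real.pi) ^ (Fintype.card ι) * C.det := by
    have := Real.pi_pos
    positivity
  have h3 := Real.sqrt_pos.2 h2
  have h4 := Real.exp_pos (-(x ⬝ᵥ (C⁻¹ *ᵥ x)) / 2)
  positivity

/-! ### `Yg` -/

theorem ys_pos (v : Fin (n + 1) → ℝ) (k : Fin (n + 1)) : 0 < ys v k := by
  unfold ys
  have := Real.exp_pos (v k)
  split_ifs <;> positivity

theorem Yg_pos (v : Fin (n + 1) → ℝ) : 0 < Yg v := by
  unfold Yg
  exact Finset.sum_pos (fun k _ => ys_pos v k) Finset.univ_nonempty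

theorem ys_le (v : Fin (n + 1) → ℝ) (k : Fin (n + 1)) : ys v k ≤ Yg v := by
  unfold Yg
  exact Finset.single_le_sum (fun k _ => (ys_pos v k).le) (Finset.mem_univ k)

theorem ys_cont (k : Fin (n + 1)) : Continuous (fun v : Fin (n + 1) → ℝ => ys v k) := by
  unfold ys
  exact continuous_const.mul (Real.continuous_exp.comp (continuous_apply k))

theorem Yg_cont : Continuous (fun v : Fin (n + 1) → ℝ => Yg v) := by
  unfold Yg
  exact continuous_finsetSum _ fun k _ => ys_cont k

theorem comp_cont {f : ℝ → ℝ} (hf : ContinuousOn f (Ioi 0)) :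
    Continuous (fun v : Fin (n + 1) → ℝ => f (Yg v)) :=
  hf.comp_continuous Yg_cont fun v => Yg_pos v

/-! ### integrability -/

theorem int_exp {D : (Fin (n + 1) → ℝ) → ℝ} (hD : HD D) :
    Integrable (fun w : Fin (n + 1) → ℝ => D w * Real.exp (w 0)) := by
  obtain ⟨M, c, hM, hc, hb⟩ := hD.bound
  have h1 : Integrable (fun x : Fin (n + 1) → ℝ => ∏ i, Real.exp (-(c / 2) * x i ^ 2)) :=
    MeasureTheory.Integrable.fintype_prod (f := fun _ : Fin (n + 1) => fun t : ℝ =>
      Real.exp (-(c / 2) * t ^ 2)) fun _ => integrable_exp_neg_mul_sq (by positivity)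
  have h2 := h1.const_mul (M * Real.exp (1 / (2 * c)))
  refine h2.mono' ?_ (Eventually.of_forall fun w => ?_)
  · exact (hD.cont.mul (Real.continuous_exp.comp (continuous_apply 0))).aestronglyMeasurable
  · have hpos := hD.pos w
    rw [Real.norm_eq_abs, abs_of_nonneg (mul_nonneg hpos.le (Real.exp_pos _).le)]
    have h6 : ∏ i, Real.exp (-(c / 2) * w i ^ 2) = Real.exp (-(c / 2) * ∑ i, w i ^ 2) := by
      rw [← Real.exp_sum, Finset.mul_sum]
    rw [h6]
    have h0 : w 0 ^ 2 ≤ ∑ i, w i ^ 2 :=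
      Finset.single_le_sum (f := fun i => w i ^ 2) (fun i _ => sq_nonneg _) (Finset.mem_univ 0)
    calc D w * Real.exp (w 0) ≤ M * Real.exp (-c * ∑ i, w i ^ 2) * Real.exp (w 0) :=
          mul_le_mul_of_nonneg_right (hb w) (Real.exp_pos _).le
      _ = M * Real.exp (-c * ∑ i, w i ^ 2 + w 0) := by rw [mul_assoc, ← Real.exp_add]
      _ ≤ M * Real.exp (1 / (2 * c) + -(c / 2) * ∑ i, w i ^ 2) := by
          apply mul_le_mul_of_nonneg_left _ hM.le
          apply Real.exp_le_exp.2
          have h3 : w 0 ≤ 1 / (2 * c) + c / 2 * w 0 ^ 2 := by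
            have h4 : 0 ≤ (c * w 0 - 1) ^ 2 / (2 * c) := by positivity
            have h5 : (c * w 0 - 1) ^ 2 / (2 * c) = 1 / (2 * c) + c / 2 * w 0 ^ 2 - w 0 := by
              field_simp
              ring
            linarith
          have h7 : c / 2 * w 0 ^ 2 ≤ c / 2 * ∑ i, w i ^ 2 :=
            mul_le_mul_of_nonneg_left h0 (by positivity)
          linarith
      _ = M * Real.exp (1 / (2 * c)) * Real.exp (-(c / 2) * ∑ i, w i ^ 2) := by
          rw [Real.exp_add, mul_assoc]

/-- integrability of `D w e^{w 0} g w` for continuous bounded `g` -/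
theorem int_bdd {D : (Fin (n + 1) → ℝ) → ℝ} (hD : HD D) {g : (Fin (n + 1) → ℝ) → ℝ}
    (hg : Continuous g) {M : ℝ} (hM : ∀ w, |g w| ≤ M) :
    Integrable (fun w : Fin (n + 1) → ℝ => D w * Real.exp (w 0) * g w) := by
  refine ((int_exp hD).const_mul M).mono' ?_ (Eventually.of_forall fun w => ?_)
  · exact ((hD.cont.mul (Real.continuous_exp.comp (continuous_apply 0))).mul
      hg).aestronglyMeasurable
  · have hp : 0 ≤ D w * Real.exp (w 0) := mul_nonneg (hD.pos w).le (Real.exp_pos _).le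
    rw [Real.norm_eq_abs, abs_mul, abs_of_nonneg hp, mul_comm M]
    exact mul_le_mul_of_nonneg_left (hM w) hp

end GBaux

open GBaux in
theorem HDp (hd : St_dom) : St_HD := by
  intro n C hC
  obtain ⟨ε, hε, c, hc, M, hM, h⟩ := hd C hC
  have h1 := (h C hC.isHermitian (fun i j => by simpa using hε)).2.1
  have he : Dd C = fun w => dens C (Matrix.vecCons (w 0) w) := by
    funext w
    unfold Dd
    rw [vec_eq]
  rw [he]
  refine ⟨(plaux.dens_continuous C).comp ell_cont, fun w => dens_pos hC _, ⟨M, c, hM, hc, ?_⟩, ?_⟩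
  · intro w
    refine (h1 _).trans ?_
    apply mul_le_mul_of_nonneg_left _ hM.le
    apply Real.exp_le_exp.2
    have := mul_le_mul_of_nonneg_left (ell_sq w) hc.le
    linarith
  · intro w w' ε h0 h1
    show _ ≤ dens C (Matrix.vecCons (((1 - ε) • w + ε • w') 0) ((1 - ε) • w + ε • w'))
    rw [ell_comb]
    exact plaux.dens_logconcave hC _ _ h0 h1

open GBaux in
theorem GB (hf : St_fun) : St_GB := by
  obtain ⟨-, -, hph, hkr, -, -, hphc, hkrc, -⟩ := hf
  intro n D hD
  have hI := int_exp hD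
  have hshift : ∀ γ : Fin (n + 1) → ℝ, Continuous (fun w : Fin (n + 1) → ℝ => w + γ) :=
    fun γ => continuous_id.add continuous_const
  have hshift' : ∀ w : Fin (n + 1) → ℝ, Continuous (fun γ : Fin (n + 1) → ℝ => w + γ) :=
    fun w => continuous_const.add continuous_id
  -- the factors
  have c1 : Continuous (fun v : Fin (n + 1) → ℝ => ph (Yg v)) := comp_cont hphc
  have c2 : ∀ k, Continuous (fun v : Fin (n + 1) → ℝ => kr (Yg v) * ys v k) :=
    fun k => (comp_cont hkrc).mul (ys_cont k)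
  have b1 : ∀ v : Fin (n + 1) → ℝ, |ph (Yg v)| ≤ 2 := fun v => by
    obtain ⟨h1, h2, -⟩ := hph (Yg v) (Yg_pos v)
    rw [abs_of_pos h1]
    exact h2
  have n2 : ∀ k (v : Fin (n + 1) → ℝ), 0 ≤ kr (Yg v) * ys v k := fun k v =>
    mul_nonneg (hkr (Yg v) (Yg_pos v)).1 (ys_pos v k).le
  have b2' : ∀ k (v : Fin (n + 1) → ℝ), kr (Yg v) * ys v k ≤ 1 := fun k v => by
    obtain ⟨h1, h2, -⟩ := hkr (Yg v) (Yg_pos v)
    calc kr (Yg v) * ys v k ≤ kr (Yg v) * Yg v := mul_le_mul_of_nonneg_left (ys_le v k) h1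
      _ = Yg v * kr (Yg v) := mul_comm _ _
      _ ≤ 1 := h2
  have b2 : ∀ k (v : Fin (n + 1) → ℝ), |kr (Yg v) * ys v k| ≤ 1 := fun k v => by
    rw [abs_of_nonneg (n2 k v)]
    exact b2' k v
  have i1 : ∀ γ : Fin (n + 1) → ℝ,
      Integrable (fun w : Fin (n + 1) → ℝ => D w * Real.exp (w 0) * ph (Yg (w + γ))) :=
    fun γ => int_bdd hD (c1.comp (hshift γ)) (M := 2) fun w => b1 (w + γ)
  have i2 : ∀ (γ : Fin (n + 1) → ℝ) k, Integrable (fun w : Fin (n + 1) → ℝ =>
      D w * Real.exp (w 0) * (kr (Yg (w + γ)) * ys (w + γ) k)) :=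
    fun γ k => int_bdd hD ((c2 k).comp (hshift γ)) (M := 1) fun w => b2 k (w + γ)
  have hp : ∀ w : Fin (n + 1) → ℝ, 0 < D w * Real.exp (w 0) := fun w =>
    mul_pos (hD.pos w) (Real.exp_pos _)
  have hI0 : 0 ≤ ∫ w : Fin (n + 1) → ℝ, D w * Real.exp (w 0) :=
    integral_nonneg fun w => (hp w).le
  refine ⟨hI, ⟨2 * ∫ w : Fin (n + 1) → ℝ, D w * Real.exp (w 0), fun γ => ⟨?_, ?_, fun k => ⟨?_, ?_⟩⟩⟩,
    ?_, fun k => ?_⟩
  · unfold Gf
    have hpos : ∀ w : Fin (n + 1) → ℝ, 0 < D w * Real.exp (w 0) * ph (Yg (w + γ)) := fun w =>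
      mul_pos (hp w) (hph _ (Yg_pos _)).1
    rw [integral_pos_iff_support_of_nonneg (fun w => (hpos w).le) (i1 γ)]
    have : Function.support (fun w : Fin (n + 1) → ℝ => D w * Real.exp (w 0) * ph (Yg (w + γ))) =
        Set.univ := by
      ext w
      simp only [Function.mem_support, Set.mem_univ, iff_true]
      exact (hpos w).ne'
    rw [this]
    exact isOpen_univ.measure_pos _ Set.univ_nonempty
  · unfold Gf
    rw [← integral_const_mul]
    apply integral_mono (i1 γ) (hI.const_mul 2)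
    intro w
    have := (hph (Yg (w + γ)) (Yg_pos _)).2.1
    have := mul_le_mul_of_nonneg_left this (hp w).le
    simp only
    linarith
  · unfold Gk
    exact integral_nonneg fun w => mul_nonneg (hp w).le (n2 k _)
  · unfold Gk
    have h1 : ∫ w : Fin (n + 1) → ℝ, D w * Real.exp (w 0) * (kr (Yg (w + γ)) * ys (w + γ) k) ≤
        ∫ w : Fin (n + 1) → ℝ, D w * Real.exp (w 0) := by
      apply integral_mono (i2 γ k) hI
      intro w
      have := mul_le_mul_of_nonneg_left (b2' k (w + γ)) (hp w).le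
      simp only
      linarith
    linarith
  · unfold Gf
    apply continuous_of_dominated (bound := fun w => 2 * (D w * Real.exp (w 0)))
    · intro γ
      exact (i1 γ).aestronglyMeasurable
    · intro γ
      refine Eventually.of_forall fun w => ?_
      rw [Real.norm_eq_abs, abs_mul, abs_of_nonneg (hp w).le, mul_comm 2]
      exact mul_le_mul_of_nonneg_left (b1 _) (hp w).le
    · exact hI.const_mul 2
    · refine Eventually.of_forall fun w => ?_
      exact continuous_const.mul (c1.comp (hshift' w))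
  · unfold Gk
    apply continuous_of_dominated (bound := fun w => 1 * (D w * Real.exp (w 0)))
    · intro γ
      exact (i2 γ k).aestronglyMeasurable
    · intro γ
      refine Eventually.of_forall fun w => ?_
      rw [Real.norm_eq_abs, abs_mul, abs_of_nonneg (hp w).le, mul_comm 1]
      exact mul_le_mul_of_nonneg_left (b2 k _) (hp w).le
    · exact hI.const_mul 1
    · refine Eventually.of_forall fun w => ?_
      exact continuous_const.mul ((c2 k).comp (hshift' w))

end Pool.Agent.H92.SM
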