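import Pool.Agent.H92.SM.Props

/-!
# SM, task GD: the gradient of `G` (helper190 for helper92)
-/

set_option autoImplicit false

namespace Pool.Agent.H92.SM

open MeasureTheory Matrix Finset Filter Topology Set ProbabilityTheory
open scoped BigOperators
open Pool.Agent.H604R2.SW

namespace GDaux

variable {n : ℕ}

lemma ys_pos (v : Fin (n + 1) → ℝ) (k : Fin (n + 1)) : 0 < ys v k := by
  unfold ys
  split_ifs <;> positivity

lemma ys_le (v : Fin (n + 1) → ℝ) (k : Fin (n + 1)) : ys v k ≤ Yg v :=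
  Finset.single_le_sum (f := fun k => ys v k) (fun i _ => (ys_pos v i).le) (Finset.mem_univ k)

lemma Yg_pos (v : Fin (n + 1) → ℝ) : 0 < Yg v := (ys_pos v 0).trans_le (ys_le v 0)

lemma ys_cont (k : Fin (n + 1)) : Continuous (fun v : Fin (n + 1) → ℝ => ys v k) := by
  unfold ys
  fun_prop

lemma Yg_cont : Continuous (fun v : Fin (n + 1) → ℝ => Yg v) := by
  unfold Yg
  exact continuous_finsetSum _ fun k _ => ys_cont k

/-- the `k`-th coordinate -/
noncomputable abbrev pr (k : Fin (n + 1)) : (Fin (n + 1) → ℝ) →L[ℝ] ℝ :=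
  ContinuousLinearMap.proj k

lemma norm_pr (k : Fin (n + 1)) : ‖(pr k : (Fin (n + 1) → ℝ) →L[ℝ] ℝ)‖ ≤ 1 :=
  ContinuousLinearMap.opNorm_le_bound _ zero_le_one fun x => by
    rw [one_mul]
    exact norm_le_pi_norm x k

lemma ys_deriv (w γ : Fin (n + 1) → ℝ) (k : Fin (n + 1)) :
    HasFDerivAt (fun γ : Fin (n + 1) → ℝ => ys (w + γ) k) (ys (w + γ) k • pr k) γ := by
  have h1 : HasFDerivAt (fun γ : Fin (n + 1) → ℝ => w k + γ k) (pr k) γ :=
    ((pr k).hasFDerivAt (x := γ)).const_add (w k)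
  have h2 := (h1.exp).const_mul ((if k = 0 then 2 else 1 : ℝ))
  rw [smul_smul] at h2
  exact h2

lemma Yg_deriv (w γ : Fin (n + 1) → ℝ) :
    HasFDerivAt (fun γ : Fin (n + 1) → ℝ => Yg (w + γ)) (∑ k, ys (w + γ) k • pr k) γ := by
  unfold Yg
  exact HasFDerivAt.fun_sum fun k _ => ys_deriv w γ k

/-- the derivative of the integrand -/
noncomputable def F' (D : (Fin (n + 1) → ℝ) → ℝ) (γ w : Fin (n + 1) → ℝ) :
    (Fin (n + 1) → ℝ) →L[ℝ] ℝ :=
  -∑ k, (D w * Real.exp (w 0) * (kr (Yg (w + γ)) * ys (w + γ) k)) • pr k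

lemma F_deriv (hf : St_fun) (D : (Fin (n + 1) → ℝ) → ℝ) (w γ : Fin (n + 1) → ℝ) :
    HasFDerivAt (fun γ => D w * Real.exp (w 0) * ph (Yg (w + γ))) (F' D γ w) γ := by
  have h1 := (hf.2.1 (Yg (w + γ)) (Yg_pos _)).comp_hasFDerivAt γ (Yg_deriv w γ)
  have h2 := h1.const_mul (D w * Real.exp (w 0))
  refine h2.congr_fderiv ?_
  unfold F'
  rw [neg_smul, smul_neg, Finset.smul_sum, Finset.smul_sum]
  congr 1
  apply Finset.sum_congr rfl
  intro k _
  rw [smul_smul, smul_smul, mul_assoc (D w * Real.exp (w 0))]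

lemma ys_kr (hf : St_fun) (v : Fin (n + 1) → ℝ) (k : Fin (n + 1)) :
    0 ≤ kr (Yg v) * ys v k ∧ kr (Yg v) * ys v k ≤ 1 := by
  have h := hf.2.2.2.1 (Yg v) (Yg_pos v)
  refine ⟨mul_nonneg h.1 (ys_pos v k).le, ?_⟩
  calc kr (Yg v) * ys v k ≤ kr (Yg v) * Yg v := mul_le_mul_of_nonneg_left (ys_le v k) h.1
    _ = Yg v * kr (Yg v) := mul_comm _ _
    _ ≤ 1 := h.2.1

end GDaux

open GDaux in
theorem GD (hf : St_fun) (hb : St_GB) : St_GD := by
  intro n D hD γ
  have hmeas_ph : Measurable ph := hf.2.2.2.2.2.2.2.2.2.2.2.2.2.1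
  have hmeas_kr : Measurable kr := hf.2.2.2.2.2.2.2.2.2.2.2.2.2.2
  have hI := (hb D hD).1
  have hpos : ∀ w : Fin (n + 1) → ℝ, 0 < D w * Real.exp (w 0) := fun w =>
    mul_pos (hD.pos w) (Real.exp_pos _)
  have hbase : Measurable (fun w : Fin (n + 1) → ℝ => D w * Real.exp (w 0)) := by
    have := hD.cont
    fun_prop
  have hYm : ∀ γ : Fin (n + 1) → ℝ, Measurable (fun w : Fin (n + 1) → ℝ => Yg (w + γ)) :=
    fun γ => (Yg_cont.comp (continuous_id.add continuous_const)).measurable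
  have hysm : ∀ (γ : Fin (n + 1) → ℝ) k, Measurable (fun w : Fin (n + 1) → ℝ => ys (w + γ) k) :=
    fun γ k => ((ys_cont k).comp (continuous_id.add continuous_const)).measurable
  have hFm : ∀ γ : Fin (n + 1) → ℝ,
      Measurable (fun w : Fin (n + 1) → ℝ => D w * Real.exp (w 0) * ph (Yg (w + γ))) :=
    fun γ => hbase.mul (hmeas_ph.comp (hYm γ))
  have hGm : ∀ (γ : Fin (n + 1) → ℝ) k, Measurable (fun w : Fin (n + 1) → ℝ =>
      D w * Real.exp (w 0) * (kr (Yg (w + γ)) * ys (w + γ) k)) :=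
    fun γ k => hbase.mul ((hmeas_kr.comp (hYm γ)).mul (hysm γ k))
  have hGb : ∀ (γ : Fin (n + 1) → ℝ) k w,
      ‖D w * Real.exp (w 0) * (kr (Yg (w + γ)) * ys (w + γ) k)‖ ≤ D w * Real.exp (w 0) := by
    intro γ k w
    have h1 := ys_kr hf (w + γ) k
    rw [Real.norm_of_nonneg (mul_nonneg (hpos w).le h1.1)]
    exact mul_le_of_le_one_right (hpos w).le h1.2
  have hGi : ∀ (γ : Fin (n + 1) → ℝ) k, Integrable (fun w : Fin (n + 1) → ℝ =>
      D w * Real.exp (w 0) * (kr (Yg (w + γ)) * ys (w + γ) k)) :=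
    fun γ k => Integrable.mono' hI (hGm γ k).aestronglyMeasurable
      (Filter.Eventually.of_forall (hGb γ k))
  have key := hasFDerivAt_integral_of_dominated_of_fderiv_le (𝕜 := ℝ) (μ := volume)
    (F := fun (γ : Fin (n + 1) → ℝ) (w : Fin (n + 1) → ℝ) =>
      D w * Real.exp (w 0) * ph (Yg (w + γ)))
    (F' := F' D) (x₀ := γ) (s := Set.univ)
    (bound := fun w : Fin (n + 1) → ℝ => ((n : ℝ) + 1) * (D w * Real.exp (w 0)))
    Filter.univ_mem
    (Filter.Eventually.of_forall fun γ => (hFm γ).aestronglyMeasurable)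
    (by
      refine Integrable.mono' (hI.const_mul 2) (hFm γ).aestronglyMeasurable
        (Filter.Eventually.of_forall fun w => ?_)
      have h1 := hf.2.2.1 (Yg (w + γ)) (Yg_pos _)
      rw [Real.norm_of_nonneg (mul_nonneg (hpos w).le h1.1.le)]
      have := mul_le_mul_of_nonneg_left h1.2.1 (hpos w).le
      linarith)
    (by
      unfold GDaux.F'
      refine AEStronglyMeasurable.neg ?_
      refine Finset.aestronglyMeasurable_fun_sum _ fun k _ => ?_
      exact (hGm γ k).aestronglyMeasurable.smul_const _)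
    (Filter.Eventually.of_forall fun w γ _ => by
      unfold GDaux.F'
      rw [norm_neg]
      refine (norm_sum_le _ _).trans ?_
      calc ∑ k, ‖(D w * Real.exp (w 0) * (kr (Yg (w + γ)) * ys (w + γ) k)) • (pr k :
              (Fin (n + 1) → ℝ) →L[ℝ] ℝ)‖
          ≤ ∑ _k : Fin (n + 1), D w * Real.exp (w 0) := by
            apply Finset.sum_le_sum
            intro k _
            rw [norm_smul]
            calc _ ≤ (D w * Real.exp (w 0)) * 1 :=
                  mul_le_mul (hGb γ k w) (norm_pr k) (norm_nonneg _) (hpos w).le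
              _ = _ := mul_one _
        _ = ((n : ℝ) + 1) * (D w * Real.exp (w 0)) := by
            rw [Finset.sum_const, Finset.card_univ, Fintype.card_fin, nsmul_eq_mul]
            push_cast
            ring)
    (hI.const_mul _)
    (Filter.Eventually.of_forall fun w γ _ => F_deriv hf D w γ)
  have hint : (∫ w, F' D γ w) = -∑ k, Gk D γ k • (pr k : (Fin (n + 1) → ℝ) →L[ℝ] ℝ) := by
    unfold GDaux.F' Gk
    rw [integral_neg, integral_finsetSum]
    · congr 1
      apply Finset.sum_congr rfl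
      intro k _
      rw [integral_smul_const]
    · intro k _
      exact (hGi γ k).smul_const _
  rw [hint] at key
  exact key

end Pool.Agent.H92.SM
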