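import Pool.Agent.H92.SM.Props
import Pool.Graph.R_pool_sql_team_seeded_f0cf7b00.H604R2.SW.T_lci
import Pool.Graph.R_seed8.H212R2.KLS.T1

set_option autoImplicit false

namespace Pool.Agent.H92.SM

open MeasureTheory Matrix Finset Filter Topology Set ProbabilityTheory
open scoped BigOperators
open Pool.Agent.H604R2.SW

namespace GTaux

variable {n : ℕ}

theorem ys_pos (v : Fin (n + 1) → ℝ) (k : Fin (n + 1)) : 0 < ys v k := by
  unfold ys
  split_ifs <;> positivity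

theorem Yg_pos (v : Fin (n + 1) → ℝ) : 0 < Yg v :=
  Finset.sum_pos (fun k _ => ys_pos v k) ⟨0, Finset.mem_univ _⟩

theorem ys_comb (v v' : Fin (n + 1) → ℝ) {ε : ℝ} (k : Fin (n + 1)) :
    ys ((1 - ε) • v + ε • v') k = ys v k ^ (1 - ε) * ys v' k ^ ε := by
  unfold ys
  set c : ℝ := if k = 0 then 2 else 1 with hc
  have hcpos : 0 < c := by
    rw [hc]
    split_ifs <;> norm_num
  rw [Real.mul_rpow hcpos.le (Real.exp_nonneg _), Real.mul_rpow hcpos.le (Real.exp_nonneg _),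
    ← Real.exp_mul, ← Real.exp_mul]
  have e2 : c = c ^ (1 - ε) * c ^ ε := by
    rw [← Real.rpow_add hcpos]; simp
  have e3 : ((1 - ε) • v + ε • v') k = v k * (1 - ε) + v' k * ε := by
    simp only [Pi.add_apply, Pi.smul_apply, smul_eq_mul]
    ring
  rw [e3, Real.exp_add]
  conv_lhs => rw [e2]
  ring

theorem Yg_comb (v v' : Fin (n + 1) → ℝ) {ε : ℝ} (h0 : 0 < ε) (h1 : ε < 1) :
    Yg ((1 - ε) • v + ε • v') ≤ Yg v ^ (1 - ε) * Yg v' ^ ε := by
  have hA := Yg_pos v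
  have hB := Yg_pos v'
  have hA' : 0 < Yg v ^ (1 - ε) := Real.rpow_pos_of_pos hA _
  have hB' : 0 < Yg v' ^ ε := Real.rpow_pos_of_pos hB _
  have h2 : ∀ k, ys ((1 - ε) • v + ε • v') k ≤
      Yg v ^ (1 - ε) * Yg v' ^ ε * ((1 - ε) * (ys v k / Yg v) + ε * (ys v' k / Yg v')) := by
    intro k
    rw [ys_comb]
    have h3 := Real.geom_mean_le_arith_mean2_weighted (w₁ := 1 - ε) (w₂ := ε)
      (p₁ := ys v k / Yg v) (p₂ := ys v' k / Yg v') (by linarith) h0.le
      (div_nonneg (ys_pos v k).le hA.le) (div_nonneg (ys_pos v' k).le hB.le) (by ring)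
    rw [Real.div_rpow (ys_pos v k).le hA.le, Real.div_rpow (ys_pos v' k).le hB.le] at h3
    calc ys v k ^ (1 - ε) * ys v' k ^ ε = Yg v ^ (1 - ε) * Yg v' ^ ε *
        (ys v k ^ (1 - ε) / Yg v ^ (1 - ε) * (ys v' k ^ ε / Yg v' ^ ε)) := by
          field_simp
      _ ≤ _ := mul_le_mul_of_nonneg_left h3 (by positivity)
  calc Yg ((1 - ε) • v + ε • v') = ∑ k, ys ((1 - ε) • v + ε • v') k := rfl
    _ ≤ ∑ k, Yg v ^ (1 - ε) * Yg v' ^ ε * ((1 - ε) * (ys v k / Yg v) + ε * (ys v' k / Yg v')) :=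
        Finset.sum_le_sum fun k _ => h2 k
    _ = Yg v ^ (1 - ε) * Yg v' ^ ε := by
        rw [← Finset.mul_sum, Finset.sum_add_distrib, ← Finset.mul_sum, ← Finset.mul_sum,
          ← Finset.sum_div, ← Finset.sum_div]
        have e1 : ∑ k, ys v k = Yg v := rfl
        have e2 : ∑ k, ys v' k = Yg v' := rfl
        rw [e1, e2, div_self hA.ne', div_self hB.ne']
        ring

theorem ph_eq {y : ℝ} (hy : 0 < y) :
    ph y = 2 * ((1 + max (Real.log y) 0) * Real.exp (-max (Real.log y) 0)) := by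
  unfold ph
  split_ifs with h
  · rw [max_eq_left (Real.log_nonneg h), Real.exp_neg, Real.exp_log hy]
    ring
  · rw [max_eq_right (Real.log_nonpos hy.le (by linarith))]
    simp

theorem anti_aux {s t : ℝ} (hs : 0 ≤ s) (hst : s ≤ t) :
    (1 + t) * Real.exp (-t) ≤ (1 + s) * Real.exp (-s) := by
  have h1 : 1 + t ≤ (1 + s) * Real.exp (t - s) := by
    have h2 := Real.add_one_le_exp (t - s)
    nlinarith [mul_nonneg hs (sub_nonneg.2 hst)]
  calc (1 + t) * Real.exp (-t) ≤ (1 + s) * Real.exp (t - s) * Real.exp (-t) :=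
        mul_le_mul_of_nonneg_right h1 (Real.exp_nonneg _)
    _ = (1 + s) * Real.exp (-s) := by
        rw [mul_assoc, ← Real.exp_add]
        congr 2
        ring

/-- log-concavity of `ph` in the logarithmic variable -/
theorem ph_log {y y' ε : ℝ} (hy : 0 < y) (hy' : 0 < y') (h0 : 0 < ε) (h1 : ε < 1) :
    ph y ^ (1 - ε) * ph y' ^ ε ≤ ph (y ^ (1 - ε) * y' ^ ε) := by
  have hY : 0 < y ^ (1 - ε) * y' ^ ε :=
    mul_pos (Real.rpow_pos_of_pos hy _) (Real.rpow_pos_of_pos hy' _)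
  rw [ph_eq hy, ph_eq hy', ph_eq hY]
  have hlog : Real.log (y ^ (1 - ε) * y' ^ ε) = (1 - ε) * Real.log y + ε * Real.log y' := by
    rw [Real.log_mul (Real.rpow_pos_of_pos hy _).ne' (Real.rpow_pos_of_pos hy' _).ne',
      Real.log_rpow hy, Real.log_rpow hy']
  rw [hlog]
  set s := max (Real.log y) 0 with hs
  set s' := max (Real.log y') 0 with hs'
  have hs0 : 0 ≤ s := le_max_right _ _
  have hs0' : 0 ≤ s' := le_max_right _ _
  have hsl : Real.log y ≤ s := le_max_left _ _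
  have hsl' : Real.log y' ≤ s' := le_max_left _ _
  set m := (1 - ε) * s + ε * s' with hm
  have hσ : max ((1 - ε) * Real.log y + ε * Real.log y') 0 ≤ m := by
    refine max_le ?_ ?_
    · have a1 : (1 - ε) * Real.log y ≤ (1 - ε) * s := mul_le_mul_of_nonneg_left hsl (by linarith)
      have a2 : ε * Real.log y' ≤ ε * s' := mul_le_mul_of_nonneg_left hsl' h0.le
      linarith
    · have a1 : 0 ≤ (1 - ε) * s := mul_nonneg (by linarith) hs0
      have a2 : 0 ≤ ε * s' := mul_nonneg h0.le hs0'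
      linarith
  have h3 := anti_aux (le_max_right ((1 - ε) * Real.log y + ε * Real.log y') 0) hσ
  have h4 := Real.geom_mean_le_arith_mean2_weighted (w₁ := 1 - ε) (w₂ := ε)
    (p₁ := 1 + s) (p₂ := 1 + s') (by linarith) h0.le (by linarith) (by linarith) (by ring)
  have h5 : (2 * ((1 + s) * Real.exp (-s))) ^ (1 - ε) * (2 * ((1 + s') * Real.exp (-s'))) ^ ε =
      2 * (((1 + s) ^ (1 - ε) * (1 + s') ^ ε) * Real.exp (-m)) := by
    have e1 : ∀ r α : ℝ, 0 ≤ r → (2 * ((1 + r) * Real.exp (-r))) ^ α =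
        2 ^ α * ((1 + r) ^ α * Real.exp (-r * α)) := by
      intro r α hr
      rw [Real.mul_rpow two_pos.le (mul_nonneg (by linarith) (Real.exp_nonneg _)),
        Real.mul_rpow (by linarith) (Real.exp_nonneg _), ← Real.exp_mul]
    rw [e1 s _ hs0, e1 s' _ hs0']
    have e2 : (2 : ℝ) = 2 ^ (1 - ε) * 2 ^ ε := by
      rw [← Real.rpow_add (by norm_num)]; simp
    have e3 : Real.exp (-m) = Real.exp (-s * (1 - ε)) * Real.exp (-s' * ε) := by
      rw [← Real.exp_add]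
      congr 1
      rw [hm]
      ring
    rw [e3]
    conv_rhs => rw [e2]
    ring
  rw [h5]
  refine mul_le_mul_of_nonneg_left (le_trans ?_ h3) (by norm_num)
  refine mul_le_mul_of_nonneg_right (h4.trans (le_of_eq ?_)) (Real.exp_nonneg _)
  rw [hm]
  ring

/-- the integrand of `Gf` -/
noncomputable def Ig (D : (Fin (n + 1) → ℝ) → ℝ) (γ w : Fin (n + 1) → ℝ) : ℝ :=
  D w * Real.exp (w 0) * ph (Yg (w + γ))

theorem Yg_cont (γ : Fin (n + 1) → ℝ) : Continuous fun w => Yg (w + γ) := by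
  unfold Yg ys
  fun_prop

theorem Ig_cont (hf : St_fun) {D : (Fin (n + 1) → ℝ) → ℝ} (hD : HD D) (γ : Fin (n + 1) → ℝ) :
    Continuous (Ig D γ) := by
  obtain ⟨-, -, -, -, -, -, hph, -⟩ := hf
  have h1 : Continuous fun w => ph (Yg (w + γ)) :=
    hph.comp_continuous (Yg_cont γ) fun w => Yg_pos _
  exact (hD.cont.mul (Real.continuous_exp.comp (continuous_apply 0))).mul h1

theorem Ig_pos (hf : St_fun) {D : (Fin (n + 1) → ℝ) → ℝ} (hD : HD D) (γ w : Fin (n + 1) → ℝ) :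
    0 < Ig D γ w :=
  mul_pos (mul_pos (hD.pos w) (Real.exp_pos _)) (hf.2.2.1 _ (Yg_pos _)).1

theorem Ig_int (hf : St_fun) (hb : St_GB) {D : (Fin (n + 1) → ℝ) → ℝ} (hD : HD D)
    (γ : Fin (n + 1) → ℝ) : Integrable (Ig D γ) := by
  refine ((hb D hD).1.mul_const 2).mono' (Ig_cont hf hD γ).aestronglyMeasurable ?_
  refine Eventually.of_forall fun w => ?_
  rw [Real.norm_of_nonneg (Ig_pos hf hD γ w).le]
  exact mul_le_mul_of_nonneg_left (hf.2.2.1 _ (Yg_pos _)).2.1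
    (mul_pos (hD.pos w) (Real.exp_pos _)).le

theorem Ig_comb (hf : St_fun) {D : (Fin (n + 1) → ℝ) → ℝ} (hD : HD D)
    (γ γ' w w' : Fin (n + 1) → ℝ) {ε : ℝ} (h0 : 0 < ε) (h1 : ε < 1) :
    Ig D γ w ^ (1 - ε) * Ig D γ' w' ^ ε ≤
      Ig D ((1 - ε) • γ + ε • γ') ((1 - ε) • w + ε • w') := by
  have hph := hf.2.2.1
  have hD1 := hD.pos w
  have hD2 := hD.pos w'
  have hp1 := (hph _ (Yg_pos (w + γ))).1
  have hp2 := (hph _ (Yg_pos (w' + γ'))).1
  unfold Ig
  rw [Real.mul_rpow (mul_pos hD1 (Real.exp_pos _)).le hp1.le,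
    Real.mul_rpow (mul_pos hD2 (Real.exp_pos _)).le hp2.le,
    Real.mul_rpow hD1.le (Real.exp_pos _).le, Real.mul_rpow hD2.le (Real.exp_pos _).le,
    ← Real.exp_mul, ← Real.exp_mul]
  have e1 : D w ^ (1 - ε) * Real.exp (w 0 * (1 - ε)) * ph (Yg (w + γ)) ^ (1 - ε) *
      (D w' ^ ε * Real.exp (w' 0 * ε) * ph (Yg (w' + γ')) ^ ε) =
      (D w ^ (1 - ε) * D w' ^ ε) * Real.exp (((1 - ε) • w + ε • w') 0) *
        (ph (Yg (w + γ)) ^ (1 - ε) * ph (Yg (w' + γ')) ^ ε) := by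
    have e3 : ((1 - ε) • w + ε • w') 0 = w 0 * (1 - ε) + w' 0 * ε := by
      simp only [Pi.add_apply, Pi.smul_apply, smul_eq_mul]
      ring
    rw [e3, Real.exp_add]
    ring
  rw [e1]
  have a1 := hD.logc w w' ε h0 h1
  have a2 : ph (Yg (w + γ)) ^ (1 - ε) * ph (Yg (w' + γ')) ^ ε ≤
      ph (Yg (((1 - ε) • w + ε • w') + ((1 - ε) • γ + ε • γ'))) := by
    obtain ⟨-, -, -, -, -, -, -, -, -, -, hanti, -⟩ := hf
    refine (ph_log (Yg_pos _) (Yg_pos _) h0 h1).trans ?_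
    refine hanti _ _ (Yg_pos _) ?_
    have e4 : ((1 - ε) • w + ε • w') + ((1 - ε) • γ + ε • γ') =
        (1 - ε) • (w + γ) + ε • (w' + γ') := by
      rw [smul_add, smul_add]
      abel
    rw [e4]
    exact Yg_comb _ _ h0 h1
  have a3 : 0 < ph (Yg (w + γ)) ^ (1 - ε) * ph (Yg (w' + γ')) ^ ε :=
    mul_pos (Real.rpow_pos_of_pos hp1 _) (Real.rpow_pos_of_pos hp2 _)
  refine mul_le_mul (mul_le_mul_of_nonneg_right a1 (Real.exp_pos _).le) a2 a3.le ?_
  exact (mul_pos (hD.pos _) (Real.exp_pos _)).le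

theorem Gf_comb (hf : St_fun) (hb : St_GB) {D : (Fin (n + 1) → ℝ) → ℝ} (hD : HD D)
    (γ γ' : Fin (n + 1) → ℝ) {ε : ℝ} (h0 : 0 < ε) (h1 : ε < 1) :
    Gf D γ ^ (1 - ε) * Gf D γ' ^ ε ≤ Gf D ((1 - ε) • γ + ε • γ') := by
  have hG : ∀ γ : Fin (n + 1) → ℝ, Gf D γ = (∫⁻ w, ENNReal.ofReal (Ig D γ w)).toReal := by
    intro γ
    exact integral_eq_lintegral_of_nonneg_ae
      (Eventually.of_forall fun w => (Ig_pos hf hD γ w).le)
      (Ig_cont hf hD γ).aestronglyMeasurable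
  have hfin : ∀ γ : Fin (n + 1) → ℝ, (∫⁻ w, ENNReal.ofReal (Ig D γ w)) ≠ ⊤ := fun γ =>
    (Ig_int hf hb hD γ).lintegral_lt_top.ne
  have hmeas : ∀ γ : Fin (n + 1) → ℝ, Measurable fun w => ENNReal.ofReal (Ig D γ w) := fun γ =>
    ENNReal.measurable_ofReal.comp (Ig_cont hf hD γ).measurable
  have key := Pool.Agent.H212R2.KLS.PL (F := Fin (n + 1) → ℝ) volume ε h0 h1 _ _ _
    (hmeas γ) (hmeas γ') (hmeas ((1 - ε) • γ + ε • γ')) (by
      intro x y
      rw [ENNReal.ofReal_rpow_of_nonneg (Ig_pos hf hD γ x).le (by linarith),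
        ENNReal.ofReal_rpow_of_nonneg (Ig_pos hf hD γ' y).le h0.le,
        ← ENNReal.ofReal_mul (Real.rpow_nonneg (Ig_pos hf hD γ x).le _)]
      exact ENNReal.ofReal_le_ofReal (Ig_comb hf hD γ γ' x y h0 h1))
  rw [hG γ, hG γ', hG ((1 - ε) • γ + ε • γ'), ENNReal.toReal_rpow, ENNReal.toReal_rpow,
    ← ENNReal.toReal_mul]
  exact ENNReal.toReal_mono (hfin _) key

end GTaux

open GTaux in
theorem GT (hf : St_fun) (hb : St_GB) (hd : St_GD) : St_GT := by
  intro n D hD γ γ'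
  obtain ⟨-, ⟨M, hM⟩, -, -⟩ := hb D hD
  have ha := (hM γ).1
  have hb' := (hM γ').1
  set a := Gf D γ with haa
  set b := Gf D γ' with hbb
  have hm : HasDerivAt (fun ε : ℝ => a * Real.exp (ε * Real.log (b / a)))
      (a * Real.log (b / a)) 0 := by
    have h1 : HasDerivAt (fun ε : ℝ => ε * Real.log (b / a)) (Real.log (b / a)) 0 := by
      simpa using (hasDerivAt_id (0:ℝ)).mul_const (Real.log (b / a))
    have h2 := (h1.exp).const_mul a
    simpa using h2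
  have hg : HasDerivAt (fun ε : ℝ => Gf D (γ + ε • (γ' - γ)))
      (-∑ k, (γ' k - γ k) * Gk D γ k) 0 := by
    have h1 : HasDerivAt (fun ε : ℝ => γ + ε • (γ' - γ)) (γ' - γ) 0 := by
      have h2 := ((hasDerivAt_id (0:ℝ)).smul_const (γ' - γ)).const_add γ
      simpa using h2
    have h3 : HasFDerivAt (Gf D)
      (-∑ k, Gk D γ k • (ContinuousLinearMap.proj k : (Fin (n + 1) → ℝ) →L[ℝ] ℝ))
      (γ + (0 : ℝ) • (γ' - γ)) := by
      rw [zero_smul, add_zero]
      exact hd D hD γ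
    have h4 := h3.comp_hasDerivAt (0 : ℝ) h1
    have e1 : (-∑ k, Gk D γ k • (ContinuousLinearMap.proj k : (Fin (n + 1) → ℝ) →L[ℝ] ℝ))
        (γ' - γ) = -∑ k, (γ' k - γ k) * Gk D γ k := by
      simp only [_root_.neg_apply, _root_.sum_apply, _root_.smul_apply,
        ContinuousLinearMap.proj_apply, smul_eq_mul, Pi.sub_apply]
      congr 1
      exact Finset.sum_congr rfl fun k _ => mul_comm _ _
    rw [e1] at h4
    exact h4
  refine lciaux.deriv_ge_of_ge hg hm (by simp [haa]) ?_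
  intro ε hε0 hε1
  have h5 := Gf_comb hf hb hD γ γ' hε0 hε1
  have e2 : a ^ (1 - ε) * b ^ ε = a * Real.exp (ε * Real.log (b / a)) := by
    rw [Real.rpow_def_of_pos ha, Real.rpow_def_of_pos hb', ← Real.exp_add,
      Real.log_div hb'.ne' ha.ne']
    nth_rewrite 2 [← Real.exp_log ha]
    rw [← Real.exp_add]
    congr 1
    ring
  have e3 : (1 - ε) • γ + ε • γ' = γ + ε • (γ' - γ) := by
    rw [sub_smul, one_smul, smul_sub]
    abel
  rw [e3, e2] at h5
  exact h5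

end Pool.Agent.H92.SM
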