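import Pool.Agent.H92.SM.Props
import Pool.Graph.R_pool_sql_team_seeded_f0cf7b00.H604R2.SW.T_cont

set_option autoImplicit false

namespace Pool.Agent.H92.SM

open MeasureTheory Matrix Finset Filter Topology Set ProbabilityTheory
open scoped BigOperators
open Pool.Agent.H604R2.SW

namespace JCaux

theorem sE_cont {ι : Type} [Fintype ι] : Continuous (sE : (ι → ℝ) → ℝ) := by
  unfold sE
  fun_prop

/-- polynomial factors are dominated by a Gaussian factor -/
theorem poly_le {ι : Type} [Fintype ι] {c : ℝ} (hc : 0 < c) (x : ι → ℝ) :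
    (1 + ((Fintype.card ι : ℝ) + ∑ i, |x i|)) ^ 2 ≤
      (2 * (1 + (Fintype.card ι : ℝ)) ^ 2 + 4 * (Fintype.card ι : ℝ) / c) *
        Real.exp (c / 2 * ∑ i, x i ^ 2) := by
  have hN : (0 : ℝ) ≤ (Fintype.card ι : ℝ) := Nat.cast_nonneg _
  have hS : 0 ≤ ∑ i, x i ^ 2 := Finset.sum_nonneg fun i _ => sq_nonneg _
  have h1 : (∑ i, |x i|) ^ 2 ≤ (Fintype.card ι : ℝ) * ∑ i, x i ^ 2 := by
    have h := sq_sum_le_card_mul_sum_sq (s := (Finset.univ : Finset ι)) (f := fun i => |x i|)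
    simpa [sq_abs, Finset.card_univ] using h
  have h2 : c / 2 * ∑ i, x i ^ 2 + 1 ≤ Real.exp (c / 2 * ∑ i, x i ^ 2) := Real.add_one_le_exp _
  have h3 : 1 ≤ Real.exp (c / 2 * ∑ i, x i ^ 2) := Real.one_le_exp (by positivity)
  have h4 : ∑ i, x i ^ 2 ≤ 2 / c * Real.exp (c / 2 * ∑ i, x i ^ 2) := by
    rw [div_mul_eq_mul_div, le_div_iff₀ hc]
    linarith
  have h5 : (1 + ((Fintype.card ι : ℝ) + ∑ i, |x i|)) ^ 2 ≤
      2 * (1 + (Fintype.card ι : ℝ)) ^ 2 + 2 * (∑ i, |x i|) ^ 2 := by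
    nlinarith [sq_nonneg ((1 + (Fintype.card ι : ℝ)) - ∑ i, |x i|)]
  calc (1 + ((Fintype.card ι : ℝ) + ∑ i, |x i|)) ^ 2
      ≤ 2 * (1 + (Fintype.card ι : ℝ)) ^ 2 + 2 * (∑ i, |x i|) ^ 2 := h5
    _ ≤ 2 * (1 + (Fintype.card ι : ℝ)) ^ 2 + 2 * ((Fintype.card ι : ℝ) * ∑ i, x i ^ 2) := by
        linarith
    _ ≤ 2 * (1 + (Fintype.card ι : ℝ)) ^ 2 * Real.exp (c / 2 * ∑ i, x i ^ 2) +
          2 * ((Fintype.card ι : ℝ) * (2 / c * Real.exp (c / 2 * ∑ i, x i ^ 2))) := by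
        refine add_le_add ?_ ?_
        · exact le_mul_of_one_le_right (by positivity) h3
        · exact mul_le_mul_of_nonneg_left (mul_le_mul_of_nonneg_left h4 hN) (by norm_num)
    _ = _ := by ring

theorem int_bound {ι : Type} [Fintype ι] {c : ℝ} (hc : 0 < c) (M : ℝ) :
    Integrable (fun x : ι → ℝ => (2 * (1 + (Fintype.card ι : ℝ)) ^ 2 +
      4 * (Fintype.card ι : ℝ) / c) * M * Real.exp (-(c / 2) * ∑ i, x i ^ 2)) := by
  refine Integrable.const_mul ?_ _
  have e : (fun x : ι → ℝ => Real.exp (-(c / 2) * ∑ i, x i ^ 2)) =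
      fun x => ∏ i, Real.exp (-(c / 2) * (x i) ^ 2) := by
    funext x
    rw [Finset.mul_sum, Real.exp_sum]
  rw [e]
  exact Integrable.fintype_prod fun _ => integrable_exp_neg_mul_sq (by positivity)

end JCaux

theorem JC (hf : St_fun) (hs : St_sE) (hd : Pool.Agent.H604R2.SW.St_dom) : St_JC := by
  obtain ⟨_, _, _, _, _, _, _, _, hb, _, _, _, hm, _, _⟩ := hf
  intro ι _ _ _ C₀ hC₀
  obtain ⟨ε, hε, c, hc, M, hM, hdom⟩ := hd C₀ hC₀
  have hev : ∀ᶠ C in 𝓝[{C : Matrix ι ι ℝ | C.PosDef}] C₀,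
      C.PosDef ∧ (∀ x, dens C x ≤ M * Real.exp (-c * ∑ i, x i ^ 2)) := by
    have h1 : ∀ᶠ C in 𝓝 C₀, ∀ i j, |C i j - C₀ i j| < ε := by
      refine Filter.eventually_all.2 fun i => Filter.eventually_all.2 fun j => ?_
      have hcont : ContinuousAt (fun C : Matrix ι ι ℝ => |C i j - C₀ i j|) C₀ := by
        have : Continuous (fun C : Matrix ι ι ℝ => C i j) := continuous_apply_apply i j
        exact ((this.sub continuous_const).abs).continuousAt
      refine hcont.eventually_lt continuousAt_const ?_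
      simpa using hε
    filter_upwards [nhdsWithin_le_nhds h1, self_mem_nhdsWithin] with C hC hP
    exact ⟨hP, (hdom C hP.1 hC).2.1⟩
  have : FirstCountableTopology (Matrix ι ι ℝ) :=
    inferInstanceAs (FirstCountableTopology (ι → ι → ℝ))
  have hmeas : Measurable fun x : ι → ℝ => bf (sE x) := hm.comp JCaux.sE_cont.measurable
  unfold ContinuousWithinAt Jf
  refine tendsto_integral_filter_of_dominated_convergence
    (fun x => (2 * (1 + (Fintype.card ι : ℝ)) ^ 2 + 4 * (Fintype.card ι : ℝ) / c) * M *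
      Real.exp (-(c / 2) * ∑ i, x i ^ 2)) ?_ ?_ ?_ ?_
  · exact Eventually.of_forall fun C =>
      (hmeas.aestronglyMeasurable).mul (cont_dens_x C).aestronglyMeasurable
  · filter_upwards [hev] with C hC
    refine Eventually.of_forall fun x => ?_
    have h0 : 0 ≤ dens C x := by unfold Pool.Agent.H604R2.SW.dens; positivity
    have h1 : |bf (sE x)| ≤ (1 + ((Fintype.card ι : ℝ) + ∑ i, |x i|)) ^ 2 := by
      refine (hb _ (hs x).1).trans ?_
      have h2 := (hs x).2.2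
      have h3 := abs_nonneg (Real.log (sE x))
      exact pow_le_pow_left₀ (by linarith) (by linarith) 2
    rw [norm_mul, Real.norm_of_nonneg h0, Real.norm_eq_abs]
    have h4 := JCaux.poly_le hc x
    have h5 : Real.exp (c / 2 * ∑ i, x i ^ 2) * Real.exp (-c * ∑ i, x i ^ 2) =
        Real.exp (-(c / 2) * ∑ i, x i ^ 2) := by
      rw [← Real.exp_add]
      congr 1
      ring
    calc |bf (sE x)| * dens C x
        ≤ ((2 * (1 + (Fintype.card ι : ℝ)) ^ 2 + 4 * (Fintype.card ι : ℝ) / c) *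
            Real.exp (c / 2 * ∑ i, x i ^ 2)) * (M * Real.exp (-c * ∑ i, x i ^ 2)) :=
          mul_le_mul (h1.trans h4) (hC.2 x) h0 (by positivity)
      _ = (2 * (1 + (Fintype.card ι : ℝ)) ^ 2 + 4 * (Fintype.card ι : ℝ) / c) * M *
            (Real.exp (c / 2 * ∑ i, x i ^ 2) * Real.exp (-c * ∑ i, x i ^ 2)) := by ring
      _ = _ := by rw [h5]
  · exact JCaux.int_bound hc M
  · refine Eventually.of_forall fun x => ?_
    exact ((cont_dens_C C₀ hC₀ x).continuousWithinAt).const_mul _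

end Pool.Agent.H92.SM
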