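import Pool.Agent.H92.SM.Props

set_option autoImplicit false

namespace Pool.Agent.H92.SM

open MeasureTheory Matrix Finset Filter Topology Set ProbabilityTheory
open scoped BigOperators
open Pool.Agent.H604R2.SW

theorem JP (h1 : St_JP1) (h2 : St_JP2) : St_JP := by
  intro ι _ _ _ C A hC hA hA0
  have h := (h1 C A hC hA).2
  refine h.congr_deriv ?_
  rw [← mul_neg, ← Finset.sum_neg_distrib]
  congr 1
  refine Finset.sum_congr rfl fun k _ => ?_
  rw [← Finset.sum_neg_distrib]
  refine Finset.sum_congr rfl fun l _ => ?_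
  by_cases hkl : k = l
  · subst hkl
    rw [hA0 k]; ring
  · rw [h2 C hC k l hkl]; ring

end Pool.Agent.H92.SM
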