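import Pool.Agent.H92.SM.Props
import Pool.Graph.R_pool_sql_team_seeded_f0cf7b00.H604R2.SW.T_plackett
import Pool.Graph.R_pool_sql_team_seeded_f0cf7b00.H604R2.SW.T_int

/-!
# [JP1] Differentiation of `Jf` in the covariance
-/

set_option autoImplicit false
set_option linter.unusedSectionVars false

namespace Pool.Agent.H92.SM

open MeasureTheory Matrix Finset Filter Topology Set ProbabilityTheory
open scoped BigOperators
open Pool.Agent.H604R2.SW

namespace JP1aux

open Pool.Agent.H604R2.SW.Tplackett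

variable {ι : Type} [Fintype ι] [DecidableEq ι] [Nonempty ι]

/-- the quadratic weight -/
noncomputable def wt (x : ι → ℝ) : ℝ := (1 + (Fintype.card ι : ℝ) + ∑ i, |x i|) ^ 2

theorem abs_bf_le (hf : St_fun) (hs : St_sE) (x : ι → ℝ) : |bf (sE x)| ≤ wt x := by
  obtain ⟨h1, -, h3⟩ := hs x
  obtain ⟨-, -, -, -, -, -, -, -, h9, -⟩ := hf
  refine (h9 (sE x) h1).trans ?_
  unfold wt
  refine pow_le_pow_left₀ (by positivity) ?_ 2
  linarith

theorem measurable_bf_sE (hf : St_fun) : Measurable (fun x : ι → ℝ => bf (sE x)) := by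
  obtain ⟨-, -, -, -, -, -, -, -, -, -, -, -, h13, -⟩ := hf
  refine h13.comp ?_
  unfold sE
  fun_prop

theorem wt_nonneg (x : ι → ℝ) : 0 ≤ wt x := sq_nonneg _

theorem wt_exp {c : ℝ} (hc : 0 < c) (x : ι → ℝ) :
    wt x * Real.exp (-c * ∑ i, x i ^ 2) ≤
      (2 * (1 + (Fintype.card ι : ℝ)) ^ 2 + 2 * (Fintype.card ι : ℝ) * (2 / c)) *
        Real.exp (-(c / 2) * ∑ i, x i ^ 2) := by
  set Q := ∑ i, x i ^ 2 with hQ
  have hQ0 : 0 ≤ Q := Finset.sum_nonneg fun i _ => sq_nonneg _
  have h1 : wt x ≤ 2 * (1 + (Fintype.card ι : ℝ)) ^ 2 + 2 * ((Fintype.card ι : ℝ) * Q) := by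
    have h2 := sq_sum_le x
    rw [← hQ] at h2
    unfold wt
    nlinarith [sq_nonneg (1 + (Fintype.card ι : ℝ) - ∑ i, |x i|)]
  have h5 := q_exp_le (Q := Q) hc
  have h6 : Real.exp (-c * Q) ≤ Real.exp (-(c / 2) * Q) := by
    apply Real.exp_le_exp.2
    nlinarith
  calc wt x * Real.exp (-c * Q)
      ≤ (2 * (1 + (Fintype.card ι : ℝ)) ^ 2 + 2 * ((Fintype.card ι : ℝ) * Q)) *
          Real.exp (-c * Q) := mul_le_mul_of_nonneg_right h1 (Real.exp_pos _).le
    _ = 2 * (1 + (Fintype.card ι : ℝ)) ^ 2 * Real.exp (-c * Q) +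
          2 * (Fintype.card ι : ℝ) * (Q * Real.exp (-c * Q)) := by ring
    _ ≤ 2 * (1 + (Fintype.card ι : ℝ)) ^ 2 * Real.exp (-(c / 2) * Q) +
          2 * (Fintype.card ι : ℝ) * ((2 / c) * Real.exp (-(c / 2) * Q)) := by gcongr
    _ = _ := by ring

theorem int_wt {c : ℝ} (hc : 0 < c) :
    Integrable (fun x : ι → ℝ => wt x * Real.exp (-c * ∑ i, x i ^ 2)) := by
  refine ((gauss_int (ι := ι) (half_pos hc)).const_mul
    (2 * (1 + (Fintype.card ι : ℝ)) ^ 2 + 2 * (Fintype.card ι : ℝ) * (2 / c))).mono' ?_ ?_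
  · refine Continuous.aestronglyMeasurable ?_
    unfold wt
    fun_prop
  · refine Eventually.of_forall fun x => ?_
    rw [Real.norm_eq_abs, abs_of_nonneg (mul_nonneg (wt_nonneg x) (Real.exp_pos _).le)]
    exact wt_exp hc x

/-- integrability with the factor `bf (sE x)` -/
theorem int_bf (hf : St_fun) (hs : St_sE) {g : (ι → ℝ) → ℝ}
    (hg : AEStronglyMeasurable g volume) {c M : ℝ} (hc : 0 < c)
    (h : ∀ x, |g x| ≤ M * Real.exp (-c * ∑ i, x i ^ 2)) :
    Integrable (fun x : ι → ℝ => bf (sE x) * g x) := by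
  refine ((int_wt (ι := ι) hc).const_mul M).mono'
    ((measurable_bf_sE hf).aestronglyMeasurable.mul hg) ?_
  refine Eventually.of_forall fun x => ?_
  rw [Real.norm_eq_abs, abs_mul]
  calc |bf (sE x)| * |g x| ≤ wt x * (M * Real.exp (-c * ∑ i, x i ^ 2)) :=
        mul_le_mul (abs_bf_le hf hs x) (h x) (abs_nonneg _) (wt_nonneg x)
    _ = M * (wt x * Real.exp (-c * ∑ i, x i ^ 2)) := by ring

end JP1aux

open JP1aux Pool.Agent.H604R2.SW.Tplackett in
theorem JP1 (hf : St_fun) (hs : St_sE) (hd : St_dom) (h3 : St_plpt) : St_JP1 := by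
  intro ι _ _ _ C A hC hA
  have h2 : St_int := int_ hd
  obtain ⟨ε, hε, c, hc, M, hM, hdom⟩ := hd C hC
  set K : ℝ := ∑ i, ∑ j, |A i j| with hK
  have hK0 : 0 ≤ K := Finset.sum_nonneg fun i _ => Finset.sum_nonneg fun j _ => abs_nonneg _
  have hδ : 0 < ε / (K + 1) := by positivity
  have hHerm : ∀ s : ℝ, (C + s • A).IsHermitian := by
    intro s
    have h4 := hC.isHermitian
    unfold Matrix.IsHermitian at h4 hA ⊢
    rw [conjTranspose_add, conjTranspose_smul, h4, hA]
    simp
  have hclose : ∀ s ∈ Metric.ball (0 : ℝ) (ε / (K + 1)), ∀ i j, |(C + s • A) i j - C i j| < ε := by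
    intro s hs i j
    rw [Metric.mem_ball, dist_zero_right, Real.norm_eq_abs] at hs
    have h4 : (C + s • A) i j - C i j = s * A i j := by
      simp [Matrix.add_apply, Matrix.smul_apply]
    rw [h4, abs_mul]
    have h5 : |A i j| ≤ K := by
      calc |A i j| ≤ ∑ j, |A i j| :=
            Finset.single_le_sum (f := fun j => |A i j|) (fun _ _ => abs_nonneg _) (Finset.mem_univ j)
        _ ≤ K := Finset.single_le_sum (f := fun i => ∑ j, |A i j|)
            (fun i _ => Finset.sum_nonneg fun _ _ => abs_nonneg _) (Finset.mem_univ i)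
    rw [lt_div_iff₀ (by positivity)] at hs
    have h6 : |s| * |A i j| ≤ |s| * K := mul_le_mul_of_nonneg_left h5 (abs_nonneg _)
    have h7 : 0 ≤ |s| := abs_nonneg _
    rcases eq_or_lt_of_le h7 with h8 | h8
    · rw [← h8, zero_mul]
      exact hε
    · nlinarith
  have hD : ∀ s ∈ Metric.ball (0 : ℝ) (ε / (K + 1)), (C + s • A).PosDef ∧
      (∀ x, dens (C + s • A) x ≤ M * Real.exp (-c * ∑ i, x i ^ 2)) ∧
      (∀ k x, |((C + s • A)⁻¹ *ᵥ x) k| ≤ M * ∑ i, |x i|) ∧ (∀ k l, |(C + s • A)⁻¹ k l| ≤ M) :=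
    fun s hs => hdom _ (hHerm s) (hclose s hs)
  have h0 : (0 : ℝ) ∈ Metric.ball (0 : ℝ) (ε / (K + 1)) := Metric.mem_ball_self hδ
  have hC0 : C + (0 : ℝ) • A = C := by simp
  set F' : ℝ → (ι → ℝ) → ℝ := fun s x =>
    bf (sE x) * (1 / 2 * ∑ k, ∑ l, A k l * dens2 (C + s • A) k l x) with hF'
  set B : ℝ := (M ^ 2 * (Fintype.card ι : ℝ) * (2 / c) + M) * M with hB
  have hB0 : 0 ≤ B := by positivity
  have hD0 := hD 0 h0
  rw [hC0] at hD0
  have hint2 : ∀ k l, Integrable (fun x : ι → ℝ => bf (sE x) * dens2 C k l x) := fun k l =>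
    int_bf hf hs ((h2 C hC).2.2 k l).aestronglyMeasurable (half_pos hc)
      (dens2_bound hc hM hD0.2.1 hD0.2.2.1 hD0.2.2.2 k l)
  refine ⟨hint2, ?_⟩
  have eF : (fun x => F' 0 x) =
      fun x => 1 / 2 * ∑ k, ∑ l, A k l * (bf (sE x) * dens2 C k l x) := by
    funext x
    simp only [hF', hC0]
    rw [mul_left_comm, Finset.mul_sum]
    congr 1
    refine Finset.sum_congr rfl fun k _ => ?_
    rw [Finset.mul_sum]
    refine Finset.sum_congr rfl fun l _ => ?_
    ring
  have key := hasDerivAt_integral_of_dominated_loc_of_deriv_le (μ := volume)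
    (F := fun (s : ℝ) (x : ι → ℝ) => bf (sE x) * dens (C + s • A) x) (F' := F') (x₀ := (0 : ℝ))
    (s := Metric.ball (0 : ℝ) (ε / (K + 1)))
    (bound := fun x => (1 / 2 * (K * B)) * (wt x * Real.exp (-(c / 2) * ∑ i, x i ^ 2)))
    (Metric.ball_mem_nhds _ hδ) ?_ ?_ ?_ ?_ ?_ ?_
  · have h4 := key.2
    have h5 : (∫ x, F' 0 x) = 1 / 2 * ∑ k, ∑ l, A k l * ∫ x : ι → ℝ, bf (sE x) * dens2 C k l x := by
      rw [eF, integral_const_mul, integral_finsetSum]
      · congr 1
        refine Finset.sum_congr rfl fun k _ => ?_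
        rw [integral_finsetSum]
        · refine Finset.sum_congr rfl fun l _ => ?_
          rw [integral_const_mul]
        · intro l _
          exact (hint2 k l).const_mul _
      · intro k _
        exact integrable_finsetSum _ fun l _ => (hint2 k l).const_mul _
    rw [h5] at h4
    exact h4
  · filter_upwards [Metric.ball_mem_nhds (0 : ℝ) hδ] with s hs
    exact (measurable_bf_sE hf).aestronglyMeasurable.mul (h2 _ (hD s hs).1).1.aestronglyMeasurable
  · simp only [hC0]
    refine int_bf hf hs (h2 C hC).1.aestronglyMeasurable hc (M := M) fun x => ?_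
    rw [abs_of_nonneg (dens_nonneg C x)]
    exact hD0.2.1 x
  · rw [show F' 0 = fun x => F' 0 x from rfl, eF]
    exact (((integrable_finsetSum _ fun k _ => integrable_finsetSum _ fun l _ =>
      ((hint2 k l).const_mul _))).const_mul _).aestronglyMeasurable
  · refine ae_of_all _ fun x s hs' => ?_
    obtain ⟨-, g1, g2, g3⟩ := hD s hs'
    simp only [hF', Real.norm_eq_abs]
    rw [abs_mul, abs_mul, abs_of_pos (by norm_num : (0 : ℝ) < 1 / 2)]
    have h9 : |∑ k, ∑ l, A k l * dens2 (C + s • A) k l x| ≤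
        K * (B * Real.exp (-(c / 2) * ∑ i, x i ^ 2)) := by
      calc |∑ k, ∑ l, A k l * dens2 (C + s • A) k l x|
          ≤ ∑ k, ∑ l, |A k l| * (B * Real.exp (-(c / 2) * ∑ i, x i ^ 2)) := by
            refine (Finset.abs_sum_le_sum_abs _ _).trans (Finset.sum_le_sum fun k _ => ?_)
            refine (Finset.abs_sum_le_sum_abs _ _).trans (Finset.sum_le_sum fun l _ => ?_)
            rw [abs_mul]
            exact mul_le_mul_of_nonneg_left (dens2_bound hc hM g1 g2 g3 k l x) (abs_nonneg _)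
        _ = K * (B * Real.exp (-(c / 2) * ∑ i, x i ^ 2)) := by
            rw [hK, Finset.sum_mul]
            refine Finset.sum_congr rfl fun k _ => ?_
            rw [Finset.sum_mul]
    calc |bf (sE x)| * (1 / 2 * |∑ k, ∑ l, A k l * dens2 (C + s • A) k l x|)
        ≤ wt x * (1 / 2 * (K * (B * Real.exp (-(c / 2) * ∑ i, x i ^ 2)))) := by
          refine mul_le_mul (abs_bf_le hf hs x) ?_ (by positivity) (wt_nonneg x)
          exact mul_le_mul_of_nonneg_left h9 (by norm_num)
      _ = _ := by ring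
  · exact (int_wt (half_pos hc)).const_mul _
  · refine ae_of_all _ fun x s hs' => ?_
    have h4 := h3 (C + s • A) A (hD s hs').1 hA x
    have h5 : HasDerivAt (fun t : ℝ => dens (C + s • A + (t - s) • A) x)
        (1 / 2 * ∑ k, ∑ l, A k l * dens2 (C + s • A) k l x) s := by
      have h6 : HasDerivAt (fun u : ℝ => dens (C + s • A + u • A) x)
        (1 / 2 * ∑ k, ∑ l, A k l * dens2 (C + s • A) k l x) (s - s) := by
        rw [sub_self]
        exact h4
      exact h6.comp_sub_const s s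
    have h7 : HasDerivAt (fun t : ℝ => dens (C + t • A) x)
        (1 / 2 * ∑ k, ∑ l, A k l * dens2 (C + s • A) k l x) s := by
      refine h5.congr_of_eventuallyEq (Eventually.of_forall fun t => ?_)
      have h6 : C + s • A + (t - s) • A = C + t • A := by
        rw [add_assoc, ← add_smul, add_sub_cancel]
      simp only [h6]
    exact h7.const_mul _

end Pool.Agent.H92.SM
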