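import Pool.Agent.H92.SM.Props
import Pool.Graph.R_pool_sql_team_seeded_f0cf7b00.H604R2.SW.T_int

/-! # SM project, task JP2 (helper484, for helper92) -/

set_option autoImplicit false

namespace Pool.Agent.H92.SM

open MeasureTheory Matrix Finset Filter Topology Set ProbabilityTheory
open scoped BigOperators
open Pool.Agent.H604R2.SW

namespace JP2aux

/-- the weight `1 + ∑ |x i|` -/
noncomputable def wt {ι : Type} [Fintype ι] (x : ι → ℝ) : ℝ := 1 + ∑ i, |x i|

lemma wt_ge {ι : Type} [Fintype ι] (x : ι → ℝ) : 1 ≤ wt x := by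
  have : 0 ≤ ∑ i, |x i| := Finset.sum_nonneg fun i _ => abs_nonneg _
  unfold wt; linarith

lemma wt_sq_le {ι : Type} [Fintype ι] (c : ℝ) (hc : 0 < c) (x : ι → ℝ) :
    wt x ^ 2 ≤ ((Fintype.card ι : ℝ) + 1) * (1 + 2 / c) * Real.exp (c / 2 * ∑ i, x i ^ 2) := by
  unfold wt
  have hS : 0 ≤ ∑ i, x i ^ 2 := Finset.sum_nonneg fun i _ => sq_nonneg _
  set S := ∑ i, x i ^ 2 with hSd
  have hA : 0 ≤ ∑ i, |x i| := Finset.sum_nonneg fun i _ => abs_nonneg _
  have h3 : (∑ i, |x i|) ^ 2 ≤ (Fintype.card ι : ℝ) * S := by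
    have := sq_sum_le_card_mul_sum_sq (s := (Finset.univ : Finset ι)) (f := fun i => |x i|)
    simpa [hSd, sq_abs] using this
  have hN : (0 : ℝ) ≤ Fintype.card ι := Nat.cast_nonneg _
  have h4 : (1 + ∑ i, |x i|) ^ 2 ≤ ((Fintype.card ι : ℝ) + 1) * (1 + S) := by
    have hab : ∀ a s N : ℝ, 0 ≤ a → 0 ≤ s → 0 ≤ N → a ^ 2 ≤ N * s →
        (1 + a) ^ 2 ≤ (N + 1) * (1 + s) := by
      intro a s N ha hs hN h
      have h5 : 2 * a ≤ N + s := by
        nlinarith [sq_nonneg (N - s), sq_nonneg (a - (N + s) / 2), sq_nonneg (N + s)]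
      nlinarith
    exact hab _ _ _ hA hS hN h3
  have h5 : 1 + S ≤ (1 + 2 / c) * Real.exp (c / 2 * S) := by
    have e1 := Real.add_one_le_exp (c / 2 * S)
    have e2 : 1 ≤ Real.exp (c / 2 * S) := Real.one_le_exp (by positivity)
    have e3 : S ≤ 2 / c * Real.exp (c / 2 * S) := by
      have : S = 2 / c * (c / 2 * S) := by field_simp
      calc S = 2 / c * (c / 2 * S) := this
        _ ≤ 2 / c * Real.exp (c / 2 * S) :=
          mul_le_mul_of_nonneg_left (by linarith) (by positivity)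
    nlinarith
  calc (1 + ∑ i, |x i|) ^ 2 ≤ ((Fintype.card ι : ℝ) + 1) * (1 + S) := h4
    _ ≤ ((Fintype.card ι : ℝ) + 1) * ((1 + 2 / c) * Real.exp (c / 2 * S)) :=
        mul_le_mul_of_nonneg_left h5 (by positivity)
    _ = _ := by ring

lemma gauss4 {ι : Type} [Fintype ι] (c : ℝ) (hc : 0 < c) :
    Integrable (fun x : ι → ℝ => wt x ^ 4 * Real.exp (-c * ∑ i, x i ^ 2)) := by
  have h1 : Integrable (fun x : ι → ℝ => ∏ i, Real.exp (-(c / 2) * x i ^ 2)) :=
    MeasureTheory.Integrable.fintype_prod (f := fun _ : ι => fun t : ℝ =>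
      Real.exp (-(c / 2) * t ^ 2)) fun _ => integrable_exp_neg_mul_sq (by positivity)
  have h2 := h1.const_mul ((((Fintype.card ι : ℝ) + 1) * (1 + 2 / (c / 2))) ^ 2)
  refine h2.mono' ?_ (Eventually.of_forall fun x => ?_)
  · unfold wt
    exact Continuous.aestronglyMeasurable (by fun_prop)
  · have hw := wt_sq_le (c / 2) (by positivity) x
    have hw0 : 0 ≤ wt x ^ 2 := sq_nonneg _
    set S := ∑ i, x i ^ 2 with hSd
    have h6 : ∏ i, Real.exp (-(c / 2) * x i ^ 2) = Real.exp (-(c / 2) * S) := by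
      rw [← Real.exp_sum, hSd, Finset.mul_sum]
    have h4 : wt x ^ 4 ≤ ((((Fintype.card ι : ℝ) + 1) * (1 + 2 / (c / 2))) ^ 2) *
        Real.exp (c / 2 * S) := by
      have h5 := mul_le_mul hw hw hw0 (hw0.trans hw)
      calc wt x ^ 4 = wt x ^ 2 * wt x ^ 2 := by ring
        _ ≤ _ := h5
        _ = ((((Fintype.card ι : ℝ) + 1) * (1 + 2 / (c / 2))) ^ 2) *
          (Real.exp (c / 2 / 2 * S) * Real.exp (c / 2 / 2 * S)) := by ring
        _ = _ := by
          rw [← Real.exp_add]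
          congr 2
          ring
    rw [Real.norm_eq_abs, abs_of_nonneg (by positivity), h6]
    calc wt x ^ 4 * Real.exp (-c * S)
        ≤ (((((Fintype.card ι : ℝ) + 1) * (1 + 2 / (c / 2))) ^ 2) *
          Real.exp (c / 2 * S)) * Real.exp (-c * S) :=
          mul_le_mul_of_nonneg_right h4 (Real.exp_pos _).le
      _ = ((((Fintype.card ι : ℝ) + 1) * (1 + 2 / (c / 2))) ^ 2) *
          (Real.exp (c / 2 * S) * Real.exp (-c * S)) := by ring
      _ = _ := by
          rw [← Real.exp_add]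
          congr 2
          ring

lemma prod_int {ι : Type} [Fintype ι] (c A B : ℝ) (hc : 0 < c) (f g : (ι → ℝ) → ℝ)
    (hfm : AEStronglyMeasurable f) (hgm : AEStronglyMeasurable g) (hA : 0 ≤ A)
    (hf : ∀ x, |f x| ≤ A * wt x ^ 2)
    (hg : ∀ x, |g x| ≤ B * wt x ^ 2 * Real.exp (-c * ∑ i, x i ^ 2)) :
    Integrable (fun x => f x * g x) := by
  refine ((gauss4 c hc).const_mul (A * B)).mono' (hfm.mul hgm) (Eventually.of_forall fun x => ?_)
  rw [Real.norm_eq_abs, abs_mul]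
  calc |f x| * |g x| ≤ (A * wt x ^ 2) * (B * wt x ^ 2 * Real.exp (-c * ∑ i, x i ^ 2)) :=
        mul_le_mul (hf x) (hg x) (abs_nonneg _) (by positivity)
    _ = A * B * (wt x ^ 4 * Real.exp (-c * ∑ i, x i ^ 2)) := by ring

lemma dens2_symm {ι : Type} [Fintype ι] [DecidableEq ι] (C : Matrix ι ι ℝ) (hC : C.PosDef)
    (k l : ι) (x : ι → ℝ) : dens2 C l k x = dens2 C k l x := by
  have h := hC.isHermitian.inv
  have h2 := h.apply l k
  have h3 : C⁻¹ l k = C⁻¹ k l := by simpa using h2.symm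
  unfold dens2
  rw [h3]; ring

lemma sE_line {ι : Type} [Fintype ι] [DecidableEq ι] (x : ι → ℝ) (k : ι) :
    HasDerivAt (fun t : ℝ => sE (x + t • (Pi.single k (1 : ℝ) : ι → ℝ))) (Real.exp (x k)) 0 := by
  unfold sE
  have h : HasDerivAt (fun t : ℝ => ∑ i, Real.exp ((x + t • (Pi.single k (1 : ℝ) : ι → ℝ)) i))
      (∑ i, Real.exp (x i) * (Pi.single k (1 : ℝ) : ι → ℝ) i) 0 := by
    refine HasDerivAt.fun_sum fun i _ => ?_
    have h1 : HasDerivAt (fun t : ℝ => x i + t * (Pi.single k (1 : ℝ) : ι → ℝ) i)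
        ((Pi.single k (1 : ℝ) : ι → ℝ) i) 0 := by
      simpa using ((hasDerivAt_id (0 : ℝ)).mul_const
        ((Pi.single k (1 : ℝ) : ι → ℝ) i)).const_add (x i)
    simpa using h1.exp
  convert h using 1
  rw [Finset.sum_eq_single k]
  · simp
  · intro b _ hb
    simp [Pi.single_eq_of_ne hb]
  · intro h; exact absurd (Finset.mem_univ _) h

end JP2aux

open JP2aux in
theorem JP2 (hf : St_fun) (hs : St_sE) (hd : St_dom) (hl : St_line) : St_JP2 := by
  intro ι _ _ _ C hC k l hkl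
  obtain ⟨f1, f2, f3, f4, -, -, -, -, f9, -, -, -, mb, mp, mk⟩ := hf
  obtain ⟨ε, hε, c, hc, M, hM, hD⟩ := hd C hC
  obtain ⟨-, d1, d2, d3⟩ := hD C hC.1 (fun i j => by rw [sub_self, abs_zero]; exact hε)
  obtain ⟨c1, c2⟩ := int_cont C
  have hsE : Continuous (fun x : ι → ℝ => sE x) := by
    unfold sE
    fun_prop
  have hN : (0 : ℝ) ≤ Fintype.card ι := Nat.cast_nonneg _
  set N : ℝ := (Fintype.card ι : ℝ) with hNd
  have hlog : ∀ x : ι → ℝ, 1 + |Real.log (sE x)| ≤ (1 + N) * wt x := by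
    intro x
    have h1 := (hs x).2.2
    have h2 : 0 ≤ ∑ i, |x i| := Finset.sum_nonneg fun i _ => abs_nonneg _
    unfold wt
    nlinarith
  -- bounds for the three functions
  have hw1 : ∀ x : ι → ℝ, 1 ≤ wt x := wt_ge
  have bA : ∀ x : ι → ℝ, 1 + |Real.log (sE x)| ≤ (1 + N) ^ 2 * wt x ^ 2 := by
    intro x
    refine (hlog x).trans ?_
    have h1 := hw1 x
    have h3 : 1 ≤ (1 + N) * wt x := by nlinarith
    calc (1 + N) * wt x = (1 + N) * wt x * 1 := by ring
      _ ≤ (1 + N) * wt x * ((1 + N) * wt x) := mul_le_mul_of_nonneg_left h3 (by positivity)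
      _ = (1 + N) ^ 2 * wt x ^ 2 := by ring
  have b1 : ∀ x : ι → ℝ, |bf (sE x)| ≤ 2 * (1 + N) ^ 2 * wt x ^ 2 := by
    intro x
    refine (f9 _ (hs x).1).trans ?_
    have h1 := hlog x
    have h0 : 0 ≤ |Real.log (sE x)| := abs_nonneg _
    calc (1 + |Real.log (sE x)|) ^ 2 ≤ ((1 + N) * wt x) ^ 2 := by
          apply pow_le_pow_left₀ (by linarith) h1
      _ ≤ 2 * (1 + N) ^ 2 * wt x ^ 2 := by nlinarith [sq_nonneg ((1 + N) * wt x)]
  have b2 : ∀ x : ι → ℝ, |ph (sE x) * Real.exp (x l)| ≤ 2 * (1 + N) ^ 2 * wt x ^ 2 := by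
    intro x
    have h1 := (hs x).2.1 l
    obtain ⟨p1, p2, p3⟩ := f3 _ (hs x).1
    rw [abs_of_nonneg (mul_nonneg p1.le (Real.exp_pos _).le)]
    calc ph (sE x) * Real.exp (x l) ≤ ph (sE x) * sE x := mul_le_mul_of_nonneg_left h1 p1.le
      _ = sE x * ph (sE x) := mul_comm _ _
      _ ≤ 2 + 2 * |Real.log (sE x)| := p3
      _ ≤ _ := by nlinarith [bA x]
  have b3 : ∀ x : ι → ℝ, |(-(kr (sE x) * Real.exp (x k))) * Real.exp (x l)| ≤
      2 * (1 + N) ^ 2 * wt x ^ 2 := by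
    intro x
    have h1 := (hs x).2.1 l
    have h2 := (hs x).2.1 k
    obtain ⟨p1, p2, p3⟩ := f4 _ (hs x).1
    have hpos := (hs x).1
    rw [abs_mul, abs_neg, abs_of_nonneg (mul_nonneg p1 (Real.exp_pos _).le),
      abs_of_nonneg (Real.exp_pos _).le]
    calc kr (sE x) * Real.exp (x k) * Real.exp (x l)
        ≤ kr (sE x) * sE x * sE x :=
          mul_le_mul (mul_le_mul_of_nonneg_left h2 p1) h1 (Real.exp_pos _).le
            (mul_nonneg p1 hpos.le)
      _ = sE x ^ 2 * kr (sE x) := by ring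
      _ ≤ 2 * |Real.log (sE x)| := p3
      _ ≤ _ := by nlinarith [bA x]
  -- bounds for the densities
  have hA : ∀ x : ι → ℝ, 0 ≤ ∑ i, |x i| := fun x => Finset.sum_nonneg fun i _ => abs_nonneg _
  have g0 : ∀ x : ι → ℝ, |dens C x| ≤ M * wt x ^ 2 * Real.exp (-c * ∑ i, x i ^ 2) := by
    intro x
    rw [abs_of_nonneg (int_dens_nonneg C x)]
    refine (d1 x).trans ?_
    have e1 : 1 ≤ wt x ^ 2 := by nlinarith [hw1 x]
    have e2 : 0 < Real.exp (-c * ∑ i, x i ^ 2) := Real.exp_pos _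
    have e3 : M * 1 ≤ M * wt x ^ 2 := mul_le_mul_of_nonneg_left e1 hM.le
    calc M * Real.exp (-c * ∑ i, x i ^ 2) = M * 1 * Real.exp (-c * ∑ i, x i ^ 2) := by ring
      _ ≤ _ := mul_le_mul_of_nonneg_right e3 e2.le
  have g1 : ∀ x : ι → ℝ, |dens1 C k x| ≤ M * M * wt x ^ 2 * Real.exp (-c * ∑ i, x i ^ 2) := by
    intro x
    unfold dens1
    rw [abs_mul, abs_neg, abs_of_nonneg (int_dens_nonneg C x)]
    have e2 : 0 < Real.exp (-c * ∑ i, x i ^ 2) := Real.exp_pos _
    have e1 : ∑ i, |x i| ≤ wt x ^ 2 := by unfold wt; nlinarith [hA x]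
    calc |(C⁻¹ *ᵥ x) k| * dens C x
        ≤ (M * ∑ i, |x i|) * (M * Real.exp (-c * ∑ i, x i ^ 2)) :=
          mul_le_mul (d2 k x) (d1 x) (int_dens_nonneg C x) (mul_nonneg hM.le (hA x))
      _ = M * M * ((∑ i, |x i|) * Real.exp (-c * ∑ i, x i ^ 2)) := by ring
      _ ≤ M * M * (wt x ^ 2 * Real.exp (-c * ∑ i, x i ^ 2)) :=
          mul_le_mul_of_nonneg_left (mul_le_mul_of_nonneg_right e1 e2.le) (by positivity)
      _ = _ := by ring
  have g2 : ∀ x : ι → ℝ, |dens2 C k l x| ≤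
      (M * M + M) * M * wt x ^ 2 * Real.exp (-c * ∑ i, x i ^ 2) := by
    intro x
    unfold dens2
    rw [abs_mul, abs_of_nonneg (int_dens_nonneg C x)]
    have e2 : 0 < Real.exp (-c * ∑ i, x i ^ 2) := Real.exp_pos _
    have e3 : |(C⁻¹ *ᵥ x) k * (C⁻¹ *ᵥ x) l - C⁻¹ k l| ≤ (M * M + M) * wt x ^ 2 := by
      have a1 : |(C⁻¹ *ᵥ x) k * (C⁻¹ *ᵥ x) l| ≤ (M * ∑ i, |x i|) * (M * ∑ i, |x i|) := by
        rw [abs_mul]
        exact mul_le_mul (d2 k x) (d2 l x) (abs_nonneg _) (mul_nonneg hM.le (hA x))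
      have a2 := abs_sub ((C⁻¹ *ᵥ x) k * (C⁻¹ *ᵥ x) l) (C⁻¹ k l)
      have a3 := d3 k l
      have a4 : (∑ i, |x i|) * (∑ i, |x i|) ≤ wt x ^ 2 := by unfold wt; nlinarith [hA x]
      have a5 : 1 ≤ wt x ^ 2 := by unfold wt; nlinarith [hA x]
      have a6 : M * M * ((∑ i, |x i|) * (∑ i, |x i|)) ≤ M * M * wt x ^ 2 :=
        mul_le_mul_of_nonneg_left a4 (by positivity)
      have a7 : M * 1 ≤ M * wt x ^ 2 := mul_le_mul_of_nonneg_left a5 hM.le
      nlinarith
    have hw0 : 0 ≤ wt x ^ 2 := sq_nonneg _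
    calc |(C⁻¹ *ᵥ x) k * (C⁻¹ *ᵥ x) l - C⁻¹ k l| * dens C x
        ≤ ((M * M + M) * wt x ^ 2) * (M * Real.exp (-c * ∑ i, x i ^ 2)) :=
          mul_le_mul e3 (d1 x) (int_dens_nonneg C x) (by positivity)
      _ = (M * M + M) * M * wt x ^ 2 * Real.exp (-c * ∑ i, x i ^ 2) := by ring
  -- measurability
  have m1 : AEStronglyMeasurable (fun x : ι → ℝ => bf (sE x)) volume :=
    (mb.comp hsE.measurable).aestronglyMeasurable
  have m2 : AEStronglyMeasurable (fun x : ι → ℝ => ph (sE x) * Real.exp (x l)) volume := by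
    refine ((mp.comp hsE.measurable).mul ?_).aestronglyMeasurable
    exact (by fun_prop : Continuous fun x : ι → ℝ => Real.exp (x l)).measurable
  have m3 : AEStronglyMeasurable
      (fun x : ι → ℝ => (-(kr (sE x) * Real.exp (x k))) * Real.exp (x l)) volume := by
    refine ((((mk.comp hsE.measurable).mul ?_).neg).mul ?_).aestronglyMeasurable
    · exact (by fun_prop : Continuous fun x : ι → ℝ => Real.exp (x k)).measurable
    · exact (by fun_prop : Continuous fun x : ι → ℝ => Real.exp (x l)).measurable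
  have n0 : AEStronglyMeasurable (dens C) volume := c1.aestronglyMeasurable
  have n1 : AEStronglyMeasurable (dens1 C k) volume := (((c2 k).neg).mul c1).aestronglyMeasurable
  have n2 : AEStronglyMeasurable (dens2 C k l) volume :=
    ((((c2 k).mul (c2 l)).sub continuous_const).mul c1).aestronglyMeasurable
  have hK : (0 : ℝ) ≤ 2 * (1 + N) ^ 2 := by positivity
  -- line derivatives
  have L1 : ∀ x : ι → ℝ, HasLineDerivAt ℝ (fun x : ι → ℝ => bf (sE x))
      (ph (sE x) * Real.exp (x l)) x (Pi.single l 1) := by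
    intro x
    unfold HasLineDerivAt
    have h1 := sE_line x l
    have h2 := f1 (sE x) (hs x).1
    have h3 : HasDerivAt bf (ph (sE x)) (sE (x + (0 : ℝ) • (Pi.single l (1 : ℝ) : ι → ℝ))) := by
      simpa using h2
    exact h3.comp (0 : ℝ) h1
  have L2 : ∀ x : ι → ℝ, HasLineDerivAt ℝ (fun x : ι → ℝ => ph (sE x) * Real.exp (x l))
      ((-(kr (sE x) * Real.exp (x k))) * Real.exp (x l)) x (Pi.single k 1) := by
    intro x
    unfold HasLineDerivAt
    have h1 := sE_line x k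
    have h2 := f2 (sE x) (hs x).1
    have h3 : HasDerivAt ph (-kr (sE x)) (sE (x + (0 : ℝ) • (Pi.single k (1 : ℝ) : ι → ℝ))) := by
      simpa using h2
    have h4 := (h3.comp (0 : ℝ) h1).mul_const (Real.exp (x l))
    have h5 : (fun t : ℝ => ph (sE (x + t • (Pi.single k (1 : ℝ) : ι → ℝ))) *
        Real.exp ((x + t • (Pi.single k (1 : ℝ) : ι → ℝ)) l)) =
        (fun t : ℝ => ph (sE (x + t • (Pi.single k (1 : ℝ) : ι → ℝ))) * Real.exp (x l)) := by
      funext t
      have : (x + t • (Pi.single k (1 : ℝ) : ι → ℝ)) l = x l := by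
        simp [Pi.single_eq_of_ne (Ne.symm hkl)]
      rw [this]
    rw [h5]
    exact h4.congr_deriv (by ring)
  have L3 : ∀ x : ι → ℝ, HasLineDerivAt ℝ (dens1 C k) (dens2 C k l x) x (Pi.single l 1) := by
    intro x
    unfold HasLineDerivAt
    have h := (hl C hC x (Pi.single l (1 : ℝ)) 0).2 k
    refine HasDerivAt.congr_deriv (f := fun t : ℝ => dens1 C k (x + t • (Pi.single l (1 : ℝ) : ι → ℝ)))
      h ?_
    rw [Finset.sum_eq_single l]
    · simp only [Pi.single_eq_same, one_mul, zero_mul, add_zero]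
      exact dens2_symm C hC k l x
    · intro b _ hb
      simp [Pi.single_eq_of_ne hb]
    · intro h; exact absurd (Finset.mem_univ _) h
  have L4 : ∀ x : ι → ℝ, HasLineDerivAt ℝ (dens C) (dens1 C k x) x (Pi.single k 1) := by
    intro x
    unfold HasLineDerivAt
    have h := (hl C hC x (Pi.single k (1 : ℝ)) 0).1
    refine HasDerivAt.congr_deriv (f := fun t : ℝ => dens C (x + t • (Pi.single k (1 : ℝ) : ι → ℝ)))
      h ?_
    rw [Finset.sum_eq_single k]
    · simp only [Pi.single_eq_same, one_mul, zero_mul, add_zero]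
    · intro b _ hb
      simp [Pi.single_eq_of_ne hb]
    · intro h; exact absurd (Finset.mem_univ _) h
  -- the two integrations by parts
  have I1 := integral_bilinear_hasLineDerivAt_right_eq_neg_left_of_integrable
    (μ := (volume : Measure (ι → ℝ))) (B := ContinuousLinearMap.mul ℝ ℝ)
    (f := fun x : ι → ℝ => bf (sE x)) (f' := fun x : ι → ℝ => ph (sE x) * Real.exp (x l))
    (g := dens1 C k) (g' := dens2 C k l) (v := Pi.single l (1 : ℝ))
    (by simpa using prod_int c _ _ hc _ _ m2 n1 hK b2 g1)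
    (by simpa using prod_int c _ _ hc _ _ m1 n2 hK b1 g2)
    (by simpa using prod_int c _ _ hc _ _ m1 n1 hK b1 g1)
    (fun x _ => L1 x) (fun x _ => L3 x)
  have I2 := integral_bilinear_hasLineDerivAt_right_eq_neg_left_of_integrable
    (μ := (volume : Measure (ι → ℝ))) (B := ContinuousLinearMap.mul ℝ ℝ)
    (f := fun x : ι → ℝ => ph (sE x) * Real.exp (x l))
    (f' := fun x : ι → ℝ => (-(kr (sE x) * Real.exp (x k))) * Real.exp (x l))
    (g := dens C) (g' := dens1 C k) (v := Pi.single k (1 : ℝ))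
    (by simpa using prod_int c _ _ hc _ _ m3 n0 hK b3 g0)
    (by simpa using prod_int c _ _ hc _ _ m2 n1 hK b2 g1)
    (by simpa using prod_int c _ _ hc _ _ m2 n0 hK b2 g0)
    (fun x _ => L2 x) (fun x _ => L4 x)
  simp only [ContinuousLinearMap.mul_apply'] at I1 I2
  rw [I1, I2, neg_neg]
  unfold Tf
  rw [← integral_neg]
  refine integral_congr_ae (Eventually.of_forall fun x => ?_)
  simp only
  rw [Real.exp_add]
  ring

end Pool.Agent.H92.SM
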