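import Pool.Agent.H92.SM.Props

/-!
[KPA] Convexity facts on `log cosh`.
-/

set_option autoImplicit false

namespace Pool.Agent.H92.SM

open Set

namespace KPAaux

theorem tanh_lt {x y : ℝ} (h : x < y) : Real.tanh x < Real.tanh y := by
  rw [Real.tanh_eq_sinh_div_cosh, Real.tanh_eq_sinh_div_cosh,
    div_lt_div_iff₀ (Real.cosh_pos x) (Real.cosh_pos y)]
  have h1 : 0 < Real.sinh (y - x) := Real.sinh_pos_iff.mpr (by linarith)
  rw [Real.sinh_sub] at h1
  linarith

theorem tanh_le {x y : ℝ} (h : x ≤ y) : Real.tanh x ≤ Real.tanh y := by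
  rcases h.lt_or_eq with h | h
  · exact (tanh_lt h).le
  · rw [h]

theorem tanh_pos {x : ℝ} (h : 0 < x) : 0 < Real.tanh x := by
  have := tanh_lt h
  rwa [Real.tanh_zero] at this

theorem hasDerivAt_lc (t : ℝ) : HasDerivAt lc (Real.tanh t) t := by
  have h := (Real.hasDerivAt_cosh t).log (Real.cosh_pos t).ne'
  rw [Real.tanh_eq_sinh_div_cosh]
  exact h

theorem hasDerivAt_tanh (t : ℝ) : HasDerivAt Real.tanh (1 / Real.cosh t ^ 2) t := by
  have h := (Real.hasDerivAt_sinh t).div (Real.hasDerivAt_cosh t) (Real.cosh_pos t).ne'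
  have e : Real.tanh = fun t => Real.sinh t / Real.cosh t := by
    funext t; exact Real.tanh_eq_sinh_div_cosh t
  have e2 : (Real.cosh t * Real.cosh t - Real.sinh t * Real.sinh t) = 1 := by
    have := Real.cosh_sq t
    nlinarith
  rw [e2] at h
  rw [e]
  exact h

theorem Kp_pos (t u : ℝ) (h : t ≠ u) : 0 < Kp t u := by
  rcases lt_or_gt_of_ne h with h | h
  · obtain ⟨c, hc, hc'⟩ := exists_hasDerivAt_eq_slope lc Real.tanh h
      (fun x _ => (hasDerivAt_lc x).continuousAt.continuousWithinAt)
      (fun x _ => hasDerivAt_lc x)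
    have h0 : 0 < u - t := by linarith
    rw [eq_div_iff h0.ne'] at hc'
    unfold Kp
    have h1 := tanh_lt hc.1
    nlinarith
  · obtain ⟨c, hc, hc'⟩ := exists_hasDerivAt_eq_slope lc Real.tanh h
      (fun x _ => (hasDerivAt_lc x).continuousAt.continuousWithinAt)
      (fun x _ => hasDerivAt_lc x)
    have h0 : 0 < t - u := by linarith
    rw [eq_div_iff h0.ne'] at hc'
    unfold Kp
    have h1 := tanh_lt hc.2
    nlinarith

/-- `tanh x / x` is antitone -/
theorem tanh_div {x y : ℝ} (hx : 0 ≤ x) (hxy : x ≤ y) :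
    x * Real.tanh y ≤ y * Real.tanh x := by
  have hd : ∀ z, HasDerivAt (fun z => z * Real.tanh x - x * Real.tanh z)
      (1 * Real.tanh x - x * (1 / Real.cosh z ^ 2)) z := fun z =>
    ((hasDerivAt_id z).mul_const _).sub ((hasDerivAt_tanh z).const_mul x)
  have hm : MonotoneOn (fun z => z * Real.tanh x - x * Real.tanh z) (Ici x) := by
    refine monotoneOn_of_deriv_nonneg (convex_Ici x)
      (fun z _ => (hd z).continuousAt.continuousWithinAt)
      (fun z _ => (hd z).differentiableAt.differentiableWithinAt) fun z hz => ?_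
    rw [interior_Ici] at hz
    rw [(hd z).deriv, one_mul]
    have hz' : x < z := hz
    have h1 : Real.cosh x ≤ Real.cosh z := by
      rw [← Real.cosh_abs x, ← Real.cosh_abs z]
      rw [Real.cosh_abs, Real.cosh_abs, Real.cosh_le_cosh, abs_of_nonneg hx,
        abs_of_nonneg (by linarith)]
      exact hz'.le
    have hc1 := Real.one_le_cosh x
    have hs := Real.self_le_sinh_iff.mpr hx
    have h2 : x * (1 / Real.cosh z ^ 2) ≤ x * (1 / Real.cosh x ^ 2) := by
      refine mul_le_mul_of_nonneg_left ?_ hx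
      exact one_div_le_one_div_of_le (by positivity) (pow_le_pow_left₀ (by positivity) h1 2)
    have h3 : x * (1 / Real.cosh x ^ 2) ≤ Real.tanh x := by
      rw [Real.tanh_eq_sinh_div_cosh, mul_one_div, div_le_div_iff₀ (by positivity)
        (by positivity)]
      have : x * Real.cosh x ≤ Real.sinh x * Real.cosh x ^ 2 := by
        have h4 : x * Real.cosh x ≤ Real.sinh x * Real.cosh x :=
          mul_le_mul_of_nonneg_right hs (by positivity)
        have h5 : Real.sinh x * Real.cosh x * 1 ≤ Real.sinh x * Real.cosh x * Real.cosh x :=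
          mul_le_mul_of_nonneg_left hc1 (mul_nonneg (hx.trans hs) (by positivity))
        nlinarith
      exact this
    linarith
  have h := hm (mem_Ici.mpr le_rfl) (mem_Ici.mpr hxy) hxy
  simp only at h
  nlinarith

theorem lc_abs (t : ℝ) : lc |t| = lc t := by
  unfold lc
  rw [Real.cosh_abs]

/-- the main inequality for positive arguments -/
theorem main {T U : ℝ} (hT : 0 < T) (hU : 0 ≤ U) :
    2 * T * (lc U - lc T) ≤ Real.tanh T * (U ^ 2 - T ^ 2) := by
  have hd : ∀ z, HasDerivAt (fun z => Real.tanh T * z ^ 2 - 2 * T * lc z)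
      (Real.tanh T * (2 * z) - 2 * T * Real.tanh z) z := fun z => by
    have h1 : HasDerivAt (fun z : ℝ => z ^ 2) (2 * z) z := by
      simpa using hasDerivAt_pow 2 z
    exact (h1.const_mul _).sub ((hasDerivAt_lc z).const_mul _)
  have key : Real.tanh T * T ^ 2 - 2 * T * lc T ≤ Real.tanh T * U ^ 2 - 2 * T * lc U := by
    rcases le_total U T with h | h
    · have hm : AntitoneOn (fun z => Real.tanh T * z ^ 2 - 2 * T * lc z) (Icc 0 T) := by
        refine antitoneOn_of_deriv_nonpos (convex_Icc 0 T)
          (fun z _ => (hd z).continuousAt.continuousWithinAt)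
          (fun z _ => (hd z).differentiableAt.differentiableWithinAt) fun z hz => ?_
        rw [interior_Icc] at hz
        rw [(hd z).deriv]
        have := tanh_div hz.1.le hz.2.le
        linarith
      exact hm ⟨hU, h⟩ ⟨hT.le, le_rfl⟩ h
    · have hm : MonotoneOn (fun z => Real.tanh T * z ^ 2 - 2 * T * lc z) (Ici T) := by
        refine monotoneOn_of_deriv_nonneg (convex_Ici T)
          (fun z _ => (hd z).continuousAt.continuousWithinAt)
          (fun z _ => (hd z).differentiableAt.differentiableWithinAt) fun z hz => ?_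
        rw [interior_Ici] at hz
        rw [(hd z).deriv]
        have := tanh_div hT.le (le_of_lt hz)
        linarith
      exact hm (mem_Ici.mpr le_rfl) (mem_Ici.mpr h) h
  linarith

theorem coth_abs (t : ℝ) : t * Real.cosh t / Real.sinh t =
    |t| * Real.cosh |t| / Real.sinh |t| := by
  rcases le_total 0 t with h | h
  · rw [abs_of_nonneg h]
  · rw [abs_of_nonpos h, Real.cosh_neg, Real.sinh_neg, neg_mul, neg_div_neg_eq]

theorem part4 (t u : ℝ) : 2 * (t * Real.cosh t / Real.sinh t) * Kp t u ≤ (u - t) ^ 2 := by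
  rcases eq_or_ne t 0 with rfl | ht
  · simp only [Real.sinh_zero, div_zero, mul_zero, zero_mul]
    positivity
  · have hT : 0 < |t| := abs_pos.mpr ht
    have hm := main hT (abs_nonneg u)
    rw [lc_abs, lc_abs, sq_abs, sq_abs] at hm
    have hth := tanh_pos hT
    have hs : Real.sinh t ≠ 0 := fun h => ht (Real.sinh_eq_zero.mp h)
    have hc : Real.cosh t ≠ 0 := (Real.cosh_pos t).ne'
    have e1 : t * Real.cosh t / Real.sinh t = |t| / Real.tanh |t| := by
      rw [coth_abs, Real.tanh_eq_sinh_div_cosh, div_div_eq_mul_div]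
    have e2 : (t * Real.cosh t / Real.sinh t) * Real.tanh t = t := by
      rw [Real.tanh_eq_sinh_div_cosh]
      field_simp
    have h1 : 2 * (t * Real.cosh t / Real.sinh t) * (lc u - lc t) ≤ u ^ 2 - t ^ 2 := by
      rw [e1]
      have : 2 * (|t| / Real.tanh |t|) * (lc u - lc t) =
          (2 * |t| * (lc u - lc t)) / Real.tanh |t| := by ring
      rw [this, div_le_iff₀ hth]
      linarith
    unfold Kp
    have e3 : 2 * (t * Real.cosh t / Real.sinh t) * (lc u - lc t - (u - t) * Real.tanh t) =
        2 * (t * Real.cosh t / Real.sinh t) * (lc u - lc t) -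
          2 * (u - t) * ((t * Real.cosh t / Real.sinh t) * Real.tanh t) := by ring
    rw [e3, e2]
    nlinarith

end KPAaux

open KPAaux in
theorem KPA : St_KPA := by
  refine ⟨hasDerivAt_lc, fun t u => ?_, Kp_pos, part4⟩
  rcases eq_or_ne t u with rfl | h
  · unfold Kp
    simp
  · exact (Kp_pos t u h).le

end Pool.Agent.H92.SM
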