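import Pool.Agent.H92.SM.Props

set_option autoImplicit false

namespace Pool.Agent.H92.SM

open MeasureTheory Matrix Finset Filter Topology Set ProbabilityTheory
open scoped BigOperators
open Pool.Agent.H604R2.SW

namespace KPBaux

theorem hasDerivAt_tanh (t : ℝ) : HasDerivAt Real.tanh (1 / Real.cosh t ^ 2) t := by
  have h0 : Real.cosh t ≠ 0 := (Real.cosh_pos t).ne'
  have h := (Real.hasDerivAt_sinh t).div (Real.hasDerivAt_cosh t) h0
  have e : (fun s => Real.sinh s / Real.cosh s) = Real.tanh := by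
    funext s
    rw [Real.tanh_eq_sinh_div_cosh]
  have h2 : HasDerivAt Real.tanh ((Real.cosh t * Real.cosh t - Real.sinh t * Real.sinh t) /
      Real.cosh t ^ 2) t := by
    rw [← e]
    exact h
  have h3 : Real.cosh t * Real.cosh t - Real.sinh t * Real.sinh t = 1 := by
    have := Real.cosh_sq t
    nlinarith
  rwa [h3] at h2

theorem hasDerivAt_lc (t : ℝ) : HasDerivAt lc (Real.tanh t) t := by
  have h := (Real.hasDerivAt_cosh t).log (Real.cosh_pos t).ne'
  rw [Real.tanh_eq_sinh_div_cosh]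
  exact h

theorem lc_neg (t : ℝ) : lc (-t) = lc t := by
  unfold lc
  rw [Real.cosh_neg]

theorem lc_zero : lc 0 = 0 := by
  unfold lc
  rw [Real.cosh_zero, Real.log_one]

theorem lc_nonneg (t : ℝ) : 0 ≤ lc t := Real.log_nonneg (Real.one_le_cosh t)

theorem Kp_neg (t u : ℝ) : Kp (-t) (-u) = Kp t u := by
  unfold Kp
  rw [lc_neg, lc_neg, Real.tanh_neg]
  ring

/-- derivative of `s ↦ Kp s u - c (s - u)^2 / 2` -/
theorem hasDerivAt_psi (u c s : ℝ) :
    HasDerivAt (fun s => Kp s u - c * (s - u) ^ 2 / 2)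
      ((s - u) * (1 / Real.cosh s ^ 2 - c)) s := by
  have h1 := hasDerivAt_lc s
  have h2 := hasDerivAt_tanh s
  have h3 : HasDerivAt (fun s => s - u) 1 s := (hasDerivAt_id s).sub_const u
  have h3' : HasDerivAt (fun s => u - s) (-1) s := by
    simpa using (hasDerivAt_id s).const_sub u
  have h4 : HasDerivAt (fun s => Kp s u)
      ((0 - Real.tanh s) - ((-1) * Real.tanh s + (u - s) * (1 / Real.cosh s ^ 2))) s := by
    unfold Kp
    exact ((hasDerivAt_const s (lc u)).sub h1).sub (h3'.mul h2)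
  have h5 := ((h3.pow 2).const_mul c).div_const 2
  refine (h4.sub h5).congr_deriv ?_
  simp only [Nat.cast_ofNat, Nat.add_one_sub_one, pow_one, mul_one]
  ring

theorem cosh_le {s R : ℝ} (h : |s| ≤ R) : Real.cosh s ^ 2 ≤ Real.cosh R ^ 2 := by
  have h1 : Real.cosh s ≤ Real.cosh R := by
    rw [Real.cosh_le_cosh]
    exact h.trans (le_abs_self R)
  exact pow_le_pow_left₀ (Real.cosh_pos s).le h1 2

theorem three (R t u : ℝ) (ht : |t| ≤ R) (hu : |u| ≤ R) :
    (t - u) ^ 2 / (2 * Real.cosh R ^ 2) ≤ Kp t u := by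
  set c := 1 / Real.cosh R ^ 2 with hc
  have hpos : ∀ s, |s| ≤ R → 0 ≤ 1 / Real.cosh s ^ 2 - c := by
    intro s hs
    rw [hc, sub_nonneg]
    exact one_div_le_one_div_of_le (pow_pos (Real.cosh_pos s) 2) (cosh_le hs)
  have hu0 : Kp u u - c * (u - u) ^ 2 / 2 = 0 := by
    unfold Kp
    ring
  have hcont : Continuous (fun s => Kp s u - c * (s - u) ^ 2 / 2) :=
    continuous_iff_continuousAt.2 fun s => (hasDerivAt_psi u c s).continuousAt
  have hmain : 0 ≤ Kp t u - c * (t - u) ^ 2 / 2 := by
    rcases le_total u t with h | h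
    · have hm : MonotoneOn (fun s => Kp s u - c * (s - u) ^ 2 / 2) (Icc u t) := by
        refine monotoneOn_of_deriv_nonneg (convex_Icc u t) hcont.continuousOn
          (fun s _ => (hasDerivAt_psi u c s).differentiableAt.differentiableWithinAt) ?_
        intro s hs
        rw [interior_Icc] at hs
        rw [(hasDerivAt_psi u c s).deriv]
        refine mul_nonneg (by linarith [hs.1]) (hpos s ?_)
        rw [abs_le] at ht hu ⊢
        exact ⟨by linarith [hs.1], by linarith [hs.2]⟩
      have := hm (left_mem_Icc.2 h) (right_mem_Icc.2 h) h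
      simp only at this
      linarith
    · have hm : AntitoneOn (fun s => Kp s u - c * (s - u) ^ 2 / 2) (Icc t u) := by
        refine antitoneOn_of_deriv_nonpos (convex_Icc t u) hcont.continuousOn
          (fun s _ => (hasDerivAt_psi u c s).differentiableAt.differentiableWithinAt) ?_
        intro s hs
        rw [interior_Icc] at hs
        rw [(hasDerivAt_psi u c s).deriv]
        refine mul_nonpos_of_nonpos_of_nonneg (by linarith [hs.2]) (hpos s ?_)
        rw [abs_le] at ht hu ⊢
        exact ⟨by linarith [hs.1], by linarith [hs.2]⟩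
      have := hm (left_mem_Icc.2 h) (right_mem_Icc.2 h) h
      simp only at this
      linarith
  have e : (t - u) ^ 2 / (2 * Real.cosh R ^ 2) = c * (t - u) ^ 2 / 2 := by
    rw [hc]
    field_simp
  rw [e]
  linarith

theorem lc_le (t : ℝ) : lc t ≤ t * Real.tanh t := by
  have h := three |t| t 0 le_rfl (by simp)
  have h2 : 0 ≤ (t - 0) ^ 2 / (2 * Real.cosh |t| ^ 2) := by positivity
  have h3 := h2.trans h
  unfold Kp at h3
  rw [lc_zero] at h3
  linarith

theorem tanh_ge {t : ℝ} (ht : 1 ≤ t) : 1 / 2 ≤ Real.tanh t := by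
  rw [Real.tanh_eq_sinh_div_cosh, le_div_iff₀ (Real.cosh_pos t), Real.sinh_eq, Real.cosh_eq]
  have h1 : 2 * t + 1 ≤ Real.exp (2 * t) := Real.add_one_le_exp _
  have h2 : Real.exp (2 * t) = Real.exp t * Real.exp t := by rw [← Real.exp_add]; ring_nf
  have h3 : Real.exp t * Real.exp (-t) = 1 := by rw [← Real.exp_add]; simp
  have h4 : 0 < Real.exp (-t) := Real.exp_pos _
  have h5 : 3 * Real.exp (-t) ≤ Real.exp t := by
    have h6 : 3 ≤ Real.exp t * Real.exp t := by rw [← h2]; linarith
    nlinarith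
  linarith

theorem one (t u : ℝ) (ht : 1 ≤ t) (hu : u ≤ -1) : -u / 2 ≤ Kp t u := by
  have h1 := lc_le t
  have h2 := lc_nonneg u
  have h3 := tanh_ge ht
  unfold Kp
  nlinarith

end KPBaux

theorem KPB : St_KPB := by
  refine ⟨KPBaux.one, ?_, KPBaux.three⟩
  intro t u ht hu
  have h := KPBaux.one (-u) (-t) (by linarith) (by linarith)
  rw [KPBaux.Kp_neg] at h
  linarith

end Pool.Agent.H92.SM
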