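import Mathlib
import Pool.Agent.H92.SM.Props

/-!
# MP_72ffec_pr: the two boundary limits
-/

set_option autoImplicit false

namespace Pool.Agent.H92.SM

open MeasureTheory Matrix Finset Filter Topology Set ProbabilityTheory
open scoped BigOperators
open Pool.Agent.H604R2.SW

namespace LIMaux

lemma sinh_sq_div : Tendsto (fun x : ℝ => Real.sinh x ^ 2 / x) (𝓝[>] 0) (𝓝 0) := by
  have h1 : Tendsto (fun x : ℝ => Real.sinh x / x) (𝓝[>] 0) (𝓝 1) := by
    have h := (Real.hasDerivAt_sinh 0).tendsto_slope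
    rw [Real.cosh_zero] at h
    have h2 : Tendsto (slope Real.sinh 0) (𝓝[>] 0) (𝓝 1) :=
      h.mono_left (nhdsWithin_mono _ (fun x hx => ne_of_gt hx))
    refine h2.congr (fun x => ?_)
    rw [slope_def_field, Real.sinh_zero, sub_zero, sub_zero]
  have h3 : Tendsto (fun x : ℝ => Real.sinh x) (𝓝[>] 0) (𝓝 0) := by
    have : Tendsto (fun x : ℝ => Real.sinh x) (𝓝 0) (𝓝 0) := by
      have := Real.continuous_sinh.tendsto 0
      rwa [Real.sinh_zero] at this
    exact this.mono_left nhdsWithin_le_nhds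
  have h4 := h3.mul h1
  rw [zero_mul] at h4
  refine h4.congr (fun x => ?_)
  ring

/-- the bound of the singular part near the diagonal -/
lemma sing {f s t u C : ℝ} (hC : 0 < C) (hK : (t - u) ^ 2 / C ≤ Kp t u) (hs : 0 < s)
    (hst : s ≤ |t - u|) (hsf : |t - f| = s) :
    |(u - t) * Pf f t u| ≤ C * (Real.sinh s ^ 2 / s) := by
  have hd : 0 < |t - u| := lt_of_lt_of_le hs hst
  have hd2 : 0 < (t - u) ^ 2 := by rw [← sq_abs]; positivity
  have hKp : 0 < Kp t u := lt_of_lt_of_le (by positivity) hK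
  have hc := Real.one_le_cosh t
  have e1 : Real.sinh (t - f) ^ 2 = Real.sinh s ^ 2 := by
    rw [← hsf]
    rcases abs_cases (t - f) with h | h
    · rw [h.1]
    · rw [h.1, Real.sinh_neg, neg_sq]
  unfold Pf
  rw [e1, abs_mul, abs_of_nonneg (show (0:ℝ) ≤ Real.sinh s ^ 2 / (Real.cosh t * Kp t u) by
    positivity), abs_sub_comm u t]
  have h1 : Real.sinh s ^ 2 / (Real.cosh t * Kp t u) ≤ Real.sinh s ^ 2 / ((t - u) ^ 2 / C) := by
    apply div_le_div_of_nonneg_left (sq_nonneg _) (by positivity)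
    nlinarith
  calc |t - u| * (Real.sinh s ^ 2 / (Real.cosh t * Kp t u))
      ≤ |t - u| * (Real.sinh s ^ 2 / ((t - u) ^ 2 / C)) :=
        mul_le_mul_of_nonneg_left h1 hd.le
    _ = C * (Real.sinh s ^ 2 / |t - u|) := by
        rw [← sq_abs (t - u)]; field_simp
    _ ≤ C * (Real.sinh s ^ 2 / s) := by
        apply mul_le_mul_of_nonneg_left _ hC.le
        exact div_le_div_of_nonneg_left (sq_nonneg _) hs hst

lemma quad_atTop {c : ℝ} (hc : 0 < c) :
    Tendsto (fun x : ℝ => Real.exp (3 * |x| - c * x ^ 2)) atTop (𝓝 0) := by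
  apply Real.tendsto_exp_atBot.comp
  have h1 : Tendsto (fun x : ℝ => x * (c * x - 3)) atTop atTop := by
    apply Tendsto.atTop_mul_atTop₀ tendsto_id
    exact tendsto_atTop_add_const_right _ _ (tendsto_id.const_mul_atTop hc)
  have h2 : Tendsto (fun x : ℝ => -(x * (c * x - 3))) atTop atBot := tendsto_neg_atTop_atBot.comp h1
  refine h2.congr' ?_
  filter_upwards [eventually_ge_atTop (0:ℝ)] with x hx
  rw [abs_of_nonneg hx]; ring

lemma quad_atBot {c : ℝ} (hc : 0 < c) :
    Tendsto (fun x : ℝ => Real.exp (3 * |x| - c * x ^ 2)) atBot (𝓝 0) := by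
  have h := (quad_atTop hc).comp tendsto_neg_atBot_atTop
  refine h.congr (fun x => ?_)
  simp only [Function.comp, abs_neg, neg_sq]

lemma abs_sinh_le (y : ℝ) : |Real.sinh y| ≤ Real.exp |y| := by
  rw [Real.sinh_eq, abs_le]
  have h1 : Real.exp y ≤ Real.exp |y| := Real.exp_le_exp.2 (le_abs_self y)
  have h2 : Real.exp (-y) ≤ Real.exp |y| := Real.exp_le_exp.2 (neg_le_abs y)
  have h3 := Real.exp_pos y
  have h4 := Real.exp_pos (-y)
  constructor <;> linarith

/-- the total bound -/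
lemma tot {f x : ℝ} :
    |Real.sinh (x - 2 * f)| + 2 * (1 + |x|) * Real.sinh (x - f) ^ 2 ≤
      3 * Real.exp (2 * |f|) * Real.exp (3 * |x|) := by
  have h1 : |Real.sinh (x - 2 * f)| ≤ Real.exp (2 * |f|) * Real.exp (3 * |x|) := by
    refine le_trans (abs_sinh_le _) ?_
    rw [← Real.exp_add, Real.exp_le_exp]
    have h := abs_sub x (2 * f)
    rw [abs_mul, abs_two] at h
    have := abs_nonneg x
    linarith
  have h2 : Real.sinh (x - f) ^ 2 ≤ Real.exp (2 * |f|) * Real.exp (2 * |x|) := by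
    rw [← sq_abs]
    refine le_trans (pow_le_pow_left₀ (abs_nonneg _) (abs_sinh_le _) 2) ?_
    rw [← Real.exp_nat_mul, ← Real.exp_add, Real.exp_le_exp]
    have h := abs_sub x f
    push_cast
    linarith
  have h3 : 1 + |x| ≤ Real.exp |x| := by
    have := Real.add_one_le_exp |x|; linarith
  have h4 : (1 + |x|) * Real.sinh (x - f) ^ 2 ≤ Real.exp |x| * (Real.exp (2 * |f|) *
      Real.exp (2 * |x|)) := by
    apply mul_le_mul h3 h2 (sq_nonneg _) (Real.exp_pos _).le
  have e : Real.exp |x| * (Real.exp (2 * |f|) * Real.exp (2 * |x|)) =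
      Real.exp (2 * |f|) * Real.exp (3 * |x|) := by
    rw [← Real.exp_add, ← Real.exp_add, ← Real.exp_add]; congr 1; ring
  rw [e] at h4
  nlinarith

/-- the bound at infinity -/
lemma bdI {f t u K : ℝ} (hK0 : 0 < K) (hK : K / 2 ≤ Kp t u) (h : |u - t| ≤ K * (1 + |t|)) :
    |Ef f t u| ≤ |Real.sinh (t - 2 * f)| + 2 * (1 + |t|) * Real.sinh (t - f) ^ 2 := by
  have hKp : 0 < Kp t u := lt_of_lt_of_le (by positivity) hK
  have hc := Real.one_le_cosh t
  unfold Ef
  refine le_trans (abs_add_le _ _) ?_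
  apply add_le_add_right
  unfold Pf
  rw [abs_mul, abs_of_nonneg (show (0:ℝ) ≤ Real.sinh (t - f) ^ 2 / (Real.cosh t * Kp t u) by
    positivity)]
  have h1 : Real.sinh (t - f) ^ 2 / (Real.cosh t * Kp t u) ≤ Real.sinh (t - f) ^ 2 / (K / 2) := by
    apply div_le_div_of_nonneg_left (sq_nonneg _) (by positivity)
    nlinarith
  calc |u - t| * (Real.sinh (t - f) ^ 2 / (Real.cosh t * Kp t u))
      ≤ (K * (1 + |t|)) * (Real.sinh (t - f) ^ 2 / (K / 2)) := by
        apply mul_le_mul h h1 (by positivity) (by positivity)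
    _ = 2 * (1 + |t|) * Real.sinh (t - f) ^ 2 := by field_simp

end LIMaux

open LIMaux in
theorem LIM0 (hk : St_KPB) : St_LIM0 := by
  obtain ⟨-, -, hk3⟩ := hk
  intro ω u f hω hu hlim
  set R : ℝ := |f| + 1 with hR
  set C : ℝ := 2 * Real.cosh R ^ 2 with hC
  have hCp : 0 < C := by have := Real.cosh_pos R; positivity
  have hT : Tendsto (fun t : ℝ => t) (𝓝[>] f) (𝓝 f) := tendsto_id.mono_left nhdsWithin_le_nhds
  have hpos : ∀ᶠ t in 𝓝[>] f, f < t := eventually_mem_nhdsWithin
  have hRf : Metric.closedBall (0:ℝ) R ∈ 𝓝 f := by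
    apply Metric.closedBall_mem_nhds_of_mem
    rw [Metric.mem_ball, dist_zero_right, Real.norm_eq_abs]
    linarith
  have hb1 : ∀ᶠ t in 𝓝[>] f, |t| ≤ R := by
    filter_upwards [hT.eventually hRf] with t ht
    rwa [dist_zero_right, Real.norm_eq_abs] at ht
  have hb2 : ∀ᶠ t in 𝓝[>] f, |u t| ≤ R := by
    filter_upwards [hlim.eventually hRf] with t ht
    rwa [dist_zero_right, Real.norm_eq_abs] at ht
  -- the singular parts
  have d1 : Tendsto (fun t => t - f) (𝓝[>] f) (𝓝[>] 0) := by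
    rw [tendsto_nhdsWithin_iff]
    refine ⟨?_, ?_⟩
    · have := hT.sub_const f; rwa [sub_self] at this
    · filter_upwards [hpos] with t ht
      exact sub_pos.2 ht
  have d2 : Tendsto (fun t => f - u t) (𝓝[>] f) (𝓝[>] 0) := by
    rw [tendsto_nhdsWithin_iff]
    refine ⟨?_, ?_⟩
    · have := hlim.const_sub f; rwa [sub_self] at this
    · filter_upwards [hpos] with t ht
      exact sub_pos.2 (hu t ht)
  have s1 : Tendsto (fun t => (u t - t) * Pf f t (u t)) (𝓝[>] f) (𝓝 0) := by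
    have h1 := (sinh_sq_div.comp d1).const_mul C
    rw [mul_zero] at h1
    apply squeeze_zero_norm' _ h1
    filter_upwards [hpos, hb1, hb2] with t ht h1 h2
    have hut := hu t ht
    apply sing hCp (hk3 R t (u t) h1 h2) (sub_pos.2 ht)
    · rw [abs_of_pos (by linarith)]; linarith
    · rw [abs_of_pos (by linarith)]
  have s2 : Tendsto (fun t => (t - u t) * Pf f (u t) t) (𝓝[>] f) (𝓝 0) := by
    have h1 := (sinh_sq_div.comp d2).const_mul C
    rw [mul_zero] at h1
    apply squeeze_zero_norm' _ h1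
    filter_upwards [hpos, hb1, hb2] with t ht h1 h2
    have hut := hu t ht
    apply sing hCp (hk3 R (u t) t h2 h1) (sub_pos.2 hut)
    · rw [abs_of_neg (by linarith)]; linarith
    · rw [abs_of_neg (by linarith)]; ring
  have c1 : Tendsto (fun t : ℝ => Real.sinh (t - 2 * f)) (𝓝[>] f) (𝓝 (Real.sinh (f - 2 * f))) :=
    (Real.continuous_sinh.tendsto _).comp (hT.sub_const _)
  have c2 : Tendsto (fun t : ℝ => Real.sinh (u t - 2 * f)) (𝓝[>] f)
      (𝓝 (Real.sinh (f - 2 * f))) :=
    (Real.continuous_sinh.tendsto _).comp (hlim.sub_const _)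
  have w1 : Tendsto (fun t => ω t) (𝓝[>] f) (𝓝 (ω f)) := (hω.tendsto f).comp hT
  have w2 : Tendsto (fun t => ω (u t)) (𝓝[>] f) (𝓝 (ω f)) := (hω.tendsto f).comp hlim
  have hfin := ((c1.add s1).mul w1).sub ((c2.add s2).mul w2)
  rw [add_zero, sub_self] at hfin
  exact hfin

open LIMaux in
theorem LIMI (hk : St_KPB) : St_LIMI := by
  obtain ⟨hk1, hk2, -⟩ := hk
  intro ω u M c f hc hω hM hlim
  set A : ℝ := 3 * Real.exp (2 * |f|) * M with hA
  have b1 : ∀ x : ℝ, ∀ E : ℝ, |E| ≤ |Real.sinh (x - 2 * f)| + 2 * (1 + |x|) *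
      Real.sinh (x - f) ^ 2 → |E * ω x| ≤ A * Real.exp (3 * |x| - c * x ^ 2) := by
    intro x E hE
    rw [abs_mul, abs_of_pos (hω x)]
    calc |E| * ω x ≤ (3 * Real.exp (2 * |f|) * Real.exp (3 * |x|)) *
          (M * Real.exp (-c * x ^ 2)) :=
        mul_le_mul (le_trans hE tot) (hM x) (hω x).le (by positivity)
      _ = A * (Real.exp (3 * |x|) * Real.exp (-c * x ^ 2)) := by rw [hA]; ring
      _ = _ := by rw [← Real.exp_add]; congr 2; ring
  have hu1 : ∀ᶠ t in atTop, u t ≤ -1 := hlim.eventually (eventually_le_atBot (-1))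
  have t1 := (quad_atTop hc).const_mul A
  have t2 := ((quad_atBot hc).comp hlim).const_mul A
  have t3 := t1.add t2
  rw [mul_zero, add_zero] at t3
  apply squeeze_zero_norm' _ t3
  filter_upwards [hu1, eventually_ge_atTop (1:ℝ)] with t hut ht
  have at' : |t| = t := abs_of_pos (by linarith)
  have au : |u t| = -u t := abs_of_neg (by linarith)
  have e1 : |Ef f t (u t)| ≤ |Real.sinh (t - 2 * f)| + 2 * (1 + |t|) * Real.sinh (t - f) ^ 2 := by
    apply bdI (K := -u t) (by linarith) (by have := hk1 t (u t) ht hut; linarith)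
    rw [abs_of_neg (by linarith), at']
    nlinarith
  have e2 : |Ef f (u t) t| ≤ |Real.sinh (u t - 2 * f)| + 2 * (1 + |u t|) *
      Real.sinh (u t - f) ^ 2 := by
    apply bdI (K := t) (by linarith) (hk2 t (u t) ht hut)
    rw [abs_of_pos (by linarith), au]
    nlinarith
  rw [Real.norm_eq_abs]
  exact le_trans (abs_sub _ _) (add_le_add (b1 t _ e1) (b1 (u t) _ e2))

end Pool.Agent.H92.SM
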