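import Pool.Agent.H92.SM.Props2

/-!
# MP_72ffec_pr: assembly of the main theorem from [CMP], [REP], [REFL], [SYM], [PROJ], [SM]
-/

set_option autoImplicit false

namespace Pool.Agent.H92.SM

open MeasureTheory Matrix Finset Filter Topology Set ProbabilityTheory
open scoped BigOperators ENNReal

namespace MAINaux

universe u

/-- transfer of integrals -/
theorem transfer {N : ℕ} {Ω : Type u} [MeasurableSpace Ω] {P : Measure Ω} {X : Fin N → Ω → ℝ}
    (hXm : AEMeasurable (fun ω i => X i ω) P)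
    {E : Type} [NormedAddCommGroup E] [InnerProductSpace ℝ E] [FiniteDimensional ℝ E]
    [MeasurableSpace E] [BorelSpace E] (x : Fin N → E)
    (hmap : P.map (fun ω i => X i ω) =
      (stdGaussian E).map (fun z i => (inner ℝ (x i) z : ℝ)))
    (F : (Fin N → ℝ) → ℝ) (hF : Measurable F) :
    ∫ ω, F (fun i => X i ω) ∂P = ∫ z, F (fun i => (inner ℝ (x i) z : ℝ)) ∂(stdGaussian E) := by
  have hgm : Measurable fun z : E => (fun i => (inner ℝ (x i) z : ℝ)) := by fun_prop
  have h1 := integral_map (μ := P) hXm (f := F) hF.aestronglyMeasurable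
  have h2 := integral_map (μ := stdGaussian E) hgm.aemeasurable (f := F) hF.aestronglyMeasurable
  rw [← h1, ← h2, hmap]

/-- square integrability of functions of linear growth -/
theorem memLp_of_growth {N : ℕ} {Ω : Type u} [MeasurableSpace Ω] {P : Measure Ω}
    [IsProbabilityMeasure P] {X : Fin N → Ω → ℝ}
    (hXm : AEMeasurable (fun ω i => X i ω) P) (hX : ∀ i, MemLp (X i) 2 P)
    (F : (Fin N → ℝ) → ℝ) (hF : Measurable F) (A : ℝ) (hA : ∀ y, |F y| ≤ A + ∑ i, |y i|) :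
    MemLp (fun ω => F (fun i => X i ω)) 2 P := by
  have h1 : MemLp (fun ω => A + ∑ i, |X i ω|) 2 P :=
    (memLp_const A).add (memLp_finsetSum _ fun i _ => (hX i).abs)
  refine h1.mono' (hF.comp_aemeasurable hXm).aestronglyMeasurable ?_
  exact Eventually.of_forall fun ω => by
    rw [Real.norm_eq_abs]
    exact hA _

theorem inner_memLp {E : Type} [NormedAddCommGroup E] [InnerProductSpace ℝ E]
    [FiniteDimensional ℝ E] [MeasurableSpace E] [BorelSpace E] (y : E) :
    MemLp (fun z : E => (inner ℝ y z : ℝ)) 2 (stdGaussian E) := by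
  have h1 := (IsGaussian.memLp_id (stdGaussian E) 2 (by simp))
  have h2 := (innerSL ℝ y).comp_memLp' h1
  exact h2

theorem inner_mean {E : Type} [NormedAddCommGroup E] [InnerProductSpace ℝ E]
    [FiniteDimensional ℝ E] [MeasurableSpace E] [BorelSpace E] (y : E) :
    ∫ z : E, (inner ℝ y z : ℝ) ∂(stdGaussian E) = 0 := by
  have h1 : Integrable (fun z : E => z) (stdGaussian E) :=
    (IsGaussian.memLp_id (stdGaussian E) 1 (by simp)).integrable le_rfl
  have h2 := integral_inner (𝕜 := ℝ) h1 y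
  have h3 : ∫ z : E, z ∂(stdGaussian E) = 0 := integral_id_stdGaussian
  rw [h2, h3, inner_zero_right]

theorem softmax_eq {n : ℕ} (β : ℝ) (y : Fin n → ℝ) :
    softmax β y = 1 / β * Real.log (sE (fun i => β * y i)) := rfl

theorem softmax_log {n : ℕ} {β : ℝ} (hβ : 0 < β) (y : Fin n → ℝ) :
    Real.log (sE (fun i => β * y i)) = β * softmax β y := by
  rw [softmax_eq]
  field_simp


section
variable {N : ℕ} {E : Type} [NormedAddCommGroup E] [InnerProductSpace ℝ E]
    [FiniteDimensional ℝ E] [MeasurableSpace E] [BorelSpace E] (x : Fin N → E)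

theorem gm : Measurable fun z : E => (fun i => (inner ℝ (x i) z : ℝ)) := by fun_prop

/-- integrability of `bf (sE (β x z))` -/
theorem bf_int (hfun : St_fun) (hsE : St_sE) (hN : 0 < N) {β : ℝ} (hβ : 0 < β) :
    Integrable (fun z => bf (sE (fun i => β * inner ℝ (x i) z))) (stdGaussian E) := by
  haveI : Nonempty (Fin N) := ⟨⟨0, hN⟩⟩
  obtain ⟨-, -, -, -, -, hbc, -, -, hbb, -⟩ := hfun
  have hcont : Continuous (fun w : Fin N → ℝ => bf (sE w)) := by
    refine hbc.comp_continuous ?_ fun w => (hsE w).1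
    unfold sE
    fun_prop
  have hc2 : Continuous (fun z : E => bf (sE (fun i => β * (inner ℝ (x i) z : ℝ)))) := by
    refine hcont.comp ?_
    fun_prop
  have hL : MemLp (fun z : E => (1 + (N : ℝ)) + ∑ i, |β * (inner ℝ (x i) z : ℝ)|) 2
      (stdGaussian E) := by
    have l1 : ∀ i, MemLp (fun z : E => |β * (inner ℝ (x i) z : ℝ)|) 2 (stdGaussian E) :=
      fun i => ((inner_memLp (x i)).const_mul β).abs
    have l2 : MemLp (fun z : E => ∑ i, |β * (inner ℝ (x i) z : ℝ)|) 2 (stdGaussian E) :=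
      memLp_finsetSum _ fun i _ => l1 i
    exact (memLp_const (1 + (N : ℝ))).add l2
  have hI : Integrable (fun z : E => ((1 + (N : ℝ)) + ∑ i, |β * (inner ℝ (x i) z : ℝ)|) ^ 2)
      (stdGaussian E) := (memLp_two_iff_integrable_sq hL.1).1 hL
  have hb : ∀ z : E, ‖bf (sE (fun i => β * (inner ℝ (x i) z : ℝ)))‖ ≤
      ((1 + (N : ℝ)) + ∑ i, |β * (inner ℝ (x i) z : ℝ)|) ^ 2 := by
    intro z
    rw [Real.norm_eq_abs]
    refine (hbb _ (hsE _).1).trans ?_
    have h1 := (hsE (fun i => β * (inner ℝ (x i) z : ℝ))).2.2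
    rw [Fintype.card_fin] at h1
    have h2 := abs_nonneg (Real.log (sE (fun i => β * (inner ℝ (x i) z : ℝ))))
    apply pow_le_pow_left₀ (by linarith)
    linarith
  exact Integrable.mono' hI hc2.aestronglyMeasurable (Eventually.of_forall hb)

/-- X side, Euclidean form -/
theorem xside (hREFL : St_REFL) (hSM : St_SM) (hfun : St_fun) (hsE : St_sE) (hN : 0 < N)
    {β : ℝ} (hβ : 0 < β) : ∃ q : Fin N → ℝ,
    ∫ z, (softmax β (fun i => (inner ℝ (x i) z : ℝ)) - ∑ i, q i * (inner ℝ (x i) z : ℝ) +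
        1 / β) ^ 2 ∂(stdGaussian E) ≤
      (1 / β ^ 2) * ∫ z, bf (sE (fun i => β * inner ℝ (x i) z)) ∂(stdGaussian E) := by
  haveI : Nonempty (Fin N) := ⟨⟨0, hN⟩⟩
  obtain ⟨s1, s2, s3, s4, s5, s6, s7, s8⟩ := hSM hN β hβ
  obtain ⟨q, hq0, hq1, hq⟩ := hREFL x (softmax β) hN s1 s2 s3
  refine ⟨q, ?_⟩
  have hbi := bf_int x hfun hsE hN hβ
  obtain ⟨-, -, -, -, -, -, -, -, -, hlog, -⟩ := hfun
  set γ := stdGaussian E with hγ
  set f : E → ℝ := fun z => softmax β (fun i => (inner ℝ (x i) z : ℝ)) with hf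
  set h : E → ℝ := fun z => ∑ i, q i * (inner ℝ (x i) z : ℝ) with hh
  have hxL : ∀ i, MemLp (fun z : E => (inner ℝ (x i) z : ℝ)) 2 γ := fun i => inner_memLp (x i)
  have hfL : MemLp f 2 γ :=
    memLp_of_growth (X := fun i (z : E) => (inner ℝ (x i) z : ℝ)) (gm x).aemeasurable hxL
      (softmax β) s1.measurable _ s7
  have hhL : MemLp h 2 γ := memLp_finsetSum _ fun i _ => (hxL i).const_mul (q i)
  have hcL : MemLp (fun _ : E => (1 / β : ℝ)) 2 γ := memLp_const _
  have hh0 : ∫ z, h z ∂γ = 0 := by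
    rw [hh]
    rw [integral_finsetSum _ fun i _ => ((hxL i).integrable (by norm_num)).const_mul _]
    refine Finset.sum_eq_zero fun i _ => ?_
    rw [integral_const_mul, inner_mean, mul_zero]
  have i1 : Integrable (fun z => (f z + 1 / β) ^ 2) γ :=
    (memLp_two_iff_integrable_sq (hfL.add hcL).1).1 (hfL.add hcL)
  have i2 : Integrable (fun z => f z * h z) γ := hfL.integrable_mul hhL
  have i3 : Integrable h γ := hhL.integrable (by norm_num)
  have i4 : Integrable (fun z => h z ^ 2) γ := (memLp_two_iff_integrable_sq hhL.1).1 hhL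
  have e1 : ∫ z, (f z - h z + 1 / β) ^ 2 ∂γ =
      ∫ z, (f z + 1 / β) ^ 2 ∂γ - 2 * ∫ z, f z * h z ∂γ - 2 / β * ∫ z, h z ∂γ +
        ∫ z, h z ^ 2 ∂γ := by
    have j2 : Integrable (fun z => 2 * (f z * h z)) γ := i2.const_mul 2
    have j3 : Integrable (fun z => 2 / β * h z) γ := i3.const_mul (2 / β)
    have j12 : Integrable (fun z => (f z + 1 / β) ^ 2 - 2 * (f z * h z)) γ := i1.sub j2
    have j123 : Integrable (fun z => (f z + 1 / β) ^ 2 - 2 * (f z * h z) - 2 / β * h z) γ :=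
      j12.sub j3
    have k1 : ∫ z, ((f z + 1 / β) ^ 2 - 2 * (f z * h z) - 2 / β * h z + h z ^ 2) ∂γ =
        ∫ z, ((f z + 1 / β) ^ 2 - 2 * (f z * h z) - 2 / β * h z) ∂γ + ∫ z, h z ^ 2 ∂γ :=
      integral_add j123 i4
    have k2 : ∫ z, ((f z + 1 / β) ^ 2 - 2 * (f z * h z) - 2 / β * h z) ∂γ =
        ∫ z, ((f z + 1 / β) ^ 2 - 2 * (f z * h z)) ∂γ - ∫ z, 2 / β * h z ∂γ :=
      integral_sub j12 j3
    have k3 : ∫ z, ((f z + 1 / β) ^ 2 - 2 * (f z * h z)) ∂γ =
        ∫ z, (f z + 1 / β) ^ 2 ∂γ - ∫ z, 2 * (f z * h z) ∂γ := integral_sub i1 j2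
    have k4 : ∫ z, 2 * (f z * h z) ∂γ = 2 * ∫ z, f z * h z ∂γ := integral_const_mul _ _
    have k5 : ∫ z, 2 / β * h z ∂γ = 2 / β * ∫ z, h z ∂γ := integral_const_mul _ _
    have k6 : ∫ z, (f z - h z + 1 / β) ^ 2 ∂γ =
        ∫ z, ((f z + 1 / β) ^ 2 - 2 * (f z * h z) - 2 / β * h z + h z ^ 2) ∂γ := by
      refine integral_congr_ae (Eventually.of_forall fun z => ?_)
      show (f z - h z + 1 / β) ^ 2 =
        (f z + 1 / β) ^ 2 - 2 * (f z * h z) - 2 / β * h z + h z ^ 2
      generalize f z = a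
      generalize h z = b
      field_simp
      ring
    rw [k6, k1, k2, k3, k4, k5]
  have e2 : ∫ z, (f z + 1 / β) ^ 2 ∂γ ≤
      (1 / β ^ 2) * ∫ z, bf (sE (fun i => β * inner ℝ (x i) z)) ∂γ + ∫ z, h z ^ 2 ∂γ := by
    rw [← integral_const_mul, ← integral_add (hbi.const_mul _) i4]
    refine integral_mono i1 ((hbi.const_mul _).add i4) fun z => ?_
    simp only [Pi.add_apply]
    have hpos := (hsE (fun i => β * (inner ℝ (x i) z : ℝ))).1
    have hl := hlog _ hpos
    have hlf : Real.log (sE (fun i => β * (inner ℝ (x i) z : ℝ))) = β * f z :=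
      softmax_log hβ _
    rw [hlf] at hl
    have hfh : h z ≤ f z := s5 _ q hq0 hq1
    have hmin : (min (β * f z) 0) ^ 2 ≤ (β * h z) ^ 2 := by
      rcases le_total (β * f z) 0 with hc | hc
      · rw [min_eq_left hc]
        have : β * h z ≤ β * f z := mul_le_mul_of_nonneg_left hfh hβ.le
        nlinarith
      · rw [min_eq_right hc]
        have := sq_nonneg (β * h z)
        linarith
    have hb2 : 0 < β ^ 2 := by positivity
    have e3 : (f z + 1 / β) ^ 2 = 1 / β ^ 2 * (β * f z + 1) ^ 2 := by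
      field_simp
    have e4 : h z ^ 2 = 1 / β ^ 2 * (β * h z) ^ 2 := by
      field_simp
    rw [e3, e4, ← mul_add]
    apply mul_le_mul_of_nonneg_left _ (by positivity)
    linarith
  have e5 : ∫ z, h z ^ 2 ∂γ ≤ ∫ z, f z * h z ∂γ := hq
  rw [e1, hh0]
  linarith

/-- S side, Euclidean form -/
theorem sside (hSM : St_SM) (hsE : St_sE) (hN : 2 ≤ N) {β : ℝ} (hβ : 0 < β)
    (h0 : ∀ z, ∑ i, (inner ℝ (x i) z : ℝ) = 0) :
    ∫ z, (softmax β (fun i => (inner ℝ (x i) z : ℝ)) + 1 / β) ^ 2 ∂(stdGaussian E) =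
      (1 / β ^ 2) * ∫ z, bf (sE (fun i => β * inner ℝ (x i) z)) ∂(stdGaussian E) := by
  have hN0 : 0 < N := by omega
  haveI : Nonempty (Fin N) := ⟨⟨0, hN0⟩⟩
  obtain ⟨s1, s2, s3, s4, s5, s6, s7, s8⟩ := hSM hN0 β hβ
  rw [← integral_const_mul]
  refine integral_congr_ae (Eventually.of_forall fun z => ?_)
  simp only
  have hpos := (hsE (fun i => β * (inner ℝ (x i) z : ℝ))).1
  have hlf : Real.log (sE (fun i => β * (inner ℝ (x i) z : ℝ))) =
      β * softmax β (fun i => (inner ℝ (x i) z : ℝ)) := softmax_log hβ _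
  have h1 := s8 (fun i => (inner ℝ (x i) z : ℝ)) (h0 z)
  have h2 : 0 ≤ Real.log (sE (fun i => β * (inner ℝ (x i) z : ℝ))) := by
    rw [hlf]
    have : 0 ≤ Real.log (N : ℝ) / β := by
      apply div_nonneg _ hβ.le
      apply Real.log_nonneg
      exact_mod_cast (by omega : 1 ≤ N)
    exact mul_nonneg hβ.le (this.trans h1)
  have h3 : 1 ≤ sE (fun i => β * (inner ℝ (x i) z : ℝ)) := by
    by_contra hc
    push Not at hc
    exact absurd (Real.log_neg hpos hc) (not_lt.2 h2)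
  rw [bf, if_pos h3, hlf]
  field_simp

end


section
variable {N : ℕ} {Ω : Type u} [MeasurableSpace Ω] {P : Measure Ω} {X : Fin N → Ω → ℝ}

theorem sup_growth (hSM : St_SM) (hN : 0 < N) (y : Fin N → ℝ) :
    |⨆ i, y i| ≤ (Real.log N / 1 + Real.log N / 1) + ∑ i, |y i| := by
  obtain ⟨s1, s2, s3, s4, s5, s6, s7, s8⟩ := hSM hN 1 one_pos
  have h1 := s6 y
  have h2 := s7 y
  rw [abs_le] at h2 ⊢
  constructor
  · linarith [h1.1, h1.2, h2.1, h2.2]
  · have : 0 ≤ Real.log (N : ℝ) / 1 := by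
      apply div_nonneg _ one_pos.le
      apply Real.log_nonneg
      exact_mod_cast hN
    linarith [h1.1, h1.2, h2.1, h2.2]

theorem sup_meas : Measurable (fun y : Fin N → ℝ => ⨆ i, y i) :=
  Measurable.iSup fun i => measurable_pi_apply i

/-- the limit `β → ∞`: difference between the two projections -/
theorem limstep (hPROJ : St_PROJ.{u}) (hSM : St_SM) (hN : 0 < N) [IsProbabilityMeasure P]
    (hXm : AEMeasurable (fun ω i => X i ω) P) (hX : ∀ i, MemLp (X i) 2 P)
    (h0 : ∀ i, ∫ ω, X i ω ∂P = 0) {β : ℝ} (hβ : 0 < β) :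
    |Real.sqrt (Psi P X (fun ω => softmax β (fun i => X i ω)) (1 / β)) -
      Real.sqrt (Psi P X (fun ω => ⨆ i, X i ω) 0)| ≤ (Real.log N + 1) / β := by
  obtain ⟨s1, s2, s3, s4, s5, s6, s7, s8⟩ := hSM hN β hβ
  have hf : MemLp (fun ω => softmax β (fun i => X i ω)) 2 P :=
    memLp_of_growth hXm hX (softmax β) s1.measurable _ s7
  have hg : MemLp (fun ω => ⨆ i, X i ω) 2 P :=
    memLp_of_growth hXm hX (fun y => ⨆ i, y i) sup_meas _ (sup_growth hSM hN)
  obtain ⟨-, -, h3⟩ := hPROJ P X hX h0 _ hf (1 / β)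
  have h4 := h3 _ hg 0
  refine h4.trans ?_
  have hl : 0 ≤ Real.log (N : ℝ) := by
    apply Real.log_nonneg
    exact_mod_cast hN
  have h5 : ∫ ω, (softmax β (fun i => X i ω) - ⨆ i, X i ω) ^ 2 ∂P ≤ (Real.log N / β) ^ 2 := by
    have h6 : ∫ ω, (softmax β (fun i => X i ω) - ⨆ i, X i ω) ^ 2 ∂P ≤
        ∫ _ : Ω, (Real.log N / β) ^ 2 ∂P := by
      refine integral_mono_of_nonneg (Eventually.of_forall fun ω => sq_nonneg _)
        (integrable_const _) (Eventually.of_forall fun ω => ?_)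
      have h7 := s6 (fun i => X i ω)
      have h8 : 0 ≤ softmax β (fun i => X i ω) - ⨆ i, X i ω := by linarith [h7.1]
      have h9 : softmax β (fun i => X i ω) - ⨆ i, X i ω ≤ Real.log N / β := by linarith [h7.2]
      exact pow_le_pow_left₀ h8 h9 2
    rw [integral_const] at h6
    simpa using h6
  have h10 : Real.sqrt (∫ ω, (softmax β (fun i => X i ω) - ⨆ i, X i ω) ^ 2 ∂P) ≤
      Real.log N / β := by
    rw [← Real.sqrt_sq (div_nonneg hl hβ.le)]
    exact Real.sqrt_le_sqrt h5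
  have h11 : |1 / β - 0| = 1 / β := by
    rw [sub_zero, abs_of_pos (by positivity)]
  rw [h11, add_div]
  linarith

end

end MAINaux

open MAINaux in
theorem MAIN.{u, v} (hCMP : St_CMP) (hREP : St_REP.{u}) (hREP' : St_REP.{v}) (hREFL : St_REFL)
    (hSYM : St_SYM) (hPROJ : St_PROJ.{u}) (hPROJ' : St_PROJ.{v}) (hSM : St_SM)
    (hfun : St_fun) (hsE : St_sE) : St_MAIN.{u, v} := by
  intro n hn Ω Ω' _ _ P P' X S hX hS hcov
  haveI : IsProbabilityMeasure P := hX.gauss.isProbabilityMeasure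
  haveI : IsProbabilityMeasure P' := hS.gauss.isProbabilityMeasure
  obtain ⟨m, rfl⟩ : ∃ m, n = m + 2 := ⟨n - 2, by omega⟩
  have hN0 : 0 < m + 2 := by omega
  have hXm : AEMeasurable (fun ω i => X i ω) P := hX.gauss.aemeasurable
  have hSm : AEMeasurable (fun ω i => S i ω) P' := hS.gauss.aemeasurable
  have hXL : ∀ i, MemLp (X i) 2 P := fun i => (hX.gauss.eval i).memLp_two
  have hSL : ∀ i, MemLp (S i) 2 P' := fun i => (hS.gauss.eval i).memLp_two
  obtain ⟨x, hx1, hx2⟩ := hREP P X hX.gauss hX.mean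
  obtain ⟨y, hy1, hy2⟩ := hREP' P' S hS.gauss hS.mean
  have hxn : ∀ i, ‖x i‖ = 1 := by
    intro i
    have h1 : ‖x i‖ ^ 2 = 1 := by
      rw [← real_inner_self_eq_norm_sq, hx1, ← hX.var i]
      refine integral_congr_ae (Eventually.of_forall fun ω => ?_)
      simp only [sq]
    have h2 := norm_nonneg (x i)
    nlinarith
  have hyn : ∀ i, ‖y i‖ = 1 := by
    intro i
    have h1 : ‖y i‖ ^ 2 = 1 := by
      rw [← real_inner_self_eq_norm_sq, hy1, ← hS.var i]
      refine integral_congr_ae (Eventually.of_forall fun ω => ?_)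
      simp only [sq]
    have h2 := norm_nonneg (y i)
    nlinarith
  have hyy : ∀ i j, i ≠ j → (inner ℝ (y i) (y j) : ℝ) = -1 / (((m + 2 : ℕ) : ℝ) - 1) := by
    intro i j hij
    rw [hy1, hcov i j hij]
  have hyy' : ∀ i j, i ≠ j → (inner ℝ (y i) (y j) : ℝ) = -1 / ((m : ℝ) + 1) := by
    intro i j hij
    rw [hyy i j hij]
    congr 1
    push_cast
    ring
  have hsoft : ∀ β : ℝ, 0 < β →
      Psi P X (fun ω => softmax β (fun i => X i ω)) (1 / β) ≤
        Psi P' S (fun ω => softmax β (fun i => S i ω)) (1 / β) := by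
    intro β hβ
    obtain ⟨s1, s2, s3, s4, s5, s6, s7, s8⟩ := hSM hN0 β hβ
    have hf : MemLp (fun ω => softmax β (fun i => X i ω)) 2 P :=
      memLp_of_growth hXm hXL (softmax β) s1.measurable _ s7
    have hf' : MemLp (fun ω => softmax β (fun i => S i ω)) 2 P' :=
      memLp_of_growth hSm hSL (softmax β) s1.measurable _ s7
    obtain ⟨q, hq⟩ := xside x hREFL hSM hfun hsE hN0 hβ
    have a1 := (hPROJ P X hXL hX.mean _ hf (1 / β)).1 q
    have a2 : ∫ ω, (softmax β (fun i => X i ω) - ∑ i, q i * X i ω + 1 / β) ^ 2 ∂P =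
        ∫ z, (softmax β (fun i => (inner ℝ (x i) z : ℝ)) - ∑ i, q i * (inner ℝ (x i) z : ℝ) +
          1 / β) ^ 2 ∂(stdGaussian (EuclideanSpace ℝ (Fin (m + 2)))) := by
      refine transfer hXm x hx2 (fun w => (softmax β w - ∑ i, q i * w i + 1 / β) ^ 2) ?_
      have : Continuous fun w : Fin (m + 2) → ℝ => (softmax β w - ∑ i, q i * w i + 1 / β) ^ 2 := by
        fun_prop
      exact this.measurable
    have a3 := hCMP x y hxn hyn hyy' β hβ
    obtain ⟨b1, b2⟩ := hSYM y (softmax β) hn hyn hyy s1 ⟨Real.log ((m + 2 : ℕ) : ℝ) / β + 1, by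
      intro w
      have h1 := s7 w
      have h2 : 0 ≤ Real.log ((m + 2 : ℕ) : ℝ) / β := by
        apply div_nonneg _ hβ.le
        apply Real.log_nonneg
        push_cast
        have : (0:ℝ) ≤ m := Nat.cast_nonneg m
        linarith
      have h3 : 0 ≤ ∑ i, |w i| := Finset.sum_nonneg fun i _ => abs_nonneg _
      nlinarith⟩ s4
    have b3 : ∀ i, ∫ ω, softmax β (fun k => S k ω) * S i ω ∂P' = 0 := by
      intro i
      rw [transfer hSm y hy2 (fun w => softmax β w * w i)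
        (s1.mul (continuous_apply i)).measurable]
      exact b2 i
    have b4 := (hPROJ' P' S hSL hS.mean _ hf' (1 / β)).2.1 b3
    have b5 : ∫ ω, (softmax β (fun i => S i ω) + 1 / β) ^ 2 ∂P' =
        ∫ z, (softmax β (fun i => (inner ℝ (y i) z : ℝ)) + 1 / β) ^ 2
          ∂(stdGaussian (EuclideanSpace ℝ (Fin (m + 2)))) := by
      refine transfer hSm y hy2 (fun w => (softmax β w + 1 / β) ^ 2) ?_
      have : Continuous fun w : Fin (m + 2) → ℝ => (softmax β w + 1 / β) ^ 2 := by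
        fun_prop
      exact this.measurable
    have b6 := sside y hSM hsE hn hβ b1
    rw [b4, b5, b6]
    rw [a2] at a1
    refine (a1.trans hq).trans ?_
    exact mul_le_mul_of_nonneg_left a3 (by positivity)
  refine ⟨hsoft, ?_⟩
  set a := Real.sqrt (Psi P X (fun ω => ⨆ i, X i ω) 0) with ha
  set b := Real.sqrt (Psi P' S (fun ω => ⨆ i, S i ω) 0) with hb
  have hab : ∀ β : ℝ, 0 < β → a ≤ b + 2 * (Real.log ((m + 2 : ℕ) : ℝ) + 1) / β := by
    intro β hβ
    have h1 := limstep hPROJ hSM hN0 hXm hXL hX.mean hβ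
    have h2 := limstep hPROJ' hSM hN0 hSm hSL hS.mean hβ
    have h3 := Real.sqrt_le_sqrt (hsoft β hβ)
    rw [abs_le] at h1 h2
    rw [← ha] at h1
    rw [← hb] at h2
    have h4 : 2 * (Real.log ((m + 2 : ℕ) : ℝ) + 1) / β =
        (Real.log ((m + 2 : ℕ) : ℝ) + 1) / β + (Real.log ((m + 2 : ℕ) : ℝ) + 1) / β := by ring
    rw [h4]
    linarith [h1.1, h1.2, h2.1, h2.2]
  have hle : a ≤ b := by
    have ht : Tendsto (fun β : ℝ => b + 2 * (Real.log ((m + 2 : ℕ) : ℝ) + 1) / β) atTop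
        (𝓝 (b + 0)) := tendsto_const_nhds.add (tendsto_const_nhds.div_atTop tendsto_id)
    rw [add_zero] at ht
    exact ge_of_tendsto ht ((eventually_gt_atTop 0).mono fun β hβ => hab β hβ)
  have hP0 : 0 ≤ Psi P X (fun ω => ⨆ i, X i ω) 0 := integral_nonneg fun _ => sq_nonneg _
  have hP0' : 0 ≤ Psi P' S (fun ω => ⨆ i, S i ω) 0 := integral_nonneg fun _ => sq_nonneg _
  exact (Real.sqrt_le_sqrt_iff hP0').1 hle

end Pool.Agent.H92.SM
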