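import Pool.Agent.H92.SM.Props

set_option autoImplicit false

namespace Pool.Agent.H92.SM

open MeasureTheory Matrix Finset Filter Topology Set ProbabilityTheory
open scoped BigOperators
open Pool.Agent.H604R2.SW

namespace MAPaux

/-- Integrability of `ω s * sinh (s - f)`. -/
theorem integrable {ω : ℝ → ℝ} {M c : ℝ} (f : ℝ) (hc : 0 < c) (hpos : ∀ t, 0 < ω t)
    (hω : Continuous ω) (hb : ∀ t, ω t ≤ M * Real.exp (-c * t ^ 2)) :
    Integrable (fun t => ω t * Real.sinh (t - f)) := by
  have h1 : Integrable (fun t : ℝ => (M * Real.exp (|f| + 1 / (2 * c))) *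
      Real.exp (-(c / 2) * t ^ 2)) := (integrable_exp_neg_mul_sq (half_pos hc)).const_mul _
  refine h1.mono' (by fun_prop) (Eventually.of_forall fun t => ?_)
  have hM : 0 ≤ M := by
    have := (hpos 0).trans_le (hb 0)
    simp at this
    exact this.le
  have hs : |Real.sinh (t - f)| ≤ Real.exp (|t| + |f|) := by
    have h2 : |t - f| ≤ |t| + |f| := abs_sub _ _
    have h3 : |Real.sinh (t - f)| ≤ Real.exp |t - f| := by
      rw [Real.abs_sinh, Real.sinh_eq]
      have := Real.exp_pos |t - f|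
      have := Real.exp_pos (-|t - f|)
      linarith
    exact h3.trans (Real.exp_le_exp.2 h2)
  have hq : |t| ≤ c / 2 * t ^ 2 + 1 / (2 * c) := by
    have h4 : 0 ≤ (c * |t| - 1) ^ 2 := sq_nonneg _
    have h5 : |t| ^ 2 = t ^ 2 := sq_abs t
    have h6 : c / 2 * t ^ 2 + 1 / (2 * c) - |t| = (c * |t| - 1) ^ 2 / (2 * c) := by
      rw [← h5]; field_simp; ring
    have h7 : 0 ≤ (c * |t| - 1) ^ 2 / (2 * c) := by positivity
    linarith
  rw [norm_mul, Real.norm_eq_abs, Real.norm_eq_abs, abs_of_pos (hpos t)]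
  calc ω t * |Real.sinh (t - f)| ≤ (M * Real.exp (-c * t ^ 2)) * Real.exp (|t| + |f|) :=
        mul_le_mul (hb t) hs (abs_nonneg _) (by positivity)
    _ = M * Real.exp (-c * t ^ 2 + (|t| + |f|)) := by rw [mul_assoc, ← Real.exp_add]
    _ ≤ M * Real.exp ((|f| + 1 / (2 * c)) + -(c / 2) * t ^ 2) :=
        mul_le_mul_of_nonneg_left (Real.exp_le_exp.2 (by linarith)) hM
    _ = M * Real.exp (|f| + 1 / (2 * c)) * Real.exp (-(c / 2) * t ^ 2) := by
        rw [mul_assoc, ← Real.exp_add]

theorem gen (g : ℝ → ℝ) (f : ℝ) (hg : Continuous g) (hi : Integrable g)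
    (hn : ∀ t, t < f → g t < 0) (hp : ∀ t, f < t → 0 < g t) (h0 : ∫ t, g t = 0) :
    ∃ u : ℝ → ℝ, (∀ t, f < t → u t < f ∧ HasDerivAt u (g t / g (u t)) t) ∧
    InjOn u (Ioi f) ∧ u '' Ioi f = Iio f ∧
    Tendsto u (𝓝[>] f) (𝓝 f) ∧ Tendsto u atTop atBot := by
  set L : ℝ → ℝ := fun t => (∫ s in Ioi f, g s) - ∫ s in f..t, g s with hL
  have hder : ∀ t, HasDerivAt L (-(g t)) t := fun t =>
    ((intervalIntegral.integral_hasDerivAt_right (hg.intervalIntegrable _ _)
      (hg.stronglyMeasurableAtFilter _ _) hg.continuousAt).const_sub _)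
  have hLc : Continuous L := continuous_iff_continuousAt.2 fun t => (hder t).continuousAt
  have hanti : StrictAntiOn L (Ici f) := by
    refine strictAntiOn_of_deriv_neg (convex_Ici f) hLc.continuousOn ?_
    intro t ht
    rw [interior_Ici] at ht
    rw [(hder t).deriv]
    exact neg_neg_of_pos (hp t ht)
  have hmono : StrictMonoOn L (Iic f) := by
    refine strictMonoOn_of_deriv_pos (convex_Iic f) hLc.continuousOn ?_
    intro t ht
    rw [interior_Iic] at ht
    rw [(hder t).deriv]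
    exact neg_pos.2 (hn t ht)
  have hsplit : (∫ s in Iic f, g s) + ∫ s in Ioi f, g s = 0 := by
    rw [← h0, ← integral_add_compl measurableSet_Iic hi, compl_Iic]
  have htop : Tendsto L atTop (𝓝 0) := by
    have := (intervalIntegral_tendsto_integral_Ioi f hi.integrableOn tendsto_id).const_sub
      (∫ s in Ioi f, g s)
    rw [sub_self] at this
    exact this
  have hbot : Tendsto L atBot (𝓝 0) := by
    have h1 := (intervalIntegral_tendsto_integral_Iic f hi.integrableOn tendsto_id)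
    have h2 := h1.const_add (∫ s in Ioi f, g s)
    rw [add_comm, hsplit] at h2
    refine h2.congr fun t => ?_
    simp only [hL, id]
    rw [intervalIntegral.integral_symm f t]
    ring
  have hposR : ∀ t, f ≤ t → 0 < L t := by
    intro t ht
    have h1 : L (t + 1) < L t := hanti ht (show f ≤ t + 1 by linarith) (by linarith)
    have h2 : 0 ≤ L (t + 1) := by
      refine le_of_tendsto htop ?_
      filter_upwards [eventually_ge_atTop (t + 1)] with s hs
      exact hanti.antitoneOn (show f ≤ t + 1 by linarith) (show f ≤ s by linarith) hs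
    linarith
  have hposL : ∀ t, t ≤ f → 0 < L t := by
    intro t ht
    have h1 : L (t - 1) < L t := hmono (show t - 1 ≤ f by linarith) ht (by linarith)
    have h2 : 0 ≤ L (t - 1) := by
      refine le_of_tendsto hbot ?_
      filter_upwards [eventually_le_atBot (t - 1)] with s hs
      exact hmono.monotoneOn (show s ≤ f by linarith) (show t - 1 ≤ f by linarith) hs
    linarith
  -- left inverse branch
  have hexL : ∀ v, 0 < v → v < L f → ∃ w, w < f ∧ L w = v := by
    intro v hv hv'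
    obtain ⟨a, ha, ha'⟩ := ((hbot.eventually (gt_mem_nhds hv)).and (eventually_le_atBot f)).exists
    have h3 := intermediate_value_Icc ha' hLc.continuousOn
    obtain ⟨w, hw, h4⟩ := h3 ⟨ha.le, hv'.le⟩
    refine ⟨w, lt_of_le_of_ne hw.2 ?_, h4⟩
    rintro rfl
    exact absurd h4 hv'.ne'
  have hexR : ∀ v, 0 < v → v < L f → ∃ w, f < w ∧ L w = v := by
    intro v hv hv'
    obtain ⟨a, ha, ha'⟩ := ((htop.eventually (gt_mem_nhds hv)).and (eventually_ge_atTop f)).exists
    have h3 := intermediate_value_Icc' ha' hLc.continuousOn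
    obtain ⟨w, hw, h4⟩ := h3 ⟨ha.le, hv'.le⟩
    refine ⟨w, lt_of_le_of_ne hw.1 ?_, h4⟩
    rintro rfl
    exact absurd h4 hv'.ne'
  classical
  set I : ℝ → ℝ := fun v => if h : 0 < v ∧ v < L f then (hexL v h.1 h.2).choose else 0 with hI
  have hI1 : ∀ v, 0 < v → v < L f → I v < f ∧ L (I v) = v := by
    intro v hv hv'
    simp only [hI, dif_pos (And.intro hv hv')]
    exact (hexL v hv hv').choose_spec
  have hIc : ∀ v, 0 < v → v < L f → ContinuousAt I v := by
    intro v hv hv'
    obtain ⟨h1, h2⟩ := hI1 v hv hv'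
    refine tendsto_order.2 ⟨fun a ha => ?_, fun a ha => ?_⟩
    · have h3 : L a < v := by
        rw [← h2]; exact hmono (ha.trans h1).le h1.le ha
      filter_upwards [lt_mem_nhds hv, gt_mem_nhds hv', lt_mem_nhds h3] with w hw hw' hw''
      obtain ⟨h4, h5⟩ := hI1 w hw hw'
      rw [← h5] at hw''
      exact (hmono.lt_iff_lt (ha.trans h1).le h4.le).1 hw''
    · rcases le_or_gt f a with ha0 | ha0
      · filter_upwards [lt_mem_nhds hv, gt_mem_nhds hv'] with w hw hw'
        exact (hI1 w hw hw').1.trans_le ha0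
      · have h3 : v < L a := by
          rw [← h2]; exact hmono h1.le ha0.le ha
        filter_upwards [lt_mem_nhds hv, gt_mem_nhds hv', gt_mem_nhds h3] with w hw hw' hw''
        obtain ⟨h4, h5⟩ := hI1 w hw hw'
        rw [← h5] at hw''
        exact (hmono.lt_iff_lt h4.le ha0.le).1 hw''
  have hId : ∀ v, 0 < v → v < L f → HasDerivAt I (-(g (I v)))⁻¹ v := by
    intro v hv hv'
    obtain ⟨h1, h2⟩ := hI1 v hv hv'
    exact HasDerivAt.of_local_left_inverse (hIc v hv hv') (hder (I v))
      (neg_ne_zero.2 (hn _ h1).ne) (by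
        filter_upwards [lt_mem_nhds hv, gt_mem_nhds hv'] with w hw hw'
        exact (hI1 w hw hw').2)
  have hr : ∀ t, f < t → 0 < L t ∧ L t < L f := fun t ht =>
    ⟨hposR t ht.le, hanti (Set.mem_Ici.2 le_rfl) ht.le ht⟩
  have hl : ∀ t, t < f → 0 < L t ∧ L t < L f := fun t ht =>
    ⟨hposL t ht.le, hmono ht.le (Set.mem_Iic.2 le_rfl) ht⟩
  refine ⟨fun t => I (L t), fun t ht => ⟨(hI1 _ (hr t ht).1 (hr t ht).2).1, ?_⟩, ?_, ?_, ?_, ?_⟩
  · have h := (hId (L t) (hr t ht).1 (hr t ht).2).comp t (hder t)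
    have e : g t / g (I (L t)) = (-(g (I (L t))))⁻¹ * -(g t) := by
      rw [inv_neg, neg_mul_neg, div_eq_inv_mul]
    exact h.congr_deriv e.symm
  · intro t ht t' ht' h
    have h1 := (hI1 _ (hr t ht).1 (hr t ht).2).2
    have h2 := (hI1 _ (hr t' ht').1 (hr t' ht').2).2
    simp only at h
    rw [h, h2] at h1
    exact hanti.injOn (Set.mem_Ici.2 (le_of_lt ht)) (Set.mem_Ici.2 (le_of_lt ht')) h1.symm
  · ext w
    constructor
    · rintro ⟨t, ht, rfl⟩
      exact (hI1 _ (hr t ht).1 (hr t ht).2).1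
    · intro hw
      obtain ⟨t, ht, h⟩ := hexR (L w) (hl w hw).1 (hl w hw).2
      refine ⟨t, ht, ?_⟩
      obtain ⟨h1, h2⟩ := hI1 _ (hr t ht).1 (hr t ht).2
      simp only
      exact hmono.injOn (Set.mem_Iic.2 h1.le) (Set.mem_Iic.2 (le_of_lt hw)) (h2.trans h)
  · refine tendsto_order.2 ⟨fun a ha => ?_, fun a ha => ?_⟩
    · have h1 : ∀ᶠ t in 𝓝[>] f, L a < L t :=
        (hLc.continuousAt.tendsto.mono_left nhdsWithin_le_nhds).eventually
          (lt_mem_nhds (hl a ha).2)
      filter_upwards [h1, self_mem_nhdsWithin] with t h2 ht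
      obtain ⟨h3, h4⟩ := hI1 _ (hr t ht).1 (hr t ht).2
      rw [← h4] at h2
      exact (hmono.lt_iff_lt ha.le h3.le).1 h2
    · filter_upwards [self_mem_nhdsWithin] with t ht
      exact (hI1 _ (hr t ht).1 (hr t ht).2).1.trans ha
  · refine tendsto_atBot.2 fun a => ?_
    have hm : min a (f - 1) < f := (min_le_right _ _).trans_lt (by linarith)
    filter_upwards [htop.eventually (gt_mem_nhds (hl _ hm).1), eventually_gt_atTop f] with t h1 ht
    obtain ⟨h3, h4⟩ := hI1 _ (hr t ht).1 (hr t ht).2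
    rw [← h4] at h1
    exact ((hmono.lt_iff_lt h3.le hm.le).1 h1).le.trans (min_le_left _ _)

end MAPaux

theorem MAP : St_MAP := by
  intro ω M c f hc hpos hω hb h0
  obtain ⟨u, h1, h2, h3, h4, h5⟩ := MAPaux.gen (fun t => ω t * Real.sinh (t - f)) f
    (by fun_prop) (MAPaux.integrable f hc hpos hω hb)
    (fun t ht => mul_neg_of_pos_of_neg (hpos t) (Real.sinh_neg_iff.2 (by linarith)))
    (fun t ht => mul_pos (hpos t) (Real.sinh_pos_iff.2 (by linarith))) h0
  refine ⟨u, fun t ht => ⟨(h1 t ht).1, (h1 t ht).2.congr_deriv ?_⟩, h2, h3, h4, h5⟩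
  have e : Real.sinh (u t - f) = -Real.sinh (f - u t) := by
    rw [← Real.sinh_neg]; congr 1; ring
  have hs : Real.sinh (f - u t) ≠ 0 := (Real.sinh_pos_iff.2 (by linarith [(h1 t ht).1])).ne'
  have hw := (hpos (u t)).ne'
  rw [e]
  field_simp

end Pool.Agent.H92.SM
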