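import Pool.Agent.H92.SM.Props
import Pool.Graph.R_pool_sql_team_seeded_f0cf7b00.H604R2.SW.T_law
import Pool.Graph.R_pool_sql_team_seeded_f0cf7b00.H604R2.SW.T_mix

set_option autoImplicit false

namespace Pool.Agent.H92.SM

open MeasureTheory Matrix Finset Filter Topology Set ProbabilityTheory
open scoped BigOperators MatrixOrder
open Pool.Agent.H604R2.SW

namespace MIXaux

section
variable {ι : Type} [Fintype ι] [DecidableEq ι]

/-- the Gaussian density of a set -/
theorem law_set (C B : Matrix ι ι ℝ) (hB : B.IsHermitian) (hBB : B * B = C) (hdet : B.det ≠ 0)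
    {S : Set (ι → ℝ)} (hS : MeasurableSet S) :
    ∫⁻ x in S, ENNReal.ofReal (dens C x) = (Helper553.Orth.gpi ι) {x | B *ᵥ x ∈ S} := by
  have hunit : IsUnit B.det := isUnit_iff_ne_zero.2 hdet
  set G : (ι → ℝ) → ENNReal := fun y => S.indicator
    (fun y => Helper553.Orth.rho (B⁻¹ *ᵥ y)) y with hGdef
  have hmul : Continuous fun y : ι → ℝ => B⁻¹ *ᵥ y := by
    unfold mulVec dotProduct
    fun_prop
  have hmulB : Continuous fun y : ι → ℝ => B *ᵥ y := by
    unfold mulVec dotProduct
    fun_prop
  have hG : Measurable G :=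
    (Helper553.Orth.measurable_rho.comp hmul.measurable).indicator hS
  have h1 := Helper553.Orth.lintegral_comp_lin (Matrix.toLin' B) (by
    rw [LinearMap.det_toLin']; exact hdet) G hG
  rw [LinearMap.det_toLin'] at h1
  have h2 : ∫⁻ x in S, ENNReal.ofReal (dens C x) =
      ENNReal.ofReal |(B.det)⁻¹| * ∫⁻ x, G x := by
    have hmm : Measurable fun y : ι → ℝ => Helper553.Orth.rho (B⁻¹ *ᵥ y) :=
      Helper553.Orth.measurable_rho.comp hmul.measurable
    rw [hGdef, lintegral_indicator hS, ← lintegral_const_mul _ hmm]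
    refine lintegral_congr fun x => ?_
    exact law_dens C B hB hBB hdet x
  rw [h2, ← h1]
  have hset : MeasurableSet {x : ι → ℝ | B *ᵥ x ∈ S} := hmulB.measurable hS
  rw [← lintegral_indicator_one hset, Helper553.Orth.lintegral_gpi _
    ((measurable_one).indicator hset)]
  refine lintegral_congr fun x => ?_
  rw [hGdef]
  by_cases hx : B *ᵥ x ∈ S
  · have h3 : (Matrix.toLin' B) x ∈ S := by rwa [toLin'_apply]
    rw [indicator_of_mem (show x ∈ {x : ι → ℝ | B *ᵥ x ∈ S} from hx)]
    simp only
    rw [indicator_of_mem h3, toLin'_apply, mulVec_mulVec, nonsing_inv_mul _ hunit, one_mulVec]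
    simp
  · have h3 : (Matrix.toLin' B) x ∉ S := by rwa [toLin'_apply]
    rw [indicator_of_notMem (show x ∉ {x : ι → ℝ | B *ᵥ x ∈ S} from hx)]
    simp only
    rw [indicator_of_notMem h3, mul_zero]

end

/-- the law of a Gaussian vector -/
theorem law_meas {ι : Type} [Fintype ι] [DecidableEq ι] {E : Type} [NormedAddCommGroup E]
    [InnerProductSpace ℝ E] [FiniteDimensional ℝ E] [MeasurableSpace E] [BorelSpace E]
    (a : ι → E) (C : Matrix ι ι ℝ) (hC : C.PosDef) (hG : ∀ i j, inner ℝ (a i) (a j) = C i j) :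
    (volume : Measure (ι → ℝ)).withDensity (fun x => ENNReal.ofReal (dens C x)) =
      (stdGaussian E).map (fun z i => inner ℝ (a i) z) := by
  obtain ⟨B, hB, hBB, hdet, hsq⟩ := law_sq C hC
  set f : E → EuclideanSpace ℝ ι := fun z => WithLp.toLp 2 (fun i => inner ℝ (a i) z) with hf
  have hfc : Continuous fun z : E => (fun i => inner ℝ (a i) z : ι → ℝ) := by fun_prop
  have hfm : Measurable f := by
    rw [hf]
    exact ((PiLp.continuous_toLp 2 _).comp hfc).measurable
  have hμ : (stdGaussian E).map f = multivariateGaussian 0 C := by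
    have : IsProbabilityMeasure ((stdGaussian E).map f) :=
      Measure.isProbabilityMeasure_map hfm.aemeasurable
    apply Measure.ext_of_charFun (E := EuclideanSpace ℝ ι)
    ext t
    rw [charFun_multivariateGaussian hC.posSemidef, charFun_apply,
      integral_map hfm.aemeasurable (by fun_prop)]
    have h1 : ∀ z : E, inner ℝ (f z) t = inner ℝ z (∑ i, t i • a i) := by
      intro z
      rw [hf, inner_sum, PiLp.inner_apply]
      refine Finset.sum_congr rfl fun i _ => ?_
      rw [real_inner_smul_right]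
      simp [real_inner_comm]
    simp_rw [h1]
    rw [← charFun_apply, charFun_stdGaussian]
    have h2 : ‖∑ i, t i • a i‖ ^ 2 = t ⬝ᵥ C *ᵥ t := by
      rw [← real_inner_self_eq_norm_sq, sum_inner]
      unfold dotProduct mulVec dotProduct
      refine Finset.sum_congr rfl fun i _ => ?_
      rw [inner_sum, Finset.mul_sum]
      refine Finset.sum_congr rfl fun j _ => ?_
      rw [real_inner_smul_left, real_inner_smul_right, hG]
      ring
    rw [inner_zero_right]
    congr 1
    rw [← Complex.ofReal_pow, h2]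
    simp
    ring
  ext S hS
  rw [withDensity_apply _ hS, law_set C B hB hBB hdet hS, Measure.map_apply hfc.measurable hS]
  have hS' : MeasurableSet {w : EuclideanSpace ℝ ι | WithLp.ofLp w ∈ S} :=
    (PiLp.continuous_ofLp 2 _).measurable hS
  have h3 : (stdGaussian E) ((fun z : E => (fun i => inner ℝ (a i) z : ι → ℝ)) ⁻¹' S) =
      ((stdGaussian E).map f) {w : EuclideanSpace ℝ ι | WithLp.ofLp w ∈ S} := by
    rw [Measure.map_apply hfm hS']
    rfl
  rw [h3, hμ]
  unfold multivariateGaussian
  rw [Measure.map_apply (by fun_prop) hS', ← map_pi_eq_stdGaussian,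
    Measure.map_apply (by fun_prop) (by
      exact (show Measurable (fun x : EuclideanSpace ℝ ι =>
        (0 : EuclideanSpace ℝ ι) + toEuclideanCLM (𝕜 := ℝ) (CFC.sqrt C) x) by fun_prop) hS')]
  unfold Helper553.Orth.gpi
  congr 1
  ext x
  simp only [Set.mem_ofPred_eq, Set.mem_preimage, zero_add]
  rw [← hsq]
  rfl

theorem meas_bf : Measurable bf := by
  unfold bf
  refine Measurable.ite measurableSet_Ici ?_ ?_
  · exact (Real.measurable_log.add_const 1).pow_const 2
  · fun_prop

theorem cont_sE {ι : Type} [Fintype ι] : Continuous (sE : (ι → ℝ) → ℝ) := by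
  unfold sE
  fun_prop

/-- the functional as an expectation -/
theorem Jf_eq {ι : Type} [Fintype ι] [DecidableEq ι] {E : Type} [NormedAddCommGroup E]
    [InnerProductSpace ℝ E] [FiniteDimensional ℝ E] [MeasurableSpace E] [BorelSpace E]
    (a : ι → E) (C : Matrix ι ι ℝ) (hC : C.PosDef) (hG : ∀ i j, inner ℝ (a i) (a j) = C i j) :
    Jf C = ∫ z, bf (sE fun i => inner ℝ (a i) z) ∂(stdGaussian E) := by
  have hm : Measurable fun x : ι → ℝ => bf (sE x) := meas_bf.comp cont_sE.measurable
  have hfc : Continuous fun z : E => (fun i => inner ℝ (a i) z : ι → ℝ) := by fun_prop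
  have h1 : ∫ z, bf (sE fun i => inner ℝ (a i) z) ∂(stdGaussian E) =
      ∫ x, bf (sE x) ∂((stdGaussian E).map (fun z i => inner ℝ (a i) z)) := by
    rw [integral_map hfc.measurable.aemeasurable hm.aestronglyMeasurable]
  rw [h1, ← law_meas a C hC hG, integral_withDensity_eq_integral_toReal_smul
    ((law_cont_dens C).measurable.ennreal_ofReal) (Eventually.of_forall fun _ =>
      ENNReal.ofReal_lt_top)]
  unfold Jf
  refine integral_congr_ae (Eventually.of_forall fun x => ?_)
  have hnn : 0 ≤ dens C x := by unfold H604R2.SW.dens; positivity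
  simp only [smul_eq_mul]
  rw [ENNReal.toReal_ofReal hnn, mul_comm]

end MIXaux

open MIXaux Pool.Agent.H604R2.SW.mixaux in
theorem MIX : St_MIX := by
  classical
  intro N E _ _ _ _ _ x R hR s δ τ hs hδ hτ
  set C : Matrix (Fin N) (Fin N) ℝ :=
    s • R + δ • (1 : Matrix (Fin N) (Fin N) ℝ) + Matrix.of (fun _ _ => τ) with hC
  let F := EuclideanSpace ℝ (Fin N)
  let E1 := WithLp 2 (E × F)
  let E2 := WithLp 2 (E1 × ℝ)
  let a : Fin N → E2 := fun i =>
    WithLp.toLp 2 (WithLp.toLp 2 (Real.sqrt s • x i, Real.sqrt δ • EuclideanSpace.single i (1 : ℝ)),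
      Real.sqrt τ)
  have hinner : ∀ (i : Fin N) (p : (E × F) × ℝ),
      inner ℝ (a i) (WithLp.toLp 2 (WithLp.toLp 2 p.1, p.2) : E2) =
        Real.sqrt s * inner ℝ (x i) p.1.1 + Real.sqrt δ * p.1.2 i + Real.sqrt τ * p.2 := by
    intro i p
    simp only [a]
    rw [WithLp.prod_inner_apply, WithLp.prod_inner_apply]
    have e1 : inner ℝ (EuclideanSpace.single i (1 : ℝ)) p.1.2 = p.1.2 i := by
      rw [EuclideanSpace.inner_single_left]; simp
    simp only [inner_smul_left, e1]
    simp
    ring
  have hgram : ∀ i j, inner ℝ (a i) (a j) = C i j := by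
    intro i j
    have h1 := hinner i ((Real.sqrt s • x j, Real.sqrt δ • EuclideanSpace.single j (1 : ℝ)),
      Real.sqrt τ)
    simp only [a] at h1 ⊢
    rw [h1, inner_smul_right, hR, hC]
    simp only [Matrix.add_apply, Matrix.smul_apply, Matrix.of_apply, smul_eq_mul]
    have e1 : Real.sqrt s * (Real.sqrt s * R i j) = s * R i j := by
      rw [← mul_assoc, Real.mul_self_sqrt hs]
    have e3 : Real.sqrt τ * Real.sqrt τ = τ := Real.mul_self_sqrt hτ
    have e2 : Real.sqrt δ * (Real.sqrt δ • EuclideanSpace.single j (1 : ℝ) : F) i =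
        δ * (1 : Matrix (Fin N) (Fin N) ℝ) i j := by
      have e4 : (Real.sqrt δ • EuclideanSpace.single j (1 : ℝ) : F) i =
          Real.sqrt δ * (1 : Matrix (Fin N) (Fin N) ℝ) i j := by
        by_cases hij : i = j
        · subst hij; simp
        · simp [hij]
      rw [e4, ← mul_assoc, Real.mul_self_sqrt hδ.le]
    rw [e1, e2, e3]
  have hpos : C.PosDef := by
    have h1 : (gram ℝ x).PosSemidef := posSemidef_gram ℝ x
    have hRg : R = gram ℝ x := by
      ext i j
      rw [gram_apply, hR]
    have h2 : (s • R).PosSemidef := by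
      rw [hRg]
      exact h1.smul hs
    have h3 : (δ • (1 : Matrix (Fin N) (Fin N) ℝ)).PosDef := Matrix.PosDef.one.smul hδ
    have h4 : (Matrix.of (fun _ _ => τ) : Matrix (Fin N) (Fin N) ℝ).PosSemidef := by
      have h5 : (Matrix.of (fun _ _ => τ) : Matrix (Fin N) (Fin N) ℝ) =
          gram ℝ (fun _ : Fin N => Real.sqrt τ) := by
        ext i j
        rw [gram_apply]
        have e9 : inner ℝ (Real.sqrt τ) (Real.sqrt τ) = Real.sqrt τ * Real.sqrt τ := by
          simp [sq]
        rw [e9, Real.mul_self_sqrt hτ]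
        rfl
      rw [h5]
      exact posSemidef_gram ℝ _
    rw [hC]
    exact (h3.posSemidef_add h2).add_posSemidef h4
  rw [Jf_eq a C hpos hgram]
  have hmeas : ((stdGaussian E).prod (stdGaussian F)).map (WithLp.toLp 2) = stdGaussian E1 :=
    std_prod
  have hmeas2 : ((stdGaussian E1).prod (gaussianReal 0 1)).map (WithLp.toLp 2) =
      stdGaussian E2 := by
    rw [std_real]
    exact std_prod
  have hmt1 : Measurable (WithLp.toLp 2 : E × F → E1) :=
    (MeasurableEquiv.toLp 2 (E × F)).measurable
  have hmt2 : Measurable (WithLp.toLp 2 : E1 × ℝ → E2) :=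
    (MeasurableEquiv.toLp 2 (E1 × ℝ)).measurable
  have hmap : (((stdGaussian E).prod (stdGaussian F)).prod (gaussianReal 0 1)).map
      (fun p : (E × F) × ℝ => (WithLp.toLp 2 (WithLp.toLp 2 p.1, p.2) : E2)) = stdGaussian E2 := by
    rw [← hmeas2, ← hmeas]
    have e1 := Measure.map_prod_map ((stdGaussian E).prod (stdGaussian F)) (gaussianReal 0 1)
      hmt1 measurable_id
    rw [Measure.map_id] at e1
    rw [e1, Measure.map_map hmt2 (hmt1.prodMap measurable_id)]
    rfl
  have hfm : Measurable (fun p : (E × F) × ℝ => (WithLp.toLp 2 (WithLp.toLp 2 p.1, p.2) : E2)) :=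
    hmt2.comp (hmt1.prodMap measurable_id)
  have hgm : Measurable fun z : E2 => bf (sE fun i => inner ℝ (a i) z) := by
    refine meas_bf.comp (cont_sE.measurable.comp ?_)
    have : Continuous fun z : E2 => (fun i => inner ℝ (a i) z : Fin N → ℝ) := by fun_prop
    exact this.measurable
  rw [← hmap, integral_map hfm.aemeasurable hgm.aestronglyMeasurable]
  refine integral_congr_ae (Eventually.of_forall fun p => ?_)
  simp only [hinner]

end Pool.Agent.H92.SM
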