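import Pool.Agent.H92.SM.Props

set_option autoImplicit false

namespace Pool.Agent.H92.SM

open MeasureTheory Matrix Finset Filter Topology Set ProbabilityTheory
open scoped BigOperators

namespace ONEaux

theorem gint2 {c : ℝ} (hc : 0 < c) (a : ℝ) (g : ℝ → ℝ) (hg : AEStronglyMeasurable g)
    (K : ℝ) (hb : ∀ t, |g t| ≤ K * Real.exp (a * |t|) * Real.exp (-c * t ^ 2)) :
    Integrable g := by
  have hK : 0 ≤ K := by
    have h := (abs_nonneg (g 0)).trans (hb 0)
    simp at h
    exact h
  have h1 : Integrable (fun t : ℝ => Real.exp (-(c / 2) * t ^ 2)) :=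
    integrable_exp_neg_mul_sq (by positivity)
  refine (h1.const_mul (K * Real.exp (a ^ 2 / (2 * c)))).mono' hg (Eventually.of_forall fun t => ?_)
  rw [Real.norm_eq_abs]
  refine (hb t).trans ?_
  rw [mul_assoc, mul_assoc, ← Real.exp_add, ← Real.exp_add]
  refine mul_le_mul_of_nonneg_left (Real.exp_le_exp.2 ?_) hK
  have e1 : a * |t| ≤ a ^ 2 / (2 * c) + c / 2 * t ^ 2 := by
    have h2 : 0 ≤ (a - c * |t|) ^ 2 / (2 * c) := by positivity
    have h3 : (a - c * |t|) ^ 2 / (2 * c) = a ^ 2 / (2 * c) + c / 2 * t ^ 2 - a * |t| := by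
      have : |t| ^ 2 = t ^ 2 := sq_abs t
      field_simp
      rw [← this]
      ring
    linarith
  linarith

theorem sinh_bd (x : ℝ) : |Real.sinh x| ≤ Real.exp |x| := by
  rw [Real.sinh_eq, abs_div, abs_two, div_le_iff₀ (by norm_num)]
  have h1 : |Real.exp x - Real.exp (-x)| ≤ |Real.exp x| + |Real.exp (-x)| := abs_sub _ _
  rw [abs_of_pos (Real.exp_pos _), abs_of_pos (Real.exp_pos _)] at h1
  have h2 : Real.exp x ≤ Real.exp |x| := Real.exp_le_exp.2 (le_abs_self x)
  have h3 : Real.exp (-x) ≤ Real.exp |x| := Real.exp_le_exp.2 (neg_le_abs x)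
  linarith

theorem int_g (ω' p : ℝ → ℝ) (M c f : ℝ) (hc : 0 < c) (hω'm : Measurable ω') (hpm : Measurable p)
    (hpnn : ∀ t, 0 ≤ p t) (hω' : ∀ t, |ω' t| ≤ M * Real.exp (-c * t ^ 2))
    (hp : ∀ t, p t ≤ M * Real.exp (-c * t ^ 2)) :
    Integrable (fun t => Real.sinh (t - 2 * f) * ω' t +
      Real.sinh (t - f) ^ 2 / Real.cosh t * p t) := by
  have hL0 : 0 ≤ M := by
    have := (hpnn 0).trans (hp 0)
    simpa using this
  refine Integrable.add ?_ ?_
  · refine gint2 hc 1 _ (((Real.continuous_sinh.comp (by fun_prop : Continuous fun t : ℝ =>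
      t - 2 * f)).measurable.mul hω'm).aestronglyMeasurable) (Real.exp (2 * |f|) * M) fun t => ?_
    rw [abs_mul]
    have h1 : |Real.sinh (t - 2 * f)| ≤ Real.exp (2 * |f|) * Real.exp (1 * |t|) := by
      refine (sinh_bd _).trans ?_
      rw [← Real.exp_add]
      refine Real.exp_le_exp.2 ?_
      have := abs_sub t (2 * f)
      rw [abs_mul, abs_two] at this
      linarith
    have h2 := hω' t
    calc |Real.sinh (t - 2 * f)| * |ω' t| ≤ (Real.exp (2 * |f|) * Real.exp (1 * |t|)) *
          (M * Real.exp (-c * t ^ 2)) := mul_le_mul h1 h2 (abs_nonneg _) (by positivity)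
      _ = _ := by ring
  · refine gint2 hc 2 _ (((((Real.continuous_sinh.comp (by fun_prop : Continuous fun t : ℝ =>
      t - f)).pow 2).div Real.continuous_cosh fun t => (Real.cosh_pos t).ne').measurable.mul
      hpm).aestronglyMeasurable) (Real.exp (2 * |f|) * M) fun t => ?_
    have hch := Real.one_le_cosh t
    have h0 : 0 ≤ Real.sinh (t - f) ^ 2 / Real.cosh t := by positivity
    rw [abs_mul, abs_of_nonneg h0, abs_of_nonneg (hpnn t)]
    have h1 : Real.sinh (t - f) ^ 2 / Real.cosh t ≤ Real.exp (2 * |f|) * Real.exp (2 * |t|) := by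
      have h3 : Real.sinh (t - f) ^ 2 / Real.cosh t ≤ Real.sinh (t - f) ^ 2 :=
        div_le_self (sq_nonneg _) hch
      refine h3.trans ?_
      rw [← sq_abs]
      have h4 := sinh_bd (t - f)
      have h5 : Real.exp |t - f| ≤ Real.exp |f| * Real.exp |t| := by
        rw [← Real.exp_add]
        refine Real.exp_le_exp.2 ?_
        have := abs_sub t f
        linarith
      have h6 := h4.trans h5
      calc |Real.sinh (t - f)| ^ 2 ≤ (Real.exp |f| * Real.exp |t|) ^ 2 :=
            pow_le_pow_left₀ (abs_nonneg _) h6 2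
        _ = _ := by
            rw [mul_pow, ← Real.exp_nat_mul, ← Real.exp_nat_mul]
            norm_num
    have h2 := hp t
    calc Real.sinh (t - f) ^ 2 / Real.cosh t * p t ≤ (Real.exp (2 * |f|) * Real.exp (2 * |t|)) *
          (M * Real.exp (-c * t ^ 2)) := mul_le_mul h1 h2 (hpnn t) (by positivity)
      _ = _ := by ring

/-- the bound of the integrand by the tangent inequality -/
theorem g_le {ω ω' p : ℝ → ℝ} (f t u : ℝ) (hK : 0 < Kp t u)
    (h : p t * Kp t u ≤ (u - t) * ω' t + ω t * Real.log (ω t / ω u)) :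
    Real.sinh (t - 2 * f) * ω' t + Real.sinh (t - f) ^ 2 / Real.cosh t * p t ≤
      Ef f t u * ω' t + Pf f t u * ω t * Real.log (ω t / ω u) := by
  have hch := Real.cosh_pos t
  have h1 : p t ≤ ((u - t) * ω' t + ω t * Real.log (ω t / ω u)) / Kp t u := by
    rw [le_div_iff₀ hK]; exact h
  have h2 : Real.sinh (t - f) ^ 2 / Real.cosh t * p t ≤ Real.sinh (t - f) ^ 2 / Real.cosh t *
      (((u - t) * ω' t + ω t * Real.log (ω t / ω u)) / Kp t u) :=
    mul_le_mul_of_nonneg_left h1 (by positivity)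
  have h3 : Real.sinh (t - f) ^ 2 / Real.cosh t *
      (((u - t) * ω' t + ω t * Real.log (ω t / ω u)) / Kp t u) =
      (u - t) * Pf f t u * ω' t + Pf f t u * ω t * Real.log (ω t / ω u) := by
    unfold Pf
    field_simp
  unfold Ef
  rw [h3] at h2
  linarith

end ONEaux

open ONEaux in
theorem ONE (hmap : St_MAP) (hed : St_EDER) (hal : St_ALG) (hl0 : St_LIM0) (hli : St_LIMI)
    (hk : St_KPA) : St_ONE := by
  intro ω ω' p M c f hc hpos hd hpm hpnn hω hω' hp htan hbal
  have hcont : Continuous ω := continuous_iff_continuousAt.2 fun t => (hd t).continuousAt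
  have hω'm : Measurable ω' := by
    have : ω' = deriv ω := funext fun t => ((hd t).deriv).symm
    rw [this]
    exact measurable_deriv ω
  obtain ⟨-, hK0, hKpos, -⟩ := hk
  obtain ⟨u, hu, hinj, himg, hu0, huinf⟩ := hmap ω M c f hc hpos hcont hω hbal
  set g : ℝ → ℝ := fun t => Real.sinh (t - 2 * f) * ω' t +
    Real.sinh (t - f) ^ 2 / Real.cosh t * p t with hg
  have hgi : Integrable g := int_g ω' p M c f hc hω'm hpm hpnn hω' hp
  set v : ℝ → ℝ := fun t => ω t / ω (u t) * Real.sinh (t - f) / Real.sinh (f - u t) with hv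
  have hvpos : ∀ t, f < t → 0 < v t := by
    intro t ht
    have h1 : 0 < Real.sinh (t - f) := Real.sinh_pos_iff.2 (by linarith)
    have h2 : 0 < Real.sinh (f - u t) := Real.sinh_pos_iff.2 (by linarith [(hu t ht).1])
    have h3 := hpos t
    have h4 := hpos (u t)
    rw [hv]
    positivity
  have hud : ∀ t, f < t → HasDerivAt u (-v t) t := fun t ht => (hu t ht).2
  set φ : ℝ → ℝ := fun t => g t + v t * g (u t) with hφ
  have habs : ∀ t ∈ Ioi f, |-v t| • g (u t) = v t * g (u t) := by
    intro t ht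
    rw [abs_neg, abs_of_pos (hvpos t ht), smul_eq_mul]
  have hvi : IntegrableOn (fun t => v t * g (u t)) (Ioi f) := by
    have h1 := (integrableOn_image_iff_integrableOn_abs_deriv_smul (s := Ioi f) (f := u)
      (f' := fun t => -v t) measurableSet_Ioi (fun t ht => (hud t ht).hasDerivWithinAt) hinj
      g).1 (by rw [himg]; exact hgi.integrableOn)
    exact h1.congr_fun habs measurableSet_Ioi
  have hφi : IntegrableOn φ (Ioi f) := hgi.integrableOn.add hvi
  have hsplit : ∫ t, g t = ∫ t in Ioi f, φ t := by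
    rw [← intervalIntegral.integral_Iic_add_Ioi (b := f) hgi.integrableOn hgi.integrableOn,
      integral_Iic_eq_integral_Iio]
    have h1 : ∫ t in Iio f, g t = ∫ t in Ioi f, v t * g (u t) := by
      rw [← himg, integral_image_eq_integral_abs_deriv_smul (s := Ioi f) (f := u)
        (f' := fun t => -v t) measurableSet_Ioi (fun t ht => (hud t ht).hasDerivWithinAt) hinj g]
      exact setIntegral_congr_fun measurableSet_Ioi habs
    rw [h1, hφ, integral_add hgi.integrableOn hvi]
    ring
  rw [hsplit]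
  set H : ℝ → ℝ := fun t => Ef f t (u t) * ω t - Ef f (u t) t * ω (u t) with hH
  set H' : ℝ → ℝ := fun t => (E1 f t (u t) * 1 + E2 f t (u t) * (-v t)) * ω t +
    Ef f t (u t) * ω' t - ((E1 f (u t) t * (-v t) + E2 f (u t) t * 1) * ω (u t) +
    Ef f (u t) t * (ω' (u t) * (-v t))) with hH'
  have hHd : ∀ t, f < t → HasDerivAt H (H' t) t := by
    intro t ht
    have hne : t ≠ u t := by have := (hu t ht).1; intro h; linarith
    have h1 := hed f (fun s => s) u 1 (-v t) t (hasDerivAt_id t) (hud t ht) hne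
    have h2 := hed f u (fun s => s) (-v t) 1 t (hud t ht) (hasDerivAt_id t) hne.symm
    have h3 := (hd (u t)).comp t (hud t ht)
    exact (h1.mul (hd t)).sub (h2.mul h3)
  have hφH : ∀ t, f < t → φ t ≤ H' t := by
    intro t ht
    have hut := (hu t ht).1
    have hne : t ≠ u t := by intro h; linarith
    have h1 := g_le (ω := ω) (ω' := ω') (p := p) f t (u t) (hKpos _ _ hne) (htan t (u t))
    have h2 := g_le (ω := ω) (ω' := ω') (p := p) f (u t) t (hKpos _ _ hne.symm) (htan (u t) t)
    have hv0 := hvpos t ht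
    have h3 : v t * g (u t) ≤ v t * (Ef f (u t) t * ω' (u t) +
        Pf f (u t) t * ω (u t) * Real.log (ω (u t) / ω t)) :=
      mul_le_mul_of_nonneg_left h2 hv0.le
    have hωt := hpos t
    have hωu := hpos (u t)
    have hρ : 0 < ω t / ω (u t) := div_pos hωt hωu
    have h4 := hal f t (u t) (ω t / ω (u t)) hut ht hρ
    have h5 : Real.log (ω (u t) / ω t) = -Real.log (ω t / ω (u t)) := by
      rw [← Real.log_inv, inv_div]
    rw [h5] at h3
    have h6 : ω (u t) * (-(ω t / ω (u t)) * (E1 f t (u t) - E2 f t (u t) * v t) +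
      (-v t * E1 f (u t) t + E2 f (u t) t) +
      (Pf f t (u t) * (ω t / ω (u t)) - Pf f (u t) t * v t) * Real.log (ω t / ω (u t))) ≤ 0 :=
      mul_nonpos_of_nonneg_of_nonpos hωu.le h4
    have h7 : ω (u t) * (ω t / ω (u t)) = ω t := by field_simp
    have h8 : ω (u t) * (-(ω t / ω (u t)) * (E1 f t (u t) - E2 f t (u t) * v t) +
      (-v t * E1 f (u t) t + E2 f (u t) t) +
      (Pf f t (u t) * (ω t / ω (u t)) - Pf f (u t) t * v t) * Real.log (ω t / ω (u t))) =
      -ω t * (E1 f t (u t) - E2 f t (u t) * v t) +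
      ω (u t) * (-v t * E1 f (u t) t + E2 f (u t) t) +
      (Pf f t (u t) * ω t - Pf f (u t) t * v t * ω (u t)) * Real.log (ω t / ω (u t)) := by
      linear_combination (-(E1 f t (u t) - E2 f t (u t) * v t) +
        Pf f t (u t) * Real.log (ω t / ω (u t))) * h7
    rw [h8] at h6
    rw [hφ, hH']
    simp only
    have h9 : g t ≤ Ef f t (u t) * ω' t +
      Pf f t (u t) * ω t * Real.log (ω t / ω (u t)) := h1
    nlinarith [h3, h6, h9]
  have hab : ∀ a b, f < a → a ≤ b → ∫ t in a..b, φ t ≤ H b - H a := by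
    intro a b ha hb
    refine intervalIntegral.integral_le_sub_of_hasDeriv_right_of_le hb ?_
      (g' := H') (fun t ht => (hHd t (ha.trans ht.1)).hasDerivWithinAt) ?_
      (fun t ht => hφH t (ha.trans ht.1))
    · intro t ht
      exact (hHd t (ha.trans_le ht.1)).continuousAt.continuousWithinAt
    · exact hφi.mono_set fun t ht => ha.trans_le ht.1
  have hHinf : Tendsto H atTop (𝓝 0) := hli ω u M c f hc hpos hω huinf
  have hH0 : Tendsto H (𝓝[>] f) (𝓝 0) := hl0 ω u f hcont (fun t ht => (hu t ht).1) hu0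
  have ha' : ∀ a, f < a → ∫ t in Ioi a, φ t ≤ -H a := by
    intro a ha
    have h1 : Tendsto (fun b => ∫ t in a..b, φ t) atTop (𝓝 (∫ t in Ioi a, φ t)) :=
      intervalIntegral_tendsto_integral_Ioi a
        (hφi.mono_set fun t ht => ha.trans ht) tendsto_id
    have h2 : Tendsto (fun b => H b - H a) atTop (𝓝 (0 - H a)) := hHinf.sub_const _
    rw [zero_sub] at h2
    refine le_of_tendsto_of_tendsto h1 h2 ?_
    filter_upwards [eventually_ge_atTop a] with b hb
    exact hab a b ha hb
  -- let `a → f`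
  set s : ℕ → ℝ := fun m => f + 1 / ((m : ℝ) + 1) with hs
  have hsf : ∀ m, f < s m := fun m => by
    rw [hs]; simp only; have : (0:ℝ) < 1 / ((m : ℝ) + 1) := by positivity
    linarith
  have hst : Tendsto s atTop (𝓝[>] f) := by
    rw [tendsto_nhdsWithin_iff]
    refine ⟨?_, Eventually.of_forall hsf⟩
    have h1 : Tendsto (fun m : ℕ => f + 1 / ((m : ℝ) + 1)) atTop (𝓝 (f + 0)) :=
      tendsto_const_nhds.add tendsto_one_div_add_atTop_nhds_zero_nat
    rw [add_zero] at h1
    exact h1
  have hmono : Monotone fun m => Ioi (s m) := by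
    intro m k hmk
    refine Ioi_subset_Ioi ?_
    rw [hs]
    simp only
    have : 1 / ((k : ℝ) + 1) ≤ 1 / ((m : ℝ) + 1) := by
      apply one_div_le_one_div_of_le (by positivity)
      have : (m : ℝ) ≤ k := by exact_mod_cast hmk
      linarith
    linarith
  have hunion : ⋃ m, Ioi (s m) = Ioi f := by
    ext t
    simp only [Set.mem_iUnion, Set.mem_Ioi]
    constructor
    · rintro ⟨m, hm⟩
      exact (hsf m).trans hm
    · intro ht
      obtain ⟨m, hm⟩ := exists_nat_one_div_lt (show (0:ℝ) < t - f by linarith)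
      exact ⟨m, by rw [hs]; simp only; linarith⟩
  have hlim : Tendsto (fun m => ∫ t in Ioi (s m), φ t) atTop (𝓝 (∫ t in Ioi f, φ t)) := by
    have := tendsto_setIntegral_of_monotone (μ := volume) (f := φ) (s := fun m => Ioi (s m))
      (fun m => measurableSet_Ioi) hmono (by rw [hunion]; exact hφi)
    rwa [hunion] at this
  have hlim2 : Tendsto (fun m => -H (s m)) atTop (𝓝 (-0)) := (hH0.comp hst).neg
  rw [neg_zero] at hlim2
  exact le_of_tendsto_of_tendsto hlim hlim2 (Eventually.of_forall fun m => ha' _ (hsf m))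

end Pool.Agent.H92.SM
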