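import Pool.Agent.H92.SM.Props
import Pool.Graph.R_pool_sql_team_seeded_f0cf7b00.H604R2.SW.T_OP
import Pool.Graph.R_pool_sql_team_seeded_f0cf7b00.H604R2.SW.T_PI
import Pool.Graph.R_pool_sql_team_seeded_f0cf7b00.H604R2.SW.T_K1
import Pool.Graph.R_pool_sql_team_seeded_f0cf7b00.H604R2.SW.T_K2
import Pool.Graph.R_pool_sql_team_seeded_f0cf7b00.H604R2.SW.T_K3
import Pool.Graph.R_pool_sql_team_seeded_f0cf7b00.H604R2.SW.T_K4
import Pool.Graph.R_pool_sql_team_seeded_f0cf7b00.H604R2.SW.T_O1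
import Pool.Graph.R_pool_sql_team_seeded_f0cf7b00.H604R2.SW.T_O2

set_option autoImplicit false

namespace Pool.Agent.H92.SM

open MeasureTheory Matrix Finset Filter Topology Set ProbabilityTheory
open scoped BigOperators
open Pool.Agent.H604R2.SW

open Pool.Agent.H604R2.SW.OPaux in
theorem OPgen {n : ℕ} (orth : Matrix (Fin (n + 2)) (Fin (n + 2)) ℝ → ℝ)
    (tie : Matrix (Fin (n + 2)) (Fin (n + 2)) ℝ → Fin (n + 2) → Fin (n + 2) → ℝ)
    (hc : ContinuousOn orth {C | C.PosDef})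
    (hp : ∀ C A : Matrix (Fin (n + 2)) (Fin (n + 2)) ℝ, C.PosDef → A.IsHermitian →
      (∀ k, A k k = 0) →
      HasDerivAt (fun s : ℝ => orth (C + s • A)) (1 / 2 * ∑ k, ∑ l, A k l * tie C k l) 0)
    (hPI : ∀ C : Matrix (Fin (n + 2)) (Fin (n + 2)) ℝ, C.PosDef → ∀ i j, i ≠ j →
      C i i = C j j → 0 ≤ AA C (Matrix.of (tie C)) i j → 0 ≤ AA C (Matrix.of (tie C)) j i →
      AA C (Matrix.of (tie C)) i j * AA C (Matrix.of (tie C)) j i ≤
        ((C i i - C i j) * tie C i j) ^ 2)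
    (ht : ∀ C : Matrix (Fin (n + 2)) (Fin (n + 2)) ℝ, C.PosDef →
      (∀ i j, i ≠ j → 0 < tie C i j) ∧ ∀ i j, tie C i j = tie C j i)
    (k1 : St_K1) (k2 : St_K2) (k3 : St_K3) (k4 : St_K4) (o1 : St_O1) (o2 : St_O2)
    (κ s₁ : ℝ) (R₁ : Matrix (Fin (n + 2)) (Fin (n + 2)) ℝ) (hκ : 0 < κ) (hs₁ : 0 ≤ s₁)
    (hδ₁ : 0 < 1 - s₁ * ((n : ℝ) + 2) / ((n : ℝ) + 1)) (hR₁ : Corr R₁) :
    orth (Ek (Fin (n + 2)) κ) ≤ orth (Cm κ s₁ R₁) := by
  by_contra hlt
  push Not at hlt
  have hcard : (Fintype.card (Fin (n + 2)) : ℝ) = (n : ℝ) + 2 := by simp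
  have hcard1 : (Fintype.card (Fin (n + 2)) : ℝ) - 1 = (n : ℝ) + 1 := by rw [hcard]; ring
  have hcard2 : 2 ≤ Fintype.card (Fin (n + 2)) := by simp
  have hn1 : (0:ℝ) < (n : ℝ) + 1 := by positivity
  have hn2 : (0:ℝ) < (n : ℝ) + 2 := by positivity
  have hCm0 : ∀ R : Matrix (Fin (n + 2)) (Fin (n + 2)) ℝ, Cm κ 0 R = Ek (Fin (n + 2)) κ := by
    intro R; unfold Cm; rw [zero_smul, add_zero]
  -- s₁ > 0
  have hs₁pos : 0 < s₁ := by
    rcases hs₁.lt_or_eq with h | h
    · exact h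
    · exfalso
      rw [← h, hCm0] at hlt
      exact lt_irrefl _ hlt
  have hδ : ∀ s, 0 ≤ s → s ≤ s₁ →
      0 < 1 - s * (Fintype.card (Fin (n + 2)) : ℝ) / ((Fintype.card (Fin (n + 2)) : ℝ) - 1) := by
    intro s _ hs
    rw [hcard1, hcard]
    have : s * ((n : ℝ) + 2) / ((n : ℝ) + 1) ≤ s₁ * ((n : ℝ) + 2) / ((n : ℝ) + 1) := by
      gcongr
    linarith
  have hPD : ∀ s, 0 ≤ s → s ≤ s₁ → ∀ R : Matrix (Fin (n + 2)) (Fin (n + 2)) ℝ, Corr R →
      (Cm κ s R).PosDef := fun s h0 h1 R hR => o1 κ s R hcard2 hκ h0 (hδ s h0 h1) hR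
  obtain ⟨ε, hε, hεlt⟩ : ∃ ε : ℝ, 0 < ε ∧ orth (Cm κ s₁ R₁) + ε * s₁ < orth (Ek (Fin (n + 2)) κ) := by
    refine ⟨(orth (Ek (Fin (n + 2)) κ) - orth (Cm κ s₁ R₁)) / (2 * s₁), ?_, ?_⟩
    · apply div_pos <;> linarith
    · have : (orth (Ek (Fin (n + 2)) κ) - orth (Cm κ s₁ R₁)) / (2 * s₁) * s₁ =
        (orth (Ek (Fin (n + 2)) κ) - orth (Cm κ s₁ R₁)) / 2 := by field_simp
      rw [this]
      linarith
  -- minimiser
  have o2' : IsCompact {R : Matrix (Fin (n + 2)) (Fin (n + 2)) ℝ | Corr R} ∧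
    Corr (1 : Matrix (Fin (n + 2)) (Fin (n + 2)) ℝ) ∧
    ∀ R R' : Matrix (Fin (n + 2)) (Fin (n + 2)) ℝ, Corr R → Corr R' → ∀ a : ℝ, 0 ≤ a → a ≤ 1 →
      Corr (R + a • (R' - R)) := o2
  obtain ⟨hcomp, hone, hconv⟩ := o2'
  set K : Set (Matrix (Fin (n + 2)) (Fin (n + 2)) ℝ × ℝ) := {R | Corr R} ×ˢ Icc 0 s₁ with hK
  have hKc : IsCompact K := hcomp.prod isCompact_Icc
  have hKn : K.Nonempty := ⟨(R₁, s₁), hR₁, hs₁, le_refl _⟩
  have hcontCm : Continuous (fun p : Matrix (Fin (n + 2)) (Fin (n + 2)) ℝ × ℝ => Cm κ p.2 p.1) := by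
    unfold Cm
    exact continuous_const.add (continuous_snd.smul (continuous_fst.sub continuous_const))
  have hcontΛ : ContinuousOn (fun p : Matrix (Fin (n + 2)) (Fin (n + 2)) ℝ × ℝ =>
      orth (Cm κ p.2 p.1) + ε * p.2) K := by
    refine ContinuousOn.add ?_ (continuous_const.mul continuous_snd).continuousOn
    have h1 : ContinuousOn (fun C : Matrix (Fin (n + 2)) (Fin (n + 2)) ℝ => orth C)
      {C | C.PosDef} := hc
    have h2 : MapsTo (fun p : Matrix (Fin (n + 2)) (Fin (n + 2)) ℝ × ℝ => Cm κ p.2 p.1) K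
        {C : Matrix (Fin (n + 2)) (Fin (n + 2)) ℝ | C.PosDef} := fun p hp => hPD p.2 hp.2.1 hp.2.2 p.1 hp.1
    exact h1.comp hcontCm.continuousOn h2
  obtain ⟨⟨R, s⟩, ⟨hR, hs0, hs1⟩, hmin⟩ := hKc.exists_isMinOn hKn hcontΛ
  have hmin' : ∀ (R' : Matrix (Fin (n + 2)) (Fin (n + 2)) ℝ) (s' : ℝ), Corr R' → 0 ≤ s' → s' ≤ s₁ →
      orth (Cm κ s R) + ε * s ≤ orth (Cm κ s' R') + ε * s' := by
    intro R' s' h1 h2 h3
    exact hmin (show ((R', s') : Matrix (Fin (n + 2)) (Fin (n + 2)) ℝ × ℝ) ∈ K from ⟨h1, h2, h3⟩)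
  have hR : Corr R := hR
  have hs0 : 0 ≤ s := hs0
  have hs1 : s ≤ s₁ := hs1
  have hspos : 0 < s := by
    rcases hs0.lt_or_eq with h | h
    · exact h
    · exfalso
      have h1 := hmin' R₁ s₁ hR₁ hs₁ le_rfl
      rw [← h, hCm0, mul_zero, add_zero] at h1
      linarith
  have hCPD := hPD s hs0 hs1 R hR
  set C := Cm κ s R with hC
  obtain ⟨htpos, htsym⟩ := ht C hCPD
  set Q : Matrix (Fin (n + 2)) (Fin (n + 2)) ℝ := Matrix.of (tie C) with hQ
  have hQs : ∀ i j, Q i j = Q j i := fun i j => htsym i j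
  have hQp : ∀ i j, i ≠ j → 0 < Q i j := fun i j h => htpos i j h
  have hherm : ∀ {R' : Matrix (Fin (n + 2)) (Fin (n + 2)) ℝ}, Corr R' → R'.IsHermitian :=
    fun h => h.1.isHermitian
  -- step 1
  have hIM : IsMinCorr Q R := by
    refine ⟨hR, fun R' hR' => ?_⟩
    have hAh : (s • (R' - R)).IsHermitian := by
      have h1 : (R' - R).IsHermitian := (hherm hR').sub (hherm hR)
      rw [Matrix.IsHermitian, Matrix.conjTranspose_smul, h1.eq, star_trivial]
    have hd := hp C (s • (R' - R)) hCPD hAh (by intro i; simp [hR.2, hR'.2])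
    have hnn := deriv_nonneg_of_min hd zero_lt_one (by
      intro a ha0 ha1
      have e1 : C + a • s • (R' - R) = Cm κ s (R + a • (R' - R)) := by
        rw [hC]; unfold Cm
        rw [smul_comm a s, add_assoc, ← smul_add]
        congr 2
        abel
      have e2 : C + (0:ℝ) • s • (R' - R) = C := by rw [zero_smul, add_zero]
      rw [e1, e2]
      have := hmin' (R + a • (R' - R)) s (hconv R R' hR hR' a ha0 ha1) hs0 hs1
      linarith)
    have e3 : ∑ k, ∑ l, (s • (R' - R)) k l * tie C k l =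
        ∑ k, ∑ l ∈ univ.erase k, tie C k l * (s • (R' - R)) k l := by
      apply sum_offdiag (fun k l => (s • (R' - R)) k l) (fun k l => tie C k l)
      intro i
      simp [hR.2, hR'.2]
    rw [e3] at hnn
    have e4 : ∑ k, ∑ l ∈ univ.erase k, tie C k l * (s • (R' - R)) k l =
        s * (∑ k, ∑ l ∈ univ.erase k, Q k l * R' k l - ∑ k, ∑ l ∈ univ.erase k, Q k l * R k l) := by
      rw [← Finset.sum_sub_distrib, Finset.mul_sum]
      refine Finset.sum_congr rfl fun k _ => ?_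
      rw [← Finset.sum_sub_distrib, Finset.mul_sum]
      refine Finset.sum_congr rfl fun l _ => ?_
      simp only [hQ, Matrix.of_apply, Matrix.smul_apply, Matrix.sub_apply, smul_eq_mul]
      ring
    rw [e4] at hnn
    have h5 : 0 ≤ s * (∑ k, ∑ l ∈ univ.erase k, Q k l * R' k l -
        ∑ k, ∑ l ∈ univ.erase k, Q k l * R k l) := by linarith
    have h6 := nonneg_of_mul_nonneg_right h5 hspos
    linarith
  -- step 2
  have hR0h : (R0 (Fin (n + 2))).IsHermitian := by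
    ext i j
    simp only [R0, Matrix.conjTranspose_apply, Matrix.of_apply, star_trivial]
    by_cases h : i = j
    · subst h; rfl
    · rw [if_neg h, if_neg (fun h' => h h'.symm)]
  have hstep2 : 1 / 2 * ∑ i, ∑ j ∈ univ.erase i,
      Q i j * (R i j + 1 / ((Fintype.card (Fin (n + 2)) : ℝ) - 1)) + ε ≤ 0 := by
    have hd := hp C (R - R0 (Fin (n + 2))) hCPD ((hherm hR).sub hR0h)
      (by intro i; simp [hR.2, R0])
    have hd2 : HasDerivAt (fun b : ℝ => orth (C + (-b) • (R - R0 (Fin (n + 2)))) - ε * b)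
        (-(1 / 2 * ∑ k, ∑ l, (R - R0 (Fin (n + 2))) k l * tie C k l) - ε) 0 := by
      have h1 : HasDerivAt (fun b : ℝ => -b) (-1) 0 := hasDerivAt_neg 0
      have hd' : HasDerivAt (fun s : ℝ => orth (C + s • (R - R0 (Fin (n + 2)))))
        (1 / 2 * ∑ k, ∑ l, (R - R0 (Fin (n + 2))) k l * tie C k l) (-(0:ℝ)) := by
        rw [neg_zero]; exact hd
      have h2 := HasDerivAt.comp (0:ℝ) hd' h1
      have h3 : HasDerivAt (fun b : ℝ => ε * b) ε 0 := by
        simpa using (hasDerivAt_id (0:ℝ)).const_mul ε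
      have h4 : HasDerivAt (fun b : ℝ => orth (C + (-b) • (R - R0 (Fin (n + 2)))) - ε * b)
        ((1 / 2 * ∑ k, ∑ l, (R - R0 (Fin (n + 2))) k l * tie C k l) * (-1) - ε) 0 := h2.sub h3
      have e : -(1 / 2 * ∑ k, ∑ l, (R - R0 (Fin (n + 2))) k l * tie C k l) - ε =
        (1 / 2 * ∑ k, ∑ l, (R - R0 (Fin (n + 2))) k l * tie C k l) * (-1) - ε := by ring
      rw [e]
      exact h4
    have hnn := deriv_nonneg_of_min hd2 hspos (by
      intro b hb0 hb1
      have e1 : C + (-b) • (R - R0 (Fin (n + 2))) = Cm κ (s - b) R := by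
        rw [hC]; unfold Cm
        rw [add_assoc, ← add_smul, ← sub_eq_add_neg s b]
      have e2 : C + (-(0:ℝ)) • (R - R0 (Fin (n + 2))) = C := by rw [neg_zero, zero_smul, add_zero]
      simp only [e1, e2]
      have := hmin' R (s - b) hR (by linarith) (by linarith)
      linarith)
    have e3 : ∑ k, ∑ l, (R - R0 (Fin (n + 2))) k l * tie C k l =
        ∑ k, ∑ l ∈ univ.erase k, tie C k l * (R - R0 (Fin (n + 2))) k l := by
      apply sum_offdiag (fun k l => (R - R0 (Fin (n + 2))) k l) (fun k l => tie C k l)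
      intro i
      simp [hR.2, R0]
    have e4 : ∑ k, ∑ l ∈ univ.erase k, tie C k l * (R - R0 (Fin (n + 2))) k l =
        ∑ i, ∑ j ∈ univ.erase i,
          Q i j * (R i j + 1 / ((Fintype.card (Fin (n + 2)) : ℝ) - 1)) := by
      refine Finset.sum_congr rfl fun k _ => Finset.sum_congr rfl fun l hl => ?_
      have hne : k ≠ l := (Finset.ne_of_mem_erase hl).symm
      simp only [hQ, Matrix.of_apply, Matrix.sub_apply, R0, if_neg hne]
      ring
    rw [e3, e4] at hnn
    linarith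
  -- step 3
  have hK1 := k1 Q R hQs hIM
  have hK2 := k2 Q R hQs hQp hIM
  have hK3 := k3 Q R κ s hcard2 hQs hR hK1
  have hδs := hδ s hs0 hs1
  have hK4 := k4 Q R s hcard2 hspos hδs hQs hQp hR hK1 hK2 (by
    intro i j hij
    obtain ⟨a1, a2, a3⟩ := hK3 i j hij
    obtain ⟨b1, -, -⟩ := hK3 j i hij.symm
    have hrij : R j i = R i j := by simpa using (hherm hR).apply i j
    rw [hrij, hQs j i] at b1
    have hle := corr_le_one hR i j
    have hρi := (hK2 i j hij).1
    have hρj := (hK2 j i hij.symm).1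
    have hQij := hQp i j hij
    have hA : 0 ≤ AA C Q i j := by
      rw [hC, a1]
      have : 0 ≤ 1 - R i j := by linarith
      positivity
    have hB : 0 ≤ AA C Q j i := by
      rw [hC, b1]
      have : 0 ≤ 1 - R i j := by linarith
      positivity
    have h := hPI C hCPD i j hij a2 hA hB
    have e1 : AA C (Matrix.of (tie C)) i j = (1 - s * Fintype.card (Fin (n + 2)) / ((Fintype.card (Fin (n + 2)) : ℝ) - 1)) * Q i j +
      s * (1 - R i j) * rho Q R i := a1
    have e2 : AA C (Matrix.of (tie C)) j i = (1 - s * Fintype.card (Fin (n + 2)) / ((Fintype.card (Fin (n + 2)) : ℝ) - 1)) * Q i j +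
      s * (1 - R i j) * rho Q R j := b1
    rw [e1, e2, a3] at h
    exact h)
  linarith


theorem OP_AAsmul {ι : Type} [Fintype ι] [DecidableEq ι] (C Q : Matrix ι ι ℝ) (c e : ℝ)
    (i j : ι) : AA C (Matrix.of fun k l => e * Q k l) i j = e * AA C Q i j := by
  unfold AA
  rw [Finset.mul_sum]
  refine Finset.sum_congr rfl fun k _ => ?_
  simp only [Matrix.of_apply]
  ring

theorem OP_AAsmul2 {ι : Type} [Fintype ι] [DecidableEq ι] (C Q : Matrix ι ι ℝ) (c : ℝ)
    (i j : ι) : AA (c • C) Q i j = c * AA C Q i j := by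
  unfold AA
  rw [Finset.mul_sum]
  refine Finset.sum_congr rfl fun k _ => ?_
  simp only [Matrix.smul_apply, smul_eq_mul]
  ring

theorem OP_AArel (h4 : St_TP) {n : ℕ} (C : Matrix (Fin (n + 2)) (Fin (n + 2)) ℝ)
    (hC : C.PosDef) (σ : Equiv.Perm (Fin (n + 2))) (a b : Fin (n + 2)) :
    AA (C.submatrix σ σ) (Matrix.of (Tf (C.submatrix σ σ))) a b =
      AA C (Matrix.of (Tf C)) (σ a) (σ b) := by
  unfold AA
  simp only [Matrix.submatrix_apply, Matrix.of_apply, (h4 C hC).2.2 σ]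
  apply Finset.sum_equiv σ
  · intro k
    simp
  · intro k _
    rfl

theorem OP_PI (h1 : St_PI01') (h4 : St_TP) {n : ℕ}
    (C : Matrix (Fin (n + 2)) (Fin (n + 2)) ℝ) (hC : C.PosDef) (i j : Fin (n + 2)) (hij : i ≠ j)
    (hd : C i i = C j j) (hA : 0 ≤ AA C (Matrix.of (Tf C)) i j)
    (hB : 0 ≤ AA C (Matrix.of (Tf C)) j i) :
    AA C (Matrix.of (Tf C)) i j * AA C (Matrix.of (Tf C)) j i ≤
        ((C i i - C i j) * Tf C i j) ^ 2 := by
  obtain ⟨σ, h0, h1'⟩ := PI_exists_perm i j hij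
  have ht := (h4 C hC).2.2 σ
  have hC' : (C.submatrix σ σ).PosDef := hC.submatrix σ.injective
  have h := h1 (C.submatrix σ σ) hC' (by simp only [Matrix.submatrix_apply, h0, h1', hd])
  rw [OP_AArel h4 C hC σ, OP_AArel h4 C hC σ, h0, h1', ht, Matrix.submatrix_apply,
    Matrix.submatrix_apply, h0, h1'] at h
  exact h hA hB

theorem OPt (hc : St_JC) (hp : St_JP) (ht : St_TP) (hPI : St_PI01') : St_OP' := by
  intro n c κ s R hc0 hκ hs hδ hR
  have key := OPgen (n := n) (fun C => -Jf (c • C)) (fun C k l => c * Tf (c • C) k l)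
    (by
      have h1 : ContinuousOn (fun C : Matrix (Fin (n + 2)) (Fin (n + 2)) ℝ => Jf C)
        {C | C.PosDef} := hc
      have h2 : ContinuousOn (fun C : Matrix (Fin (n + 2)) (Fin (n + 2)) ℝ => c • C)
        {C | C.PosDef} := (continuous_const_smul c).continuousOn
      exact (h1.comp h2 (fun C hC => hC.smul hc0)).neg)
    (by
      intro C A hC hA hA0
      have h := hp (c • C) (c • A) (hC.smul hc0) (by
        rw [Matrix.IsHermitian, Matrix.conjTranspose_smul, hA.eq, star_trivial])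
        (by intro k; simp [hA0 k])
      have h2 := h.neg
      have e1 : (fun s : ℝ => -Jf (c • (C + s • A))) = -(fun s : ℝ => Jf (c • C + s • c • A)) := by
        funext s
        simp only [Pi.neg_apply]
        rw [smul_add, smul_comm c s A]
      rw [e1]
      refine h2.congr_deriv ?_
      rw [neg_neg]
      congr 1
      refine Finset.sum_congr rfl fun k _ => Finset.sum_congr rfl fun l _ => ?_
      simp only [Matrix.smul_apply, smul_eq_mul]
      ring)
    (by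
      intro C hC i j hij hd hA hB
      have hcC := hC.smul hc0
      have e1 : ∀ a b, AA C (Matrix.of fun k l => c * Tf (c • C) k l) a b =
          AA (c • C) (Matrix.of (Tf (c • C))) a b := by
        intro a b
        rw [OP_AAsmul2]
        exact OP_AAsmul C (Matrix.of (Tf (c • C))) c c a b
      have hA' : 0 ≤ AA (c • C) (Matrix.of (Tf (c • C))) i j := by
        rw [← e1]; exact hA
      have hB' : 0 ≤ AA (c • C) (Matrix.of (Tf (c • C))) j i := by
        rw [← e1]; exact hB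
      have h := OP_PI hPI ht (c • C) hcC i j hij (by simp [hd]) hA' hB'
      have e2 : ((c • C) i i - (c • C) i j) * Tf (c • C) i j =
          (C i i - C i j) * (c * Tf (c • C) i j) := by
        simp only [Matrix.smul_apply, smul_eq_mul]
        ring
      rw [e2] at h
      have e3 := e1 i j
      have e4 := e1 j i
      rw [← e3, ← e4] at h
      exact h)
    (by
      intro C hC
      have hcC := hC.smul hc0
      exact ⟨fun i j _ => mul_pos hc0 ((ht _ hcC).1 i j), fun i j => by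
        show c * Tf (c • C) i j = c * Tf (c • C) j i
        rw [(ht _ hcC).2.1 i j]⟩)
    K1 K2 K3 K4 O1 O2 κ s R hκ hs hδ hR
  have key' : -Jf (c • Ek (Fin (n + 2)) κ) ≤ -Jf (c • Cm κ s R) := key
  linarith

end Pool.Agent.H92.SM
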