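import Pool.Agent.H92.SM.Props

set_option autoImplicit false

namespace Pool.Agent.H92.SM

open MeasureTheory Matrix Finset Filter Topology Set ProbabilityTheory
open scoped BigOperators
open Pool.Agent.H604R2.SW

namespace PIaux

/-- continuity of the kernel function -/
theorem cont_ker (hf : St_fun) (hs : St_sE) {ι : Type} [Fintype ι] [Nonempty ι] (k l : ι) :
    Continuous (fun x : ι → ℝ => kr (sE x) * Real.exp (x k + x l)) := by
  obtain ⟨-, -, -, -, -, -, -, hk, -⟩ := hf
  have h1 : Continuous (fun x : ι → ℝ => sE x) := by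
    unfold sE; fun_prop
  refine (hk.comp_continuous h1 (fun x => (hs x).1)).mul ?_
  fun_prop

theorem growth_ker (hf : St_fun) (hs : St_sE) {ι : Type} [Fintype ι] [Nonempty ι] (k l : ι) :
    ∃ M, ∀ x : ι → ℝ, |kr (sE x) * Real.exp (x k + x l)| ≤ M * (1 + ∑ i, |x i|) ^ 2 := by
  obtain ⟨-, -, -, hk, -⟩ := hf
  refine ⟨2 * (Fintype.card ι : ℝ), fun x => ?_⟩
  obtain ⟨h0, h1, h2⟩ := hs x
  obtain ⟨k0, -, k2⟩ := hk _ h0
  have hN : (1 : ℝ) ≤ Fintype.card ι := by exact_mod_cast Fintype.card_pos
  have hS : 0 ≤ ∑ i, |x i| := Finset.sum_nonneg fun i _ => abs_nonneg _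
  rw [abs_of_nonneg (mul_nonneg k0 (Real.exp_pos _).le), Real.exp_add]
  have e1 : Real.exp (x k) * Real.exp (x l) ≤ sE x ^ 2 := by
    rw [sq]
    exact mul_le_mul (h1 k) (h1 l) (Real.exp_pos _).le h0.le
  calc kr (sE x) * (Real.exp (x k) * Real.exp (x l)) ≤ kr (sE x) * sE x ^ 2 :=
        mul_le_mul_of_nonneg_left e1 k0
    _ = sE x ^ 2 * kr (sE x) := by ring
    _ ≤ 2 * ((Fintype.card ι : ℝ) + ∑ i, |x i|) := by linarith
    _ ≤ 2 * (Fintype.card ι : ℝ) * (1 + ∑ i, |x i|) ^ 2 := by
        generalize (Fintype.card ι : ℝ) = N at hN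
        generalize ∑ i, |x i| = S at hS
        have e2 : N + S ≤ N * (1 + S) := by nlinarith
        have e3 : N * (1 + S) ≤ N * (1 + S) ^ 2 := by
          have : (1 + S) ≤ (1 + S) ^ 2 := by nlinarith
          exact mul_le_mul_of_nonneg_left this (by linarith)
        linarith

section
variable {n : ℕ} (C : Matrix (Fin (n + 2)) (Fin (n + 2)) ℝ)

theorem gam_zero (t : ℝ) : gam C t 0 = lc t := rfl
theorem gam_succ (t : ℝ) (j : Fin n) : gam C t j.succ = t * kap C j := rfl
theorem pt_zero (t : ℝ) (w : Fin (n + 1) → ℝ) : pt C t w 0 = w 0 + t := rfl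
theorem pt_one (t : ℝ) (w : Fin (n + 1) → ℝ) : pt C t w 1 = w 0 - t := rfl
theorem pt_succ (t : ℝ) (w : Fin (n + 1) → ℝ) (j : Fin n) :
    pt C t w j.succ.succ = w j.succ + t * kap C j := rfl

theorem sum2 (f : Fin (n + 2) → ℝ) : ∑ i, f i = f 0 + f 1 + ∑ j : Fin n, f j.succ.succ := by
  rw [Fin.sum_univ_succ, Fin.sum_univ_succ]
  simp only [Fin.succ_zero_eq_one]
  ring

theorem exp_lc (t : ℝ) : Real.exp (lc t) = Real.cosh t := Real.exp_log (Real.cosh_pos t)

theorem Yg_gam (t : ℝ) (w : Fin (n + 1) → ℝ) : Yg (w + gam C t) = sE (pt C t w) := by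
  unfold Yg sE
  rw [sum2, Fin.sum_univ_succ]
  simp only [ys, pt_zero, pt_one, pt_succ, Pi.add_apply, gam_zero, gam_succ, if_true]
  have e1 : ∀ j : Fin n, (if j.succ = 0 then (2 : ℝ) else 1) = 1 := fun j =>
    if_neg (Fin.succ_ne_zero j)
  simp only [e1, one_mul]
  congr 1
  rw [Real.exp_add, exp_lc, Real.cosh_eq, Real.exp_add, sub_eq_add_neg, Real.exp_add]
  ring

theorem hasDeriv_gam (hk : ∀ t, HasDerivAt lc (Real.tanh t) t) (t : ℝ) :
    HasDerivAt (gam C) (Matrix.vecCons (Real.tanh t) (kap C)) t := by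
  rw [hasDerivAt_pi]
  intro k
  refine Fin.cases ?_ (fun j => ?_) k
  · exact hk t
  · change HasDerivAt (fun t => t * kap C j) (kap C j) t
    simpa using (hasDerivAt_id t).mul_const (kap C j)

end

theorem key_alg (a b T q : ℝ) (hq : 0 < q) (ha : 0 ≤ a) (hb : 0 ≤ b)
    (h : q⁻¹ * a + q * b ≤ 2 * T) : a * b ≤ T ^ 2 := by
  have h1 : 0 ≤ q⁻¹ * a := by positivity
  have h2 : 0 ≤ q * b := by positivity
  have h3 : a * b = (q⁻¹ * a) * (q * b) := by field_simp
  rw [h3]
  nlinarith [sq_nonneg (q⁻¹ * a - q * b)]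

theorem sinh_id (t f : ℝ) : Real.sinh (t - f) ^ 2 - Real.sinh (t - 2 * f) * Real.sinh t =
    Real.sinh f ^ 2 := by
  have h1 : t = (t - f) + f := by ring
  have h2 : t - 2 * f = (t - f) - f := by ring
  rw [h2]
  nth_rewrite 3 [h1]
  rw [Real.sinh_sub (t - f) f, Real.sinh_add (t - f) f]
  have e1 := Real.cosh_sq (t - f)
  have e2 := Real.cosh_sq f
  nlinarith [e1, e2]

/-- Gaussian times polynomial and exponentials is integrable -/
theorem gint {d : ℝ} (hd : 0 < d) (a : ℝ) (g : ℝ → ℝ) (hg : AEStronglyMeasurable g)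
    (K : ℝ) (hb : ∀ t, |g t| ≤ K * Real.exp (a * |t|) * Real.exp (-(t ^ 2 / d))) :
    Integrable g := by
  have hK : 0 ≤ K := by
    have h := (abs_nonneg (g 0)).trans (hb 0)
    simp at h
    exact h
  have h1 : Integrable (fun t : ℝ => Real.exp (-(1 / (2 * d)) * t ^ 2)) :=
    integrable_exp_neg_mul_sq (by positivity)
  refine (h1.const_mul (K * Real.exp (a ^ 2 * d / 2))).mono' hg (Eventually.of_forall fun t => ?_)
  rw [Real.norm_eq_abs]
  refine (hb t).trans ?_
  rw [mul_assoc, mul_assoc, ← Real.exp_add, ← Real.exp_add]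
  refine mul_le_mul_of_nonneg_left (Real.exp_le_exp.2 ?_) hK
  have e1 : a * |t| ≤ a ^ 2 * d / 2 + t ^ 2 / (2 * d) := by
    have h2 : 0 ≤ (a * d - |t|) ^ 2 / (2 * d) := by positivity
    have h3 : (a * d - |t|) ^ 2 / (2 * d) = a ^ 2 * d / 2 + t ^ 2 / (2 * d) - a * |t| := by
      have : |t| ^ 2 = t ^ 2 := sq_abs t
      field_simp
      rw [← this]
      ring
    linarith
  have e2 : t ^ 2 / d = t ^ 2 / (2 * d) + 1 / (2 * d) * t ^ 2 := by
    field_simp
    ring
  linarith

theorem rbound (t : ℝ) : t * Real.cosh t / Real.sinh t ≤ 1 + |t| := by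
  have key : ∀ t : ℝ, 0 < t → t * Real.cosh t / Real.sinh t ≤ 1 + t := by
    intro t ht
    have h1 : 0 < Real.sinh t := Real.sinh_pos_iff.2 ht
    rw [div_le_iff₀ h1]
    have h2 : t ≤ Real.sinh t := Real.self_le_sinh_iff.2 ht.le
    have h3 : Real.cosh t - Real.sinh t = Real.exp (-t) := Real.cosh_sub_sinh t
    have h4 : Real.exp (-t) ≤ 1 := Real.exp_le_one_iff.2 (by linarith)
    nlinarith [Real.exp_pos (-t)]
  rcases lt_trichotomy t 0 with h | h | h
  · have h1 := key (-t) (by linarith)
    rw [Real.cosh_neg, Real.sinh_neg] at h1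
    rw [abs_of_neg h]
    have h2 : t * Real.cosh t / Real.sinh t = -t * Real.cosh t / -Real.sinh t := by
      rw [neg_mul, neg_div_neg_eq]
    rw [h2]
    exact h1
  · rw [h]; simp
  · rw [abs_of_pos h]; exact key t h

end PIaux


open PIaux in
theorem PI01 (hf : St_fun) (hs : St_sE) (hTP : St_TP) (hDIS : St_DIS) (hHD : St_HD)
    (hGB : St_GB) (hGD : St_GD) (hGT : St_GT) (hKP : St_KPA) (hONE : St_ONE) : St_PI01' := by
  intro n C hC h01 hA0 hA1
  obtain ⟨hd, c, hc, hφ⟩ := hDIS C hC h01
  set d : ℝ := C 0 0 - C 0 1 with hdd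
  set D := Dd C with hDdef
  have hD : HD D := hHD C hC
  obtain ⟨-, ⟨M, hM⟩, hGc, hGkc⟩ := hGB D hD
  obtain ⟨-, hTs, -⟩ := hTP C hC
  obtain ⟨k1, k2, k3, k4⟩ := hKP
  have hM0 : 0 < M := (hM 0).1.trans_le (hM 0).2.1
  have hgc : Continuous (gam C) :=
    continuous_iff_continuousAt.2 fun t => (hasDeriv_gam C k1 t).continuousAt
  -- the functions of `t`
  set e : ℝ → ℝ := fun t => Real.exp (-(t ^ 2 / d)) with he
  set G : ℝ → ℝ := fun t => Gf D (gam C t) with hG
  set G0 : ℝ → ℝ := fun t => Gk D (gam C t) 0 with hG0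
  set Gj : Fin n → ℝ → ℝ := fun j t => Gk D (gam C t) j.succ with hGj
  set S : ℝ → ℝ := fun t => ∑ j, kap C j * Gj j t with hS
  have hGcont : Continuous G := hGc.comp hgc
  have hG0cont : Continuous G0 := (hGkc 0).comp hgc
  have hGjcont : ∀ j, Continuous (Gj j) := fun j => (hGkc j.succ).comp hgc
  have hScont : Continuous S := by
    rw [hS]
    exact continuous_finsetSum _ fun j _ => continuous_const.mul (hGjcont j)
  have hecont : Continuous e := by rw [he]; fun_prop
  have hepos : ∀ t, 0 < e t := fun t => Real.exp_pos _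
  have hGpos : ∀ t, 0 < G t := fun t => (hM _).1
  have hGle : ∀ t, G t ≤ M := fun t => (hM _).2.1
  have hG0nn : ∀ t, 0 ≤ G0 t := fun t => ((hM _).2.2 0).1
  have hG0le : ∀ t, G0 t ≤ M := fun t => ((hM _).2.2 0).2
  have hGjnn : ∀ j t, 0 ≤ Gj j t := fun j t => ((hM _).2.2 j.succ).1
  have hGjle : ∀ j t, Gj j t ≤ M := fun j t => ((hM _).2.2 j.succ).2
  set Ks : ℝ := ∑ j, |kap C j| with hKs
  have hKs0 : 0 ≤ Ks := Finset.sum_nonneg fun j _ => abs_nonneg _
  have hSle : ∀ t, |S t| ≤ Ks * M := by
    intro t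
    rw [hS, hKs, Finset.sum_mul]
    refine (Finset.abs_sum_le_sum_abs _ _).trans (Finset.sum_le_sum fun j _ => ?_)
    rw [abs_mul, abs_of_nonneg (hGjnn j t)]
    exact mul_le_mul_of_nonneg_left (hGjle j t) (abs_nonneg _)
  -- the three integrals
  have hT01 : Tf C 0 1 = c * ∫ t, e t * (G0 t / (2 * Real.cosh t)) := by
    have h := hφ _ (cont_ker hf hs 0 1) (growth_ker hf hs 0 1)
    have e0 : Tf C 0 1 = ∫ x, kr (sE x) * Real.exp (x 0 + x 1) * dens C x := rfl
    rw [e0, h]
    congr 1
    refine integral_congr_ae (Eventually.of_forall fun t => ?_)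
    simp only [he]
    congr 1
    rw [hG0]
    simp only
    unfold Gk
    rw [← integral_div]
    refine integral_congr_ae (Eventually.of_forall fun w => ?_)
    simp only
    rw [Yg_gam, pt_zero, pt_one]
    have e1 : ys (w + gam C t) 0 = 2 * (Real.exp (w 0) * Real.cosh t) := by
      simp only [ys, if_true, Pi.add_apply, gam_zero]
      rw [Real.exp_add, exp_lc]
    have e2 : Real.exp (w 0 + t + (w 0 - t)) = Real.exp (w 0) * Real.exp (w 0) := by
      rw [← Real.exp_add]; congr 1; ring
    have hcosh : Real.cosh t ≠ 0 := (Real.cosh_pos t).ne'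
    rw [e1, e2]
    field_simp
  have hT0 : ∀ j : Fin n, Tf C 0 j.succ.succ = c * ∫ t, e t * (Real.exp t * Gj j t) := by
    intro j
    have h := hφ _ (cont_ker hf hs 0 j.succ.succ) (growth_ker hf hs 0 j.succ.succ)
    have e0 : Tf C 0 j.succ.succ =
      ∫ x, kr (sE x) * Real.exp (x 0 + x j.succ.succ) * dens C x := rfl
    rw [e0, h]
    congr 1
    refine integral_congr_ae (Eventually.of_forall fun t => ?_)
    simp only [he]
    congr 1
    rw [hGj]
    simp only
    unfold Gk
    rw [← integral_const_mul]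
    refine integral_congr_ae (Eventually.of_forall fun w => ?_)
    simp only
    rw [Yg_gam, pt_zero, pt_succ]
    have e1 : ys (w + gam C t) j.succ = Real.exp (w j.succ + t * kap C j) := by
      simp only [ys, Pi.add_apply, gam_succ, if_neg (Fin.succ_ne_zero j), one_mul]
    rw [e1, Real.exp_add (w 0 + t), Real.exp_add (w 0) t]
    ring
  have hT1 : ∀ j : Fin n, Tf C 1 j.succ.succ = c * ∫ t, e t * (Real.exp (-t) * Gj j t) := by
    intro j
    have h := hφ _ (cont_ker hf hs 1 j.succ.succ) (growth_ker hf hs 1 j.succ.succ)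
    have e0 : Tf C 1 j.succ.succ =
      ∫ x, kr (sE x) * Real.exp (x 1 + x j.succ.succ) * dens C x := rfl
    rw [e0, h]
    congr 1
    refine integral_congr_ae (Eventually.of_forall fun t => ?_)
    simp only [he]
    congr 1
    rw [hGj]
    simp only
    unfold Gk
    rw [← integral_const_mul]
    refine integral_congr_ae (Eventually.of_forall fun w => ?_)
    simp only
    rw [Yg_gam, pt_one, pt_succ]
    have e1 : ys (w + gam C t) j.succ = Real.exp (w j.succ + t * kap C j) := by
      simp only [ys, Pi.add_apply, gam_succ, if_neg (Fin.succ_ne_zero j), one_mul]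
    rw [e1, Real.exp_add (w 0 - t), sub_eq_add_neg, Real.exp_add (w 0) (-t)]
    ring
  -- integrability
  have hexpb : ∀ t : ℝ, Real.exp t ≤ Real.exp (1 * |t|) := fun t => by
    rw [one_mul]; exact Real.exp_le_exp.2 (le_abs_self t)
  have hexpb' : ∀ t : ℝ, Real.exp (-t) ≤ Real.exp (1 * |t|) := fun t => by
    rw [one_mul]; exact Real.exp_le_exp.2 (neg_le_abs t)
  have hcb : ∀ (g h : ℝ → ℝ) (K : ℝ), Continuous g → Continuous h → (∀ t, |g t| ≤ K) →
      (∀ t, |h t| ≤ Real.exp (1 * |t|)) → Integrable (fun t => e t * (h t * g t)) := by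
    intro g h K hg hh hgK hhK
    have hK : 0 ≤ K := (abs_nonneg _).trans (hgK 0)
    refine gint hd 1 _ (hecont.mul (hh.mul hg)).aestronglyMeasurable K fun t => ?_
    rw [abs_mul, abs_mul, abs_of_pos (hepos t)]
    calc e t * (|h t| * |g t|) ≤ e t * (Real.exp (1 * |t|) * K) := by
          refine mul_le_mul_of_nonneg_left ?_ (hepos t).le
          exact mul_le_mul (hhK t) (hgK t) (abs_nonneg _) (Real.exp_pos _).le
      _ = K * Real.exp (1 * |t|) * Real.exp (-(t ^ 2 / d)) := by rw [he]; ring
  have hiτ : Integrable (fun t => e t * (G0 t / (2 * Real.cosh t))) := by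
    have h := hcb G0 (fun t => 1 / (2 * Real.cosh t)) M hG0cont (by
        have : ∀ t, 2 * Real.cosh t ≠ 0 := fun t => by have := Real.cosh_pos t; positivity
        exact continuous_const.div (by fun_prop) this) (fun t => by
        rw [abs_of_nonneg (hG0nn t)]; exact hG0le t) (fun t => by
        have h1 := Real.one_le_cosh t
        rw [abs_of_nonneg (by positivity)]
        have h2 : 1 / (2 * Real.cosh t) ≤ 1 := by
          rw [div_le_one (by positivity)]; linarith
        refine h2.trans ?_
        exact Real.one_le_exp (by positivity))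
    refine h.congr (Eventually.of_forall fun t => ?_)
    simp only
    ring
  have hi0 : ∀ j, Integrable (fun t => e t * (Real.exp t * Gj j t)) := fun j =>
    hcb (Gj j) Real.exp M (hGjcont j) Real.continuous_exp (fun t => by
      rw [abs_of_nonneg (hGjnn j t)]; exact hGjle j t) (fun t => by
      rw [abs_of_pos (Real.exp_pos t)]; exact hexpb t)
  have hi1 : ∀ j, Integrable (fun t => e t * (Real.exp (-t) * Gj j t)) := fun j =>
    hcb (Gj j) (fun t => Real.exp (-t)) M (hGjcont j) (by fun_prop) (fun t => by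
      rw [abs_of_nonneg (hGjnn j t)]; exact hGjle j t) (fun t => by
      rw [abs_of_pos (Real.exp_pos _)]; exact hexpb' t)
  have hiS0 : Integrable (fun t => e t * (Real.exp t * S t)) :=
    hcb S Real.exp (Ks * M) hScont Real.continuous_exp hSle (fun t => by
      rw [abs_of_pos (Real.exp_pos t)]; exact hexpb t)
  have hiS1 : Integrable (fun t => e t * (Real.exp (-t) * S t)) :=
    hcb S (fun t => Real.exp (-t)) (Ks * M) hScont (by fun_prop) hSle (fun t => by
      rw [abs_of_pos (Real.exp_pos _)]; exact hexpb' t)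
  have hiG0 : Integrable (fun t => e t * (Real.exp t * G t)) :=
    hcb G Real.exp M hGcont Real.continuous_exp (fun t => by
      rw [abs_of_pos (hGpos t)]; exact hGle t) (fun t => by
      rw [abs_of_pos (Real.exp_pos t)]; exact hexpb t)
  have hiG1 : Integrable (fun t => e t * (Real.exp (-t) * G t)) :=
    hcb G (fun t => Real.exp (-t)) M hGcont (by fun_prop) (fun t => by
      rw [abs_of_pos (hGpos t)]; exact hGle t) (fun t => by
      rw [abs_of_pos (Real.exp_pos _)]; exact hexpb' t)
  set Tt : ℝ := ∫ t, e t * (G0 t / (2 * Real.cosh t)) with hTt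
  set Sp : ℝ := ∫ t, e t * (Real.exp t * S t) with hSp
  set Sm : ℝ := ∫ t, e t * (Real.exp (-t) * S t) with hSm
  have hsum0 : ∑ j, kap C j * ∫ t, e t * (Real.exp t * Gj j t) = Sp := by
    rw [hSp]
    have : ∀ j : Fin n, kap C j * ∫ t, e t * (Real.exp t * Gj j t) =
        ∫ t, kap C j * (e t * (Real.exp t * Gj j t)) := fun j => (integral_const_mul _ _).symm
    simp only [this]
    rw [← integral_finsetSum _ fun j _ => (hi0 j).const_mul _]
    refine integral_congr_ae (Eventually.of_forall fun t => ?_)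
    simp only [hS, Finset.mul_sum]
    refine Finset.sum_congr rfl fun j _ => ?_
    ring
  have hsum1 : ∑ j, kap C j * ∫ t, e t * (Real.exp (-t) * Gj j t) = Sm := by
    rw [hSm]
    have : ∀ j : Fin n, kap C j * ∫ t, e t * (Real.exp (-t) * Gj j t) =
        ∫ t, kap C j * (e t * (Real.exp (-t) * Gj j t)) := fun j => (integral_const_mul _ _).symm
    simp only [this]
    rw [← integral_finsetSum _ fun j _ => (hi1 j).const_mul _]
    refine integral_congr_ae (Eventually.of_forall fun t => ?_)
    simp only [hS, Finset.mul_sum]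
    refine Finset.sum_congr rfl fun j _ => ?_
    ring
  -- `AA`
  have hsymC : ∀ i j, C i j = C j i := fun i j => by
    have := hC.isHermitian.apply j i
    simpa using this
  have hne : ∀ j : Fin n, j.succ.succ ≠ (1 : Fin (n + 2)) := by
    intro j h
    have h' : j.succ.succ = (Fin.succ (0 : Fin (n + 1))) := h
    exact Fin.succ_ne_zero j (Fin.succ_injective _ h')
  have hkapd : ∀ j : Fin n, C 0 j.succ.succ - C 1 j.succ.succ = d * kap C j := by
    intro j
    unfold kap
    rw [← hdd]
    field_simp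
  have hAA01 : AA C (Matrix.of (Tf C)) 0 1 = d * c * (Tt - Sp) := by
    have e1 : AA C (Matrix.of (Tf C)) 0 1 =
        ∑ k, (C 1 k - C 0 k) * Tf C 0 k - (C 1 0 - C 0 0) * Tf C 0 0 := by
      unfold AA
      rw [← Finset.add_sum_erase _ _ (Finset.mem_univ (0 : Fin (n + 2)))]
      simp only [Matrix.of_apply]
      ring
    rw [e1, sum2]
    have e2 : ∑ j : Fin n, (C 1 j.succ.succ - C 0 j.succ.succ) * Tf C 0 j.succ.succ =
        -(d * c * Sp) := by
      rw [← hsum0, Finset.mul_sum, ← Finset.sum_neg_distrib]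
      refine Finset.sum_congr rfl fun j _ => ?_
      rw [hT0 j]
      have := hkapd j
      have h3 : C 1 j.succ.succ - C 0 j.succ.succ = -(d * kap C j) := by linarith
      rw [h3]
      ring
    rw [e2, hT01]
    have h4 : C 1 1 - C 0 1 = d := by rw [hdd, h01]
    rw [h4]
    ring
  have hAA10 : AA C (Matrix.of (Tf C)) 1 0 = d * c * (Tt + Sm) := by
    have e1 : AA C (Matrix.of (Tf C)) 1 0 =
        ∑ k, (C 0 k - C 1 k) * Tf C 1 k - (C 0 1 - C 1 1) * Tf C 1 1 := by
      unfold AA
      rw [← Finset.add_sum_erase _ _ (Finset.mem_univ (1 : Fin (n + 2)))]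
      simp only [Matrix.of_apply]
      ring
    rw [e1, sum2]
    have e2 : ∑ j : Fin n, (C 0 j.succ.succ - C 1 j.succ.succ) * Tf C 1 j.succ.succ =
        d * c * Sm := by
      rw [← hsum1, Finset.mul_sum]
      refine Finset.sum_congr rfl fun j _ => ?_
      rw [hT1 j, hkapd j]
      ring
    rw [e2, hTs 1 0, hT01]
    have h4 : C 0 0 - C 1 0 = d := by rw [hdd, hsymC 1 0]
    rw [h4]
    ring
  -- the functions of the one-dimensional lemma
  set r : ℝ → ℝ := fun t => t * Real.cosh t / Real.sinh t with hr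
  have hr0 : ∀ t, 0 ≤ r t := by
    intro t
    rw [hr]
    simp only
    rcases lt_trichotomy t 0 with h | h | h
    · have h1 : Real.sinh t < 0 := Real.sinh_neg_iff.2 h
      have h2 := Real.cosh_pos t
      exact div_nonneg_of_nonpos (by nlinarith) h1.le
    · rw [h]; simp
    · have h1 : 0 < Real.sinh t := Real.sinh_pos_iff.2 h
      have h2 := Real.cosh_pos t
      positivity
  have hrt : ∀ t, Real.tanh t * r t = t := by
    intro t
    rw [hr]
    simp only
    rw [Real.tanh_eq_sinh_div_cosh]
    rcases eq_or_ne t 0 with h | h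
    · rw [h]; simp
    · have h1 : Real.sinh t ≠ 0 := fun h' => h (Real.sinh_eq_zero.1 h')
      have h2 := (Real.cosh_pos t).ne'
      field_simp
  have hrle : ∀ t, r t ≤ 1 + |t| := rbound
  set ω : ℝ → ℝ := fun t => e t * G t with hω
  set ω' : ℝ → ℝ := fun t => e t * (-(2 * t / d) * G t - Real.tanh t * G0 t - S t) with hω'
  set p : ℝ → ℝ := fun t => e t * (G0 t + 2 / d * r t * G t) with hp
  have hωpos : ∀ t, 0 < ω t := fun t => mul_pos (hepos t) (hGpos t)
  have hωd : ∀ t, HasDerivAt ω (ω' t) t := by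
    intro t
    have h1 : HasDerivAt e (e t * (-(2 * t / d))) t := by
      rw [he]
      have h2 : HasDerivAt (fun t : ℝ => -(t ^ 2 / d)) (-(2 * t / d)) t := by
        have h3 := ((hasDerivAt_pow 2 t).div_const d).fun_neg
        simpa using h3
      exact h2.exp
    have h4 : HasDerivAt G (-(Real.tanh t * G0 t) - S t) t := by
      have h5 := (hGD D hD (gam C t)).comp_hasDerivAt t (hasDeriv_gam C k1 t)
      refine h5.congr_deriv ?_
      rw [_root_.neg_apply, _root_.sum_apply, Fin.sum_univ_succ]
      simp only [_root_.smul_apply, ContinuousLinearMap.proj_apply, smul_eq_mul,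
        Matrix.cons_val_zero, Matrix.cons_val_succ]
      rw [hS, hG0, hGj]
      simp only
      have : ∑ j : Fin n, Gk D (gam C t) j.succ * kap C j =
          ∑ j : Fin n, kap C j * Gk D (gam C t) j.succ :=
        Finset.sum_congr rfl fun j _ => mul_comm _ _
      rw [this]
      ring
    refine (h1.mul h4).congr_deriv ?_
    rw [hω']
    simp only
    ring
  have hpm : Measurable p := by
    rw [hp]
    have hrm : Measurable r := by
      rw [hr]
      exact (measurable_id.mul Real.measurable_cosh).div Real.measurable_sinh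
    exact hecont.measurable.mul (hG0cont.measurable.add
      ((measurable_const.mul hrm).mul hGcont.measurable))
  have hpnn : ∀ t, 0 ≤ p t := by
    intro t
    have h1 := hr0 t
    have h2 := hG0nn t
    have h3 := (hGpos t).le
    have h4 := (hepos t).le
    rw [hp]
    simp only
    positivity
  -- Gaussian bounds
  obtain ⟨K, hK0, hK⟩ : ∃ K : ℝ, 0 ≤ K ∧ ∀ t : ℝ, (1 + |t|) * e t ≤
      K * Real.exp (-(1 / (2 * d)) * t ^ 2) := by
    refine ⟨1 + 2 * d, by positivity, fun t => ?_⟩
    rw [he]
    simp only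
    have h1 : Real.exp (-(t ^ 2 / d)) = Real.exp (-(1 / (2 * d)) * t ^ 2) *
        Real.exp (-(1 / (2 * d)) * t ^ 2) := by
      rw [← Real.exp_add]; congr 1; field_simp; ring
    have h2 : (1 + |t|) * Real.exp (-(1 / (2 * d)) * t ^ 2) ≤ 1 + 2 * d := by
      have h3 : 1 + t ^ 2 / (2 * d) ≤ Real.exp (1 / (2 * d) * t ^ 2) := by
        have := Real.add_one_le_exp (1 / (2 * d) * t ^ 2)
        have h4 : 1 / (2 * d) * t ^ 2 = t ^ 2 / (2 * d) := by ring
        rw [h4] at this ⊢
        linarith
      have h5 : 1 + |t| ≤ (1 + 2 * d) * (1 + t ^ 2 / (2 * d)) := by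
        have h6 : |t| ≤ 2 * d + t ^ 2 / (2 * d) := by
          have h7 : 0 ≤ (2 * d - |t|) ^ 2 / (2 * d) := by positivity
          have h8 : (2 * d - |t|) ^ 2 / (2 * d) = 2 * d + t ^ 2 / (2 * d) - 2 * |t| := by
            have : |t| ^ 2 = t ^ 2 := sq_abs t
            field_simp
            rw [← this]
            ring
          have h9 := abs_nonneg t
          linarith
        have h10 : 0 ≤ t ^ 2 / (2 * d) := by positivity
        nlinarith
      have h11 : Real.exp (-(1 / (2 * d)) * t ^ 2) = (Real.exp (1 / (2 * d) * t ^ 2))⁻¹ := by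
        rw [← Real.exp_neg]; congr 1; ring
      rw [h11]
      rw [mul_inv_le_iff₀ (Real.exp_pos _)]
      exact h5.trans (mul_le_mul_of_nonneg_left h3 (by positivity))
    rw [h1, ← mul_assoc]
    exact mul_le_mul_of_nonneg_right h2 (Real.exp_pos _).le
  have hc' : 0 < 1 / (2 * d) := by positivity
  set L : ℝ := (M + 2 / d * M + Ks * M) * K with hL
  have hLb : ∀ t : ℝ, ∀ a : ℝ, a ≤ (M + 2 / d * M + Ks * M) * (1 + |t|) → e t * a ≤
      L * Real.exp (-(1 / (2 * d)) * t ^ 2) := by
    intro t a ha
    have h1 : 0 ≤ M + 2 / d * M + Ks * M := by positivity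
    calc e t * a ≤ e t * ((M + 2 / d * M + Ks * M) * (1 + |t|)) :=
          mul_le_mul_of_nonneg_left ha (hepos t).le
      _ = (M + 2 / d * M + Ks * M) * ((1 + |t|) * e t) := by ring
      _ ≤ (M + 2 / d * M + Ks * M) * (K * Real.exp (-(1 / (2 * d)) * t ^ 2)) :=
          mul_le_mul_of_nonneg_left (hK t) h1
      _ = _ := by rw [hL]; ring
  have hdM : 0 ≤ 2 / d * M := by positivity
  have hKM : 0 ≤ Ks * M := by positivity
  have hω1 : ∀ t, ω t ≤ L * Real.exp (-(1 / (2 * d)) * t ^ 2) := by
    intro t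
    refine hLb t _ ?_
    have h1 := hGle t
    have h2 := abs_nonneg t
    nlinarith [mul_nonneg hdM h2, mul_nonneg hKM h2, mul_nonneg hM0.le h2]
  have hω2 : ∀ t, |ω' t| ≤ L * Real.exp (-(1 / (2 * d)) * t ^ 2) := by
    intro t
    rw [hω']
    simp only
    rw [abs_mul, abs_of_pos (hepos t)]
    refine hLb t _ ?_
    have h1 : |-(2 * t / d) * G t| ≤ 2 / d * M * |t| := by
      rw [abs_mul, abs_neg, abs_div, abs_mul, abs_of_pos (hGpos t), abs_of_pos hd, abs_two]
      have : 2 * |t| / d * G t ≤ 2 * |t| / d * M :=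
        mul_le_mul_of_nonneg_left (hGle t) (by positivity)
      calc 2 * |t| / d * G t ≤ 2 * |t| / d * M := this
        _ = 2 / d * M * |t| := by ring
    have h2 : |Real.tanh t * G0 t| ≤ M := by
      rw [abs_mul, abs_of_nonneg (hG0nn t)]
      have h3 : |Real.tanh t| ≤ 1 := by
        rw [abs_le]
        exact ⟨(Real.neg_one_lt_tanh t).le, (Real.tanh_lt_one t).le⟩
      calc |Real.tanh t| * G0 t ≤ 1 * M :=
            mul_le_mul h3 (hG0le t) (hG0nn t) zero_le_one
        _ = M := one_mul M
    have h4 := hSle t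
    have h5 : |-(2 * t / d) * G t - Real.tanh t * G0 t - S t| ≤
        |-(2 * t / d) * G t| + |Real.tanh t * G0 t| + |S t| := by
      refine (abs_sub _ _).trans ?_
      gcongr
      exact abs_sub _ _
    have h6 := abs_nonneg t
    nlinarith [mul_nonneg hdM h6, mul_nonneg hKM h6, mul_nonneg hM0.le h6]
  have hω3 : ∀ t, p t ≤ L * Real.exp (-(1 / (2 * d)) * t ^ 2) := by
    intro t
    refine hLb t _ ?_
    have h1 := hG0le t
    have h2 : 2 / d * r t * G t ≤ 2 / d * (1 + |t|) * M := by
      have h3 := hrle t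
      have h4 := hr0 t
      have h5 : 0 < 2 / d := by positivity
      exact mul_le_mul (mul_le_mul_of_nonneg_left h3 h5.le) (hGle t) (hGpos t).le (by positivity)
    have h6 := abs_nonneg t
    nlinarith [mul_nonneg hKM h6, mul_nonneg hM0.le h6]
  -- the tangent inequality
  have htan : ∀ t u, p t * Kp t u ≤ (u - t) * ω' t + ω t * Real.log (ω t / ω u) := by
    intro t u
    have h1 := hGT D hD (gam C t) (gam C u)
    have h2 : ∑ k, (gam C u k - gam C t k) * Gk D (gam C t) k =
        (lc u - lc t) * G0 t + (u - t) * S t := by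
      rw [Fin.sum_univ_succ, hS, Finset.mul_sum]
      congr 1
      refine Finset.sum_congr rfl fun j _ => ?_
      rw [gam_succ, gam_succ, hGj]
      simp only
      ring
    rw [h2] at h1
    have h3 : Real.log (ω t / ω u) = (u ^ 2 - t ^ 2) / d - Real.log (G u / G t) := by
      rw [hω]
      simp only
      rw [Real.log_div (mul_pos (hepos t) (hGpos t)).ne' (mul_pos (hepos u) (hGpos u)).ne',
        Real.log_mul (hepos t).ne' (hGpos t).ne', Real.log_mul (hepos u).ne' (hGpos u).ne',
        Real.log_div (hGpos u).ne' (hGpos t).ne', he]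
      simp only [Real.log_exp]
      ring
    have h4 : -(G t * Real.log (G u / G t)) ≥ (lc u - lc t) * G0 t + (u - t) * S t := by
      have : G t * Real.log (G u / G t) ≤ -((lc u - lc t) * G0 t + (u - t) * S t) := h1
      linarith
    have h5 := k4 t u
    have h6 : p t * Kp t u ≤ e t * (G0 t * Kp t u + G t / d * (u - t) ^ 2) := by
      rw [hp]
      simp only
      rw [mul_assoc]
      refine mul_le_mul_of_nonneg_left ?_ (hepos t).le
      have h7 : G t / d * (2 * r t * Kp t u) ≤ G t / d * (u - t) ^ 2 :=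
        mul_le_mul_of_nonneg_left h5 (div_nonneg (hGpos t).le hd.le)
      have h8 : (G0 t + 2 / d * r t * G t) * Kp t u =
          G0 t * Kp t u + G t / d * (2 * r t * Kp t u) := by ring
      rw [h8]
      linarith
    refine h6.trans ?_
    have h9 : (u - t) * ω' t + ω t * Real.log (ω t / ω u) =
        e t * ((u - t) * (-(2 * t / d) * G t - Real.tanh t * G0 t - S t) +
          (G t * ((u ^ 2 - t ^ 2) / d) + -(G t * Real.log (G u / G t)))) := by
      rw [h3, hω', hω]
      simp only
      ring
    rw [h9]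
    refine mul_le_mul_of_nonneg_left ?_ (hepos t).le
    have h10 : G0 t * Kp t u + G t / d * (u - t) ^ 2 =
        (u - t) * (-(2 * t / d) * G t - Real.tanh t * G0 t - S t) +
          (G t * ((u ^ 2 - t ^ 2) / d) + ((lc u - lc t) * G0 t + (u - t) * S t)) := by
      unfold Kp
      field_simp
      ring
    rw [h10]
    linarith
  -- the centre `f`
  set q0 : ℝ := ∫ t, e t * (Real.exp t * G t) with hq0
  set q1 : ℝ := ∫ t, e t * (Real.exp (-t) * G t) with hq1
  have hposint : ∀ g : ℝ → ℝ, Continuous g → Integrable g → (∀ t, 0 < g t) → 0 < ∫ t, g t := by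
    intro g _ hi hpos
    rw [integral_pos_iff_support_of_nonneg (fun t => (hpos t).le) hi]
    have : Function.support g = Set.univ := by
      ext t; simp [(hpos t).ne']
    rw [this]
    simp
  have hq0p : 0 < q0 := hposint _ (hecont.mul (Real.continuous_exp.mul hGcont)) hiG0
    fun t => mul_pos (hepos t) (mul_pos (Real.exp_pos _) (hGpos t))
  have hq1p : 0 < q1 := hposint _ (hecont.mul ((by fun_prop : Continuous fun t : ℝ =>
      Real.exp (-t)).mul hGcont)) hiG1
    fun t => mul_pos (hepos t) (mul_pos (Real.exp_pos _) (hGpos t))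
  set f : ℝ := 1 / 2 * Real.log (q0 / q1) with hf'
  have he2f : Real.exp (2 * f) = q0 / q1 := by
    rw [hf', ← mul_assoc]
    norm_num
    exact Real.exp_log (div_pos hq0p hq1p)
  have hbal : ∫ t, ω t * Real.sinh (t - f) = 0 := by
    have h1 : ∀ t, ω t * Real.sinh (t - f) = Real.exp (-f) / 2 * (e t * (Real.exp t * G t)) -
        Real.exp f / 2 * (e t * (Real.exp (-t) * G t)) := by
      intro t
      rw [hω, Real.sinh_eq]
      simp only
      have e1 : Real.exp (t - f) = Real.exp t * Real.exp (-f) := by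
        rw [← Real.exp_add]; congr 1
      have e2 : Real.exp (-(t - f)) = Real.exp (-t) * Real.exp f := by
        rw [← Real.exp_add]; congr 1; ring
      rw [e1, e2]
      ring
    simp only [h1]
    rw [integral_sub (hiG0.const_mul _) (hiG1.const_mul _), integral_const_mul,
      integral_const_mul, ← hq0, ← hq1]
    have h2 : Real.exp f * q1 = Real.exp (-f) * q0 := by
      have h3 : Real.exp (2 * f) = Real.exp f * Real.exp f := by
        rw [← Real.exp_add]; congr 1; ring
      rw [h3] at he2f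
      have h4 : Real.exp f * Real.exp f * q1 = q0 := by
        rw [he2f]; field_simp
      have h5 : Real.exp (-f) * Real.exp f = 1 := by
        rw [← Real.exp_add]; simp
      calc Real.exp f * q1 = (Real.exp (-f) * Real.exp f) * (Real.exp f * q1) := by
            rw [h5, one_mul]
        _ = Real.exp (-f) * (Real.exp f * Real.exp f * q1) := by ring
        _ = Real.exp (-f) * q0 := by rw [h4]
    linarith
  have hone := hONE ω ω' p L (1 / (2 * d)) f hc' hωpos hωd hpm hpnn hω1 hω2 hω3 htan hbal
  -- lower bound for the integrand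
  have hlow : ∀ t, -(Real.exp (-(2 * f)) / 2) * (e t * (Real.exp t * S t)) +
      Real.exp (2 * f) / 2 * (e t * (Real.exp (-t) * S t)) +
      2 * Real.sinh f ^ 2 * (e t * (G0 t / (2 * Real.cosh t))) ≤
      Real.sinh (t - 2 * f) * ω' t + Real.sinh (t - f) ^ 2 / Real.cosh t * p t := by
    intro t
    have hch := Real.cosh_pos t
    have h1 : ω' t = -(Real.tanh t * p t) - e t * S t := by
      rw [hω', hp]
      simp only
      have h2 : Real.tanh t * (2 / d * r t * G t) = 2 * t / d * G t := by
        have := hrt t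
        calc Real.tanh t * (2 / d * r t * G t) = (Real.tanh t * r t) * (2 / d * G t) := by ring
          _ = 2 * t / d * G t := by rw [this]; ring
      calc e t * (-(2 * t / d) * G t - Real.tanh t * G0 t - S t)
          = -(e t * (Real.tanh t * G0 t + 2 * t / d * G t)) - e t * S t := by ring
        _ = -(e t * (Real.tanh t * G0 t + Real.tanh t * (2 / d * r t * G t))) - e t * S t := by
            rw [h2]
        _ = _ := by ring
    have h3 : Real.sinh (t - 2 * f) * ω' t + Real.sinh (t - f) ^ 2 / Real.cosh t * p t =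
        -(Real.sinh (t - 2 * f) * (e t * S t)) + Real.sinh f ^ 2 / Real.cosh t * p t := by
      rw [h1, Real.tanh_eq_sinh_div_cosh]
      have h4 := sinh_id t f
      have h5 : Real.sinh f ^ 2 / Real.cosh t * p t =
          (Real.sinh (t - f) ^ 2 - Real.sinh (t - 2 * f) * Real.sinh t) / Real.cosh t * p t := by
        rw [h4]
      rw [h5]
      field_simp
      ring
    rw [h3]
    have h6 : e t * G0 t ≤ p t := by
      rw [hp]
      simp only
      refine mul_le_mul_of_nonneg_left ?_ (hepos t).le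
      have := mul_nonneg (mul_nonneg (by positivity : 0 ≤ 2 / d) (hr0 t)) (hGpos t).le
      linarith
    have h7 : 2 * Real.sinh f ^ 2 * (e t * (G0 t / (2 * Real.cosh t))) ≤
        Real.sinh f ^ 2 / Real.cosh t * p t := by
      calc 2 * Real.sinh f ^ 2 * (e t * (G0 t / (2 * Real.cosh t)))
          = Real.sinh f ^ 2 / Real.cosh t * (e t * G0 t) := by field_simp
        _ ≤ _ := mul_le_mul_of_nonneg_left h6 (by positivity)
    have h8 : Real.sinh (t - 2 * f) = Real.exp (-(2 * f)) / 2 * Real.exp t -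
        Real.exp (2 * f) / 2 * Real.exp (-t) := by
      rw [Real.sinh_eq]
      have e1 : Real.exp (t - 2 * f) = Real.exp t * Real.exp (-(2 * f)) := by
        rw [← Real.exp_add]; congr 1
      have e2 : Real.exp (-(t - 2 * f)) = Real.exp (-t) * Real.exp (2 * f) := by
        rw [← Real.exp_add]; congr 1; ring
      rw [e1, e2]
      ring
    rw [h8]
    nlinarith [h7]
  have hiR : Integrable (fun t => Real.sinh (t - 2 * f) * ω' t +
      Real.sinh (t - f) ^ 2 / Real.cosh t * p t) := by
    have hω'c : Continuous ω' := by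
      rw [hω']
      have ht : Continuous Real.tanh := by
        have : Real.tanh = fun t => Real.sinh t / Real.cosh t := by
          funext t; exact Real.tanh_eq_sinh_div_cosh t
        rw [this]
        exact Real.continuous_sinh.div Real.continuous_cosh fun t => (Real.cosh_pos t).ne'
      exact hecont.mul (((((continuous_const.mul continuous_id).div_const d).neg.mul
        hGcont).sub (ht.mul hG0cont)).sub hScont)
    have hd2 : 0 < 2 * d := by positivity
    have hexp2 : ∀ t : ℝ, Real.exp (-(1 / (2 * d)) * t ^ 2) = Real.exp (-(t ^ 2 / (2 * d))) := by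
      intro t; congr 1; ring
    have hsb : ∀ x : ℝ, |Real.sinh x| ≤ Real.exp |x| := by
      intro x
      rw [Real.sinh_eq, abs_div, abs_two, div_le_iff₀ (by norm_num)]
      have h1 : |Real.exp x - Real.exp (-x)| ≤ |Real.exp x| + |Real.exp (-x)| := abs_sub _ _
      rw [abs_of_pos (Real.exp_pos _), abs_of_pos (Real.exp_pos _)] at h1
      have h2 : Real.exp x ≤ Real.exp |x| := Real.exp_le_exp.2 (le_abs_self x)
      have h3 : Real.exp (-x) ≤ Real.exp |x| := Real.exp_le_exp.2 (neg_le_abs x)
      linarith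
    have hL0 : 0 ≤ L := by rw [hL]; positivity
    refine Integrable.add ?_ ?_
    · refine gint hd2 1 _ ((Real.continuous_sinh.comp (by fun_prop)).mul hω'c).aestronglyMeasurable
        (Real.exp (2 * |f|) * L) fun t => ?_
      rw [abs_mul]
      have h1 : |Real.sinh (t - 2 * f)| ≤ Real.exp (2 * |f|) * Real.exp (1 * |t|) := by
        refine (hsb _).trans ?_
        rw [← Real.exp_add]
        refine Real.exp_le_exp.2 ?_
        have := abs_sub t (2 * f)
        rw [abs_mul, abs_two] at this
        linarith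
      have h2 := hω2 t
      rw [hexp2] at h2
      calc |Real.sinh (t - 2 * f)| * |ω' t| ≤ (Real.exp (2 * |f|) * Real.exp (1 * |t|)) *
            (L * Real.exp (-(t ^ 2 / (2 * d)))) := mul_le_mul h1 h2 (abs_nonneg _) (by positivity)
        _ = _ := by ring
    · refine gint hd2 2 _ (((((Real.continuous_sinh.comp (by fun_prop : Continuous fun t : ℝ =>
        t - f)).pow 2).div Real.continuous_cosh fun t => (Real.cosh_pos t).ne').measurable.mul
        hpm).aestronglyMeasurable) (Real.exp (2 * |f|) * L) fun t => ?_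
      have hch := Real.one_le_cosh t
      have h0 : 0 ≤ Real.sinh (t - f) ^ 2 / Real.cosh t := by positivity
      rw [abs_mul, abs_of_nonneg h0, abs_of_nonneg (hpnn t)]
      have h1 : Real.sinh (t - f) ^ 2 / Real.cosh t ≤ Real.exp (2 * |f|) * Real.exp (2 * |t|) := by
        have h3 : Real.sinh (t - f) ^ 2 / Real.cosh t ≤ Real.sinh (t - f) ^ 2 :=
          div_le_self (sq_nonneg _) hch
        refine h3.trans ?_
        rw [← sq_abs]
        have h4 := hsb (t - f)
        have h5 : Real.exp |t - f| ≤ Real.exp |f| * Real.exp |t| := by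
          rw [← Real.exp_add]
          refine Real.exp_le_exp.2 ?_
          have := abs_sub t f
          linarith
        have h6 := h4.trans h5
        calc |Real.sinh (t - f)| ^ 2 ≤ (Real.exp |f| * Real.exp |t|) ^ 2 :=
              pow_le_pow_left₀ (abs_nonneg _) h6 2
          _ = _ := by
              rw [mul_pow, ← Real.exp_nat_mul, ← Real.exp_nat_mul]
              norm_num
      have h2 := hω3 t
      rw [hexp2] at h2
      calc Real.sinh (t - f) ^ 2 / Real.cosh t * p t ≤ (Real.exp (2 * |f|) * Real.exp (2 * |t|)) *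
            (L * Real.exp (-(t ^ 2 / (2 * d)))) := mul_le_mul h1 h2 (hpnn t) (by positivity)
        _ = _ := by ring
  have hfin : -(Real.exp (-(2 * f)) / 2) * Sp + Real.exp (2 * f) / 2 * Sm +
      2 * Real.sinh f ^ 2 * Tt ≤ 0 := by
    refine le_trans ?_ hone
    have i1 : Integrable (fun t => -(Real.exp (-(2 * f)) / 2) * (e t * (Real.exp t * S t))) :=
      hiS0.const_mul _
    have i2 : Integrable (fun t => Real.exp (2 * f) / 2 * (e t * (Real.exp (-t) * S t))) :=
      hiS1.const_mul _
    have i3 : Integrable (fun t => 2 * Real.sinh f ^ 2 * (e t * (G0 t / (2 * Real.cosh t)))) :=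
      hiτ.const_mul _
    have i12 : Integrable (fun t => -(Real.exp (-(2 * f)) / 2) * (e t * (Real.exp t * S t)) +
      Real.exp (2 * f) / 2 * (e t * (Real.exp (-t) * S t))) := i1.add i2
    rw [hSp, hSm, hTt, ← integral_const_mul, ← integral_const_mul, ← integral_const_mul,
      ← integral_add i1 i2, ← integral_add i12 i3]
    exact integral_mono (i12.add i3) hiR hlow
  -- conclusion
  have hdc : 0 < d * c := mul_pos hd hc
  have ha : 0 ≤ Tt - Sp := by
    rw [hAA01] at hA0
    exact nonneg_of_mul_nonneg_right hA0 hdc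
  have hb : 0 ≤ Tt + Sm := by
    rw [hAA10] at hA1
    exact nonneg_of_mul_nonneg_right hA1 hdc
  have hexpinv : (Real.exp (2 * f))⁻¹ = Real.exp (-(2 * f)) := (Real.exp_neg _).symm
  have hmain : (Real.exp (2 * f))⁻¹ * (Tt - Sp) + Real.exp (2 * f) * (Tt + Sm) ≤ 2 * Tt := by
    have h1 : 4 * Real.sinh f ^ 2 = Real.exp (2 * f) + Real.exp (-(2 * f)) - 2 := by
      rw [Real.sinh_eq]
      have e1 : Real.exp (2 * f) = Real.exp f * Real.exp f := by
        rw [← Real.exp_add]; congr 1; ring
      have e2 : Real.exp (-(2 * f)) = Real.exp (-f) * Real.exp (-f) := by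
        rw [← Real.exp_add]; congr 1; ring
      have e3 : Real.exp f * Real.exp (-f) = 1 := by rw [← Real.exp_add]; simp
      rw [e1, e2]
      linear_combination (-2) * e3
    rw [hexpinv]
    have h2 : 4 * Real.sinh f ^ 2 * Tt = (Real.exp (2 * f) + Real.exp (-(2 * f)) - 2) * Tt := by
      rw [h1]
    nlinarith [h2, hfin]
  have hprod := key_alg (Tt - Sp) (Tt + Sm) Tt (Real.exp (2 * f)) (Real.exp_pos _) ha hb hmain
  rw [hAA01, hAA10, hT01]
  have e1 : d * c * (Tt - Sp) * (d * c * (Tt + Sm)) = (d * c) ^ 2 * ((Tt - Sp) * (Tt + Sm)) := by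
    ring
  have e2 : (d * (c * Tt)) ^ 2 = (d * c) ^ 2 * Tt ^ 2 := by ring
  rw [e1, e2]
  exact mul_le_mul_of_nonneg_left hprod (sq_nonneg _)

end Pool.Agent.H92.SM
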