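import Pool.Agent.H92.SM.Props2

/-!
# MP_72ffec_pr, [PROJ]: orthogonal projection in `L²(P)` (proof: helper671)
-/

set_option autoImplicit false

namespace Pool.Agent.H92.SM

open MeasureTheory Matrix Finset Filter Topology Set ProbabilityTheory
open scoped BigOperators ENNReal

namespace PROJaux

variable {Ω : Type*} [MeasurableSpace Ω] {P : Measure Ω}

lemma norm_toLp {F : Ω → ℝ} (hF : MemLp F 2 P) : ∫ ω, F ω ^ 2 ∂P = ‖hF.toLp F‖ ^ 2 := by
  rw [← real_inner_self_eq_norm_sq, L2.inner_def]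
  apply integral_congr_ae
  filter_upwards [hF.coeFn_toLp] with ω hω
  rw [hω]
  simp [pow_two]

lemma inner_toLp {F G : Ω → ℝ} (hF : MemLp F 2 P) (hG : MemLp G 2 P) :
    inner ℝ (hF.toLp F) (hG.toLp G) = ∫ ω, G ω * F ω ∂P := by
  rw [L2.inner_def]
  apply integral_congr_ae
  filter_upwards [hF.coeFn_toLp, hG.coeFn_toLp] with ω hω hω'
  rw [hω, hω']
  simp [mul_comm]

/-- the constant function `1` -/
noncomputable def one (P : Measure Ω) [IsProbabilityMeasure P] : Lp ℝ 2 P :=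
  (memLp_const (1 : ℝ)).toLp (fun _ => (1 : ℝ))

lemma one_norm [IsProbabilityMeasure P] : ‖one P‖ = 1 := by
  have h := norm_toLp (P := P) (memLp_const (1 : ℝ) (p := 2))
  have h2 : ∫ _ : Ω, (1 : ℝ) ^ 2 ∂P = 1 := by simp
  have h3 : ‖one P‖ ^ 2 = 1 := by
    rw [← h2, h]
    rfl
  have h4 := norm_nonneg (one P)
  nlinarith

lemma add_const_sq [IsProbabilityMeasure P] (G : Lp ℝ 2 P) (c : ℝ) :
    ∫ ω, (G ω + c) ^ 2 ∂P = ‖G + c • one P‖ ^ 2 := by
  rw [← real_inner_self_eq_norm_sq, L2.inner_def]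
  apply integral_congr_ae
  filter_upwards [Lp.coeFn_add G (c • one P), Lp.coeFn_smul c (one P),
    (memLp_const (1 : ℝ) : MemLp (fun _ : Ω => (1 : ℝ)) 2 P).coeFn_toLp] with ω h1 h2 h3
  have h4 : (one P : Ω → ℝ) ω = 1 := h3
  rw [h1, Pi.add_apply, h2, Pi.smul_apply, h4]
  simp [pow_two]

lemma HX_le {N : ℕ} {X : Fin N → Ω → ℝ} {Q : Submodule ℝ (Lp ℝ 2 P)}
    (hX : ∀ i, MemLp (X i) 2 P) (h : ∀ i, (hX i).toLp (X i) ∈ Q) : HX P X ≤ Q := by
  refine Submodule.span_le.2 ?_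
  rintro g ⟨i, hg⟩
  have : g = (hX i).toLp (X i) := Lp.ext (hg.trans (hX i).coeFn_toLp.symm)
  rw [this]
  exact h i

lemma mem_HX {N : ℕ} {X : Fin N → Ω → ℝ} (hX : ∀ i, MemLp (X i) 2 P) (i : Fin N) :
    (hX i).toLp (X i) ∈ HX P X :=
  Submodule.subset_span ⟨i, (hX i).coeFn_toLp⟩

lemma mem_orth {N : ℕ} {X : Fin N → Ω → ℝ} (hX : ∀ i, MemLp (X i) 2 P) {G : Ω → ℝ}
    (hG : MemLp G 2 P) (h : ∀ i, ∫ ω, G ω * X i ω ∂P = 0) : hG.toLp G ∈ (HX P X)ᗮ := by
  rw [Submodule.mem_orthogonal]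
  intro u hu
  have hle : HX P X ≤ (ℝ ∙ (hG.toLp G))ᗮ := by
    refine HX_le hX fun i => ?_
    rw [Submodule.mem_orthogonal_singleton_iff_inner_left, inner_toLp]
    exact h i
  have := hle hu
  rw [Submodule.mem_orthogonal_singleton_iff_inner_left] at this
  exact this

lemma Psi_eq [IsProbabilityMeasure P] {N : ℕ} (X : Fin N → Ω → ℝ) (f : Ω → ℝ) (c : ℝ) :
    Psi P X f c = ‖(HX P X)ᗮ.starProjection (toL2 P f) + c • one P‖ ^ 2 := by
  unfold Psi
  rw [add_const_sq]

end PROJaux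

open PROJaux in
theorem PROJ.{u} : St_PROJ.{u} := by
  intro N Ω _ P _ X hX hm f hf c
  have hg : toL2 P f = hf.toLp f := by
    unfold toL2
    rw [dif_pos hf]
  have h1mem : one P ∈ (HX P X)ᗮ := by
    refine mem_orth hX (memLp_const (1 : ℝ)) fun i => ?_
    simp only [one_mul]
    exact hm i
  refine ⟨fun q => ?_, fun h => ?_, fun f' hf' c' => ?_⟩
  · rw [Psi_eq, hg]
    obtain ⟨u, hu⟩ : ∃ u, u = (HX P X)ᗮ.starProjection (hf.toLp f) := ⟨_, rfl⟩
    rw [← hu]
    obtain ⟨k, hk⟩ : ∃ k : Lp ℝ 2 P, k = ∑ i, q i • (hX i).toLp (X i) := ⟨_, rfl⟩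
    have hkK : k ∈ HX P X := by
      rw [hk]
      exact Submodule.sum_mem _ fun i _ => Submodule.smul_mem _ _ (mem_HX hX i)
    have hum : u + c • one P ∈ (HX P X)ᗮ := by
      refine Submodule.add_mem _ ?_ (Submodule.smul_mem _ _ h1mem)
      rw [hu]
      exact Submodule.starProjection_apply_mem _ _
    have hd : (hf.toLp f - u) - k ∈ (HX P X)ᗮᗮ := by
      refine Submodule.sub_mem _ ?_ (Submodule.le_orthogonal_orthogonal _ hkK)
      rw [hu]
      exact Submodule.sub_starProjection_mem_orthogonal _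
    have hpy := norm_add_sq_eq_norm_sq_add_norm_sq_of_inner_eq_zero (𝕜 := ℝ)
      (u + c • one P) ((hf.toLp f - u) - k) (by
        exact Submodule.inner_right_of_mem_orthogonal hum hd)
    have e : u + c • one P + ((hf.toLp f - u) - k) = (hf.toLp f - k) + c • one P := by abel
    have hi : ∫ ω, (f ω - ∑ i, q i * X i ω + c) ^ 2 ∂P = ‖(hf.toLp f - k) + c • one P‖ ^ 2 := by
      rw [← add_const_sq]
      apply integral_congr_ae
      have hsum : (k : Ω → ℝ) =ᵐ[P] fun ω => ∑ i, q i * X i ω := by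
        have h2 : MemLp (fun ω => ∑ i, q i * X i ω) 2 P :=
          memLp_finsetSum _ fun i _ => (hX i).const_mul (q i)
        have h3 : k = h2.toLp _ := by
          rw [hk]
          apply Lp.ext
          refine EventuallyEq.trans ?_ h2.coeFn_toLp.symm
          have h4 : ∀ i, ((q i • (hX i).toLp (X i) : Lp ℝ 2 P) : Ω → ℝ) =ᵐ[P]
              fun ω => q i * X i ω := by
            intro i
            filter_upwards [Lp.coeFn_smul (q i) ((hX i).toLp (X i)), (hX i).coeFn_toLp]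
              with ω h5 h6
            rw [h5, Pi.smul_apply, h6, smul_eq_mul]
          refine (Lp.coeFn_finsetSum _ _).trans ?_
          have h7 : ∀ᵐ ω ∂P, ∀ i : Fin N, ((q i • (hX i).toLp (X i) : Lp ℝ 2 P) : Ω → ℝ) ω =
              q i * X i ω := ae_all_iff.2 h4
          filter_upwards [h7] with ω h8
          rw [Finset.sum_apply]
          exact Finset.sum_congr rfl fun i _ => h8 i
        rw [h3]
        exact h2.coeFn_toLp
      filter_upwards [Lp.coeFn_sub (hf.toLp f) k, hf.coeFn_toLp, hsum] with ω h2 h3 h4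
      rw [h2, Pi.sub_apply, h3, h4]
    rw [hi, ← e, pow_two, pow_two, hpy]
    have := mul_self_nonneg ‖(hf.toLp f - u) - k‖
    linarith
  · have hgm : hf.toLp f ∈ (HX P X)ᗮ := mem_orth hX hf h
    rw [Psi_eq, hg, Submodule.starProjection_eq_self_iff.2 hgm, ← add_const_sq]
    apply integral_congr_ae
    filter_upwards [hf.coeFn_toLp] with ω h2
    rw [h2]
  · have hg' : toL2 P f' = hf'.toLp f' := by
      unfold toL2
      rw [dif_pos hf']
    rw [Psi_eq, Psi_eq, hg, hg', Real.sqrt_sq (norm_nonneg _), Real.sqrt_sq (norm_nonneg _)]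
    refine (abs_norm_sub_norm_le _ _).trans ?_
    have e : (HX P X)ᗮ.starProjection (hf.toLp f) + c • one P -
        ((HX P X)ᗮ.starProjection (hf'.toLp f') + c' • one P) =
        (HX P X)ᗮ.starProjection (hf.toLp f - hf'.toLp f') + (c - c') • one P := by
      rw [map_sub, sub_smul]
      abel
    rw [e]
    refine (norm_add_le _ _).trans (add_le_add ?_ ?_)
    · have h2 : ∫ ω, (f ω - f' ω) ^ 2 ∂P = ‖hf.toLp f - hf'.toLp f'‖ ^ 2 := by
        rw [← MemLp.toLp_sub, ← norm_toLp]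
        rfl
      rw [h2, Real.sqrt_sq (norm_nonneg _)]
      exact Submodule.norm_starProjection_apply_le _ _
    · rw [norm_smul, one_norm, mul_one, Real.norm_eq_abs]

end Pool.Agent.H92.SM
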