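import Pool.Agent.H92.SM.Props2

/-!
# MP_72ffec_pr, step REFL (helper282 for helper92)
-/

set_option autoImplicit false

namespace Pool.Agent.H92.SM

open MeasureTheory Matrix Finset Filter Topology Set ProbabilityTheory
open scoped BigOperators ENNReal

namespace REFLaux

theorem growth {N : ℕ} (F : (Fin N → ℝ) → ℝ)
    (hFm : ∀ y y' : Fin N → ℝ, (∀ i, y i ≤ y' i) → F y ≤ F y')
    (hFt : ∀ (y : Fin N → ℝ) (a : ℝ), F (fun i => y i + a) = F y + a) (y : Fin N → ℝ) :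
    |F y| ≤ |F 0| + ∑ i, |y i| := by
  have h1 : ∀ i, |y i| ≤ ∑ j, |y j| := fun i =>
    Finset.single_le_sum (f := fun j => |y j|) (fun _ _ => abs_nonneg _) (Finset.mem_univ i)
  have h2 : F y ≤ F 0 + ∑ j, |y j| := by
    rw [← hFt]
    refine hFm _ _ fun i => ?_
    have := (abs_le.1 (h1 i)).2
    simpa using this
  have h3 : F 0 + -∑ j, |y j| ≤ F y := by
    rw [← hFt]
    refine hFm _ _ fun i => ?_
    have := (abs_le.1 (h1 i)).1
    simpa using this
  rw [abs_le]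
  have h4 := neg_abs_le (F 0)
  have h5 := le_abs_self (F 0)
  constructor <;> linarith

theorem min_norm {E : Type} [NormedAddCommGroup E] [InnerProductSpace ℝ E] {N : ℕ}
    (x : Fin N → E) (hN : 0 < N) : ∃ q : Fin N → ℝ, (∀ i, 0 ≤ q i) ∧ ∑ i, q i = 1 ∧
      ∀ i, ‖∑ j, q j • x j‖ ^ 2 ≤ (inner ℝ (x i) (∑ j, q j • x j) : ℝ) := by
  have hc : IsCompact (stdSimplex ℝ (Fin N)) := isCompact_stdSimplex ℝ (Fin N)
  have hne : (stdSimplex ℝ (Fin N)).Nonempty :=
    ⟨Pi.single ⟨0, hN⟩ 1, single_mem_stdSimplex ℝ _⟩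
  obtain ⟨q, hq, hmin⟩ := hc.exists_isMinOn hne
    (f := fun q : Fin N → ℝ => ‖∑ j, q j • x j‖) (by fun_prop)
  refine ⟨q, hq.1, hq.2, fun i => ?_⟩
  set v := ∑ j, q j • x j with hv
  by_contra hcon
  push Not at hcon
  -- `⟪x i - v, v⟫ < 0`
  set a : ℝ := ‖v‖ ^ 2 - (inner ℝ (x i) v : ℝ) with ha
  have ha0 : 0 < a := by rw [ha]; linarith
  set b : ℝ := ‖x i - v‖ ^ 2 with hb
  have hb0 : 0 ≤ b := by positivity
  set ε : ℝ := min 1 (a / (b + 1)) with hε
  have hε0 : 0 < ε := lt_min one_pos (by positivity)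
  have hε1 : ε ≤ 1 := min_le_left _ _
  have hε2 : ε * (b + 1) ≤ a := by
    have : ε ≤ a / (b + 1) := min_le_right _ _
    rwa [le_div_iff₀ (by positivity)] at this
  have hmem : ((1 - ε) • q + ε • (Pi.single i 1 : Fin N → ℝ)) ∈ stdSimplex ℝ (Fin N) :=
    convex_stdSimplex ℝ (Fin N) hq (single_mem_stdSimplex ℝ i) (by linarith) hε0.le (by ring)
  have h1 : ‖v‖ ≤ ‖∑ j, ((1 - ε) • q + ε • (Pi.single i 1 : Fin N → ℝ)) j • x j‖ := hmin hmem
  have h2 : ∑ j, ((1 - ε) • q + ε • (Pi.single i 1 : Fin N → ℝ)) j • x j = v + ε • (x i - v) := by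
    have : ∀ j, ((1 - ε) • q + ε • (Pi.single i 1 : Fin N → ℝ)) j • x j =
        (1 - ε) • (q j • x j) + ε • ((Pi.single i 1 : Fin N → ℝ) j • x j) := by
      intro j
      simp only [Pi.add_apply, Pi.smul_apply, smul_eq_mul, add_smul, mul_smul]
    simp_rw [this]
    rw [Finset.sum_add_distrib, ← Finset.smul_sum, ← Finset.smul_sum, ← hv]
    have h3 : ∑ j, (Pi.single i 1 : Fin N → ℝ) j • x j = x i := by
      rw [Finset.sum_eq_single i]
      · simp
      · intro j _ hj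
        simp [hj]
      · simp
    rw [h3]
    module
  rw [h2] at h1
  have h3 : ‖v‖ ^ 2 ≤ ‖v + ε • (x i - v)‖ ^ 2 := by
    have := norm_nonneg v
    gcongr
  rw [@norm_add_sq_real, norm_smul, real_inner_smul_right, inner_sub_right,
    real_inner_self_eq_norm_sq, real_inner_comm, mul_pow, Real.norm_of_nonneg hε0.le, ← hb] at h3
  have h4 : 0 ≤ ε * (-2 * a + ε * b) := by
    have e : ε * (-2 * a + ε * b) = 2 * (ε * ((inner ℝ (x i) v : ℝ) - ‖v‖ ^ 2)) + ε ^ 2 * b := by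
      rw [ha]; ring
    rw [e]
    linarith
  have h5 : -2 * a + ε * b < 0 := by nlinarith
  nlinarith

section
variable {N : ℕ} {E : Type} [NormedAddCommGroup E]
  [InnerProductSpace ℝ E] [FiniteDimensional ℝ E] [MeasurableSpace E] [BorelSpace E]

theorem memLp_inner (a : E) : MemLp (fun z => (inner ℝ a z : ℝ)) 2 (stdGaussian E) :=
  IsGaussian.memLp_dual (stdGaussian E) (innerSL ℝ a) 2 (by simp)

theorem memLp_F (x : Fin N → E) (F : (Fin N → ℝ) → ℝ) (hFc : Continuous F)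
    (hFm : ∀ y y' : Fin N → ℝ, (∀ i, y i ≤ y' i) → F y ≤ F y')
    (hFt : ∀ (y : Fin N → ℝ) (a : ℝ), F (fun i => y i + a) = F y + a) :
    MemLp (fun z => F (fun i => (inner ℝ (x i) z : ℝ))) 2 (stdGaussian E) := by
  have h0 : MemLp (fun _ : E => |F 0|) 2 (stdGaussian E) := memLp_const _
  have h2 : ∀ i ∈ (Finset.univ : Finset (Fin N)),
      MemLp (fun z : E => |(inner ℝ (x i) z : ℝ)|) 2 (stdGaussian E) := fun i _ =>
    (memLp_inner (x i)).abs
  have h3 : MemLp (fun z : E => ∑ i, |(inner ℝ (x i) z : ℝ)|) 2 (stdGaussian E) :=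
    memLp_finsetSum _ h2
  have h1 : MemLp (fun z : E => |F 0| + ∑ i, |(inner ℝ (x i) z : ℝ)|) 2 (stdGaussian E) :=
    h0.add h3
  refine h1.mono (Continuous.aestronglyMeasurable (by fun_prop)) ?_
  filter_upwards with z
  rw [Real.norm_eq_abs, Real.norm_eq_abs]
  exact (growth F hFm hFt _).trans (le_abs_self _)

end

end REFLaux

open REFLaux in
theorem REFL : St_REFL := by
  intro N E _ _ _ _ _ x F hN hFc hFm hFt
  obtain ⟨q, hq0, hq1, hq⟩ := min_norm x hN
  refine ⟨q, hq0, hq1, ?_⟩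
  set v := ∑ j, q j • x j with hv
  have hvz : ∀ z, ∑ i, q i * (inner ℝ (x i) z : ℝ) = inner ℝ v z := by
    intro z
    rw [hv, sum_inner]
    refine Finset.sum_congr rfl fun i _ => ?_
    rw [real_inner_smul_left]
  simp_rw [hvz]
  by_cases hv0 : v = 0
  · simp [hv0]
  have hvn : 0 < ‖v‖ ^ 2 := by
    have := norm_pos_iff.2 hv0
    positivity
  let S : E ≃ₗᵢ[ℝ] E := (ℝ ∙ v)ᗮ.reflection
  have hS : ∀ z, S z = z - (2 * ((inner ℝ v z : ℝ) / ‖v‖ ^ 2)) • v := by
    intro z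
    show (ℝ ∙ v)ᗮ.reflection z = _
    rw [Submodule.reflection_orthogonal_apply, Submodule.reflection_singleton_apply]
    simp only [RCLike.ofReal_real_eq_id, id_eq]
    module
  have hvS : ∀ z, (inner ℝ v (S z) : ℝ) = -(inner ℝ v z : ℝ) := by
    intro z
    rw [hS, inner_sub_right, real_inner_smul_right, real_inner_self_eq_norm_sq]
    field_simp
    ring
  have hxS : ∀ i z, (inner ℝ (x i) (S z) : ℝ) = (inner ℝ (x i) z : ℝ) -
      2 * (inner ℝ v z : ℝ) * ((inner ℝ (x i) v : ℝ) / ‖v‖ ^ 2) := by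
    intro i z
    rw [hS, inner_sub_right, real_inner_smul_right]
    ring
  have hc : ∀ i, 1 ≤ (inner ℝ (x i) v : ℝ) / ‖v‖ ^ 2 := by
    intro i
    rw [le_div_iff₀ hvn, one_mul]
    exact hq i
  have hmp : MeasurePreserving S (stdGaussian E) (stdGaussian E) :=
    ⟨S.continuous.measurable, stdGaussian_map S⟩
  have hme : MeasurableEmbedding S := S.toHomeomorph.measurableEmbedding
  have i1 : Integrable (fun z => F (fun i => (inner ℝ (x i) z : ℝ)) * (inner ℝ v z : ℝ))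
      (stdGaussian E) := (memLp_F x F hFc hFm hFt).integrable_mul (memLp_inner v)
  have i2 : Integrable (fun z => F (fun i => (inner ℝ (x i) (S z) : ℝ)) * (inner ℝ v (S z) : ℝ))
      (stdGaussian E) := (hmp.integrable_comp_emb hme).2 i1
  have e1 : ∫ z, F (fun i => (inner ℝ (x i) (S z) : ℝ)) * (inner ℝ v (S z) : ℝ) ∂(stdGaussian E) =
      ∫ z, F (fun i => (inner ℝ (x i) z : ℝ)) * (inner ℝ v z : ℝ) ∂(stdGaussian E) :=
    hmp.integral_comp hme (fun z => F (fun i => (inner ℝ (x i) z : ℝ)) * (inner ℝ v z : ℝ))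
  have i3 : Integrable (fun z => (inner ℝ v z : ℝ) ^ 2) (stdGaussian E) :=
    (memLp_inner v).integrable_sq
  have key : ∀ z, 2 * (inner ℝ v z : ℝ) ^ 2 ≤
      F (fun i => (inner ℝ (x i) z : ℝ)) * (inner ℝ v z : ℝ) +
        F (fun i => (inner ℝ (x i) (S z) : ℝ)) * (inner ℝ v (S z) : ℝ) := by
    intro z
    rw [hvS]
    set w : ℝ := inner ℝ v z with hw
    rcases le_total 0 w with h | h
    · have h1 : F (fun i => (inner ℝ (x i) (S z) : ℝ)) + 2 * w ≤
          F (fun i => (inner ℝ (x i) z : ℝ)) := by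
        rw [← hFt]
        refine hFm _ _ fun i => ?_
        rw [hxS]
        nlinarith [hc i]
      nlinarith
    · have h1 : F (fun i => (inner ℝ (x i) z : ℝ)) ≤
          F (fun i => (inner ℝ (x i) (S z) : ℝ)) + 2 * w := by
        rw [← hFt]
        refine hFm _ _ fun i => ?_
        rw [hxS]
        nlinarith [hc i]
      nlinarith
  have h2 := integral_mono (i3.const_mul 2) (i1.add i2) key
  rw [integral_const_mul] at h2
  have h3 : ∫ z, ((fun z => F (fun i => (inner ℝ (x i) z : ℝ)) * (inner ℝ v z : ℝ)) +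
      fun z => F (fun i => (inner ℝ (x i) (S z) : ℝ)) * (inner ℝ v (S z) : ℝ)) z ∂(stdGaussian E) =
      ∫ z, F (fun i => (inner ℝ (x i) z : ℝ)) * (inner ℝ v z : ℝ) ∂(stdGaussian E) +
      ∫ z, F (fun i => (inner ℝ (x i) (S z) : ℝ)) * (inner ℝ v (S z) : ℝ) ∂(stdGaussian E) :=
    integral_add i1 i2
  rw [h3, e1] at h2
  linarith

end Pool.Agent.H92.SM
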