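import Pool.Agent.H92.SM.Props2

set_option autoImplicit false

namespace Pool.Agent.H92.SM

open MeasureTheory Matrix Finset Filter Topology Set ProbabilityTheory
open scoped BigOperators ENNReal MatrixOrder RealInnerProductSpace

theorem REP_sq {N : ℕ} {Ω : Type*} [MeasurableSpace Ω] {P : Measure Ω} {X : Fin N → Ω → ℝ}
    (h : ∀ i, MemLp (X i) 2 P) (t : Fin N → ℝ) :
    ∫ ω, (∑ i, t i * X i ω) ^ 2 ∂P = ∑ i, ∑ j, t i * t j * ∫ ω, X i ω * X j ω ∂P := by
  have hint : ∀ i j, Integrable (fun ω => X i ω * X j ω) P := fun i j =>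
    (h i).integrable_mul (h j)
  have e : ∀ ω, (∑ i, t i * X i ω) ^ 2 = ∑ i, ∑ j, t i * t j * (X i ω * X j ω) := by
    intro ω
    rw [sq, Finset.sum_mul_sum]
    exact Finset.sum_congr rfl fun i _ => Finset.sum_congr rfl fun j _ => by ring
  simp_rw [e]
  rw [integral_finsetSum _ fun i _ => integrable_finsetSum _ fun j _ => (hint i j).const_mul _]
  refine Finset.sum_congr rfl fun i _ => ?_
  rw [integral_finsetSum _ fun j _ => (hint i j).const_mul _]
  exact Finset.sum_congr rfl fun j _ => integral_const_mul _ _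

theorem REP.{u} : St_REP.{u} := by
  intro N Ω _ P X hX hmean
  have : IsProbabilityMeasure P := hX.isProbabilityMeasure
  have hmem : ∀ i, MemLp (X i) 2 P := fun i => (hX.eval i).memLp_two
  set R : Matrix (Fin N) (Fin N) ℝ := Matrix.of fun i j => ∫ ω, X i ω * X j ω ∂P with hR
  have hRs : ∀ i j, R i j = R j i := by
    intro i j
    rw [hR]
    simp only [Matrix.of_apply]
    congr 1
    funext ω
    ring
  have hq : ∀ t : Fin N → ℝ, ∑ i, ∑ j, t i * t j * R i j = ∫ ω, (∑ i, t i * X i ω) ^ 2 ∂P :=
    fun t => (REP_sq hmem t).symm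
  have hpsd : R.PosSemidef := by
    refine Matrix.PosSemidef.of_dotProduct_mulVec_nonneg ?_ fun t => ?_
    · ext i j
      simp only [conjTranspose_apply, star_trivial]
      exact hRs j i
    · have e : star t ⬝ᵥ (R *ᵥ t) = ∑ i, ∑ j, t i * t j * R i j := by
        simp only [dotProduct, mulVec, Pi.star_apply, star_trivial, Finset.mul_sum]
        exact Finset.sum_congr rfl fun i _ => Finset.sum_congr rfl fun j _ => by ring
      rw [e, hq]
      exact integral_nonneg fun _ => sq_nonneg _
  set B := CFC.sqrt R with hB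
  have hBh : B.IsHermitian := (CFC.sqrt_nonneg R).isSelfAdjoint
  have hBB : B * B = R := CFC.sqrt_mul_sqrt_self _ hpsd.nonneg
  have hBT : ∀ i j, B i j = B j i := by
    intro i j
    have := hBh.apply j i
    simpa using this
  set x : Fin N → EuclideanSpace ℝ (Fin N) := fun i => WithLp.toLp 2 (fun k => B k i) with hx
  have hinner : ∀ i j, (inner ℝ (x i) (x j) : ℝ) = R i j := by
    intro i j
    rw [hx, ← hBB, Matrix.mul_apply]
    simp only [PiLp.inner_apply]
    refine Finset.sum_congr rfl fun k _ => ?_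
    rw [hBT i k]
    simp [mul_comm]
  refine ⟨x, hinner, ?_⟩
  have hgm : Measurable fun z : EuclideanSpace ℝ (Fin N) => (fun i => (inner ℝ (x i) z : ℝ)) := by
    fun_prop
  have : IsProbabilityMeasure (P.map (fun ω i => X i ω)) :=
    Measure.isProbabilityMeasure_map hX.aemeasurable
  have : IsProbabilityMeasure ((stdGaussian (EuclideanSpace ℝ (Fin N))).map
      (fun z i => (inner ℝ (x i) z : ℝ))) := Measure.isProbabilityMeasure_map hgm.aemeasurable
  apply Measure.ext_of_charFunDual
  ext L
  set t : Fin N → ℝ := fun i => L (Pi.single i 1) with ht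
  have hL : ∀ y : Fin N → ℝ, L y = ∑ i, t i * y i := by
    intro y
    have := LinearMap.pi_apply_eq_sum_univ (L : (Fin N → ℝ) →ₗ[ℝ] ℝ) y
    simp only [ContinuousLinearMap.coe_coe, smul_eq_mul] at this
    rw [this]
    refine Finset.sum_congr rfl fun i _ => ?_
    rw [ht, mul_comm]
    congr 2
    funext j
    by_cases h : i = j
    · subst h; simp
    · rw [if_neg h, Pi.single_eq_of_ne (Ne.symm h)]
  have hnorm : ‖∑ i, t i • x i‖ ^ 2 = ∑ i, ∑ j, t i * t j * R i j := by
    rw [← real_inner_self_eq_norm_sq, sum_inner]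
    refine Finset.sum_congr rfl fun i _ => ?_
    rw [inner_sum]
    refine Finset.sum_congr rfl fun j _ => ?_
    rw [real_inner_smul_left, real_inner_smul_right, hinner]
    ring
  -- left side
  rw [hX.charFunDual_map_eq_fun]
  have hm0 : ∫ ω, L (fun i => X i ω) ∂P = 0 := by
    simp_rw [hL]
    rw [integral_finsetSum _ fun i _ => ((hmem i).integrable (by norm_num)).const_mul _]
    refine Finset.sum_eq_zero fun i _ => ?_
    rw [integral_const_mul, hmean, mul_zero]
  have hv : Var[fun ω => L (fun i => X i ω); P] = ‖∑ i, t i • x i‖ ^ 2 := by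
    rw [variance_of_integral_eq_zero ?_ hm0]
    · rw [hnorm, hq]
      simp_rw [hL]
    · exact (hX.map_fun L).aemeasurable
  rw [hm0, hv]
  -- right side
  rw [charFunDual_apply, integral_map hgm.aemeasurable (by fun_prop)]
  have h1 : ∀ z : EuclideanSpace ℝ (Fin N), L (fun i => (inner ℝ (x i) z : ℝ)) =
      inner ℝ z (∑ i, t i • x i) := by
    intro z
    rw [hL, inner_sum]
    refine Finset.sum_congr rfl fun i _ => ?_
    rw [real_inner_smul_right, real_inner_comm]
  simp_rw [h1]
  rw [← charFun_apply, charFun_stdGaussian]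
  congr 1
  push_cast
  ring

end Pool.Agent.H92.SM
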