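import Pool.Agent.H92.SM.Props2

set_option autoImplicit false

namespace Pool.Agent.H92.SM

open MeasureTheory Matrix Finset Filter Topology Set ProbabilityTheory
open scoped BigOperators
open Pool.Agent.H604R2.SW

theorem SE_le {ι : Type} [Fintype ι] (x : ι → ℝ) (k : ι) : Real.exp (x k) ≤ sE x := by
  unfold sE
  exact Finset.single_le_sum (f := fun i => Real.exp (x i)) (fun i _ => (Real.exp_pos _).le)
    (Finset.mem_univ k)

theorem SE_pos {ι : Type} [Fintype ι] [Nonempty ι] (x : ι → ℝ) : 0 < sE x := by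
  obtain ⟨k⟩ := ‹Nonempty ι›
  exact (Real.exp_pos _).trans_le (SE_le x k)

/-- `|log (sE x)| ≤ log (card ι) + ∑ |x i|`. -/
theorem SE_log {ι : Type} [Fintype ι] [Nonempty ι] (x : ι → ℝ) :
    |Real.log (sE x)| ≤ Real.log (Fintype.card ι) + ∑ i, |x i| := by
  have hp := SE_pos x
  have hc : (1 : ℝ) ≤ Fintype.card ι := by exact_mod_cast Fintype.card_pos
  have hlc : 0 ≤ Real.log (Fintype.card ι) := Real.log_nonneg hc
  have hs : ∀ k, |x k| ≤ ∑ i, |x i| := fun k =>
    Finset.single_le_sum (f := fun i => |x i|) (fun i _ => abs_nonneg _) (Finset.mem_univ k)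
  rw [abs_le]
  constructor
  · obtain ⟨k⟩ := ‹Nonempty ι›
    have h1 : x k ≤ Real.log (sE x) := by
      rw [Real.le_log_iff_exp_le hp]; exact SE_le x k
    have h2 := hs k
    have h3 := neg_abs_le (x k)
    linarith
  · have h1 : sE x ≤ Fintype.card ι * Real.exp (∑ i, |x i|) := by
      unfold sE
      calc ∑ i, Real.exp (x i) ≤ ∑ _i : ι, Real.exp (∑ i, |x i|) :=
            Finset.sum_le_sum fun i _ => Real.exp_le_exp.2 ((le_abs_self _).trans (hs i))
        _ = Fintype.card ι * Real.exp (∑ i, |x i|) := by simp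
    have h2 := Real.log_le_log hp h1
    rw [Real.log_mul (by positivity) (Real.exp_ne_zero _), Real.log_exp] at h2
    exact h2

theorem SE : St_sE := by
  intro ι _ _ x
  refine ⟨SE_pos x, SE_le x, (SE_log x).trans ?_⟩
  have hc : (0 : ℝ) < Fintype.card ι := by exact_mod_cast Fintype.card_pos
  have := Real.log_le_sub_one_of_pos hc
  linarith

theorem SMX_jensen {n : ℕ} (y q : Fin n → ℝ) (hq : ∀ i, 0 ≤ q i) (h1 : ∑ i, q i = 1) (β : ℝ) :
    Real.exp (β * ∑ i, q i * y i) ≤ ∑ i, q i * Real.exp (β * y i) := by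
  have := convexOn_exp.map_sum_le (t := Finset.univ) (w := q) (p := fun i => β * y i)
    (fun i _ => hq i) h1 (fun i _ => Set.mem_univ _)
  simp only [smul_eq_mul] at this
  have e : β * ∑ i, q i * y i = ∑ i, q i * (β * y i) := by
    rw [Finset.mul_sum]; exact Finset.sum_congr rfl fun i _ => by ring
  rw [e]; exact this

theorem SMX : St_SM := by
  intro n hn β hβ
  haveI : Nonempty (Fin n) := ⟨⟨0, hn⟩⟩
  have hpos : ∀ y : Fin n → ℝ, 0 < ∑ k, Real.exp (β * y k) := fun y =>
    Finset.sum_pos (fun i _ => Real.exp_pos _) Finset.univ_nonempty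
  have hsE : ∀ y : Fin n → ℝ, softmax β y = 1 / β * Real.log (sE fun k => β * y k) := fun y => rfl
  have hle : ∀ (y : Fin n → ℝ) (t : ℝ), Real.exp (β * t) ≤ ∑ k, Real.exp (β * y k) →
      t ≤ softmax β y := by
    intro y t h
    have h2 : β * t ≤ Real.log (∑ k, Real.exp (β * y k)) :=
      (Real.le_log_iff_exp_le (hpos y)).2 h
    rw [softmax, one_div, inv_mul_eq_div, le_div_iff₀ hβ]
    linarith
  have hge : ∀ (y : Fin n → ℝ) (i : Fin n), y i ≤ softmax β y := fun y i =>
    hle y (y i) (Finset.single_le_sum (f := fun k => Real.exp (β * y k))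
      (fun i _ => (Real.exp_pos _).le) (Finset.mem_univ i))
  refine ⟨?_, ?_, ?_, ?_, ?_, ?_, ?_, ?_⟩
  · unfold softmax
    refine continuous_const.mul (Continuous.log ?_ fun y => (hpos y).ne')
    fun_prop
  · intro y y' h
    unfold softmax
    refine mul_le_mul_of_nonneg_left (Real.log_le_log (hpos y) ?_) (by positivity)
    exact Finset.sum_le_sum fun i _ => Real.exp_le_exp.2 (mul_le_mul_of_nonneg_left (h i) hβ.le)
  · intro y a
    unfold softmax
    have e : ∑ k, Real.exp (β * (y k + a)) = Real.exp (β * a) * ∑ k, Real.exp (β * y k) := by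
      rw [Finset.mul_sum]
      refine Finset.sum_congr rfl fun i _ => ?_
      rw [← Real.exp_add]; congr 1; ring
    rw [e, Real.log_mul (Real.exp_ne_zero _) (hpos y).ne', Real.log_exp]
    field_simp
    ring
  · intro σ y
    unfold softmax
    rw [Equiv.sum_comp σ fun k => Real.exp (β * y k)]
  · intro y q hq h1
    refine hle y _ ((SMX_jensen y q hq h1 β).trans ?_)
    refine Finset.sum_le_sum fun i _ => ?_
    have : q i ≤ 1 := h1 ▸ Finset.single_le_sum (f := q) (fun i _ => hq i) (Finset.mem_univ i)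
    exact mul_le_of_le_one_left (Real.exp_pos _).le this
  · intro y
    refine ⟨ciSup_le (hge y), ?_⟩
    have hb : BddAbove (Set.range y) := Set.finite_range y |>.bddAbove
    have h1 : ∑ k, Real.exp (β * y k) ≤ n * Real.exp (β * ⨆ i, y i) := by
      calc ∑ k, Real.exp (β * y k) ≤ ∑ _k : Fin n, Real.exp (β * ⨆ i, y i) :=
            Finset.sum_le_sum fun i _ =>
              Real.exp_le_exp.2 (mul_le_mul_of_nonneg_left (le_ciSup hb i) hβ.le)
        _ = n * Real.exp (β * ⨆ i, y i) := by simp
    have h2 := Real.log_le_log (hpos y) h1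
    have hn' : (n : ℝ) ≠ 0 := by positivity
    rw [Real.log_mul hn' (Real.exp_ne_zero _), Real.log_exp] at h2
    unfold softmax
    rw [one_div, inv_mul_eq_div, div_le_iff₀ hβ, add_mul, div_mul_cancel₀ _ hβ.ne']
    linarith
  · intro y
    have h := SE_log (fun k => β * y k)
    rw [hsE, abs_mul, abs_of_pos (by positivity : (0:ℝ) < 1 / β)]
    have e : ∑ i, |β * y i| = β * ∑ i, |y i| := by
      rw [Finset.mul_sum]
      exact Finset.sum_congr rfl fun i _ => by rw [abs_mul, abs_of_pos hβ]
    rw [e, Fintype.card_fin] at h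
    calc 1 / β * |Real.log (sE fun k => β * y k)| ≤ 1 / β * (Real.log n + β * ∑ i, |y i|) :=
          mul_le_mul_of_nonneg_left h (by positivity)
      _ = Real.log n / β + ∑ i, |y i| := by field_simp
  · intro y h0
    have hn0 : (0 : ℝ) < n := by exact_mod_cast hn
    have h1 := SMX_jensen y (fun _ => 1 / (n : ℝ)) (fun _ => by positivity)
      (by simp [hn0.ne']) β
    rw [← Finset.mul_sum, h0, ← Finset.mul_sum, mul_zero, mul_zero, Real.exp_zero] at h1
    have h2 : (n : ℝ) ≤ ∑ k, Real.exp (β * y k) := by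
      rw [one_div, inv_mul_eq_div, le_div_iff₀ hn0] at h1
      linarith
    have h3 := Real.log_le_log hn0 h2
    unfold softmax
    rw [one_div, inv_mul_eq_div]
    exact div_le_div_of_nonneg_right h3 hβ.le

end Pool.Agent.H92.SM
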