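import Pool.Agent.H92.SM.Props2

/-!
Task SYM of project SM (helper92), by helper551.
-/

set_option autoImplicit false

namespace Pool.Agent.H92.SM

open MeasureTheory Matrix Finset Filter Topology Set ProbabilityTheory
open scoped BigOperators ENNReal

section
variable {N : ℕ} {E : Type} [NormedAddCommGroup E]
  [InnerProductSpace ℝ E] [FiniteDimensional ℝ E] [MeasurableSpace E] [BorelSpace E]

omit [FiniteDimensional ℝ E] [MeasurableSpace E] [BorelSpace E] in
theorem SYM_sum (y : Fin N → E) (hN : 2 ≤ N) (h1 : ∀ i, ‖y i‖ = 1)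
    (h2 : ∀ i j, i ≠ j → (inner ℝ (y i) (y j) : ℝ) = -1 / ((N : ℝ) - 1)) : ∑ i, y i = 0 := by
  have hN' : (2 : ℝ) ≤ N := by exact_mod_cast hN
  have key : ‖∑ i, y i‖ ^ 2 = 0 := by
    rw [← real_inner_self_eq_norm_sq, sum_inner]
    refine Finset.sum_eq_zero fun i _ => ?_
    rw [inner_sum, ← Finset.add_sum_erase _ _ (Finset.mem_univ i),
      Finset.sum_congr rfl (fun j hj => h2 i j (Finset.ne_of_mem_erase hj).symm), Finset.sum_const,
      Finset.card_erase_of_mem (Finset.mem_univ i), Finset.card_univ, Fintype.card_fin,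
      real_inner_self_eq_norm_sq, h1 i, nsmul_eq_mul, Nat.cast_sub (by omega)]
    have : (N : ℝ) - 1 ≠ 0 := by linarith
    push_cast
    field_simp
    ring
  exact norm_eq_zero.1 (pow_eq_zero_iff (two_ne_zero)|>.1 key)

theorem SYM_hL (y : E) : MemLp (fun z : E => (inner ℝ y z : ℝ)) 2 (stdGaussian E) := by
  have h1 := (IsGaussian.memLp_id (stdGaussian E) 2 (by simp))
  have h2 := (innerSL ℝ y).comp_memLp' h1
  exact h2

theorem SYM_hA (y : Fin N → E) (M : ℝ) :
    MemLp (fun z : E => M * (1 + ∑ k, |(inner ℝ (y k) z : ℝ)|)) 2 (stdGaussian E) := by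
  have h1 : MemLp (fun z : E => ∑ k, |(inner ℝ (y k) z : ℝ)|) 2 (stdGaussian E) :=
    memLp_finsetSum _ fun k _ => (SYM_hL (y k)).abs
  exact ((memLp_const (1 : ℝ)).add h1).const_mul M

omit [FiniteDimensional ℝ E] [MeasurableSpace E] [BorelSpace E] in
theorem SYM_hc (y : Fin N → E) : Continuous fun z : E => fun k => (inner ℝ (y k) z : ℝ) :=
  continuous_pi fun _ => Continuous.inner continuous_const continuous_id

theorem SYM_int (y : Fin N → E) (F : (Fin N → ℝ) → ℝ) (hF : Continuous F)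
    (hb : ∃ M, ∀ x, |F x| ≤ M * (1 + ∑ i, |x i|)) (i : Fin N) :
    Integrable (fun z => F (fun k => (inner ℝ (y k) z : ℝ)) * (inner ℝ (y i) z : ℝ))
      (stdGaussian E) := by
  obtain ⟨M, hM⟩ := hb
  have hB : MemLp (fun z : E => F (fun k => (inner ℝ (y k) z : ℝ))) 2 (stdGaussian E) := by
    refine (SYM_hA y M).mono (hF.comp (SYM_hc y)).aestronglyMeasurable ?_
    refine Eventually.of_forall fun z => ?_
    rw [Real.norm_eq_abs, Real.norm_eq_abs]
    exact (hM _).trans (le_abs_self _)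
  exact MemLp.integrable_mul hB (SYM_hL (y i))

theorem SYM_swap (h : St_UNIQ) (y : Fin N → E) (F : (Fin N → ℝ) → ℝ) (h1 : ∀ i, ‖y i‖ = 1)
    (h2 : ∀ i j, i ≠ j → (inner ℝ (y i) (y j) : ℝ) = -1 / ((N : ℝ) - 1)) (hF : Continuous F)
    (hs : ∀ (σ : Equiv.Perm (Fin N)) (x : Fin N → ℝ), F (fun i => x (σ i)) = F x)
    (i j : Fin N) :
    ∫ z, F (fun k => (inner ℝ (y k) z : ℝ)) * (inner ℝ (y i) z : ℝ) ∂(stdGaussian E) =
    ∫ z, F (fun k => (inner ℝ (y k) z : ℝ)) * (inner ℝ (y j) z : ℝ) ∂(stdGaussian E) := by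
  have hg : ∀ a b, (inner ℝ (y a) (y b) : ℝ) =
      inner ℝ (y (Equiv.swap i j a)) (y (Equiv.swap i j b)) := by
    intro a b
    by_cases hab : a = b
    · subst hab
      rw [real_inner_self_eq_norm_sq, real_inner_self_eq_norm_sq, h1, h1]
    · rw [h2 a b hab, h2 _ _ (fun hc => hab ((Equiv.swap i j).injective hc))]
  have hm := h y (fun k => y (Equiv.swap i j k)) hg
  have hc : Continuous fun w : Fin N → ℝ => F w * w i := hF.mul (continuous_apply i)
  have hm1 : AEMeasurable (fun z : E => fun k => (inner ℝ (y k) z : ℝ)) (stdGaussian E) :=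
    (SYM_hc y).measurable.aemeasurable
  have hm2 : AEMeasurable (fun z : E => fun k => (inner ℝ (y (Equiv.swap i j k)) z : ℝ))
      (stdGaussian E) :=
    (SYM_hc (fun k => y (Equiv.swap i j k))).measurable.aemeasurable
  have e1 := integral_map hm1 (f := fun w : Fin N → ℝ => F w * w i)
    hc.aestronglyMeasurable
  have e2 := integral_map hm2 (f := fun w : Fin N → ℝ => F w * w i)
    hc.aestronglyMeasurable
  simp only at e1 e2
  rw [← e1, hm, e2]
  refine integral_congr_ae (Eventually.of_forall fun z => ?_)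
  simp only
  rw [hs (Equiv.swap i j) (fun k => (inner ℝ (y k) z : ℝ)), Equiv.swap_apply_left]

end

theorem SYM (h : St_UNIQ) : St_SYM := by
  intro N E _ _ _ _ _ y F hN h1 h2 hF hb hs
  have h0 := SYM_sum y hN h1 h2
  have hz : ∀ z, ∑ i, (inner ℝ (y i) z : ℝ) = 0 := by
    intro z
    rw [← sum_inner, h0, inner_zero_left]
  refine ⟨hz, fun i => ?_⟩
  have e : ∑ j, ∫ z, F (fun k => (inner ℝ (y k) z : ℝ)) * (inner ℝ (y j) z : ℝ)
      ∂(stdGaussian E) = 0 := by
    rw [← integral_finsetSum _ fun j _ => SYM_int y F hF hb j]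
    have : ∀ z : E, ∑ j, F (fun k => (inner ℝ (y k) z : ℝ)) * (inner ℝ (y j) z : ℝ) = 0 := by
      intro z
      rw [← Finset.mul_sum, hz z, mul_zero]
    simp only [this, integral_zero]
  rw [Finset.sum_congr rfl (fun j _ => SYM_swap h y F h1 h2 hF hs j i), Finset.sum_const,
    Finset.card_univ, Fintype.card_fin, nsmul_eq_mul] at e
  rcases mul_eq_zero.1 e with h3 | h3
  · have : N = 0 := by exact_mod_cast h3
    omega
  · exact h3

end Pool.Agent.H92.SM
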