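import Pool.Agent.H92.SM.Props
import Pool.Graph.R_pool_sql_team_seeded_f0cf7b00.H604R2.SW.T_relabel
import Pool.Graph.R_pool_sql_team_seeded_f0cf7b00.H604R2.SW.T_int

/-!
# MP_72ffec_pr, step [TP]: positivity, symmetry, relabelling of `Tf`
-/

set_option autoImplicit false

namespace Pool.Agent.H92.SM

open MeasureTheory Matrix Finset Filter Topology Set ProbabilityTheory
open scoped BigOperators
open Pool.Agent.H604R2.SW

namespace TPaux

theorem sE_cont {ι : Type} [Fintype ι] : Continuous (sE : (ι → ℝ) → ℝ) := by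
  unfold sE
  fun_prop

theorem dens_pos {ι : Type} [Fintype ι] [DecidableEq ι] {C : Matrix ι ι ℝ} (hC : C.PosDef)
    (x : ι → ℝ) : 0 < dens C x := by
  have h : 0 < (2 * Real.pi) ^ (Fintype.card ι) * C.det := mul_pos (by positivity) hC.det_pos
  have h2 := Real.sqrt_pos.2 h
  unfold Pool.Agent.H604R2.SW.dens
  positivity

theorem integrand_cont (hf : St_fun) (hs : St_sE) {ι : Type} [Fintype ι] [DecidableEq ι]
    [Nonempty ι] (C : Matrix ι ι ℝ) (k l : ι) :
    Continuous (fun x : ι → ℝ => kr (sE x) * Real.exp (x k + x l) * dens C x) := by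
  obtain ⟨-, -, -, -, -, -, -, hk, -⟩ := hf
  have h1 : Continuous (fun x : ι → ℝ => kr (sE x)) :=
    hk.comp_continuous sE_cont fun x => (hs x).1
  have h2 := (int_cont C).1
  exact (h1.mul (by fun_prop)).mul h2

theorem integrand_nonneg (hf : St_fun) (hs : St_sE) {ι : Type} [Fintype ι] [DecidableEq ι]
    [Nonempty ι] (C : Matrix ι ι ℝ) (k l : ι) (x : ι → ℝ) :
    0 ≤ kr (sE x) * Real.exp (x k + x l) * dens C x := by
  obtain ⟨-, -, -, h4, -⟩ := hf
  have h1 := (h4 (sE x) (hs x).1).1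
  have h2 := int_dens_nonneg C x
  positivity

theorem integrand_int (hf : St_fun) (hs : St_sE) (hd : St_dom) {ι : Type} [Fintype ι]
    [DecidableEq ι] [Nonempty ι] (C : Matrix ι ι ℝ) (hC : C.PosDef) (k l : ι) :
    Integrable (fun x : ι → ℝ => kr (sE x) * Real.exp (x k + x l) * dens C x) := by
  obtain ⟨ε, hε, c, hc, M, hM, hD⟩ := hd C hC
  obtain ⟨-, h1, -, -⟩ := hD C hC.1 (fun i j => by rw [sub_self, abs_zero]; exact hε)
  have hg := int_gauss (ι := ι) c hc
  refine (hg.const_mul (2 * ((Fintype.card ι : ℝ) + 1) * M)).mono'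
    (integrand_cont hf hs C k l).aestronglyMeasurable (Eventually.of_forall fun x => ?_)
  rw [Real.norm_eq_abs, abs_of_nonneg (integrand_nonneg hf hs C k l x)]
  obtain ⟨-, -, -, h4, -⟩ := hf
  obtain ⟨p1, p2, p3⟩ := hs x
  obtain ⟨q1, -, q3⟩ := h4 (sE x) p1
  have hA : 0 ≤ ∑ i, |x i| := Finset.sum_nonneg fun i _ => abs_nonneg _
  have hN : (0 : ℝ) ≤ Fintype.card ι := Nat.cast_nonneg _
  have e1 : Real.exp (x k + x l) ≤ sE x ^ 2 := by
    rw [Real.exp_add, sq]
    exact mul_le_mul (p2 k) (p2 l) (Real.exp_pos _).le p1.le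
  have e2 : kr (sE x) * Real.exp (x k + x l) ≤ 2 * ((Fintype.card ι : ℝ) + ∑ i, |x i|) := by
    calc kr (sE x) * Real.exp (x k + x l) ≤ kr (sE x) * sE x ^ 2 :=
          mul_le_mul_of_nonneg_left e1 q1
      _ = sE x ^ 2 * kr (sE x) := mul_comm _ _
      _ ≤ 2 * |Real.log (sE x)| := q3
      _ ≤ _ := by linarith
  have e3 : 2 * ((Fintype.card ι : ℝ) + ∑ i, |x i|) ≤
      2 * ((Fintype.card ι : ℝ) + 1) * (1 + ∑ i, |x i|) ^ 2 := by
    nlinarith [mul_nonneg hN hA, mul_nonneg hN (mul_nonneg hA hA), mul_nonneg hA hA]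
  calc kr (sE x) * Real.exp (x k + x l) * dens C x
      ≤ (2 * ((Fintype.card ι : ℝ) + 1) * (1 + ∑ i, |x i|) ^ 2) *
          (M * Real.exp (-c * ∑ i, x i ^ 2)) :=
        mul_le_mul (e2.trans e3) (h1 x) (int_dens_nonneg C x) (by positivity)
    _ = 2 * ((Fintype.card ι : ℝ) + 1) * M *
          ((1 + ∑ i, |x i|) ^ 2 * Real.exp (-c * ∑ i, x i ^ 2)) := by ring

theorem relabel_int' {ι : Type} [Fintype ι] (σ : Equiv.Perm ι) (f : (ι → ℝ) → ℝ) :
    ∫ x, f x = ∫ x : ι → ℝ, f (fun i => x (σ i)) := by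
  have hmp := MeasureTheory.volume_measurePreserving_piCongrLeft (fun _ : ι => ℝ) σ.symm
  have happ : ∀ x : ι → ℝ, (MeasurableEquiv.piCongrLeft (fun _ : ι => ℝ) σ.symm) x =
      fun i => x (σ i) := by
    intro x
    funext i
    have := Equiv.piCongrLeft_apply_apply (fun _ : ι => ℝ) σ.symm x (σ i)
    rw [Equiv.symm_apply_apply] at this
    exact this
  have h := hmp.integral_comp (MeasurableEquiv.measurableEmbedding _) f
  rw [← h]
  simp only [happ]

end TPaux

open TPaux

theorem TP (hf : St_fun) (hs : St_sE) (hd : St_dom) : St_TP := by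
  intro ι _ _ _ C hC
  refine ⟨fun k l => ?_, fun k l => ?_, fun σ k l => ?_⟩
  · unfold Tf
    have hx : kr (sE (fun _ : ι => (1 : ℝ))) * Real.exp (1 + 1) * dens C (fun _ => 1) ≠ 0 := by
      have h1 : 1 < sE (fun _ : ι => (1 : ℝ)) := by
        refine lt_of_lt_of_le ?_ ((hs (fun _ : ι => (1 : ℝ))).2.1 k)
        exact Real.one_lt_exp_iff.2 one_pos
      have h2 := hf.2.2.2.2.1 _ h1
      have h3 := dens_pos hC (fun _ => 1)
      positivity
    exact integral_pos_of_integrable_nonneg_nonzero (x := fun _ : ι => (1 : ℝ))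
      (integrand_cont hf hs C k l) (integrand_int hf hs hd C hC k l)
      (fun x => integrand_nonneg hf hs C k l x) hx
  · unfold Tf
    simp only [add_comm]
  · unfold Tf
    rw [relabel_int' σ]
    refine integral_congr_ae (Eventually.of_forall fun x => ?_)
    have h1 : sE (fun i => x (σ i)) = sE x := by
      unfold sE
      exact Equiv.sum_comp σ (fun i => Real.exp (x i))
    simp only [h1, relabel_dens]

end Pool.Agent.H92.SM
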