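import Pool.Agent.H92.SM.Props2

set_option autoImplicit false

namespace Pool.Agent.H92.SM

open MeasureTheory Matrix Finset Filter Topology Set ProbabilityTheory
open scoped BigOperators ENNReal

namespace UNIQaux

lemma meas {N : ℕ} {E : Type} [NormedAddCommGroup E]
    [InnerProductSpace ℝ E] [FiniteDimensional ℝ E] [MeasurableSpace E] [BorelSpace E]
    (x : Fin N → E) :
    Measurable (fun z : E => (WithLp.toLp 2 (fun i => (inner ℝ (x i) z : ℝ)) :
      EuclideanSpace ℝ (Fin N))) := by
  have : Continuous fun z : E => (fun i => inner ℝ (x i) z : Fin N → ℝ) := by fun_prop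
  exact ((PiLp.continuous_toLp 2 _).comp this).measurable

lemma cf {N : ℕ} {E : Type} [NormedAddCommGroup E]
    [InnerProductSpace ℝ E] [FiniteDimensional ℝ E] [MeasurableSpace E] [BorelSpace E]
    (x : Fin N → E) (t : EuclideanSpace ℝ (Fin N)) :
    charFun ((stdGaussian E).map (fun z : E => (WithLp.toLp 2 (fun i => (inner ℝ (x i) z : ℝ)) :
      EuclideanSpace ℝ (Fin N)))) t =
    Complex.exp (-((∑ i, ∑ j, t i * t j * inner ℝ (x i) (x j) : ℝ) : ℂ) / 2) := by
  rw [charFun_apply, integral_map (meas x).aemeasurable (by fun_prop)]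
  have h1 : ∀ z : E, inner ℝ (WithLp.toLp 2 (fun i => (inner ℝ (x i) z : ℝ)) :
      EuclideanSpace ℝ (Fin N)) t = inner ℝ z (∑ i, t i • x i) := by
    intro z
    rw [inner_sum, PiLp.inner_apply]
    refine Finset.sum_congr rfl fun i _ => ?_
    rw [real_inner_smul_right]
    simp [real_inner_comm]
  simp_rw [h1]
  rw [← charFun_apply, charFun_stdGaussian]
  have h2 : ‖∑ i, t i • x i‖ ^ 2 = ∑ i, ∑ j, t i * t j * inner ℝ (x i) (x j) := by
    rw [← real_inner_self_eq_norm_sq, sum_inner]
    refine Finset.sum_congr rfl fun i _ => ?_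
    rw [inner_sum]
    refine Finset.sum_congr rfl fun j _ => ?_
    rw [real_inner_smul_left, real_inner_smul_right]; ring
  rw [← h2]
  push_cast
  rfl

end UNIQaux

open UNIQaux in
theorem UNIQ : St_UNIQ := by
  intro N E E' _ _ _ _ _ _ _ _ _ _ x y h
  have key : (stdGaussian E).map (fun z : E => (WithLp.toLp 2 (fun i => (inner ℝ (x i) z : ℝ)) :
      EuclideanSpace ℝ (Fin N))) =
      (stdGaussian E').map (fun z : E' => (WithLp.toLp 2 (fun i => (inner ℝ (y i) z : ℝ)) :
      EuclideanSpace ℝ (Fin N))) := by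
    haveI : IsProbabilityMeasure ((stdGaussian E).map
      (fun z : E => (WithLp.toLp 2 (fun i => (inner ℝ (x i) z : ℝ)) :
      EuclideanSpace ℝ (Fin N)))) := Measure.isProbabilityMeasure_map (meas x).aemeasurable
    haveI : IsProbabilityMeasure ((stdGaussian E').map
      (fun z : E' => (WithLp.toLp 2 (fun i => (inner ℝ (y i) z : ℝ)) :
      EuclideanSpace ℝ (Fin N)))) := Measure.isProbabilityMeasure_map (meas y).aemeasurable
    apply Measure.ext_of_charFun
    ext t
    rw [cf, cf]
    simp_rw [h]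
  have k2 := congrArg (Measure.map (fun v : EuclideanSpace ℝ (Fin N) => v.ofLp)) key
  have hm : Measurable (fun v : EuclideanSpace ℝ (Fin N) => v.ofLp) :=
    (PiLp.continuous_ofLp 2 _).measurable
  rw [Measure.map_map hm (meas x), Measure.map_map hm (meas y)] at k2
  exact k2

end Pool.Agent.H92.SM
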