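import Pool.Graph.R_pool_sql_team_seeded_f0cf7b00.H604R2.SW.T_dom
import Pool.Graph.R_pool_sql_team_seeded_f0cf7b00.H604R2.SW.T_line
import Pool.Graph.R_pool_sql_team_seeded_f0cf7b00.H604R2.SW.T_plpt
import Pool.Agent.H92.SM.T_FUN
import Pool.Agent.H92.SM.T_SE
import Pool.Agent.H92.SM.T_JC
import Pool.Agent.H92.SM.T_JP1
import Pool.Agent.H92.SM.T_JP2
import Pool.Agent.H92.SM.T_JP
import Pool.Agent.H92.SM.T_TP
import Pool.Agent.H92.SM.T_D1
import Pool.Agent.H92.SM.T_D2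
import Pool.Agent.H92.SM.T_DIS
import Pool.Agent.H92.SM.T_GB
import Pool.Agent.H92.SM.T_GD
import Pool.Agent.H92.SM.T_GT
import Pool.Agent.H92.SM.T_KPA
import Pool.Agent.H92.SM.T_KPB
import Pool.Agent.H92.SM.T_EDER
import Pool.Agent.H92.SM.T_ALG
import Pool.Agent.H92.SM.T_MAP
import Pool.Agent.H92.SM.T_LIM
import Pool.Agent.H92.SM.T_ONE
import Pool.Agent.H92.SM.T_PI01
import Pool.Agent.H92.SM.T_OP
import Pool.Agent.H92.SM.T_MIX
import Pool.Agent.H92.SM.T_CMP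
import Pool.Agent.H92.SM.T_UNIQ
import Pool.Agent.H92.SM.T_REP
import Pool.Agent.H92.SM.T_REFL
import Pool.Agent.H92.SM.T_SYM
import Pool.Agent.H92.SM.T_PROJ
import Pool.Agent.H92.SM.T_MAIN

/-!
# MP_72ffec_pr: all steps put together
-/

set_option autoImplicit false

namespace Pool.Agent.H92.SM

open Pool.Agent.H604R2.SW

theorem one' : St_ONE := ONE MAP (EDER KPA) (ALG KPA) (LIM0 KPB) (LIMI KPB) KPA

theorem tp' : St_TP := TP FUN SE dom

theorem pi01' : St_PI01' :=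
  PI01 FUN SE tp' (DIS dom D1 D2) (HDp dom) (GB FUN) (GD FUN (GB FUN))
    (GT FUN (GB FUN) (GD FUN (GB FUN))) KPA one'

theorem op' : St_OP' :=
  OPt (JC FUN SE dom) (JP (JP1 FUN SE dom plpt) (JP2 FUN SE dom line)) tp' pi01'

/-- The comparison theorem `E B(sum exp (β X_i)) ≤ E B(sum exp (β S_i))`. -/
theorem cmp' : St_CMP := CMP op' MIX FUN SE

theorem full.{u, v} : St_MAIN.{u, v} :=
  MAIN cmp' REP REP REFL (SYM UNIQ) PROJ PROJ SMX FUN SE

end Pool.Agent.H92.SM
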